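import Pool.Agent.Helper45.CSM.Inv

/-!
# The operators `T_i` satisfy the Coxeter relations; families indexed by `W` (pieces EX1-EX3)
-/

namespace H45C

open MvPolynomial Equiv

variable {m : ℕ}

theorem TT_add (i : Fin m) (f g : Pol m) : TT i (f + g) = TT i f + TT i g := by
  simp only [TT, dd1_add, map_add]
  abel

theorem TT_neg (i : Fin m) (f : Pol m) : TT i (-f) = -TT i f := by
  simp only [TT, dd1_neg, map_neg]
  abel

/-- EX1a. `T_i T_i = 1`.  (`∂_i ∂_i = 0`, `∂_i s_i = -∂_i`, `s_i ∂_i = ∂_i`: uniqueness of the
quotient, `dd1_unique`.) -/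
theorem TT_TT (i : Fin m) (f : Pol m) : TT i (TT i f) = f := by
  have hrt : pact (sg i) (rt i) = -rt i := by
    simp [rt, pact_X, sg]
  have h1 : pact (sg i) (dd1 i f) = dd1 i f := by
    symm
    apply dd1_unique
    have h := congrArg (pact (sg i)) (dd1_spec i f)
    rw [map_mul, map_sub, pact_sg_sg, hrt] at h
    linear_combination -h
  have h2 : dd1 i (pact (sg i) f) = -dd1 i f := by
    apply dd1_unique
    rw [pact_sg_sg]
    linear_combination -dd1_spec i f
  simp only [TT, dd1_sub, map_sub, pact_sg_sg]
  rw [dd1_eq_zero_of_inv i _ h1, h1, h2]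
  ring

/-- the value of `∂_i` on the variable `x_j`, i.e. `⟨x_j, α_i⟩` -/
def pr' (j : Fin (m + 1)) (i : Fin m) : ℤ :=
  if j = i.castSucc then 1 else if j = i.succ then -1 else 0

/-- EX1b. `T_i (x_j f) = x_{s_i j} T_i f + ⟨x_j, α_i⟩ f`. -/
theorem TT_mul_X (i : Fin m) (j : Fin (m + 1)) (f : Pol m) :
    TT i (X j * f) = X (sg i j) * TT i f + C (pr' j i) * f := by
  have h : dd1 i (X j : Pol m) = C (pr' j i) := by
    unfold pr'
    by_cases h1 : j = i.castSucc
    · rw [if_pos h1, h1, dd1_X_left, C_1]
    · by_cases h2 : j = i.succ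
      · rw [if_neg h1, if_pos h2, h2, dd1_X_right, C_neg, C_1]
      · rw [if_neg h1, if_neg h2, dd1_X_of_ne i j h1 h2, C_0]
  simp only [TT, dd1_mul, map_mul, pact_X, h]
  ring

theorem TT_C (i : Fin m) (a : ℤ) : TT i (C a : Pol m) = -C a := by
  simp only [TT, dd1_C, pact_C, zero_sub]

theorem TT_C_mul (i : Fin m) (a : ℤ) (f : Pol m) : TT i (C a * f) = C a * TT i f := by
  simp only [TT, dd1_mul, map_mul, pact_C, dd1_C]
  ring

theorem sg_val (i : Fin m) (k : Fin (m + 1)) :
    ((sg i k : Fin (m + 1)) : ℕ) =
      if (k : ℕ) = i then (i : ℕ) + 1 else if (k : ℕ) = i + 1 then (i : ℕ) else k := by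
  unfold sg
  rw [swap_apply_def]
  split_ifs with h1 h2 h3 h4 h5 h6 <;>
    simp only [Fin.ext_iff, Fin.val_castSucc, Fin.val_succ] at * <;> omega

theorem pr'_val (k : Fin (m + 1)) (i : Fin m) :
    pr' k i = if (k : ℕ) = i then 1 else if (k : ℕ) = i + 1 then -1 else 0 := by
  unfold pr'
  simp only [Fin.ext_iff, Fin.val_castSucc, Fin.val_succ]

/-- EX2a. `T_i T_j = T_j T_i` for `|i - j| ≥ 2`.
Proof: `D f = T_i T_j f - T_j T_i f` satisfies `D (x_k f) = x_{s_i s_j k} D f` (by `TT_mul_X`
twice; `s_i s_j = s_j s_i`, `⟨s_i x, α_j⟩ = ⟨x, α_j⟩`), is additive, and `D 1 = 0` (`T_i 1 = -1`).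
Induction on `f`. -/
theorem TT_comm (i j : Fin m) (h : (i : ℕ) + 1 < j) (f : Pol m) :
    TT i (TT j f) = TT j (TT i f) := by
  induction f using MvPolynomial.induction_on with
  | C a => simp only [TT_C, TT_neg]
  | add p q hp hq => simp only [TT_add, hp, hq]
  | mul_X p k hp =>
    have e1 : sg i (sg j k) = sg j (sg i k) := by
      apply Fin.ext
      simp only [sg_val]
      split_ifs <;> omega
    have e2 : pr' (sg j k) i = pr' k i := by
      simp only [pr'_val, sg_val]
      split_ifs <;> omega
    have e3 : pr' (sg i k) j = pr' k j := by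
      simp only [pr'_val, sg_val]
      split_ifs <;> omega
    rw [mul_comm p (X k)]
    simp only [TT_mul_X, TT_add, TT_C_mul, e1, e2, e3, hp]
    ring

/-- EX2b. **Braid relation.**
Proof: `D f = T_i T_j T_i f - T_j T_i T_j f` satisfies `D (x_k f) = x_{s_i s_j s_i k} D f`:
by `TT_mul_X` three times and `TT_TT` the lower terms of `T_i T_j T_i (x_k f)` are
`⟨x_k, α_i⟩ T_i T_j f + ⟨s_i x_k, α_j⟩ f + ⟨s_j s_i x_k, α_i⟩ T_j T_i f`, and
`⟨s_j s_i x_k, α_i⟩ = ⟨x_k, α_j⟩`, `⟨s_i x_k, α_j⟩ = ⟨s_j x_k, α_i⟩` (cases on `k`);
`D 1 = 0`.  Induction on `f`. -/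
theorem TT_braid (i j : Fin m) (h : (j : ℕ) = (i : ℕ) + 1) (f : Pol m) :
    TT i (TT j (TT i f)) = TT j (TT i (TT j f)) := by
  induction f using MvPolynomial.induction_on with
  | C a => simp only [TT_C, TT_neg]
  | add p q hp hq => simp only [TT_add, hp, hq]
  | mul_X p k hp =>
    have e1 : sg i (sg j (sg i k)) = sg j (sg i (sg j k)) := by
      apply Fin.ext
      simp only [sg_val]
      split_ifs <;> omega
    have e2 : pr' (sg j (sg i k)) i = pr' k j := by
      simp only [pr'_val, sg_val]
      split_ifs <;> omega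
    have e3 : pr' (sg i k) j = pr' (sg j k) i := by
      simp only [pr'_val, sg_val]
      split_ifs <;> omega
    have e4 : pr' (sg i (sg j k)) j = pr' k i := by
      simp only [pr'_val, sg_val]
      split_ifs <;> omega
    rw [mul_comm p (X k)]
    simp only [TT_mul_X, TT_add, TT_C_mul, TT_TT, e1, e2, e3, e4, hp]
    ring

/-- EX3. **Families from Coxeter relations.**  If maps `t_i` satisfy the Coxeter relations then
there is a family `D` indexed by `W` with `D 1 = x₀` and `D (w s_i) = t_i (D w)` for all `w, i`.
Proof: define `D` by recursion on `inv w`: `D w = t_k (D (w s_k))` for one chosen descent `k` of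
`w` (`D w = x₀` if there is no descent; recursion on `inv w` by `inv_mul_sg_of_desc`).  Show by
strong induction on `inv w` that `D w = t_k (D (w s_k))` for EVERY descent `k` of `w`: let `c` be
the chosen descent, `c ≠ k`.  If `|c - k| ≥ 2` then `k` is a descent of `w s_c`, `c` is a descent
of `w s_k`, and `t_c t_k D(w s_c s_k) = t_k t_c D(w s_k s_c)`.  If `|c - k| = 1` then
`w` is decreasing on the three positions, and `t_c t_k t_c D(w s_c s_k s_c) =
t_k t_c t_k D(w s_k s_c s_k)` with `s_c s_k s_c = s_k s_c s_k`.  For ascents use `h2`.  -/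
theorem exists_family {M : Type*} (t : Fin m → M → M) (h2 : ∀ i x, t i (t i x) = x)
    (hc : ∀ i j : Fin m, (i : ℕ) + 1 < j → ∀ x, t i (t j x) = t j (t i x))
    (hb : ∀ i j : Fin m, (j : ℕ) = (i : ℕ) + 1 → ∀ x, t i (t j (t i x)) = t j (t i (t j x)))
    (x₀ : M) : ∃ D : WG m → M, D 1 = x₀ ∧ ∀ w i, D (w * sg i) = t i (D w) := by
  classical
  have hcomm : ∀ i j : Fin m, (i : ℕ) + 1 < j → sg i * sg j = sg j * sg i := by
    intro i j hij
    ext k
    simp only [Perm.mul_apply, sg_val]
    split_ifs <;> omega
  have hbr : ∀ i j : Fin m, (j : ℕ) = (i : ℕ) + 1 →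
      sg i * sg j * sg i = sg j * sg i * sg j := by
    intro i j hij
    ext k
    simp only [Perm.mul_apply, sg_val]
    split_ifs <;> omega
  have key : ∀ (n : ℕ) (D : WG m → M),
      (∀ w k, inv w ≤ n → w k.succ < w k.castSucc → D w = t k (D (w * sg k))) →
      ∀ (w : WG m) (c k : Fin m), inv w = n + 1 → (c : ℕ) < k → w c.succ < w c.castSucc →
        w k.succ < w k.castSucc → t c (D (w * sg c)) = t k (D (w * sg k)) := by
    intro n D hD w c k hw hck hdc hdk
    have ic := inv_mul_sg_of_desc w c hdc
    have ik := inv_mul_sg_of_desc w k hdk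
    rcases lt_or_eq_of_le (show (c : ℕ) + 1 ≤ k from hck) with hlt | heq
    · have a1 : (sg c k.succ : Fin (m + 1)) = k.succ := by
        apply Fin.ext
        simp only [sg_val, Fin.val_succ]
        split_ifs <;> omega
      have a2 : (sg c k.castSucc : Fin (m + 1)) = k.castSucc := by
        apply Fin.ext
        simp only [sg_val, Fin.val_castSucc]
        split_ifs <;> omega
      have a3 : (sg k c.succ : Fin (m + 1)) = c.succ := by
        apply Fin.ext
        simp only [sg_val, Fin.val_succ]
        split_ifs <;> omega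
      have a4 : (sg k c.castSucc : Fin (m + 1)) = c.castSucc := by
        apply Fin.ext
        simp only [sg_val, Fin.val_castSucc]
        split_ifs <;> omega
      rw [hD (w * sg c) k (by omega) (by simpa [Perm.mul_apply, a1, a2] using hdk),
        hD (w * sg k) c (by omega) (by simpa [Perm.mul_apply, a3, a4] using hdc),
        mul_assoc w (sg c) (sg k), mul_assoc w (sg k) (sg c), hcomm c k hlt]
      exact hc c k hlt _
    · have hk' : (k : ℕ) = (c : ℕ) + 1 := heq.symm
      have hmid : k.castSucc = c.succ := by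
        apply Fin.ext
        simp only [Fin.val_castSucc, Fin.val_succ]
        omega
      rw [hmid] at hdk
      have b1 : (sg c k.succ : Fin (m + 1)) = k.succ := by
        apply Fin.ext
        simp only [sg_val, Fin.val_succ]
        split_ifs <;> omega
      have b2 : (sg c k.castSucc : Fin (m + 1)) = c.castSucc := by
        apply Fin.ext
        simp only [sg_val, Fin.val_castSucc]
        split_ifs <;> omega
      have b3 : (sg k c.succ : Fin (m + 1)) = k.succ := by
        apply Fin.ext
        simp only [sg_val, Fin.val_succ]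
        split_ifs <;> omega
      have b4 : (sg k c.castSucc : Fin (m + 1)) = c.castSucc := by
        apply Fin.ext
        simp only [sg_val, Fin.val_castSucc]
        split_ifs <;> omega
      have b5 : (sg c c.castSucc : Fin (m + 1)) = c.succ := swap_apply_left _ _
      have b6 : (sg k k.succ : Fin (m + 1)) = c.succ := by
        rw [← hmid]
        exact swap_apply_right _ _
      have b7 : (sg k k.castSucc : Fin (m + 1)) = k.succ := swap_apply_left _ _
      have b8 : (sg c c.succ : Fin (m + 1)) = c.castSucc := swap_apply_right _ _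
      have hdd : w k.succ < w c.castSucc := hdk.trans hdc
      have d1 : (w * sg c) k.succ < (w * sg c) k.castSucc := by
        simpa [Perm.mul_apply, b1, b2] using hdd
      have d2 : (w * sg c * sg k) c.succ < (w * sg c * sg k) c.castSucc := by
        simp only [Perm.mul_apply, b3, b4, b1, b5]
        exact hdk
      have d3 : (w * sg k) c.succ < (w * sg k) c.castSucc := by
        simp only [Perm.mul_apply, b3, b4]
        exact hdd
      have d4 : (w * sg k * sg c) k.succ < (w * sg k * sg c) k.castSucc := by
        simp only [Perm.mul_apply, b1, b2, b6, b4]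
        exact hdc
      have i1 := inv_mul_sg_of_desc (w * sg c) k d1
      have i2 := inv_mul_sg_of_desc (w * sg k) c d3
      rw [hD (w * sg c) k (by omega) d1, hD (w * sg c * sg k) c (by omega) d2,
        hD (w * sg k) c (by omega) d3, hD (w * sg k * sg c) k (by omega) d4]
      have e : w * sg c * sg k * sg c = w * sg k * sg c * sg k := by
        have := congrArg (fun x => w * x) (hbr c k hk')
        simpa only [mul_assoc] using this
      rw [e]
      exact hb c k hk' _
  have step : ∀ n : ℕ, ∃ D : WG m → M, D 1 = x₀ ∧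
      ∀ w k, inv w ≤ n → w k.succ < w k.castSucc → D w = t k (D (w * sg k)) := by
    intro n
    induction n with
    | zero =>
      refine ⟨fun _ => x₀, rfl, ?_⟩
      intro w k hw hd
      have h1 : w = 1 := eq_one_of_inv_eq_zero w (Nat.le_zero.mp hw)
      subst h1
      simp only [Perm.coe_one, id_eq] at hd
      exact absurd hd (not_lt.mpr Fin.castSucc_lt_succ.le)
    | succ n ih =>
      obtain ⟨D, hD1, hD⟩ := ih
      let D' : WG m → M := fun w =>
        if inv w ≤ n then D w
        else if h : ∃ k : Fin m, w k.succ < w k.castSucc then t h.choose (D (w * sg h.choose))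
        else x₀
      have hle : ∀ w, inv w ≤ n → D' w = D w := fun w hw => if_pos hw
      refine ⟨D', by rw [hle 1 (by simp [inv_one]), hD1], ?_⟩
      intro w k hw hd
      have ik := inv_mul_sg_of_desc w k hd
      rw [hle (w * sg k) (by omega)]
      by_cases hn : inv w ≤ n
      · rw [hle w hn]
        exact hD w k hn hd
      · have hn1 : inv w = n + 1 := by omega
        have hex : ∃ k : Fin m, w k.succ < w k.castSucc := ⟨k, hd⟩
        have hval : D' w = t hex.choose (D (w * sg hex.choose)) := by
          simp only [D', if_neg hn, dif_pos hex]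
        rw [hval]
        have hcs := hex.choose_spec
        rcases lt_trichotomy (hex.choose : ℕ) k with hlt | heq | hgt
        · exact key n D hD w hex.choose k hn1 hlt hcs hd
        · rw [Fin.ext heq]
        · exact (key n D hD w k hex.choose hn1 hgt hd hcs).symm
  obtain ⟨D, hD1, hD⟩ := step
    (Finset.univ : Finset (Fin (m + 1) × Fin (m + 1))).card
  have hinv : ∀ w : WG m, inv w ≤ (Finset.univ : Finset (Fin (m + 1) × Fin (m + 1))).card :=
    fun w => Finset.card_le_card (Finset.filter_subset _ _)
  refine ⟨D, hD1, ?_⟩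
  intro w i
  rcases lt_or_gt_of_ne (fun h => castSucc_ne_succ i (w.injective h)) with h | h
  · have h1 : (w * sg i) i.succ < (w * sg i) i.castSucc := by
      simpa [sg, Perm.mul_apply] using h
    rw [hD (w * sg i) i (hinv _) h1, mul_assoc, sg_mul_self, mul_one]
  · rw [hD w i (hinv _) h, h2]

/-- induction on right multiplication by simple transpositions -/
theorem induction_right (p : WG m → Prop) (h1 : p 1)
    (hs : ∀ (x : WG m) (k : Fin m), p x → p (x * sg k)) (x : WG m) : p x := by
  obtain ⟨l, hl, -⟩ := exists_word x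
  have key : ∀ (l : List (Fin m)) (y : WG m), p y → p (y * wp l) := by
    intro l
    induction l with
    | nil => intro y hy; simpa [wp] using hy
    | cons k l ih =>
      intro y hy
      have := hs (y * wp l) k (ih y hy)
      simpa [wp, mul_assoc] using this
  have := key l 1 h1
  rwa [one_mul, hl] at this

end H45C
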