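import Pool.Agent.Helper45.CSM.Defs

/-!
# Inversions, words and Lehmer codes (pieces IN1-IN7)
-/

namespace H45C

open MvPolynomial Equiv

variable {m : ℕ}

/-- IN1a. `inv 1 = 0`. -/
theorem inv_one : inv (1 : WG m) = 0 := by
  unfold inv
  rw [Finset.card_eq_zero, Finset.filter_eq_empty_iff]
  rintro ⟨a, b⟩ _ ⟨h1, h2⟩
  simp only [Perm.coe_one, id_eq] at h1 h2
  exact lt_asymm h1 h2

private theorem in1_sg_lt (k : Fin m) {a b : Fin (m + 1)} (h : a < b)
    (hne : ¬ (a = k.castSucc ∧ b = k.succ)) : sg k a < sg k b := by
  unfold sg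
  rw [swap_apply_def, swap_apply_def]
  rw [Fin.lt_def] at h
  rw [Fin.ext_iff, Fin.ext_iff, Fin.val_castSucc, Fin.val_succ] at hne
  have e1 : (k.castSucc : Fin (m + 1)).val = k.val := rfl
  have e2 : (k.succ : Fin (m + 1)).val = k.val + 1 := rfl
  split_ifs with h1 h2 h3 h4 h5 h6 <;> rw [Fin.lt_def] <;>
    simp only [Fin.ext_iff] at * <;> omega

/-- IN1b. If `w` has a descent at `k` then `w s_k` has one inversion less.
(The map `(a, b) ↦ (s_k a, s_k b)` is a bijection from the inversions `(a, b) ≠ (k, k+1)` of `w`
to the inversions of `w s_k`.) -/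
theorem inv_mul_sg_of_desc (w : WG m) (k : Fin m) (h : w k.succ < w k.castSucc) :
    inv (w * sg k) + 1 = inv w := by
  classical
  have hs : ∀ a, sg k (sg k a) = a := fun a => swap_apply_self _ _ a
  have hsl : sg k k.castSucc = k.succ := swap_apply_left _ _
  have hsr : sg k k.succ = k.castSucc := swap_apply_right _ _
  unfold inv
  have hmem : ((k.castSucc, k.succ) : Fin (m + 1) × Fin (m + 1)) ∈
      (Finset.univ.filter fun p : Fin (m + 1) × Fin (m + 1) => p.1 < p.2 ∧ w p.2 < w p.1) := by
    simp only [Finset.mem_filter, Finset.mem_univ, true_and]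
    exact ⟨Fin.castSucc_lt_succ, h⟩
  rw [← Finset.card_erase_add_one hmem]
  congr 1
  refine Finset.card_bij' (fun p _ => (sg k p.1, sg k p.2)) (fun p _ => (sg k p.1, sg k p.2))
    ?_ ?_ ?_ ?_
  · rintro ⟨a, b⟩ hab
    rw [Finset.mem_filter] at hab
    obtain ⟨_, hab1, hab2⟩ := hab
    rw [Perm.mul_apply, Perm.mul_apply] at hab2
    have hab1' : a < b := hab1
    have hne : ¬ (a = k.castSucc ∧ b = k.succ) := by
      rintro ⟨rfl, rfl⟩
      rw [hsl, hsr] at hab2
      exact lt_asymm h hab2
    rw [Finset.mem_erase, Finset.mem_filter]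
    refine ⟨fun he => ?_, Finset.mem_univ _, in1_sg_lt k hab1' hne, hab2⟩
    rw [Prod.mk.injEq] at he
    have e3 : a = k.succ := by rw [← hs a, he.1, hsl]
    have e4 : b = k.castSucc := by rw [← hs b, he.2, hsr]
    rw [e3, e4] at hab1'
    exact lt_asymm hab1' Fin.castSucc_lt_succ
  · rintro ⟨a, b⟩ hab
    rw [Finset.mem_erase, Finset.mem_filter] at hab
    obtain ⟨hne, _, hab1, hab2⟩ := hab
    rw [Finset.mem_filter]
    refine ⟨Finset.mem_univ _, in1_sg_lt k hab1 (fun he => hne (Prod.ext he.1 he.2)), ?_⟩
    rw [Perm.mul_apply, Perm.mul_apply]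
    simp only [hs]
    exact hab2
  · rintro ⟨a, b⟩ _
    simp only [hs]
  · rintro ⟨a, b⟩ _
    simp only [hs]

/-- IN1c. If `w` has an ascent at `k` then `w s_k` has one inversion more. -/
theorem inv_mul_sg_of_asc (w : WG m) (k : Fin m) (h : w k.castSucc < w k.succ) :
    inv (w * sg k) = inv w + 1 := by
  have h1 : (w * sg k) k.succ < (w * sg k) k.castSucc := by
    simpa [sg, Perm.mul_apply] using h
  have h2 := inv_mul_sg_of_desc (w * sg k) k h1
  rw [mul_assoc, sg_mul_self, mul_one] at h2
  omega

/-- IN2. Multiplying by a transposition of an inverted pair of positions lowers the number of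
inversions.  (For `a < b`, `w b < w a`, put `t = swap a b`.  The map sending an inversion
`(c, d)` of `w t` to `(c, d)` if `{c, d}` is disjoint from `{a, b}`, and in general to the pair
obtained as follows, is an injection into the inversions of `w` missing `(a, b)`: for `c ∉ {a, b}`
the pairs `{c, a}`, `{c, b}`: if `c` is not between `a` and `b` exchange the two pairs, if
`a < c < b` use that `(a, c)` inverted for `w t` means `w c < w b`, so then `(a, c)` is inverted
for `w`; similarly for `(c, b)`.  Any other proof is fine.) -/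
theorem inv_mul_swap_lt (w : WG m) (a b : Fin (m + 1)) (hab : a < b) (h : w b < w a) :
    inv (w * swap a b) < inv w := by
  classical
  let φ : Fin (m + 1) × Fin (m + 1) → Fin (m + 1) × Fin (m + 1) := fun p =>
    if swap a b p.1 < swap a b p.2 then (swap a b p.1, swap a b p.2) else p
  have hφφ : ∀ p : Fin (m + 1) × Fin (m + 1), p.1 < p.2 → φ (φ p) = p := by
    intro p hp
    by_cases h1 : swap a b p.1 < swap a b p.2
    · simp only [φ, if_pos h1, swap_apply_self, if_pos hp]
    · simp only [φ, if_neg h1]
  have hφab : φ (a, b) = (a, b) := by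
    simp only [φ, swap_apply_left, swap_apply_right, if_neg (not_lt.mpr hab.le)]
  have hmem : (a, b) ∈ Finset.univ.filter
      (fun p : Fin (m + 1) × Fin (m + 1) => p.1 < p.2 ∧ w p.2 < w p.1) := by
    simp [hab, h]
  have hle : inv (w * swap a b) ≤ ((Finset.univ.filter
      (fun p : Fin (m + 1) × Fin (m + 1) => p.1 < p.2 ∧ w p.2 < w p.1)).erase (a, b)).card := by
    unfold inv
    apply Finset.card_le_card_of_injOn φ
    · intro p hp
      rw [Finset.mem_coe, Finset.mem_filter, Perm.mul_apply, Perm.mul_apply] at hp
      replace hp := hp.2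
      obtain ⟨hp1, hp2⟩ := hp
      rw [Finset.mem_coe, Finset.mem_erase, Finset.mem_filter]
      refine ⟨?_, Finset.mem_univ _, ?_⟩
      rotate_left
      · by_cases h1 : swap a b p.1 < swap a b p.2
        · simp only [φ, if_pos h1]
          exact ⟨h1, hp2⟩
        · simp only [φ, if_neg h1]
          refine ⟨hp1, ?_⟩
          obtain ⟨c, d⟩ := p
          simp only at hp1 hp2 h1 ⊢
          by_cases hca : c = a
          · subst hca
            by_cases hdb : d = b
            · subst hdb
              exact h
            · rw [swap_apply_left, swap_apply_of_ne_of_ne hp1.ne' hdb] at hp2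
              exact hp2.trans h
          · by_cases hcb : c = b
            · subst hcb
              exfalso
              rw [swap_apply_right, swap_apply_of_ne_of_ne (hab.trans hp1).ne' hp1.ne'] at h1
              exact h1 (hab.trans hp1)
            · rw [swap_apply_of_ne_of_ne hca hcb] at hp2 h1
              by_cases hda : d = a
              · subst hda
                rw [swap_apply_left] at h1
                exact absurd (hp1.trans hab) h1
              · by_cases hdb : d = b
                · subst hdb
                  rw [swap_apply_right] at hp2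
                  exact h.trans hp2
                · rw [swap_apply_of_ne_of_ne hda hdb] at hp2
                  exact hp2
      · intro hc
        have h1 : p = (a, b) := by rw [← hφφ p hp1, hc, hφab]
        rw [h1] at hp2
        simp only [swap_apply_left, swap_apply_right] at hp2
        exact absurd h (not_lt.mpr hp2.le)
    · intro p hp q hq hpq
      rw [Finset.mem_coe, Finset.mem_filter] at hp hq
      rw [← hφφ p hp.2.1, ← hφφ q hq.2.1, hpq]
  exact lt_of_le_of_lt hle (Finset.card_erase_lt_of_mem hmem)

/-- IN3a. A permutation without descents is the identity. -/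
theorem eq_one_of_no_desc (w : WG m) (h : ∀ k : Fin m, w k.castSucc < w k.succ) : w = 1 := by
  have hs : StrictMono w := Fin.strictMono_iff_lt_succ.2 h
  have h1 : hs.orderIsoOfSurjective w w.surjective = OrderIso.refl (Fin (m + 1)) :=
    Subsingleton.elim _ _
  ext j
  have h2 := DFunLike.congr_fun h1 j
  simpa using congrArg Fin.val h2

/-- IN3b. `inv w = 0` only for the identity. -/
theorem eq_one_of_inv_eq_zero (w : WG m) (h : inv w = 0) : w = 1 := by
  apply eq_one_of_no_desc
  intro k
  by_contra hk
  have h1 : w k.succ < w k.castSucc := by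
    refine lt_of_le_of_ne (not_lt.mp hk) ?_
    intro h2
    exact castSucc_ne_succ k (w.injective h2.symm)
  have := inv_mul_sg_of_desc w k h1
  omega

/-- IN4a. `inv (wp l) ≤ length l`. -/
theorem inv_wp_le (l : List (Fin m)) : inv (wp l) ≤ l.length := by
  induction l with
  | nil => simp [wp, inv_one]
  | cons k l ih =>
    rcases lt_or_gt_of_ne (fun h => castSucc_ne_succ k ((wp l).injective h)) with h | h
    · have := inv_mul_sg_of_asc (wp l) k h
      simp only [wp, List.length_cons]
      omega
    · have := inv_mul_sg_of_desc (wp l) k h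
      simp only [wp, List.length_cons]
      omega

/-- IN4b. Every permutation has a reduced word. -/
theorem exists_word (w : WG m) : ∃ l : List (Fin m), wp l = w ∧ l.length = inv w := by
  induction hn : inv w generalizing w with
  | zero => exact ⟨[], by simp [wp, eq_one_of_inv_eq_zero w hn], rfl⟩
  | succ n ih =>
    have h1 : ∃ k : Fin m, w k.succ < w k.castSucc := by
      by_contra hc
      push Not at hc
      have : w = 1 := by
        apply eq_one_of_no_desc
        intro k
        refine lt_of_le_of_ne (hc k) ?_
        intro h2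
        exact castSucc_ne_succ k (w.injective h2)
      rw [this, inv_one] at hn
      omega
    obtain ⟨k, hk⟩ := h1
    have h2 := inv_mul_sg_of_desc w k hk
    obtain ⟨l, hl, hl2⟩ := ih (w * sg k) (by omega)
    refine ⟨k :: l, ?_, ?_⟩
    · simp only [wp, hl, mul_assoc, sg_mul_self, mul_one]
    · simp only [List.length_cons, hl2]

/-- IN5a. `w` has a descent at `k` if and only if `c_k > c_{k+1}` for the Lehmer code. -/
theorem desc_iff_code (w : WG m) (k : Fin m) :
    w k.succ < w k.castSucc ↔ code w k.succ < code w k.castSucc := by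
  have hks : k.castSucc < k.succ := Fin.castSucc_lt_succ
  constructor
  · intro h
    unfold code
    apply Finset.card_lt_card
    rw [Finset.ssubset_iff_of_subset]
    · refine ⟨k.succ, ?_, ?_⟩
      · rw [Finset.mem_filter]
        exact ⟨Finset.mem_univ _, hks, h⟩
      · rw [Finset.mem_filter]
        intro h2
        exact lt_irrefl _ h2.2.1
    · intro l hl
      rw [Finset.mem_filter] at hl ⊢
      exact ⟨hl.1, hks.trans hl.2.1, hl.2.2.trans h⟩
  · intro h
    by_contra hn
    have h1 : w k.castSucc < w k.succ := by
      refine lt_of_le_of_ne (not_lt.mp hn) ?_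
      intro h2
      exact castSucc_ne_succ k (w.injective h2)
    apply absurd h (not_lt.mpr ?_)
    unfold code
    apply Finset.card_le_card
    intro l hl
    rw [Finset.mem_filter] at hl ⊢
    refine ⟨hl.1, ?_, hl.2.2.trans h1⟩
    have h3 : l ≠ k.succ := by
      rintro rfl
      exact lt_irrefl _ (hl.2.2.trans h1)
    have h4 := hl.2.1
    rw [Fin.lt_def] at h4 ⊢
    rw [Ne, Fin.ext_iff] at h3
    simp only [Fin.val_castSucc, Fin.val_succ] at h3 h4 ⊢
    omega

private theorem sg_of_gt (k : Fin m) (l : Fin (m + 1)) (h : k.succ < l) : sg k l = l := by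
  have hks : k.castSucc < k.succ := Fin.castSucc_lt_succ
  exact swap_apply_of_ne_of_ne (hks.trans h).ne' h.ne'

private theorem gt_iff_code (k : Fin m) (l : Fin (m + 1)) :
    k.castSucc < l ↔ l = k.succ ∨ k.succ < l := by
  rw [Fin.lt_def, Fin.lt_def, Fin.ext_iff]
  simp only [Fin.val_castSucc, Fin.val_succ]
  omega

/-- IN5b. the code of `w s_k` at `k`, for a descent `k`. -/
theorem code_mul_sg_left (w : WG m) (k : Fin m) (h : w k.succ < w k.castSucc) :
    code (w * sg k) k.castSucc = code w k.succ := by
  have h1 : sg k k.castSucc = k.succ := swap_apply_left _ _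
  have h2 : sg k k.succ = k.castSucc := swap_apply_right _ _
  unfold code
  congr 1
  ext l
  rw [Finset.mem_filter, Finset.mem_filter, gt_iff_code, Perm.mul_apply, Perm.mul_apply, h1]
  constructor
  · rintro ⟨h3, h4 | h4, h5⟩
    · rw [h4, h2] at h5
      exact absurd (h5.trans h) (lt_irrefl _)
    · rw [sg_of_gt k l h4] at h5
      exact ⟨h3, h4, h5⟩
  · rintro ⟨h3, h4, h5⟩
    refine ⟨h3, Or.inr h4, ?_⟩
    rw [sg_of_gt k l h4]
    exact h5

/-- IN5c. the code of `w s_k` at `k+1`, for a descent `k`. -/
theorem code_mul_sg_right (w : WG m) (k : Fin m) (h : w k.succ < w k.castSucc) :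
    code (w * sg k) k.succ + 1 = code w k.castSucc := by
  have h2 : sg k k.succ = k.castSucc := swap_apply_right _ _
  unfold code
  rw [← Finset.card_insert_of_notMem (a := k.succ)]
  · congr 1
    ext l
    rw [Finset.mem_insert, Finset.mem_filter, Finset.mem_filter, gt_iff_code, Perm.mul_apply,
      Perm.mul_apply, h2]
    constructor
    · rintro (h3 | ⟨h3, h4, h5⟩)
      · rw [h3]
        exact ⟨Finset.mem_univ _, Or.inl rfl, h⟩
      · rw [sg_of_gt k l h4] at h5
        exact ⟨h3, Or.inr h4, h5⟩
    · rintro ⟨h3, h4 | h4, h5⟩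
      · exact Or.inl h4
      · refine Or.inr ⟨h3, h4, ?_⟩
        rw [sg_of_gt k l h4]
        exact h5
  · rw [Finset.mem_filter]
    intro h3
    exact lt_irrefl _ h3.2.1

/-- IN5d. the code of `w s_k` at the other positions. -/
theorem code_mul_sg_of_ne (w : WG m) (k : Fin m) (j : Fin (m + 1)) (h1 : j ≠ k.castSucc)
    (h2 : j ≠ k.succ) : code (w * sg k) j = code w j := by
  have h3 : sg k j = j := swap_apply_of_ne_of_ne h1 h2
  have h4 : ∀ l, sg k (sg k l) = l := by
    intro l
    rw [← Perm.mul_apply, sg_mul_self, Perm.one_apply]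
  have h5 : ∀ l, j < l → j < sg k l := by
    intro l hl
    by_cases h6 : l = k.castSucc
    · rw [h6] at hl ⊢
      have h7 : sg k k.castSucc = k.succ := swap_apply_left _ _
      rw [h7]
      exact hl.trans Fin.castSucc_lt_succ
    · by_cases h7 : l = k.succ
      · rw [h7] at hl ⊢
        have h8 : sg k k.succ = k.castSucc := swap_apply_right _ _
        rw [h8]
        rw [Fin.lt_def] at hl ⊢
        rw [Ne, Fin.ext_iff] at h1
        simp only [Fin.val_castSucc, Fin.val_succ] at hl h1 ⊢
        omega
      · have h8 : sg k l = l := swap_apply_of_ne_of_ne h6 h7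
        rw [h8]
        exact hl
  unfold code
  refine Finset.card_nbij' (fun l => sg k l) (fun l => sg k l) ?_ ?_ ?_ ?_
  · intro l hl
    rw [Finset.mem_coe, Finset.mem_filter, Perm.mul_apply, Perm.mul_apply, h3] at hl
    rw [Finset.mem_coe, Finset.mem_filter]
    exact ⟨Finset.mem_univ _, h5 l hl.2.1, hl.2.2⟩
  · intro l hl
    rw [Finset.mem_coe, Finset.mem_filter] at hl
    rw [Finset.mem_coe, Finset.mem_filter, Perm.mul_apply, Perm.mul_apply, h3]
    refine ⟨Finset.mem_univ _, h5 l hl.2.1, ?_⟩
    show w (sg k (sg k l)) < w j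
    rw [h4]
    exact hl.2.2
  · intro l _
    exact h4 l
  · intro l _
    exact h4 l

/-- IN6a. the sum of the Lehmer code is the number of inversions. -/
theorem sum_code (w : WG m) : ∑ j, code w j = inv w := by
  unfold code inv
  simp only [Finset.card_filter]
  rw [← Finset.univ_product_univ, Finset.sum_product]

/-- IN6b. the last entry of the code is zero. -/
theorem code_last (w : WG m) : code w (Fin.last m) = 0 := by
  unfold code
  rw [Finset.card_eq_zero, Finset.filter_eq_empty_iff]
  intro k _ hk
  exact absurd (Fin.le_last k) (not_le.mpr hk.1)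

/-- IN6c. a code that vanishes identically belongs to the identity -/
theorem eq_one_of_code (w : WG m) (h : ∀ j, code w j = 0) : w = 1 := by
  apply eq_one_of_inv_eq_zero
  rw [← sum_code]
  simp [h]

end H45C
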