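import Mathlib

/-!
# CSM expansion of CSM classes times Schubert classes, type A: definitions

`G = GL_{m+1}`, `W = Perm (Fin (m+1))`, cohomology ring of the flag variety
`Coh m = ℤ[x_0, ..., x_m] / (symmetric polynomials without constant term)` (Borel),
divided differences `dd1 i`, the Aluffi-Mihalcea operators `T_i = ∂_i - s_i`,
the classes `c_SM(Y(w)°)` (`IsCSM`), and polynomials representing `[Y(v)]` (`IsSchub`).
-/

namespace H45C

open MvPolynomial Equiv

/-- The polynomial ring `ℤ[x_0, ..., x_m]`. -/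
abbrev Pol (m : ℕ) := MvPolynomial (Fin (m + 1)) ℤ

/-- The Weyl group of `GL_{m+1}`. -/
abbrev WG (m : ℕ) := Perm (Fin (m + 1))

/-- The simple transposition `s_i = (i, i+1)`. -/
def sg {m : ℕ} (i : Fin m) : WG m := swap i.castSucc i.succ

/-- The permutation `w` acting on polynomials, `x_j ↦ x_{w j}`. -/
noncomputable def pact {m : ℕ} (w : WG m) : Pol m →ₐ[ℤ] Pol m := rename w

theorem castSucc_ne_succ {m : ℕ} (i : Fin m) : i.castSucc ≠ i.succ :=
  (Fin.castSucc_lt_succ).ne

/-- The simple root `x_i - x_{i+1}`. -/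
noncomputable def rt {m : ℕ} (i : Fin m) : Pol m := X i.castSucc - X i.succ

theorem rt_ne_zero {m : ℕ} (i : Fin m) : rt i ≠ 0 := by
  intro h
  have h1 : (X i.castSucc : Pol m) = X i.succ := sub_eq_zero.mp h
  exact castSucc_ne_succ i (X_injective h1)

theorem exists_dd1 {m : ℕ} (i : Fin m) (f : Pol m) :
    ∃ g : Pol m, rt i * g = f - pact (sg i) f := by
  induction f using MvPolynomial.induction_on with
  | C a => exact ⟨0, by simp [pact]⟩
  | add p q hp hq =>
    obtain ⟨g, hg⟩ := hp
    obtain ⟨h, hh⟩ := hq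
    exact ⟨g + h, by rw [mul_add, hg, hh, map_add]; ring⟩
  | mul_X p j hp =>
    obtain ⟨g, hg⟩ := hp
    have hj : ∃ c : Pol m, rt i * c = X j - pact (sg i) (X j) := by
      by_cases h1 : j = i.castSucc
      · subst h1
        exact ⟨1, by simp [pact, sg, rt, swap_apply_left]⟩
      · by_cases h2 : j = i.succ
        · subst h2
          exact ⟨-1, by simp [pact, sg, rt, swap_apply_right]⟩
        · exact ⟨0, by simp [pact, sg, swap_apply_of_ne_of_ne h1 h2]⟩
    obtain ⟨c, hc⟩ := hj
    refine ⟨g * X j + pact (sg i) p * c, ?_⟩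
    rw [map_mul]
    linear_combination (X j : Pol m) * hg + pact (sg i) p * hc

/-- The divided difference operator `∂_i f = (f - s_i f) / (x_i - x_{i+1})`. -/
noncomputable def dd1 {m : ℕ} (i : Fin m) (f : Pol m) : Pol m := (exists_dd1 i f).choose

theorem dd1_spec {m : ℕ} (i : Fin m) (f : Pol m) :
    rt i * dd1 i f = f - pact (sg i) f := (exists_dd1 i f).choose_spec

/-- uniqueness of the quotient -/
theorem dd1_unique {m : ℕ} (i : Fin m) (f g : Pol m) (h : rt i * g = f - pact (sg i) f) :
    dd1 i f = g :=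
  mul_left_cancel₀ (rt_ne_zero i) ((dd1_spec i f).trans h.symm)

/-- `dd l f = ∂_{k_r} ⋯ ∂_{k_1} f` for `l = [k_1, ..., k_r]` (the head is applied first). -/
noncomputable def dd {m : ℕ} : List (Fin m) → Pol m → Pol m
  | [], f => f
  | k :: l, f => dd l (dd1 k f)

/-- The product `s_{k_r} ⋯ s_{k_1}` for `l = [k_1, ..., k_r]`. -/
def wp {m : ℕ} : List (Fin m) → WG m
  | [] => 1
  | k :: l => wp l * sg k

/-- The number of inversions (the length) of a permutation. -/
def inv {m : ℕ} (v : WG m) : ℕ :=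
  (Finset.univ.filter fun p : Fin (m + 1) × Fin (m + 1) => p.1 < p.2 ∧ v p.2 < v p.1).card

/-- `P` represents the Schubert class `[Y(v)]`: for every word `l`, the constant term of
`∂_l P` is `1` if `l` is a reduced word of `v`, and `0` otherwise.  (For a reduced word `l` of
`w`, this constant term is the integral of `P` over the Schubert variety `X(w)`.) -/
def IsSchub {m : ℕ} (v : WG m) (P : Pol m) : Prop :=
  ∀ l : List (Fin m), constantCoeff (dd l P) = if wp l = v ∧ l.length = inv v then 1 else 0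

/-- The ideal generated by the symmetric polynomials without constant term. -/
noncomputable def symIdeal (m : ℕ) : Ideal (Pol m) :=
  Ideal.span {p | p.IsSymmetric ∧ constantCoeff p = 0}

/-- The cohomology ring of the flag variety of `GL_{m+1}` (Borel presentation). -/
abbrev Coh (m : ℕ) := Pol m ⧸ symIdeal m

/-- The class in cohomology of a polynomial. -/
noncomputable def cl {m : ℕ} (P : Pol m) : Coh m := Ideal.Quotient.mk (symIdeal m) P

/-- The monomial `x_0^m x_1^(m-1) ⋯ x_{m-1}` representing the class of a point. -/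
noncomputable def ptP (m : ℕ) : Pol m := ∏ j : Fin (m + 1), X j ^ (m - (j : ℕ))

/-- The longest element. -/
def w0 (m : ℕ) : WG m := Fin.revPerm

/-- The Aluffi-Mihalcea operator `T_i = ∂_i - s_i`. -/
noncomputable def TT {m : ℕ} (i : Fin m) (f : Pol m) : Pol m := dd1 i f - pact (sg i) f

/-- `C w = c_SM(Y(w)°)` for all `w`: `C(w_0)` is the class of a point, and
`C(w s_i) = T_i C(w)` (theorem of Aluffi and Mihalcea). -/
structure IsCSM {m : ℕ} (C : WG m → Coh m) : Prop where
  pt : C (w0 m) = cl (ptP m)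
  step : ∀ (w : WG m) (i : Fin m) (f : Pol m), C w = cl f → C (w * sg i) = cl (TT i f)

/-- The Lehmer code. -/
def code {m : ℕ} (v : WG m) (j : Fin (m + 1)) : ℕ :=
  (Finset.univ.filter fun k : Fin (m + 1) => j < k ∧ v k < v j).card

/-- (A): `min(c_1, c_2, c_3) ≥ c_4 ≥ c_5 ≥ ⋯` (positions numbered from 1). -/
def condA {m : ℕ} (c : Fin (m + 1) → ℕ) : Prop :=
  ∀ j k : Fin (m + 1), j < k → 3 ≤ (k : ℕ) → c k ≤ c j

/-- (B): for some `r > 1` (positions numbered from 1), `c_2 = ⋯ = c_{r-1} ≤ min(c_1, c_r)`,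
and these numbers are `≥ c_{r+1} ≥ c_{r+2} ≥ ⋯`. -/
def condB {m : ℕ} (c : Fin (m + 1) → ℕ) : Prop :=
  ∃ r : Fin (m + 1), 0 < r ∧ (∀ j k : Fin (m + 1), j < k → r < k → c k ≤ c j) ∧
    ∀ j k : Fin (m + 1), 0 < j → j < r → k ≤ r → c j ≤ c k

/-! ## basic lemmas -/

variable {m : ℕ}

theorem pact_X (w : WG m) (j : Fin (m + 1)) : pact w (X j) = X (w j) := by
  simp [pact]

theorem pact_C (w : WG m) (a : ℤ) : pact w (C a) = C a := by
  simp [pact]

theorem pact_mul_apply (v w : WG m) (f : Pol m) : pact (v * w) f = pact v (pact w f) := by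
  simp [pact, rename_rename, Perm.coe_mul]

theorem sg_mul_self (i : Fin m) : sg i * sg i = 1 := swap_mul_self _ _

theorem sg_inv (i : Fin m) : (sg i)⁻¹ = sg i := swap_inv _ _

theorem pact_sg_sg (i : Fin m) (f : Pol m) : pact (sg i) (pact (sg i) f) = f := by
  rw [← pact_mul_apply, sg_mul_self]
  simp [pact]

theorem dd1_zero (i : Fin m) : dd1 i (0 : Pol m) = 0 := dd1_unique i _ _ (by simp)

theorem dd1_add (i : Fin m) (f g : Pol m) : dd1 i (f + g) = dd1 i f + dd1 i g := by
  apply dd1_unique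
  rw [mul_add, dd1_spec, dd1_spec, map_add]
  ring

theorem dd1_neg (i : Fin m) (f : Pol m) : dd1 i (-f) = -dd1 i f := by
  apply dd1_unique
  rw [mul_neg, dd1_spec, map_neg]
  ring

theorem dd1_sub (i : Fin m) (f g : Pol m) : dd1 i (f - g) = dd1 i f - dd1 i g := by
  rw [sub_eq_add_neg, dd1_add, dd1_neg, sub_eq_add_neg]

theorem dd1_mul (i : Fin m) (f g : Pol m) :
    dd1 i (f * g) = dd1 i f * g + pact (sg i) f * dd1 i g := by
  apply dd1_unique
  rw [map_mul]
  linear_combination g * dd1_spec i f + pact (sg i) f * dd1_spec i g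

theorem dd1_C (i : Fin m) (a : ℤ) : dd1 i (C a : Pol m) = 0 :=
  dd1_unique i _ _ (by simp [pact_C])

theorem dd1_X_left (i : Fin m) : dd1 i (X i.castSucc : Pol m) = 1 :=
  dd1_unique i _ _ (by simp [pact_X, sg, rt])

theorem dd1_X_right (i : Fin m) : dd1 i (X i.succ : Pol m) = -1 :=
  dd1_unique i _ _ (by simp [pact_X, sg, rt])

theorem dd1_X_of_ne (i : Fin m) (j : Fin (m + 1)) (h1 : j ≠ i.castSucc) (h2 : j ≠ i.succ) :
    dd1 i (X j : Pol m) = 0 :=
  dd1_unique i _ _ (by simp [pact_X, sg, swap_apply_of_ne_of_ne h1 h2])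

/-- an `s_i`-invariant polynomial is killed by `∂_i` -/
theorem dd1_eq_zero_of_inv (i : Fin m) (f : Pol m) (h : pact (sg i) f = f) : dd1 i f = 0 :=
  dd1_unique i _ _ (by simp [h])

theorem inv_of_dd1_eq_zero (i : Fin m) (f : Pol m) (h : dd1 i f = 0) : pact (sg i) f = f := by
  have := dd1_spec i f
  rw [h, mul_zero] at this
  exact (sub_eq_zero.mp this.symm).symm

/-- `∂_i(f g) = f ∂_i g` if `s_i f = f` -/
theorem dd1_mul_of_inv (i : Fin m) (f g : Pol m) (h : pact (sg i) f = f) :
    dd1 i (f * g) = f * dd1 i g := by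
  rw [dd1_mul, dd1_eq_zero_of_inv i f h, h]
  ring

theorem dd_zero (l : List (Fin m)) : dd l (0 : Pol m) = 0 := by
  induction l with
  | nil => rfl
  | cons k l ih => simp only [dd, dd1_zero, ih]

theorem dd_add (l : List (Fin m)) (f g : Pol m) : dd l (f + g) = dd l f + dd l g := by
  induction l generalizing f g with
  | nil => rfl
  | cons k l ih => simp only [dd, dd1_add, ih]

theorem dd_neg (l : List (Fin m)) (f : Pol m) : dd l (-f) = -dd l f := by
  induction l generalizing f with
  | nil => rfl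
  | cons k l ih => simp only [dd, dd1_neg, ih]

theorem dd_sub (l : List (Fin m)) (f g : Pol m) : dd l (f - g) = dd l f - dd l g := by
  rw [sub_eq_add_neg, dd_add, dd_neg, sub_eq_add_neg]

theorem constantCoeff_pact (w : WG m) (f : Pol m) :
    constantCoeff (pact w f) = constantCoeff f := by
  simp [pact, constantCoeff_rename]

end H45C
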