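import Pool.Agent.Helper45.CSM.Csm
import Pool.Agent.Helper45.CSM.Fam

/-!
# Existence and uniqueness of the family of CSM classes; it is a basis (pieces BA1-BA9)
-/

namespace H45C

open MvPolynomial Equiv

variable {m : ℕ}

/-- BA1. the operator `T_i` on cohomology (`TT_mem`, `TT_add`, `TT_neg`) -/
theorem exists_tt (i : Fin m) : ∃ t : Coh m → Coh m, ∀ f, t (cl f) = cl (TT i f) := by
  refine ⟨fun x => cl (TT i (Ideal.Quotient.mk_surjective x).choose), fun f => ?_⟩
  have h := (Ideal.Quotient.mk_surjective (I := symIdeal m) (cl f)).choose_spec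
  set g := (Ideal.Quotient.mk_surjective (I := symIdeal m) (cl f)).choose with hg
  show cl (TT i g) = cl (TT i f)
  have h1 : g - f ∈ symIdeal m := Ideal.Quotient.eq.1 h
  have h2 := TT_mem i (g - f) h1
  rw [sub_eq_add_neg, TT_add, TT_neg, ← sub_eq_add_neg] at h2
  exact Ideal.Quotient.eq.2 h2

private theorem ba_w0_w0 : w0 m * w0 m = 1 := by
  ext j
  simp [w0]

/-- BA2. **Existence.** (`exists_family` for the maps of `exists_tt` and `x₀ = cl (ptP m)`;
`C w = D (w0 w)`.) -/
theorem exists_isCSM (m : ℕ) : ∃ C : WG m → Coh m, IsCSM C := by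
  choose t ht using fun i : Fin m => exists_tt i
  obtain ⟨D, hD1, hD⟩ := exists_family t
    (fun i x => by
      obtain ⟨f, rfl⟩ := Ideal.Quotient.mk_surjective x
      show t i (t i (cl f)) = cl f
      rw [ht, ht, TT_TT])
    (fun i j hij x => by
      obtain ⟨f, rfl⟩ := Ideal.Quotient.mk_surjective x
      show t i (t j (cl f)) = t j (t i (cl f))
      rw [ht, ht, ht, ht, TT_comm i j hij])
    (fun i j hij x => by
      obtain ⟨f, rfl⟩ := Ideal.Quotient.mk_surjective x
      show t i (t j (t i (cl f))) = t j (t i (t j (cl f)))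
      rw [ht, ht, ht, ht, ht, ht, TT_braid i j hij])
    (cl (ptP m))
  refine ⟨fun w => D (w0 m * w), ?_, ?_⟩
  · show D (w0 m * w0 m) = cl (ptP m)
    rw [ba_w0_w0, hD1]
  · intro w i f hf
    show D (w0 m * (w * sg i)) = cl (TT i f)
    rw [← mul_assoc, hD, ← ht]
    exact congrArg (t i) hf

/-- BA3. **Uniqueness.** (`induction_right` for `x` in `w = w0 x`; choose a representative of
`C w` by `Ideal.Quotient.mk_surjective`.) -/
theorem isCSM_unique (C C' : WG m → Coh m) (h : IsCSM C) (h' : IsCSM C') : C = C' := by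
  have key : ∀ x : WG m, C (w0 m * x) = C' (w0 m * x) := by
    intro x
    refine induction_right (fun x => C (w0 m * x) = C' (w0 m * x)) ?_ ?_ x
    · rw [mul_one, h.pt, h'.pt]
    · intro x k ih
      obtain ⟨f, hf⟩ := Ideal.Quotient.mk_surjective (C (w0 m * x))
      rw [← mul_assoc, h.step (w0 m * x) k f hf.symm, h'.step (w0 m * x) k f (ih.symm.trans hf.symm)]
  funext w
  have := key (w0 m * w)
  rwa [← mul_assoc, ba_w0_w0, one_mul] at this

/-- BA4. If `P` represents `[Y(v)]` and `k` is a descent of `v`, then `∂_k P` represents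
`[Y(v s_k)]`. -/
theorem isSchub_dd1 (v : WG m) (P : Pol m) (hP : IsSchub v P) (k : Fin m)
    (hk : v k.succ < v k.castSucc) : IsSchub (v * sg k) (dd1 k P) := by
  intro l
  have h := hP (k :: l)
  show constantCoeff (dd (k :: l) P) = _
  rw [h]
  refine if_congr ?_ rfl rfl
  have h1 := inv_mul_sg_of_desc v k hk
  have hiff : wp (k :: l) = v ↔ wp l = v * sg k := by
    constructor
    · intro h
      rw [← h, wp, mul_assoc, sg_mul_self, mul_one]
    · intro h
      rw [wp, h, mul_assoc, sg_mul_self, mul_one]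
  rw [hiff, List.length_cons]
  refine and_congr_right fun _ => ?_
  omega

private theorem ba_w0_lt {a b : Fin (m + 1)} : w0 m a < w0 m b ↔ b < a := by
  simp [w0]

private theorem ba_inv_w0 : inv (w0 m) =
    (Finset.univ.filter fun p : Fin (m + 1) × Fin (m + 1) => p.1 < p.2).card := by
  unfold inv
  congr 1
  ext p
  rw [Finset.mem_filter, Finset.mem_filter, ba_w0_lt]
  tauto

/-- BA5a. the number of inversions of `w` is at most that of `w0`, with equality only for
`w = w0`.  (All pairs `a < b` are inversions of `w0`.) -/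
theorem inv_le_inv_w0 (w : WG m) : inv w ≤ inv (w0 m) := by
  rw [ba_inv_w0]
  unfold inv
  apply Finset.card_le_card
  intro p hp
  rw [Finset.mem_filter] at hp ⊢
  exact ⟨hp.1, hp.2.1⟩

private theorem ba_eq_w0 (w : WG m) (h : ∀ k : Fin m, w k.succ < w k.castSucc) : w = w0 m := by
  have h1 : w0 m * w = 1 := by
    apply eq_one_of_no_desc
    intro k
    rw [Perm.mul_apply, Perm.mul_apply, ba_w0_lt]
    exact h k
  have h2 := congrArg (w0 m * ·) h1
  simpa only [← mul_assoc, ba_w0_w0, one_mul, mul_one] using h2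

theorem eq_w0_of_inv (w : WG m) (h : inv w = inv (w0 m)) : w = w0 m := by
  apply ba_eq_w0
  intro k
  by_contra hk
  have h1 : w k.castSucc < w k.succ := by
    refine lt_of_le_of_ne (not_lt.mp hk) ?_
    intro h2
    exact castSucc_ne_succ k (w.injective h2)
  have h2 := inv_mul_sg_of_asc w k h1
  have h3 := inv_le_inv_w0 (w * sg k)
  omega

/-- the permutation reversing the first `t + 1` positions -/
def wrev (m : ℕ) (t : ℕ) (ht : t ≤ m) : WG m where
  toFun j := if h : (j : ℕ) ≤ t then ⟨t - j, by omega⟩ else j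
  invFun j := if h : (j : ℕ) ≤ t then ⟨t - j, by omega⟩ else j
  left_inv j := by
    apply Fin.ext
    by_cases h : (j : ℕ) ≤ t
    · have h2 : t - (j : ℕ) ≤ t := by omega
      simp only [h, dif_pos, h2]
      omega
    · simp only [h, dif_neg, not_false_iff]
  right_inv j := by
    apply Fin.ext
    by_cases h : (j : ℕ) ≤ t
    · have h2 : t - (j : ℕ) ≤ t := by omega
      simp only [h, dif_pos, h2]
      omega
    · simp only [h, dif_neg, not_false_iff]

private theorem ba6_wrev_val (t : ℕ) (ht : t ≤ m) (j : Fin (m + 1)) :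
    ((wrev m t ht j : Fin (m + 1)) : ℕ) = if (j : ℕ) ≤ t then t - j else j := by
  unfold wrev
  simp only [coe_fn_mk]
  split_ifs <;> rfl

private theorem ba6_wrev_inv (t : ℕ) (ht : t ≤ m) : (wrev m t ht)⁻¹ = wrev m t ht := by
  ext j
  rfl

private theorem ba6_rho_val (j : Fin (m + 1)) :
    ((rho m j : Fin (m + 1)) : ℕ) = if (j : ℕ) < m then (j : ℕ) + 1 else 0 := by
  unfold rho
  by_cases h : (j : ℕ) < m
  · rw [if_pos h, finRotate_apply]
    exact Fin.val_add_one_of_lt (Fin.lt_def.2 (by simpa using h))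
  · rw [if_neg h]
    have h1 : j = Fin.last m := Fin.ext (by have := j.isLt; simp only [Fin.val_last]; omega)
    rw [h1, finRotate_last]
    rfl

private theorem ba6_tau (k j : Fin (m + 1)) : ((tau k j : Fin (m + 1)) : ℕ) =
    if (j : ℕ) < k then (j : ℕ) else if (j : ℕ) = k then m else (j : ℕ) - 1 := by
  rcases lt_trichotomy (j : ℕ) (k : ℕ) with h | h | h
  · rw [if_pos h, tau_lt k j h]
  · rw [if_neg (by omega), if_pos h, Fin.ext h, tau_self]
    rfl
  · rw [if_neg (by omega), if_neg (by omega)]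
    have h1 := tau_gt k j h
    omega

private theorem ba6_key (t : ℕ) (ht : t + 1 ≤ m) :
    tau (⟨t + 1, by omega⟩ : Fin (m + 1)) * (wrev m (t + 1) ht)⁻¹ * rho m =
      (wrev m t (by omega))⁻¹ := by
  rw [ba6_wrev_inv, ba6_wrev_inv]
  ext j
  rw [Perm.mul_apply, Perm.mul_apply, ba6_tau, ba6_wrev_val, ba6_rho_val, ba6_wrev_val]
  have hj := j.isLt
  simp only
  split_ifs <;> omega

private theorem ba6_aux (t : ℕ) (ht : t ≤ m) :
    IsSchub (wrev m t ht) (∏ k ∈ Finset.range t, ff m (k + 1)) ∧
    (∏ k ∈ Finset.range t, ff m (k + 1)).IsHomogeneous (inv (wrev m t ht)) ∧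
    (∏ k ∈ Finset.range t, ff m (k + 1)) ∈
      MvPolynomial.supported ℤ {i : Fin (m + 1) | (i : ℕ) < t} := by
  induction t with
  | zero =>
    have h1 : wrev m 0 ht = 1 := by
      ext j
      rw [ba6_wrev_val, Perm.one_apply]
      split_ifs <;> omega
    rw [h1, Finset.prod_range_zero, H45C.inv_one]
    refine ⟨?_, isHomogeneous_one _ _, Subalgebra.one_mem _⟩
    refine isSchub_step 1 1 (fun k hk => ?_) (fun k _ => ?_) (by simp)
    · have h1 : k.succ < k.castSucc := hk
      exact absurd h1 (not_lt.2 (Fin.castSucc_lt_succ).le)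
    · have h1 : (1 : Pol m) = C 1 := (map_one C).symm
      rw [h1, dd1_C]
  | succ t ih =>
    obtain ⟨h1, h2, h3⟩ := ih (by omega)
    have hkey := ba6_key t ht
    have hw : (wrev m (t + 1) ht)⁻¹ 0 = (⟨t + 1, by omega⟩ : Fin (m + 1)) := by
      rw [ba6_wrev_inv]
      apply Fin.ext
      rw [ba6_wrev_val]
      simp
    have hinv := inv_del (⟨t + 1, by omega⟩ : Fin (m + 1)) _ hw
    rw [hkey, _root_.inv_inv, _root_.inv_inv] at hinv
    have hs : (∏ k ∈ Finset.range t, ff m (k + 1)) ∈
        MvPolynomial.supported ℤ {i : Fin (m + 1) | i < (⟨t + 1, by omega⟩ : Fin (m + 1))} := by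
      refine MvPolynomial.supported_mono ?_ h3
      intro i hi
      have hi' : (i : ℕ) < t := hi
      exact Fin.lt_def.2 (by simp only; omega)
    rw [Finset.prod_range_succ, mul_comm]
    refine ⟨isSchub_ff_mul (⟨t + 1, by omega⟩ : Fin (m + 1)) _ _ _ h1 h2 hs hw hkey, ?_, ?_⟩
    · have h4 := (ff_homog (m := m) (t + 1)).mul h2
      have h5 : t + 1 + inv (wrev m t (by omega)) = inv (wrev m (t + 1) ht) := by
        rw [← hinv]
        simp only
        omega
      rw [← h5]
      exact h4
    · refine Subalgebra.mul_mem _ (ff_supp (t + 1)) (MvPolynomial.supported_mono ?_ h3)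
      intro i hi
      have hi' : (i : ℕ) < t := hi
      exact Nat.lt_succ_of_lt hi'

/-- BA6. `f_1 f_2 ⋯ f_t` represents the class of the permutation reversing the first `t + 1`
positions.  Induction on `t` with `isSchub_ff_mul` for `k = t`, `w = wrev m t`, `v = wrev m (t-1)`
(`τ_t w_t⁻¹ ρ = w_{t-1}⁻¹`, check on values).  State the homogeneity along. -/
theorem isSchub_wrev (t : ℕ) (ht : t ≤ m) :
    IsSchub (wrev m t ht) (∏ k ∈ Finset.range t, ff m (k + 1)) := by
  exact (ba6_aux t ht).1

private theorem ba_ff (t : ℕ) : ff m t = ∏ j ∈ Finset.range t, xv m j := by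
  induction t with
  | zero => simp [ff]
  | succ t ih => rw [ff, ih, Finset.prod_range_succ]

private theorem ba_prod_ff (t : ℕ) : ∏ k ∈ Finset.range t, ff m (k + 1) =
    ∏ j ∈ Finset.range (t + 1), xv m j ^ (t - j) := by
  induction t with
  | zero => simp
  | succ t ih =>
    rw [Finset.prod_range_succ, ih, ba_ff, Finset.prod_range_succ (n := t + 1), Nat.sub_self,
      pow_zero, mul_one, ← Finset.prod_mul_distrib]
    refine Finset.prod_congr rfl fun j hj => ?_
    rw [Finset.mem_range] at hj
    rw [← pow_succ]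
    congr 1
    omega

private theorem ba_ptP : ptP m = ∏ k ∈ Finset.range m, ff m (k + 1) := by
  rw [ba_prod_ff, ← Fin.prod_univ_eq_prod_range (fun j => xv m j ^ (m - j)) (m + 1)]
  unfold ptP
  refine Finset.prod_congr rfl fun j _ => ?_
  unfold xv
  rw [dif_pos j.2]

private theorem ba_wrev : wrev m m le_rfl = w0 m := by
  ext j
  have hj : (j : ℕ) ≤ m := by omega
  simp only [wrev, w0, Fin.revPerm_apply, Fin.val_rev, coe_fn_mk, hj, dif_pos]
  omega

/-- BA7. `x_0^m x_1^{m-1} ⋯ x_{m-1} = f_1 ⋯ f_m` represents the class of a point. -/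
theorem isSchub_ptP : IsSchub (w0 m) (ptP m) := by
  rw [ba_ptP, ← ba_wrev]
  exact isSchub_wrev m le_rfl

/-- BA8. every Schubert class has a representing polynomial (from `isSchub_ptP`, going down with
`isSchub_dd1`: induction on `inv w0 - inv v`; if `v ≠ w0` there is an ascent `k`, and
`v = (v s_k) s_k`). -/
theorem exists_isSchub (v : WG m) : ∃ P : Pol m, IsSchub v P := by
  induction hn : inv (w0 m) - inv v generalizing v with
  | zero =>
    have h1 := inv_le_inv_w0 v
    have h2 := eq_w0_of_inv v (by omega)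
    subst h2
    exact ⟨ptP m, isSchub_ptP⟩
  | succ n ih =>
    have h1 : ∃ k : Fin m, v k.castSucc < v k.succ := by
      by_contra hc
      push Not at hc
      have : v = w0 m := by
        apply ba_eq_w0
        intro k
        refine lt_of_le_of_ne (hc k) ?_
        intro h2
        exact castSucc_ne_succ k (v.injective h2.symm)
      rw [this] at hn
      omega
    obtain ⟨k, hk⟩ := h1
    have h2 := inv_mul_sg_of_asc v k hk
    obtain ⟨P, hP⟩ := ih (v * sg k) (by omega)
    have h3 : (v * sg k) k.succ < (v * sg k) k.castSucc := by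
      simpa [sg, Perm.mul_apply] using hk
    have h4 := isSchub_dd1 (v * sg k) P hP k h3
    rw [mul_assoc, sg_mul_self, mul_one] at h4
    exact ⟨_, h4⟩

/-- the sign vector -/
noncomputable def ev (m : ℕ) : VV m := ∑ x : WG m, ((Perm.sign x : ℤˣ) : ℤ) • bas x

/-- BA9a. -/
theorem lm_ev (k : Fin m) : lm (sg k) (ev m) = -ev m := by
  unfold ev
  rw [map_sum, ← Finset.sum_neg_distrib]
  refine Fintype.sum_equiv (Equiv.mulLeft (sg k)) _ _ fun x => ?_
  rw [map_smul, lm_bas, Equiv.coe_mulLeft, Perm.sign_mul]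
  have h : Perm.sign (sg k) = -1 := Perm.sign_swap (castSucc_ne_succ k)
  rw [h]
  simp

/-- BA9b. (`act_sg` for `pact (sg k) P` and `z = ev m`; `∂_k s_k = - ∂_k`.) -/
theorem act_TT (k : Fin m) (P : Pol m) :
    act m (TT k P) (ev m) = lm (sg k) (act m P (ev m)) := by
  have h1 := act_sg (pact (sg k) P) k (ev m)
  have h2 : dd1 k (pact (sg k) P) = -dd1 k P := by
    apply dd1_unique
    rw [mul_neg, dd1_spec, pact_sg_sg]
    ring
  rw [lm_ev, pact_sg_sg, h2, map_neg, map_neg, LinearMap.neg_apply] at h1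
  unfold TT
  rw [map_sub, LinearMap.sub_apply, sub_eq_iff_eq_add]
  rw [eq_comm, ← sub_eq_add_neg, sub_eq_iff_eq_add] at h1
  rw [h1]
  abel

/-- BA10a. `P · 1 = ε(P) 1` -/
theorem act_bas_one (P : Pol m) : act m P (bas 1) = constantCoeff P • bas (1 : WG m) := by
  induction P using MvPolynomial.induction_on with
  | C a => rw [act_C_apply, constantCoeff_C]
  | add p q hp hq => rw [map_add, LinearMap.add_apply, hp, hq, map_add, add_smul]
  | mul_X p j _ =>
    rw [act_mul_apply, act_X_apply, Xop_bas, xb_one, map_zero, map_mul, constantCoeff_X, mul_zero,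
      zero_smul]

/-- BA10b. symmetric polynomials act by their constant term (`induction_left`, `act_sg`) -/
theorem act_of_symmetric (P : Pol m) (hP : P.IsSymmetric) (z : VV m) :
    act m P z = constantCoeff P • z := by
  have key : ∀ x : WG m, act m P (bas x) = constantCoeff P • bas x := by
    intro x
    refine induction_left (fun x => act m P (bas x) = constantCoeff P • bas x) (act_bas_one P)
      (fun k x ih => ?_) x
    have h1 : pact (sg k) P = P := hP (sg k)
    rw [← lm_bas, act_sg, h1, dd1_eq_zero_of_inv k P h1, map_zero, LinearMap.zero_apply, add_zero,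
      ih, map_smul]
  induction z using induction_bas with
  | h0 => rw [map_zero, smul_zero]
  | hadd y z hy hz => rw [map_add, hy, hz, smul_add]
  | hb x a => rw [map_smul, key, smul_comm]

/-- BA10c. -/
theorem act_of_mem (P : Pol m) (hP : P ∈ symIdeal m) (z : VV m) : act m P z = 0 := by
  unfold symIdeal at hP
  induction hP using Submodule.span_induction generalizing z with
  | mem p hp => rw [act_of_symmetric p hp.1, hp.2, zero_smul]
  | zero => rw [map_zero, LinearMap.zero_apply]
  | add p q _ _ hp hq => rw [map_add, LinearMap.add_apply, hp, hq, add_zero]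
  | smul a p _ hp => rw [smul_eq_mul, act_mul_apply, hp, map_zero]

private theorem ba11_w0_inv : (w0 m)⁻¹ = w0 m := inv_eq_of_mul_eq_one_left w0_mul_w0

private theorem ba11_bas (P : Pol m) (x : WG m) :
    act m P (bas x) (w0 m) = constantCoeff P * (bas x : VV m) (w0 m) := by
  have h0 : ∀ d : ℕ, act m (homogeneousComponent d P) (bas x) (w0 m) =
      if d = 0 then constantCoeff P * (bas x : VV m) (w0 m) else 0 := by
    intro d
    by_cases hd : d = 0
    · subst hd
      rw [if_pos rfl, homogeneousComponent_zero, act_C_apply, Finsupp.smul_apply, smul_eq_mul]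
      rfl
    · rw [if_neg hd]
      by_contra hne
      have h1 := act_degree _ d (homogeneousComponent_isHomogeneous d P) _ _ hne
      rw [ba11_w0_inv] at h1
      have h2 := inv_le_inv_w0 x⁻¹
      omega
  conv_lhs => rw [← sum_homogeneousComponent P]
  rw [map_sum, LinearMap.sum_apply, Finsupp.finsetSum_apply, Finset.sum_congr rfl fun d _ => h0 d,
    Finset.sum_ite_eq' (Finset.range (P.totalDegree + 1)) 0, if_pos (Finset.mem_range.2 (by omega))]

/-- BA11a. the coefficient of `w0` in `P · ev` is `sign(w0) ε(P)` (`act_degree` for the homogeneous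
components of positive degree) -/
theorem act_ev_w0 (P : Pol m) :
    act m P (ev m) (w0 m) = ((Perm.sign (w0 m) : ℤˣ) : ℤ) * constantCoeff P := by
  unfold ev
  rw [map_sum, Finsupp.finsetSum_apply]
  have h1 : ∀ x : WG m, (act m P (((Perm.sign x : ℤˣ) : ℤ) • bas x)) (w0 m) =
      if x = w0 m then ((Perm.sign (w0 m) : ℤˣ) : ℤ) * constantCoeff P else 0 := by
    intro x
    rw [map_smul, Finsupp.smul_apply, ba11_bas, smul_eq_mul]
    by_cases hx : x = w0 m
    · rw [if_pos hx, hx]
      simp [bas]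
    · rw [if_neg hx]
      simp [bas, hx]
  rw [Finset.sum_congr rfl fun x _ => h1 x, Finset.sum_ite_eq' Finset.univ (w0 m),
    if_pos (Finset.mem_univ _)]

private theorem ba11_code (j : Fin (m + 1)) : code (w0 m) j = m - (j : ℕ) := by
  unfold code
  have h1 : (Finset.univ.filter fun k : Fin (m + 1) => j < k ∧ w0 m k < w0 m j) =
      Finset.Ioi j := by
    ext k
    rw [Finset.mem_filter, Finset.mem_Ioi]
    constructor
    · rintro ⟨-, h, -⟩
      exact h
    · intro h
      refine ⟨Finset.mem_univ _, h, ?_⟩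
      change Fin.rev k < Fin.rev j
      rwa [Fin.rev_lt_rev]
  rw [h1, Fin.card_Ioi]
  omega

private theorem ba11_homog : (ptP m).IsHomogeneous (inv (w0 m)) := by
  rw [← sum_code]
  unfold ptP
  refine IsHomogeneous.prod _ _ _ fun j _ => ?_
  rw [ba11_code]
  exact isHomogeneous_X_pow j _

/-- BA11b. (`act_degree`, `isSchub_ptP`, `isSchub_iff`, `inv_le_inv_w0`, `eq_w0_of_inv`: only
`x = w0` contributes to `ptP · ev`, and only the coefficient of `1` is nonzero.) -/
theorem act_ptP_ev : act m (ptP m) (ev m) = ((Perm.sign (w0 m) : ℤˣ) : ℤ) • bas 1 := by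
  have hS := (isSchub_iff (w0 m) (ptP m) ba11_homog).1 isSchub_ptP
  ext y
  unfold ev
  rw [map_sum, Finsupp.finsetSum_apply]
  have h1 : ∀ x : WG m, (act m (ptP m) (((Perm.sign x : ℤˣ) : ℤ) • bas x)) y =
      if x = w0 m then (((Perm.sign (w0 m) : ℤˣ) : ℤ) • (bas 1 : VV m)) y else 0 := by
    intro x
    rw [map_smul, Finsupp.smul_apply, smul_eq_mul]
    have h2 := inv_le_inv_w0 x⁻¹
    by_cases hy : act m (ptP m) (bas x) y = 0
    · rw [hy, mul_zero]
      split_ifs with hx
      · by_cases hy1 : y = 1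
        · exfalso
          rw [hx, hy1, hS (w0 m) (by rw [ba11_w0_inv]), if_pos ba11_w0_inv.symm] at hy
          exact one_ne_zero hy
        · simp [bas, Ne.symm hy1]
      · rfl
    · have h3 := act_degree _ _ ba11_homog _ _ hy
      have hy0 : inv y⁻¹ = 0 := by omega
      have hx0 : inv x⁻¹ = inv (w0 m) := by omega
      have hy1 : y = 1 := inv_eq_one.1 (eq_one_of_inv_eq_zero _ hy0)
      have hx1 : x = w0 m := by
        rw [← inv_inv x, eq_w0_of_inv _ hx0, ba11_w0_inv]
      rw [if_pos hx1, hx1, hy1, hS (w0 m) (by rw [ba11_w0_inv]), if_pos ba11_w0_inv.symm,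
        Finsupp.smul_apply]
      simp [bas]
  rw [Finset.sum_congr rfl fun x _ => h1 x, Finset.sum_ite_eq' Finset.univ (w0 m),
    if_pos (Finset.mem_univ _)]

/-- BA12. (`induction_right` for `x` in `w = w0 x`; `act_TT`, `act_of_mem`.) -/
theorem act_ev_of_isCSM (C : WG m → Coh m) (hC : IsCSM C) (w : WG m) (f : Pol m)
    (hf : C w = cl f) :
    act m f (ev m) = ((Perm.sign (w0 m) : ℤˣ) : ℤ) • bas (w⁻¹ * w0 m) := by
  have hwd : ∀ f g : Pol m, cl f = cl g → act m f (ev m) = act m g (ev m) := by
    intro f g h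
    have h1 : f - g ∈ symIdeal m := (Ideal.Quotient.mk_eq_mk_iff_sub_mem f g).mp h
    have h2 := act_of_mem _ h1 (ev m)
    rw [map_sub, LinearMap.sub_apply] at h2
    exact sub_eq_zero.mp h2
  have key : ∀ x : WG m, ∀ f : Pol m, C (w0 m * x) = cl f →
      act m f (ev m) = ((Perm.sign (w0 m) : ℤˣ) : ℤ) • bas ((w0 m * x)⁻¹ * w0 m) := by
    intro x
    induction x using induction_right with
    | h1 =>
      intro f hf
      rw [mul_one] at hf ⊢
      rw [hC.pt] at hf
      rw [← hwd _ _ hf, act_ptP_ev, inv_mul_cancel]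
    | hs x k ih =>
      intro f hf
      obtain ⟨g, hg⟩ := Ideal.Quotient.mk_surjective (C (w0 m * x))
      have hg' : C (w0 m * x) = cl g := hg.symm
      rw [← mul_assoc] at hf ⊢
      rw [hC.step _ k g hg'] at hf
      rw [← hwd _ _ hf, act_TT, ih g hg', map_zsmul, lm_bas, mul_inv_rev (w0 m * x), sg_inv,
        mul_assoc (sg k)]
  have h1 : w = w0 m * ((w0 m)⁻¹ * w) := by rw [mul_inv_cancel_left]
  have h2 := key ((w0 m)⁻¹ * w) f (by rw [← h1]; exact hf)
  rwa [← h1] at h2

/-- BA13. **The CSM classes are linearly independent.**  (If `Σ c_w C w = 0`, choose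
representatives `f_w`; then `Σ c_w f_w ∈ symIdeal`, apply `act · ev`, `act_of_mem`,
`act_ev_of_isCSM`.) -/
theorem linearIndependent_of_isCSM (C : WG m → Coh m) (hC : IsCSM C) :
    LinearIndependent ℤ C := by
  rw [Fintype.linearIndependent_iff]
  intro g hg v
  have hf : ∀ w, ∃ f : Pol m, C w = cl f := fun w => by
    obtain ⟨f, hf⟩ := Ideal.Quotient.mk_surjective (C w)
    exact ⟨f, hf.symm⟩
  choose f hf using hf
  have h1 : cl (∑ w, g w • f w) = 0 := by
    rw [← hg]
    unfold cl
    rw [map_sum]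
    refine Finset.sum_congr rfl fun w _ => ?_
    rw [hf w, map_zsmul]
    rfl
  have h2 : (∑ w, g w • f w) ∈ symIdeal m := Ideal.Quotient.eq_zero_iff_mem.1 h1
  have h3 := act_of_mem _ h2 (ev m)
  rw [map_sum, LinearMap.sum_apply] at h3
  have h4 : ∀ w, act m (g w • f w) (ev m) =
      (g w * ((Perm.sign (w0 m) : ℤˣ) : ℤ)) • bas (w⁻¹ * w0 m) := fun w => by
    rw [map_zsmul, LinearMap.smul_apply, act_ev_of_isCSM C hC w (f w) (hf w), smul_smul]
  rw [Finset.sum_congr rfl fun w _ => h4 w] at h3
  have h5 := DFunLike.congr_fun h3 (v⁻¹ * w0 m)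
  rw [Finsupp.finsetSum_apply, Finset.sum_eq_single v] at h5
  · rw [Finsupp.smul_apply, bas, Finsupp.single_eq_same, smul_eq_mul, mul_one,
      Finsupp.zero_apply] at h5
    exact (mul_eq_zero.1 h5).resolve_right (Units.ne_zero _)
  · intro w _ hw
    rw [Finsupp.smul_apply, bas, Finsupp.single_eq_of_ne, smul_zero]
    intro h
    exact hw (inv_injective (mul_right_cancel h)).symm
  · exact fun h => absurd (Finset.mem_univ v) h

/-- BA14a. (`∏_i (x_j - x_i) = 0` is `x_j^(m+1)` modulo the ideal; or: `hz m 1 (m+1) ∈ I` as in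
the proof of `X_mul_ptP`, and the ideal is stable under permutations of the variables.) -/
theorem X_pow_mem (j : Fin (m + 1)) : (X j : Pol m) ^ (m + 1) ∈ symIdeal m := by
  have h1 := congrArg (Polynomial.eval (-(X j : Pol m)))
    (MvPolynomial.prod_C_add_X_eq_sum_esymm ℤ (Fin (m + 1)))
  rw [Polynomial.eval_prod, Finset.prod_eq_zero (Finset.mem_univ j) (by simp),
    Polynomial.eval_finsetSum, Finset.sum_range_succ', Fintype.card_fin] at h1
  have h2 : ∀ k ∈ Finset.range (m + 1), Polynomial.eval (-(X j : Pol m))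
      (Polynomial.C (esymm (Fin (m + 1)) ℤ (k + 1)) * Polynomial.X ^ (m + 1 - (k + 1))) ∈
      symIdeal m := by
    intro k _
    rw [Polynomial.eval_mul, Polynomial.eval_C]
    apply Ideal.mul_mem_right
    apply Ideal.subset_span
    refine ⟨esymm_isSymmetric _ _ _, ?_⟩
    unfold esymm
    rw [map_sum]
    apply Finset.sum_eq_zero
    intro t ht
    rw [Finset.mem_powersetCard_univ] at ht
    obtain ⟨a, ha⟩ := Finset.card_pos.mp (show 0 < t.card by omega)
    rw [map_prod]
    exact Finset.prod_eq_zero ha (constantCoeff_X _ a)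
  have h3 := (symIdeal m).sum_mem h2
  have h4 : (-(X j : Pol m)) ^ (m + 1) ∈ symIdeal m := by
    have h5 : (-(X j : Pol m)) ^ (m + 1) = -∑ k ∈ Finset.range (m + 1),
        Polynomial.eval (-(X j : Pol m))
        (Polynomial.C (esymm (Fin (m + 1)) ℤ (k + 1)) * Polynomial.X ^ (m + 1 - (k + 1))) := by
      have h6 : Polynomial.eval (-(X j : Pol m)) (Polynomial.C (esymm (Fin (m + 1)) ℤ 0) *
          Polynomial.X ^ (m + 1 - 0)) = (-(X j : Pol m)) ^ (m + 1) := by
        rw [Nat.sub_zero, esymm_zero]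
        simp
      rw [h6] at h1
      linear_combination -h1
    rw [h5]
    exact (symIdeal m).neg_mem h3
  have h5 : (X j : Pol m) ^ (m + 1) = (-1) ^ (m + 1) * (-(X j : Pol m)) ^ (m + 1) := by
    rw [← mul_pow]
    congr 1
    ring
  rw [h5]
  exact Ideal.mul_mem_left _ _ h4

/-- BA14b. -/
theorem isUnit_cl (f : Pol m) (h : IsUnit (constantCoeff f)) : IsUnit (cl f) := by
  have hX : ∀ j : Fin (m + 1), (cl (X j) : Coh m) ∈ nilradical (Coh m) := by
    intro j
    rw [mem_nilradical]
    refine ⟨m + 1, ?_⟩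
    unfold cl
    rw [← map_pow]
    exact Ideal.Quotient.eq_zero_iff_mem.mpr (X_pow_mem j)
  have key : ∀ f : Pol m, (cl f - cl (C (constantCoeff f)) : Coh m) ∈ nilradical (Coh m) := by
    intro f
    induction f using MvPolynomial.induction_on with
    | C a =>
      rw [constantCoeff_C, sub_self]
      exact Ideal.zero_mem _
    | add p q hp hq =>
      have h1 : (cl (p + q) - cl (C (constantCoeff (p + q))) : Coh m) =
          (cl p - cl (C (constantCoeff p))) + (cl q - cl (C (constantCoeff q))) := by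
        unfold cl
        rw [map_add, map_add, map_add, map_add]
        ring
      rw [h1]
      exact Ideal.add_mem _ hp hq
    | mul_X p j hp =>
      have h1 : (cl (p * X j) - cl (C (constantCoeff (p * X j))) : Coh m) = cl p * cl (X j) := by
        unfold cl
        rw [map_mul, map_mul, constantCoeff_X, mul_zero, map_zero, map_zero, sub_zero]
      rw [h1]
      exact Ideal.mul_mem_left _ _ (hX j)
  have h1 : IsUnit (cl (C (constantCoeff f)) : Coh m) :=
    h.map ((Ideal.Quotient.mk (symIdeal m)).comp (C : ℤ →+* Pol m))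
  have h2 := mem_nilradical.mp (key f)
  have h3 := h2.isUnit_add_left_of_commute h1 (Commute.all _ _)
  have h4 : (cl (C (constantCoeff f)) + (cl f - cl (C (constantCoeff f))) : Coh m) = cl f := by
    ring
  rwa [h4] at h3

private theorem ba15_C (C : WG m → Coh m) (w : WG m) : Phi C (bas (w⁻¹ * w0 m)) = C w := by
  rw [Phi_bas]
  congr 1
  have h2 : (w0 m)⁻¹ = w0 m := inv_eq_of_mul_eq_one_right w0_mul_w0
  rw [mul_inv_rev, inv_inv, ← mul_assoc, h2, w0_mul_w0, one_mul]

private theorem ba15_surj (C : WG m → Coh m) (hC : IsCSM C) (x : Coh m) :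
    ∃ z : VV m, Phi C z = x := by
  obtain ⟨f, hf⟩ := Ideal.Quotient.mk_surjective (C 1)
  have hf' : C 1 = cl f := hf.symm
  have h1 := act_ev_of_isCSM C hC 1 f hf'
  have h2 := act_ev_w0 f
  rw [h1, _root_.inv_one, one_mul, Finsupp.smul_apply, bas, Finsupp.single_eq_same, smul_eq_mul,
    mul_one] at h2
  have h3 : constantCoeff f = 1 := by
    have h4 : ((Perm.sign (w0 m) : ℤˣ) : ℤ) ≠ 0 := Units.ne_zero _
    have h5 : ((Perm.sign (w0 m) : ℤˣ) : ℤ) * constantCoeff f =
      ((Perm.sign (w0 m) : ℤˣ) : ℤ) * 1 := by rw [mul_one]; exact h2.symm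
    exact mul_left_cancel₀ h4 h5
  have h4 : IsUnit (cl f : Coh m) := isUnit_cl f (by rw [h3]; exact isUnit_one)
  obtain ⟨g, hg⟩ := h4.exists_left_inv
  obtain ⟨P, hP⟩ := Ideal.Quotient.mk_surjective (x * g)
  have hP' : cl P = x * g := hP
  refine ⟨act m P (bas ((1 : WG m)⁻¹ * w0 m)), ?_⟩
  rw [Phi_act C hC, ba15_C, hf', hP', mul_assoc, hg, mul_one]

/-- BA15. **The CSM classes span.**  (The span is the range of `Phi C`, an ideal by `Phi_act`; it
contains `C 1 = cl f`, and `constantCoeff f = ± 1` by `act_ev_w0`, `act_ev_of_isCSM`.) -/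
theorem span_of_isCSM (C : WG m → Coh m) (hC : IsCSM C) :
    Submodule.span ℤ (Set.range C) = ⊤ := by
  rw [eq_top_iff]
  intro x _
  obtain ⟨z, rfl⟩ := ba15_surj C hC x
  induction z using induction_bas with
  | h0 => rw [map_zero]; exact Submodule.zero_mem _
  | hadd y z hy hz => rw [map_add]; exact Submodule.add_mem _ (hy trivial) (hz trivial)
  | hb x a =>
    rw [map_smul, Phi_bas]
    exact Submodule.smul_mem _ _ (Submodule.subset_span ⟨_, rfl⟩)

/-- BA16. polynomials representing the same Schubert class have the same class in cohomology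
(`1 = Phi C z` for some `z`, `Phi_act`, `act_eq_of_isSchub`) -/
theorem cl_eq_of_isSchub (v : WG m) (P Q : Pol m) (hP : IsSchub v P) (hQ : IsSchub v Q) :
    cl P = cl Q := by
  obtain ⟨C, hC⟩ := exists_isCSM m
  obtain ⟨z, hz⟩ := ba15_surj C hC 1
  have h1 := Phi_act C hC P z
  have h2 := Phi_act C hC Q z
  rw [act_eq_of_isSchub v P Q hP hQ z, hz, mul_one] at h1
  rw [hz, mul_one] at h2
  exact h1.symm.trans h2

/-- **Main theorem.** -/
theorem main (m : ℕ) :
    ∃ C : WG m → Coh m, IsCSM C ∧ (∀ C', IsCSM C' → C' = C) ∧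
      LinearIndependent ℤ C ∧ Submodule.span ℤ (Set.range C) = ⊤ ∧
      ∃ Y : WG m → Coh m, (∀ v : WG m, ∃ P : Pol m, IsSchub v P) ∧
        (∀ (v : WG m) (P : Pol m), IsSchub v P → Y v = cl P) ∧
        ∀ v : WG m, (condA (code v) ∨ condB (code v) ∨ condA (code (w0 m * v * w0 m)) ∨
            condB (code (w0 m * v * w0 m))) →
          ∀ u : WG m, ∃ a : WG m → ℕ, Y v * C u = ∑ w, (a w : Coh m) * C w := by
  obtain ⟨C, hC⟩ := exists_isCSM m
  refine ⟨C, hC, fun C' hC' => isCSM_unique C' C hC' hC, linearIndependent_of_isCSM C hC,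
    span_of_isCSM C hC, fun v => cl (exists_isSchub v).choose, exists_isSchub, ?_, ?_⟩
  · intro v P hP
    exact cl_eq_of_isSchub v _ P (exists_isSchub v).choose_spec hP
  · intro v hv u
    have hP := (exists_isSchub v).choose_spec
    rcases hv with h | h | h | h
    · exact csm_of_adm v (adm_condA v h) _ hP C hC u
    · exact csm_of_adm v (adm_condB v h) _ hP C hC u
    · exact csm_of_adm_dual v (adm_condA _ h) _ hP C hC u
    · exact csm_of_adm_dual v (adm_condB _ h) _ hP C hC u

end H45C
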