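import Pool.Agent.Helper45.CSM.Rep

/-!
# Multiplication by `x_0 ⋯ x_{k-1}` (pieces FU1-FU6)
-/

namespace H45C

open MvPolynomial Equiv

variable {m : ℕ}

/-- the rotation of the positions: `ρ(i) = i + 1`, `ρ(m) = 0` -/
def rho (m : ℕ) : WG m := finRotate (m + 1)

/-- FU1a. existence of the relabelling `τ_k`: `j ↦ j` for `j < k`, `k ↦ m`, `j ↦ j - 1` for
`j > k` -/
theorem exists_tau (k : Fin (m + 1)) : ∃ t : WG m,
    (∀ j, j < k → t j = j) ∧ t k = Fin.last m ∧ ∀ j, k < j → ((t j : Fin (m + 1)) : ℕ) + 1 = j := by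
  let f : Fin (m + 1) → Fin (m + 1) := fun j =>
    if j < k then j else if j = k then Fin.last m else ⟨(j : ℕ) - 1, by omega⟩
  have f1 : ∀ j, j < k → f j = j := fun j hj => if_pos hj
  have f2 : f k = Fin.last m := by
    simp only [f, lt_irrefl, if_false, if_true]
  have f3 : ∀ j, k < j → ((f j : Fin (m + 1)) : ℕ) + 1 = j := by
    intro j hj
    have h1 : f j = ⟨(j : ℕ) - 1, by omega⟩ := by
      simp only [f, if_neg (not_lt.mpr hj.le), if_neg (ne_of_gt hj)]
    rw [h1]
    have h2 : (k : ℕ) < (j : ℕ) := hj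
    simp only
    omega
  have hinj : Function.Injective f := by
    intro a b hab
    have hk := k.isLt
    have ha := a.isLt
    have hb := b.isLt
    have hv : ((f a : Fin (m + 1)) : ℕ) = f b := by rw [hab]
    apply Fin.ext
    rcases lt_trichotomy a k with h1 | h1 | h1 <;> rcases lt_trichotomy b k with h2 | h2 | h2
    · rw [f1 a h1, f1 b h2] at hv
      exact hv
    · rw [f1 a h1, h2, f2, Fin.val_last] at hv
      have h3 : (a : ℕ) < (k : ℕ) := h1
      omega
    · have h4 := f3 b h2
      rw [f1 a h1] at hv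
      have h3 : (a : ℕ) < (k : ℕ) := h1
      have h5 : (k : ℕ) < (b : ℕ) := h2
      omega
    · rw [f1 b h2, h1, f2, Fin.val_last] at hv
      have h3 : (b : ℕ) < (k : ℕ) := h2
      omega
    · rw [h1, h2]
    · have h4 := f3 b h2
      rw [h1, f2, Fin.val_last] at hv
      omega
    · have h4 := f3 a h1
      rw [f1 b h2] at hv
      have h3 : (b : ℕ) < (k : ℕ) := h2
      have h5 : (k : ℕ) < (a : ℕ) := h1
      omega
    · have h4 := f3 a h1
      rw [h2, f2, Fin.val_last] at hv
      omega
    · have h4 := f3 a h1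
      have h5 := f3 b h2
      omega
  exact ⟨Equiv.ofBijective f (Finite.injective_iff_bijective.1 hinj), f1, f2, f3⟩

/-- the relabelling `τ_k` -/
noncomputable def tau (k : Fin (m + 1)) : WG m := (exists_tau k).choose

theorem tau_lt (k j : Fin (m + 1)) (h : j < k) : tau k j = j := (exists_tau k).choose_spec.1 j h

theorem tau_self (k : Fin (m + 1)) : tau k k = Fin.last m := (exists_tau k).choose_spec.2.1

theorem tau_gt (k j : Fin (m + 1)) (h : k < j) : ((tau k j : Fin (m + 1)) : ℕ) + 1 = j :=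
  (exists_tau k).choose_spec.2.2 j h

/-- deletion of the letter `k` from the first position: `x ↦ τ_k x ρ` if `x 0 = k`, `0` otherwise -/
noncomputable def del (k : Fin (m + 1)) : VV m →ₗ[ℤ] VV m :=
  Finsupp.linearCombination ℤ fun x => if x 0 = k then bas (tau k * x * rho m) else 0

theorem del_bas (k : Fin (m + 1)) (x : WG m) :
    del k (bas x) = if x 0 = k then bas (tau k * x * rho m) else 0 := by
  simp [del, bas]

/-- FU2. For a letter `i < k`, `δ_k (x_i · x) = x_i · δ_k(x)`.
Proof: if `x 0 ≠ k`: no term `swap i j * x` of `xb i x` has first letter `k` (that would need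
`j = k` and `x 0 = i`, but the terms with `j > i` have `x⁻¹ j < x⁻¹ i`).  If `x 0 = k`: the term
`j = k` is killed; for `j ≠ k` the term `j` of `xb i x` corresponds to the term `τ_k j` of
`xb i y`, `y = τ_k x ρ` (`y⁻¹ (τ_k j) = ρ⁻¹ (x⁻¹ j)`, which is order preserving on positions
`≠ 0`; `τ_k i = i`; `τ_k` preserves the order of the letters `≠ k`); the letter `m = τ_k k` of
`y` stands at the last position `m`, and gives no term of `xb i y` since `i < k ≤ m`. -/
theorem del_xb (k i : Fin (m + 1)) (hi : i < k) (x : WG m) :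
    del k (xb i x) = Xop i (del k (bas x)) := by
  have hik : i ≠ k := ne_of_lt hi
  have hx0 : ∀ a, x⁻¹ a = 0 ↔ x 0 = a := by
    intro a
    rw [Perm.inv_eq_iff_eq]
    exact eq_comm
  have hL : del k (xb i x) = ∑ j, if i < j ∧ x⁻¹ j < x⁻¹ i then
      (if swap i j (x 0) = k then bas (tau k * (swap i j * x) * rho m) else 0)
    else if j < i ∧ x⁻¹ i < x⁻¹ j then
      -(if swap i j (x 0) = k then bas (tau k * (swap i j * x) * rho m) else 0) else 0 := by
    unfold xb
    rw [map_sum]
    refine Finset.sum_congr rfl fun j _ => ?_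
    split_ifs with h1 h2 h3 h4
    · rw [del_bas, Perm.mul_apply, if_pos h2]
    · rw [del_bas, Perm.mul_apply, if_neg h2]
    · rw [map_neg, del_bas, Perm.mul_apply, if_pos h4]
    · rw [map_neg, del_bas, Perm.mul_apply, if_neg h4]
    · exact map_zero _
  rw [hL, del_bas]
  by_cases h0 : x 0 = k
  · rw [if_pos h0, Xop_bas]
    unfold xb
    have hti : tau k i = i := tau_lt k i hi
    have hy : ∀ j, (tau k * x * rho m)⁻¹ (tau k j) = (rho m)⁻¹ (x⁻¹ j) := by
      intro j
      have h1 : (tau k)⁻¹ (tau k j) = j := Equiv.symm_apply_apply _ _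
      rw [mul_inv_rev, mul_inv_rev, Perm.mul_apply, Perm.mul_apply, h1]
    have hr : ∀ p q : Fin (m + 1), p ≠ 0 → q ≠ 0 →
        ((rho m)⁻¹ p < (rho m)⁻¹ q ↔ p < q) := by
      intro p q hp hq
      have key : ∀ p : Fin (m + 1), p ≠ 0 → (p : ℕ) = ((rho m)⁻¹ p : Fin (m + 1)) + 1 := by
        intro p hp
        have h1 : (rho m)⁻¹ p ≠ Fin.last m := by
          intro h2
          apply hp
          have h3 : rho m ((rho m)⁻¹ p) = p := Equiv.apply_symm_apply _ _
          rw [h2] at h3
          rw [← h3]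
          exact finRotate_last
        have h4 := coe_finRotate_of_ne_last h1
        have h3 : finRotate (m + 1) ((rho m)⁻¹ p) = p := Equiv.apply_symm_apply _ _
        rw [h3] at h4
        exact h4
      rw [Fin.lt_def, Fin.lt_def, key p hp, key q hq]
      omega
    refine Eq.trans ?_ (Equiv.sum_comp (tau k) _)
    refine Finset.sum_congr rfl fun j _ => ?_
    by_cases hjk : j = k
    · subst hjk
      have hyl : (tau j * x * rho m)⁻¹ (tau j j) = Fin.last m := by
        rw [hy, (hx0 j).2 h0, Perm.inv_eq_iff_eq]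
        exact finRotate_last.symm
      have c1 : ¬ (i < tau j j ∧ (tau j * x * rho m)⁻¹ (tau j j) < (tau j * x * rho m)⁻¹ i) := by
        rintro ⟨-, h1⟩
        rw [hyl] at h1
        exact absurd h1 (not_lt.mpr (Fin.le_last _))
      have c2 : ¬ (tau j j < i ∧ (tau j * x * rho m)⁻¹ i < (tau j * x * rho m)⁻¹ (tau j j)) := by
        rintro ⟨h1, -⟩
        rw [tau_self] at h1
        exact absurd h1 (not_lt.mpr (Fin.le_last _))
      rw [if_neg c1, if_neg c2, h0, swap_apply_right, if_neg hik]
      split_ifs <;> simp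
    · have hsw : swap i j (x 0) = k := by
        rw [h0]
        exact swap_apply_of_ne_of_ne hik.symm (Ne.symm hjk)
      have hx1 : x⁻¹ i ≠ 0 := by
        rw [Ne, hx0, h0]
        exact hik.symm
      have hx2 : x⁻¹ j ≠ 0 := by
        rw [Ne, hx0, h0]
        exact Ne.symm hjk
      have hyi : (tau k * x * rho m)⁻¹ i = (rho m)⁻¹ (x⁻¹ i) := by
        have := hy i
        rwa [hti] at this
      have hel : tau k * (swap i j * x) * rho m = swap i (tau k j) * (tau k * x * rho m) := by
        have h1 : swap i (tau k j) * tau k = tau k * swap i j := by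
          have h2 := Equiv.mul_swap_eq_swap_mul (tau k) i j
          rw [hti] at h2
          exact h2.symm
        calc tau k * (swap i j * x) * rho m = (tau k * swap i j) * x * rho m := by
              simp only [mul_assoc]
          _ = (swap i (tau k j) * tau k) * x * rho m := by rw [h1]
          _ = _ := by simp only [mul_assoc]
      have o1 : i < tau k j ↔ i < j := by
        rcases lt_trichotomy j k with h1 | h1 | h1
        · rw [tau_lt k j h1]
        · exact absurd h1 hjk
        · have h2 := tau_gt k j h1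
          rw [Fin.lt_def, Fin.lt_def]
          have h3 : (i : ℕ) < (k : ℕ) := hi
          have h4 : (k : ℕ) < (j : ℕ) := h1
          omega
      have o2 : tau k j < i ↔ j < i := by
        rcases lt_trichotomy j k with h1 | h1 | h1
        · rw [tau_lt k j h1]
        · exact absurd h1 hjk
        · have h2 := tau_gt k j h1
          rw [Fin.lt_def, Fin.lt_def]
          have h3 : (i : ℕ) < (k : ℕ) := hi
          have h4 : (k : ℕ) < (j : ℕ) := h1
          omega
      rw [hy, hyi, ← hel]
      simp only [hr _ _ hx2 hx1, hr _ _ hx1 hx2, o1, o2, hsw, if_true]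
  · rw [if_neg h0, map_zero (Xop i)]
    refine Finset.sum_eq_zero fun j _ => ?_
    by_cases hxi : x 0 = i
    · have hxi' : x⁻¹ i = 0 := (hx0 i).2 hxi
      have c1 : ¬ (i < j ∧ x⁻¹ j < x⁻¹ i) := by
        rintro ⟨-, h1⟩
        rw [hxi'] at h1
        exact absurd h1 (not_lt.mpr (Fin.zero_le _))
      rw [if_neg c1]
      by_cases c2 : j < i ∧ x⁻¹ i < x⁻¹ j
      · rw [if_pos c2, hxi, swap_apply_left, if_neg (ne_of_lt (c2.1.trans hi)), neg_zero]
      · rw [if_neg c2]
    · have hsw : swap i j (x 0) ≠ k := by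
        by_cases hxj : x 0 = j
        · rw [hxj, swap_apply_right]
          exact hik
        · rw [swap_apply_of_ne_of_ne hxi hxj]
          exact h0
      rw [if_neg hsw, neg_zero]
      split_ifs <;> rfl

private theorem del_Xop (k i : Fin (m + 1)) (hi : i < k) (z : VV m) :
    del k (Xop i z) = Xop i (del k z) := by
  induction z using induction_bas with
  | h0 => simp
  | hadd y z hy hz => simp only [map_add, hy, hz]
  | hb x a => simp only [map_smul, Xop_bas, del_xb k i hi]

/-- FU3. `δ_k (P · z) = P · δ_k(z)` for `P ∈ ℤ[x_0, ..., x_{k-1}]`.  (`Algebra.adjoin_induction`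
or induction on the polynomial, from FU2.) -/
theorem del_act (k : Fin (m + 1)) (P : Pol m)
    (hP : P ∈ MvPolynomial.supported ℤ {i : Fin (m + 1) | i < k}) (z : VV m) :
    del k (act m P z) = act m P (del k z) := by
  rw [MvPolynomial.supported] at hP
  induction hP using Algebra.adjoin_induction generalizing z with
  | mem P hP =>
    obtain ⟨i, hi, rfl⟩ := hP
    rw [act_X_apply, act_X_apply]
    exact del_Xop k i hi z
  | algebraMap a =>
    have h : (algebraMap ℤ (Pol m)) a = C a := rfl
    rw [h, act_C_apply, act_C_apply, map_smul]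
  | add P Q _ _ h1 h2 =>
    rw [map_add, LinearMap.add_apply, LinearMap.add_apply, map_add, h1, h2]
  | mul P Q _ _ h1 h2 =>
    rw [act_mul_apply, act_mul_apply, h1, h2]

/-- the cycle `j ↦ j + 1` (`j < k`), `k ↦ 0`, with Schubert polynomial `x_0 ⋯ x_{k-1}` -/
noncomputable def cyc (k : Fin (m + 1)) : WG m := rho m * tau k

private theorem rho_val (j : Fin (m + 1)) (h : (j : ℕ) < m) :
    ((rho m j : Fin (m + 1)) : ℕ) = j + 1 := by
  unfold rho
  rw [finRotate_apply]
  exact Fin.val_add_one_of_lt (Fin.lt_def.2 (by simpa using h))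

private theorem rho_last : rho m (Fin.last m) = 0 := by
  unfold rho
  rw [finRotate_last]

private theorem cyc_lt (k j : Fin (m + 1)) (h : j < k) :
    ((cyc k j : Fin (m + 1)) : ℕ) = j + 1 := by
  have h1 : cyc k j = rho m j := by
    show rho m (tau k j) = rho m j
    rw [tau_lt k j h]
  rw [h1]
  exact rho_val j (by have := k.isLt; have : (j : ℕ) < k := h; omega)

private theorem cyc_self (k : Fin (m + 1)) : cyc k k = 0 := by
  show rho m (tau k k) = 0
  rw [tau_self, rho_last]

private theorem cyc_gt (k j : Fin (m + 1)) (h : k < j) : cyc k j = j := by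
  have h1 := tau_gt k j h
  have h2 : ((rho m (tau k j) : Fin (m + 1)) : ℕ) = (tau k j : Fin (m + 1)) + 1 :=
    rho_val _ (by have := j.isLt; omega)
  apply Fin.ext
  show ((rho m (tau k j) : Fin (m + 1)) : ℕ) = j
  rw [h2, h1]

private theorem cyc_zero : cyc (0 : Fin (m + 1)) = 1 := by
  apply Equiv.ext
  intro j
  rcases Fin.eq_zero_or_eq_succ j with rfl | ⟨i, rfl⟩
  · rw [cyc_self]
    rfl
  · rw [cyc_gt _ _ (Fin.succ_pos i)]
    rfl

private theorem cyc_val (k j : Fin (m + 1)) : ((cyc k j : Fin (m + 1)) : ℕ) =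
    if (j : ℕ) < k then (j : ℕ) + 1 else if (j : ℕ) = k then 0 else j := by
  rcases lt_trichotomy j k with h | h | h
  · have h' : (j : ℕ) < k := h
    rw [cyc_lt k j h, if_pos h']
  · subst h
    rw [cyc_self, if_neg (lt_irrefl _), if_pos rfl]
    rfl
  · have h' : (k : ℕ) < j := h
    rw [cyc_gt k j h, if_neg (by omega), if_neg (by omega)]

private theorem cyc_succ_mul (i : Fin m) : cyc i.succ * sg i = cyc i.castSucc := by
  apply Equiv.ext
  intro j
  apply Fin.ext
  have h0 : (cyc i.succ * sg i) j = cyc i.succ (sg i j) := rfl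
  rw [h0]
  by_cases h1 : j = i.castSucc
  · subst h1
    have h2 : sg i i.castSucc = i.succ := swap_apply_left _ _
    rw [h2, cyc_val, cyc_val]
    simp
  · by_cases h2 : j = i.succ
    · subst h2
      have h3 : sg i i.succ = i.castSucc := swap_apply_right _ _
      rw [h3, cyc_val, cyc_val]
      simp
    · have h3 : sg i j = j := swap_apply_of_ne_of_ne h1 h2
      have h4 : (j : ℕ) ≠ i := fun h => h1 (Fin.ext h)
      have h5 : (j : ℕ) ≠ (i : ℕ) + 1 := fun h => h2 (Fin.ext h)
      rw [h3, cyc_val, cyc_val]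
      simp only [Fin.val_succ, Fin.val_castSucc]
      split_ifs <;> omega

private theorem cyc_desc (i : Fin m) : cyc i.succ i.succ < cyc i.succ i.castSucc := by
  rw [Fin.lt_def, cyc_val, cyc_val]
  simp

private theorem cyc_asc (i j : Fin m) (h : j ≠ i) :
    cyc i.succ j.castSucc < cyc i.succ j.succ := by
  have h1 : (j : ℕ) ≠ i := fun h2 => h (Fin.ext h2)
  rw [Fin.lt_def, cyc_val, cyc_val]
  simp only [Fin.val_succ, Fin.val_castSucc]
  split_ifs <;> omega

private theorem isSchub_ff_aux (n : ℕ) : ∀ k : Fin (m + 1), (k : ℕ) = n →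
    IsSchub (cyc k) (ff m k) := by
  induction n with
  | zero =>
    intro k hk
    obtain rfl : k = 0 := Fin.ext hk
    rw [cyc_zero]
    refine isSchub_step 1 _ ?_ ?_ ?_
    · intro j hj
      exact absurd hj (not_lt.2 (Fin.castSucc_lt_succ).le)
    · intro j _
      exact dd1_eq_zero_of_inv j _ (pact_ff _ j (by simp))
    · simp [ff]
  | succ n ih =>
    intro k hk
    obtain ⟨i, rfl⟩ : ∃ i : Fin m, k = i.succ := by
      rcases Fin.eq_zero_or_eq_succ k with rfl | h
      · simp at hk
      · exact h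
    have hin : (i.castSucc : ℕ) = n := by
      simp only [Fin.val_succ] at hk
      simp only [Fin.val_castSucc]
      omega
    have hxv : xv m (i : ℕ) = X i.castSucc := by
      unfold xv
      rw [dif_pos (by omega)]
      rfl
    have hff : ff m (i.succ : Fin (m + 1)) = ff m (i : ℕ) * X i.castSucc := by
      rw [Fin.val_succ, ff, hxv]
    refine isSchub_step _ _ ?_ ?_ ?_
    · intro j hj
      have hji : j = i := by
        by_contra h
        exact absurd hj (not_lt.2 (cyc_asc i j h).le)
      subst hji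
      rw [cyc_succ_mul, hff, dd1_mul_of_inv j _ _ (pact_ff _ j (by omega)), dd1_X_left, mul_one]
      exact ih j.castSucc hin
    · intro j hj
      have hji : j ≠ i := by
        rintro rfl
        exact absurd hj (not_lt.2 (cyc_desc j).le)
      have hji' : (i : ℕ) ≠ j := fun h => hji (Fin.ext h.symm)
      exact dd1_eq_zero_of_inv j _ (pact_ff _ j (by simpa using hji'))
    · have h1 : cyc i.succ ≠ 1 := by
        intro h
        have h2 := cyc_self i.succ
        rw [h] at h2
        exact Fin.succ_ne_zero i h2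
      rw [if_neg h1, hff, map_mul, constantCoeff_X, mul_zero]

private theorem inv_cyc_aux (n : ℕ) : ∀ k : Fin (m + 1), (k : ℕ) = n → inv (cyc k) = k := by
  induction n with
  | zero =>
    intro k hk
    obtain rfl : k = 0 := Fin.ext hk
    rw [cyc_zero, inv_one]
    rfl
  | succ n ih =>
    intro k hk
    obtain ⟨i, rfl⟩ : ∃ i : Fin m, k = i.succ := by
      rcases Fin.eq_zero_or_eq_succ k with rfl | h
      · simp at hk
      · exact h
    have hin : (i.castSucc : ℕ) = n := by
      simp only [Fin.val_succ] at hk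
      simp only [Fin.val_castSucc]
      omega
    have h1 := inv_mul_sg_of_desc (cyc i.succ) i (cyc_desc i)
    rw [cyc_succ_mul, ih _ hin] at h1
    rw [← h1]
    rfl

/-- FU4. `f_k` represents `[Y(cyc k)]`, and `inv (cyc k) = k`.  Induction on `k`
(`isSchub_step`): `cyc k * s_{k-1} = cyc (k-1)`, `∂_{k-1} f_k = f_{k-1}`, the other `∂_j f_k`
vanish (`pact_ff`, `dd1_eq_zero_of_inv`). -/
theorem isSchub_ff (k : Fin (m + 1)) : IsSchub (cyc k) (ff m k) :=
  isSchub_ff_aux _ k rfl

theorem inv_cyc (k : Fin (m + 1)) : inv (cyc k) = k :=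
  inv_cyc_aux _ k rfl

/-- FU5a. `del k z` at `1` is `z` at `(cyc k)⁻¹`. -/
theorem del_apply_one (k : Fin (m + 1)) (z : VV m) : del k z 1 = z (cyc k)⁻¹ := by
  induction z using induction_bas with
  | h0 => simp
  | hadd y z hy hz => rw [map_add, Finsupp.add_apply, Finsupp.add_apply, hy, hz]
  | hb x a =>
    rw [map_smul, Finsupp.smul_apply, Finsupp.smul_apply, del_bas]
    congr 1
    by_cases hx : x = (cyc k)⁻¹
    · have h0 : x 0 = k := by
        have h2 : (rho m)⁻¹ 0 = Fin.last m := by
          rw [Perm.inv_eq_iff_eq]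
          exact finRotate_last.symm
        rw [hx, cyc, mul_inv_rev, Perm.mul_apply, h2, Perm.inv_eq_iff_eq]
        exact (tau_self k).symm
      have h1 : tau k * x * rho m = 1 := by
        rw [hx, cyc, mul_inv_rev]
        group
      rw [if_pos h0, h1, hx]
      simp [bas]
    · have h1 : tau k * x * rho m ≠ 1 := by
        intro h2
        apply hx
        rw [cyc, mul_inv_rev]
        have h3 : x = (tau k)⁻¹ * (tau k * x * rho m) * (rho m)⁻¹ := by group
        rw [h3, h2]
        group
      have h4 : (bas x : VV m) (cyc k)⁻¹ = 0 := by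
        unfold bas
        exact Finsupp.single_eq_of_ne (Ne.symm hx)
      rw [h4]
      split_ifs
      · unfold bas
        exact Finsupp.single_eq_of_ne (Ne.symm h1)
      · rfl

/-- FU5b. if `x 0 = k` then `x ↦ τ_k x ρ` lowers the number of inversions (of the inverse) by
`k` -/
theorem inv_del (k : Fin (m + 1)) (x : WG m) (h : x 0 = k) :
    inv (tau k * x * rho m)⁻¹ + k = inv x⁻¹ := by
  classical
  have hai : ∀ (e : WG m) (z : Fin (m + 1)), e (e⁻¹ z) = z := fun e z =>
    Equiv.apply_symm_apply e z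
  have hia : ∀ (e : WG m) (z : Fin (m + 1)), e⁻¹ (e z) = z := fun e z =>
    Equiv.symm_apply_apply e z
  have hτ : ∀ a b : Fin (m + 1), a ≠ k → b ≠ k → (tau k a < tau k b ↔ a < b) := by
    have aux : ∀ a b : Fin (m + 1), a ≠ k → b ≠ k → a < b → tau k a < tau k b := by
      intro a b ha hb hab
      rw [Fin.lt_def] at hab ⊢
      rcases lt_or_gt_of_ne ha with ha' | ha'
      · rw [tau_lt k a ha']
        rcases lt_or_gt_of_ne hb with hb' | hb'
        · rw [tau_lt k b hb']
          exact hab
        · have h1 := tau_gt k b hb'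
          rw [Fin.lt_def] at ha' hb'
          omega
      · have hb' : k < b := lt_trans ha' (Fin.lt_def.2 hab)
        have h1 := tau_gt k a ha'
        have h2 := tau_gt k b hb'
        omega
    intro a b ha hb
    refine ⟨fun h1 => ?_, aux a b ha hb⟩
    by_contra h2
    rcases eq_or_lt_of_le (not_lt.1 h2) with h3 | h3
    · rw [h3] at h1
      exact lt_irrefl _ h1
    · exact lt_irrefl _ (lt_trans h1 (aux b a hb ha h3))
  have hρ0 : (rho m)⁻¹ 0 = Fin.last m := by
    rw [Perm.inv_eq_iff_eq]
    exact (finRotate_last).symm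
  have hρc : ∀ p : Fin (m + 1), p ≠ 0 → (((rho m)⁻¹ p : Fin (m + 1)) : ℕ) + 1 = p := by
    intro p hp
    have h1 : (rho m)⁻¹ p ≠ Fin.last m := by
      intro h2
      rw [← hρ0] at h2
      exact hp ((rho m)⁻¹.injective h2)
    have h3 : rho m ((rho m)⁻¹ p) = p := hai _ _
    have h4 := coe_finRotate_of_ne_last h1
    rw [← h4]
    exact congrArg Fin.val h3
  have hρ : ∀ p q : Fin (m + 1), p ≠ 0 → q ≠ 0 → ((rho m)⁻¹ p < (rho m)⁻¹ q ↔ p < q) := by
    intro p q hp hq
    have h1 := hρc p hp
    have h2 := hρc q hq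
    rw [Fin.lt_def, Fin.lt_def]
    omega
  have hy : ∀ a, (tau k * x * rho m)⁻¹ (tau k a) = (rho m)⁻¹ (x⁻¹ a) := by
    intro a
    rw [mul_inv_rev, mul_inv_rev, Perm.mul_apply, Perm.mul_apply, hia]
  have hxk : x⁻¹ k = 0 := by rw [Perm.inv_eq_iff_eq, h]
  have hx0 : ∀ a, a ≠ k → x⁻¹ a ≠ 0 := by
    intro a ha h1
    rw [← hxk] at h1
    exact ha (x⁻¹.injective h1)
  have key : (Finset.univ.filter fun p : Fin (m + 1) × Fin (m + 1) =>
      p.1 < p.2 ∧ x⁻¹ p.2 < x⁻¹ p.1) =
      ((Finset.univ.filter fun p : Fin (m + 1) × Fin (m + 1) =>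
        p.1 < p.2 ∧ (tau k * x * rho m)⁻¹ p.2 < (tau k * x * rho m)⁻¹ p.1).image
        fun p => ((tau k)⁻¹ p.1, (tau k)⁻¹ p.2)) ∪ ((Finset.Iio k).image fun a => (a, k)) := by
    ext ⟨a, b⟩
    simp only [Finset.mem_filter, Finset.mem_univ, true_and, Finset.mem_union, Finset.mem_image,
      Prod.mk.injEq, Prod.exists, Finset.mem_Iio]
    constructor
    · rintro ⟨h1, h2⟩
      have ha : a ≠ k := by
        rintro rfl
        rw [hxk] at h2
        exact absurd h2 (Fin.not_lt_zero _)
      by_cases hb : b = k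
      · right
        exact ⟨a, hb ▸ h1, rfl, hb.symm⟩
      · left
        refine ⟨tau k a, tau k b, ⟨(hτ a b ha hb).2 h1, ?_⟩, hia _ _,
          hia _ _⟩
        rw [hy, hy]
        exact (hρ _ _ (hx0 b hb) (hx0 a ha)).2 h2
    · rintro (⟨a', b', ⟨h1, h2⟩, rfl, rfl⟩ | ⟨a', h1, rfl, rfl⟩)
      · have ea : tau k ((tau k)⁻¹ a') = a' := hai _ _
        have eb : tau k ((tau k)⁻¹ b') = b' := hai _ _
        set c := (tau k)⁻¹ a' with hc
        set d := (tau k)⁻¹ b' with hd
        rw [← ea, ← eb] at h1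
        rw [← ea, ← eb, hy, hy] at h2
        have hck : c ≠ k := by
          intro h3
          rw [h3, tau_self] at h1
          exact absurd (Fin.le_last _) (not_le.2 h1)
        have hdk : d ≠ k := by
          intro h3
          rw [h3, hxk, hρ0] at h2
          exact absurd (Fin.le_last _) (not_le.2 h2)
        exact ⟨(hτ c d hck hdk).1 h1, (hρ _ _ (hx0 d hdk) (hx0 c hck)).1 h2⟩
      · refine ⟨h1, ?_⟩
        rw [hxk]
        exact Fin.pos_of_ne_zero (hx0 a' h1.ne)
  have hdis : Disjoint ((Finset.univ.filter fun p : Fin (m + 1) × Fin (m + 1) =>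
        p.1 < p.2 ∧ (tau k * x * rho m)⁻¹ p.2 < (tau k * x * rho m)⁻¹ p.1).image
        fun p => ((tau k)⁻¹ p.1, (tau k)⁻¹ p.2)) ((Finset.Iio k).image fun a => (a, k)) := by
    rw [Finset.disjoint_left]
    rintro ⟨a, b⟩ h1 h2
    simp only [Finset.mem_filter, Finset.mem_univ, true_and, Finset.mem_image,
      Prod.mk.injEq, Prod.exists] at h1 h2
    obtain ⟨a', b', ⟨h3, h4⟩, -, h5⟩ := h1
    obtain ⟨-, -, -, h6⟩ := h2
    have eb : tau k ((tau k)⁻¹ b') = b' := hai _ _
    rw [h5, ← h6, tau_self] at eb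
    have h7 := hy k
    rw [tau_self, hxk, hρ0] at h7
    rw [← eb, h7] at h4
    exact absurd (Fin.le_last _) (not_le.2 h4)
  unfold inv
  rw [key, Finset.card_union_of_disjoint hdis, Finset.card_image_of_injective,
    Finset.card_image_of_injective, Fin.card_Iio]
  · intro a b hab
    exact (Prod.mk.injEq _ _ _ _ ▸ hab).1
  · rintro ⟨a, b⟩ ⟨a', b'⟩ hab
    have h1 := congrArg Prod.fst hab
    have h2 := congrArg Prod.snd hab
    exact Prod.ext ((tau k)⁻¹.injective h1) ((tau k)⁻¹.injective h2)

private theorem act_ff_one (k : Fin (m + 1)) (z : VV m)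
    (hz : ∀ y, z y ≠ 0 → inv y⁻¹ ≤ k) : act m (ff m k) z 1 = z (cyc k)⁻¹ := by
  have h0 : ∀ y : WG m, z y • act m (ff m k) (bas y) 1 = if y = (cyc k)⁻¹ then z y else 0 := by
    intro y
    by_cases hy : z y = 0
    · simp [hy]
    · have h1 := hz y hy
      have h2 := (isSchub_iff (cyc k) (ff m k) (by rw [inv_cyc]; exact ff_homog _)).1
        (isSchub_ff k) y
      rw [inv_cyc] at h2
      by_cases h3 : inv y⁻¹ = k
      · rw [h2 h3]
        by_cases h4 : y = (cyc k)⁻¹
        · rw [if_pos h4, if_pos h4, smul_eq_mul, mul_one]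
        · rw [if_neg h4, if_neg h4, smul_zero]
      · have h4 : y ≠ (cyc k)⁻¹ := by
          rintro rfl
          rw [inv_inv, inv_cyc] at h3
          exact h3 rfl
        have h5 : act m (ff m k) (bas y) 1 = 0 := by
          by_contra hne
          have h6 := act_degree _ _ (ff_homog (m := m) (k : ℕ)) _ _ hne
          omega
        rw [h5, if_neg h4, smul_zero]
  have h1 : z = z.sum fun y a => a • bas y := by
    conv_lhs => rw [← Finsupp.sum_single z]
    refine Finsupp.sum_congr fun y _ => ?_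
    rw [bas, Finsupp.smul_single, smul_eq_mul, mul_one]
  have h2 : act m (ff m k) z 1 = z.sum fun y a => a • act m (ff m k) (bas y) 1 := by
    conv_lhs => rw [h1]
    rw [map_finsuppSum, Finsupp.sum_apply]
    refine Finsupp.sum_congr fun y _ => ?_
    rw [map_smul, Finsupp.smul_apply]
  rw [h2, Finsupp.sum, Finset.sum_congr rfl fun y _ => h0 y, Finset.sum_ite_eq']
  by_cases h3 : (cyc k)⁻¹ ∈ z.support
  · rw [if_pos h3]
  · rw [if_neg h3]
    exact (Finsupp.notMem_support_iff.1 h3).symm

/-- FU6. **Multiplication by `f_k`.**  Let `v ∈ W`, let `P` be homogeneous of degree `inv v` in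
the variables `x_0, ..., x_{k-1}`, representing `[Y(v)]`, and let `w` be the permutation with
`w⁻¹ 0 = k` and `τ_k w⁻¹ ρ = v⁻¹`.  Then `f_k P` represents `[Y(w)]`.
Proof: `inv w = inv v + k` by `inv_del`.  By `isSchub_iff` let `inv x⁻¹ = inv w`.  Then
`(f_k P · x)(1) = Σ_y (P · x)(y) (f_k · y)(1)`; by `act_degree` only `y` with `inv y⁻¹ ≤ k`
occur, and `(f_k · y)(1) ≠ 0` forces `inv y⁻¹ ≥ k`, so by `isSchub_ff`, `isSchub_iff` this is
`(P · x)((cyc k)⁻¹) = del k (P · x) 1 = (P · del k x)(1)` (`del_act`); if `x 0 ≠ k` it is `0`, and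
if `x 0 = k` it is `(P · τ_k x ρ)(1)`, `= 1` iff `τ_k x ρ = v⁻¹`. -/
theorem isSchub_ff_mul (k : Fin (m + 1)) (v w : WG m) (P : Pol m) (hP : IsSchub v P)
    (hd : P.IsHomogeneous (inv v))
    (hs : P ∈ MvPolynomial.supported ℤ {i : Fin (m + 1) | i < k})
    (hw : w⁻¹ 0 = k) (hv : tau k * w⁻¹ * rho m = v⁻¹) : IsSchub w (ff m k * P) := by
  have hi : inv v + k = inv w := by
    have h1 := inv_del k w⁻¹ hw
    rwa [hv, inv_inv, inv_inv] at h1
  have hhom : (ff m k * P).IsHomogeneous (inv w) := by
    have h2 : (ff m k * P).IsHomogeneous ((k : ℕ) + inv v) := (ff_homog _).mul hd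
    rwa [show (k : ℕ) + inv v = inv w by omega] at h2
  rw [isSchub_iff w _ hhom]
  intro x hx
  have h1 : act m (ff m k * P) (bas x) 1 = act m P (del k (bas x)) 1 := by
    rw [act_mul_apply, act_ff_one, ← del_apply_one, del_act k P hs]
    intro y hy
    have h2 := act_degree P (inv v) hd x y hy
    omega
  rw [h1, del_bas]
  by_cases h0 : x 0 = k
  · rw [if_pos h0]
    have h2 := inv_del k x h0
    rw [(isSchub_iff v P hd).1 hP _ (by omega)]
    refine if_congr ?_ rfl rfl
    constructor
    · intro h3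
      rw [← hv] at h3
      exact mul_left_cancel (mul_right_cancel h3)
    · rintro rfl
      exact hv
  · rw [if_neg h0, map_zero, if_neg (fun h => h0 (by rw [h]; exact hw))]
    rfl

private theorem rho_inv_zero_cd : (rho m)⁻¹ 0 = Fin.last m := by
  rw [Perm.inv_eq_iff_eq]
  exact finRotate_last.symm

private theorem rho_inv_val_cd (x : Fin (m + 1)) (h : x ≠ 0) :
    (((rho m)⁻¹ x : Fin (m + 1)) : ℕ) + 1 = x := by
  have h1 : rho m ((rho m)⁻¹ x) = x := Equiv.apply_symm_apply _ _
  have h2 : (rho m)⁻¹ x ≠ Fin.last m := by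
    intro h3
    rw [h3] at h1
    exact h (h1.symm.trans finRotate_last)
  have h3 : ((finRotate (m + 1) ((rho m)⁻¹ x) : Fin (m + 1)) : ℕ) = ((rho m)⁻¹ x : ℕ) + 1 :=
    coe_finRotate_of_ne_last h2
  rw [← h3]
  exact congrArg Fin.val h1

private theorem rho_inv_lt_cd (x y : Fin (m + 1)) (hx : x ≠ 0) (hy : y ≠ 0) :
    (rho m)⁻¹ x < (rho m)⁻¹ y ↔ x < y := by
  have h1 := rho_inv_val_cd x hx
  have h2 := rho_inv_val_cd y hy
  rw [Fin.lt_def, Fin.lt_def]
  omega

private theorem tau_lt_tau_cd (k a b : Fin (m + 1)) (ha : a ≠ k) (hb : b ≠ k) :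
    tau k a < tau k b ↔ a < b := by
  have ha' : (a : ℕ) ≠ k := fun h => ha (Fin.ext h)
  have hb' : (b : ℕ) ≠ k := fun h => hb (Fin.ext h)
  rcases lt_or_gt_of_ne ha with h1 | h1 <;> rcases lt_or_gt_of_ne hb with h2 | h2
  · rw [tau_lt k a h1, tau_lt k b h2]
  · have h4 := tau_gt k b h2
    rw [tau_lt k a h1, Fin.lt_def, Fin.lt_def]
    rw [Fin.lt_def] at h1 h2
    omega
  · have h3 := tau_gt k a h1
    rw [tau_lt k b h2, Fin.lt_def, Fin.lt_def]
    rw [Fin.lt_def] at h1 h2
    omega
  · have h3 := tau_gt k a h1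
    have h4 := tau_gt k b h2
    rw [Fin.lt_def, Fin.lt_def]
    omega

/-- FU7. **Codes.** Let `w` be a permutation whose code is `≥ 1` at the positions `j < k` and `0`
at the positions `j ≥ k`.  Then `w⁻¹ 0 = k`, and `v = (τ_k w⁻¹ ρ)⁻¹` has the code of `w` minus
`1` at the positions `j < k`, and `0` at the positions `j ≥ k`; `inv w = inv v + k`.
(`w` is increasing on the positions `≥ k`, and `w j > 0` for `j < k` since otherwise the code
would be `0`; hence `w k = 0`.  `v j = w j - 1` for `j < k`, `v j = w (j+1) - 1` for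
`k ≤ j < m`, `v m = m`.) -/
theorem code_del (w : WG m) (k : Fin (m + 1)) (h1 : ∀ j, j < k → 1 ≤ code w j)
    (h2 : ∀ j, k ≤ j → code w j = 0) :
    w⁻¹ 0 = k ∧ (∀ j, j < k → code (tau k * w⁻¹ * rho m)⁻¹ j + 1 = code w j) ∧
      (∀ j, k ≤ j → code (tau k * w⁻¹ * rho m)⁻¹ j = 0) := by
  have hpos : ∀ j, j < k → w j ≠ 0 := by
    intro j hj h0
    have h3 := h1 j hj
    have h4 : code w j = 0 := by
      unfold code
      rw [Finset.card_eq_zero, Finset.filter_eq_empty_iff]
      intro l _ hl
      rw [h0] at hl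
      exact absurd hl.2 (not_lt.mpr (Fin.zero_le _))
    omega
  have hinc : ∀ j, k ≤ j → ∀ l, j < l → ¬ w l < w j := by
    intro j hj l hl hlt
    have h3 := h2 j hj
    unfold code at h3
    rw [Finset.card_eq_zero, Finset.filter_eq_empty_iff] at h3
    exact h3 (Finset.mem_univ l) ⟨hl, hlt⟩
  have hz : w (w⁻¹ 0) = 0 := Equiv.apply_symm_apply _ _
  have hk : w⁻¹ 0 = k := by
    rcases lt_trichotomy (w⁻¹ 0) k with h3 | h3 | h3
    · exact absurd hz (hpos _ h3)
    · exact h3
    · exfalso
      apply hinc k le_rfl _ h3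
      rw [hz]
      refine lt_of_le_of_ne (Fin.zero_le _) ?_
      intro h4
      have h5 : w (w⁻¹ 0) = w k := by rw [hz, h4]
      exact h3.ne' (w.injective h5)
  have hwk : w k = 0 := by rw [← hk]; exact hz
  have hne : ∀ j, j ≠ k → w j ≠ 0 := by
    intro j hj h3
    exact hj (w.injective (h3.trans hwk.symm))
  have hv : ∀ j, (tau k * w⁻¹ * rho m)⁻¹ (tau k j) = (rho m)⁻¹ (w j) := by
    intro j
    have h3 : (tau k)⁻¹ (tau k j) = j := Equiv.symm_apply_apply _ _
    rw [mul_inv_rev, mul_inv_rev, inv_inv, Perm.mul_apply, Perm.mul_apply, h3]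
  have hlt : ∀ a b, a ≠ k → b ≠ k →
      ((tau k * w⁻¹ * rho m)⁻¹ (tau k a) < (tau k * w⁻¹ * rho m)⁻¹ (tau k b) ↔ w a < w b) := by
    intro a b ha hb
    rw [hv, hv, rho_inv_lt_cd _ _ (hne a ha) (hne b hb)]
  have hlk : ∀ b, ¬ (tau k * w⁻¹ * rho m)⁻¹ (tau k k) < (tau k * w⁻¹ * rho m)⁻¹ (tau k b) := by
    intro b
    rw [hv, hwk, rho_inv_zero_cd]
    exact not_lt.mpr (Fin.le_last _)
  refine ⟨hk, ?_, ?_⟩
  · intro j hj
    have hjk : j ≠ k := hj.ne
    unfold code
    rw [← Finset.card_image_of_injective (Finset.univ.filter fun l : Fin (m + 1) =>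
      j < l ∧ w l < w j) (tau k).injective]
    have hkk : tau k k ∉ Finset.univ.filter fun l : Fin (m + 1) =>
        j < l ∧ (tau k * w⁻¹ * rho m)⁻¹ l < (tau k * w⁻¹ * rho m)⁻¹ j := by
      rw [Finset.mem_filter]
      intro h3
      have h4 := h3.2.2
      rw [← tau_lt k j hj] at h4
      exact hlk j h4
    rw [← Finset.card_insert_of_notMem hkk]
    congr 1
    ext x
    obtain ⟨l, rfl⟩ := (tau k).surjective x
    rw [Finset.mem_insert, Finset.mem_filter, Finset.mem_image]
    constructor
    · rintro (h3 | ⟨_, h4, h5⟩)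
      · refine ⟨k, ?_, h3.symm⟩
        rw [Finset.mem_filter]
        refine ⟨Finset.mem_univ _, hj, ?_⟩
        rw [hwk]
        exact lt_of_le_of_ne (Fin.zero_le _) (hne j hjk).symm
      · by_cases hl : l = k
        · refine ⟨k, ?_, by rw [hl]⟩
          rw [Finset.mem_filter]
          refine ⟨Finset.mem_univ _, hj, ?_⟩
          rw [hwk]
          exact lt_of_le_of_ne (Fin.zero_le _) (hne j hjk).symm
        · refine ⟨l, ?_, rfl⟩
          rw [Finset.mem_filter]
          have h6 : tau k j = j := tau_lt k j hj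
          rw [← h6] at h4 h5
          rw [h6] at h4
          rw [hlt l j hl hjk] at h5
          rw [← h6, tau_lt_tau_cd k j l hjk hl] at h4
          exact ⟨Finset.mem_univ _, h4, h5⟩
    · rintro ⟨l', h3, h4⟩
      have h5 : l' = l := (tau k).injective h4
      subst h5
      rw [Finset.mem_filter] at h3
      by_cases hl : l' = k
      · exact Or.inl (by rw [hl])
      · right
        have h6 : tau k j = j := tau_lt k j hj
        refine ⟨Finset.mem_univ _, ?_, ?_⟩
        · have h7 := (tau_lt_tau_cd k j l' hjk hl).2 h3.2.1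
          rw [h6] at h7
          exact h7
        · have h7 := (hlt l' j hl hjk).2 h3.2.2
          rw [h6] at h7
          exact h7
  · intro j hj
    unfold code
    rw [Finset.card_eq_zero, Finset.filter_eq_empty_iff]
    intro l _ hl
    obtain ⟨a, ha⟩ := (tau k).surjective j
    obtain ⟨b, hb⟩ := (tau k).surjective l
    rw [← ha, ← hb] at hl
    have hbk : b ≠ k := by
      rintro rfl
      exact hlk a hl.2
    have hak : a ≠ k := by
      rintro rfl
      have h3 := hl.1
      rw [tau_self] at h3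
      exact absurd h3 (not_lt.mpr (Fin.le_last _))
    have h3 : k ≤ a := by
      by_contra h4
      have h5 : a < k := not_le.mp h4
      rw [tau_lt k a h5] at ha
      rw [ha] at h5
      exact absurd hj (not_le.mpr h5)
    exact hinc a h3 b ((tau_lt_tau_cd k a b hak hbk).1 hl.1) ((hlt b a hbk hak).1 hl.2)

end H45C
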