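import Pool.Agent.Helper45.CSM.PosTwo
import Pool.Agent.Helper45.CSM.FMul

/-!
# Admissible permutations (pieces AD1-AD4)
-/

namespace H45C

open MvPolynomial Equiv

variable {m : ℕ}

/-- there is a good polynomial representing `[Y(v)]` -/
def Adm (v : WG m) : Prop :=
  ∃ P : Pol m, P.IsHomogeneous (inv v) ∧ IsSchub v P ∧ PP P ∧
    ∀ K : ℕ, (∀ j : Fin (m + 1), K ≤ (j : ℕ) → code v j = 0) →
      P ∈ MvPolynomial.supported ℤ {i : Fin (m + 1) | (i : ℕ) < K}

/-- AD1. code supported at two positions `i < j` with `i = 0` or `(i, j) = (1, 2)`.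
(`P = p2 m (i+1) (j+1) (code v i) (code v j)`; `isSchub_p2`, `p2_homog`, `sum_code`; positivity
`PP_p2_one`, `PP_p2_two`; support: `hz_supp`, and `p2_a_zero`, `p2_b_zero` if an entry of the code
is zero.) -/
theorem adm_two (v : WG m) (i j : Fin (m + 1)) (hij : i < j)
    (h : ∀ k, k ≠ i → k ≠ j → code v k = 0)
    (h' : (i : ℕ) = 0 ∨ ((i : ℕ) = 1 ∧ (j : ℕ) = 2)) : Adm v := by
  have hij' : (i : ℕ) < j := hij
  have hsum : inv v = code v i + code v j := by
    rw [← sum_code, Finset.sum_eq_add i j hij.ne (fun k _ hk => h k hk.1 hk.2)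
      (fun hi => absurd (Finset.mem_univ i) hi) (fun hj => absurd (Finset.mem_univ j) hj)]
  refine ⟨p2 m ((i : ℕ) + 1) ((j : ℕ) + 1) (code v i) (code v j), ?_, isSchub_p2 v i j hij h, ?_,
    ?_⟩
  · rw [hsum]
    exact p2_homog _ _ _ _
  · rcases h' with hi | ⟨hi, hj⟩
    · rw [hi]
      exact PP_p2_one _ _ _ (by omega) (by have := j.isLt; omega)
    · rw [hi, hj]
      exact PP_p2_two (by have := j.isLt; omega) _ _
  · intro K hK
    have hmono : ∀ (a : ℕ) (k : ℤ), a ≤ K →
        hz m a k ∈ MvPolynomial.supported ℤ {i : Fin (m + 1) | (i : ℕ) < K} := by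
      intro a k ha
      refine MvPolynomial.supported_mono ?_ (hz_supp a k)
      intro i hi
      have hi' : (i : ℕ) < a := hi
      exact lt_of_lt_of_le hi' ha
    by_cases hb : code v j = 0
    · rw [hb, p2_b_zero]
      by_cases ha : code v i = 0
      · rw [ha]
        have h1 : hz m ((i : ℕ) + 1) ((0 : ℕ) : ℤ) = 1 := hz_zero_right _
        rw [h1]
        exact Subalgebra.one_mem _
      · apply hmono
        by_contra hc
        exact ha (hK i (by omega))
    · have hjK : (j : ℕ) + 1 ≤ K := by
        by_contra hc
        exact hb (hK j (by omega))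
      unfold p2
      exact Subalgebra.sub_mem _
        (Subalgebra.mul_mem _ (hmono _ _ (by omega)) (hmono _ _ hjK))
        (Subalgebra.mul_mem _ (hmono _ _ (by omega)) (hmono _ _ hjK))

/-- AD2. Adding `1` to the first `k` entries of the code.  (`isSchub_ff_mul`, `PP_ff`, `ff_homog`,
`ff_supp`, `inv_del`.) -/
theorem adm_step (w : WG m) (k : Fin (m + 1)) (h1 : ∀ j, j < k → 1 ≤ code w j)
    (h2 : ∀ j, k ≤ j → code w j = 0) (h : Adm (tau k * w⁻¹ * rho m)⁻¹) : Adm w := by
  obtain ⟨P, hhom, hsch, hpp, hsup⟩ := h
  obtain ⟨hw, -, hc2⟩ := code_del w k h1 h2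
  have hinv := inv_del k w⁻¹ hw
  rw [inv_inv] at hinv
  have hPk : P ∈ MvPolynomial.supported ℤ {i : Fin (m + 1) | i < k} :=
    hsup k fun j hj => hc2 j hj
  refine ⟨ff m k * P, ?_, ?_, ?_, ?_⟩
  · have h3 := (ff_homog (m := m) (k : ℕ)).mul hhom
    have h4 : (k : ℕ) + inv (tau k * w⁻¹ * rho m)⁻¹ = inv w := by omega
    rw [← h4]
    exact h3
  · exact isSchub_ff_mul k _ w P hsch hhom hPk hw (inv_inv _).symm
  · exact (PP_ff _).mul hpp
  · intro K hK
    have hkK : (k : ℕ) ≤ K := by
      by_contra hlt
      have hlt' : K < (k : ℕ) := not_le.1 hlt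
      have hKm : K < m + 1 := hlt'.trans k.isLt
      have h3 := h1 ⟨K, hKm⟩ hlt'
      rw [hK ⟨K, hKm⟩ le_rfl] at h3
      exact absurd h3 (by norm_num)
    refine Subalgebra.mul_mem _ (MvPolynomial.supported_mono ?_ (ff_supp (k : ℕ))) ?_
    · intro i hi
      exact lt_of_lt_of_le (show (i : ℕ) < k from hi) hkK
    · exact hsup K fun j hj => hc2 j (hkK.trans hj)

/-- AD3. Condition (A) implies admissibility.  Strong induction on `inv v` (`= Σ code`).  Let `k` be
the number of positions up to the last nonzero entry of the code (`code v (k-1) ≥ 1`,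
`code v j = 0` for `j ≥ k`; `k ≤ m` by `code_last`).  If all entries at positions `< k` are `≥ 1`
and `k ≥ 1`: `adm_step` and `code_del` (the code of the smaller permutation again satisfies (A)).
Otherwise `k ≤ 3`, some entry at a position `< k` is zero, and `adm_two` applies (the identity is
included in `adm_two`; if `m ≤ 1` there are at most two positions; `m = 0`: only the identity, where
`P = 1` works, `adm_one`). -/
theorem adm_one : Adm (1 : WG m) := by
  refine ⟨1, ?_, ?_, PP.one, fun K _ => Subalgebra.one_mem _⟩
  · rw [inv_one]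
    exact isHomogeneous_one _ _
  · refine isSchub_step 1 1 (fun k hk => ?_) (fun k _ => ?_) (by simp)
    · have h1 : k.succ < k.castSucc := hk
      exact absurd h1 (not_lt.2 (Fin.castSucc_lt_succ).le)
    · have h1 : (1 : Pol m) = C 1 := (map_one C).symm
      rw [h1, dd1_C]

theorem adm_condA (v : WG m) (h : condA (code v)) : Adm v := by
  classical
  induction hn : inv v using Nat.strong_induction_on generalizing v with
  | _ n ih =>
    by_cases hv : v = 1
    · rw [hv]
      exact adm_one
    · have hex : ∃ j, code v j ≠ 0 := by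
        by_contra hc
        push Not at hc
        exact hv (eq_one_of_code v hc)
      obtain ⟨p, hp, hmax⟩ : ∃ p, code v p ≠ 0 ∧ ∀ j, p < j → code v j = 0 := by
        have hne : (Finset.univ.filter fun j => code v j ≠ 0).Nonempty := by
          obtain ⟨j, hj⟩ := hex
          exact ⟨j, by simpa using hj⟩
        refine ⟨_, (Finset.mem_filter.1 (Finset.max'_mem _ hne)).2, ?_⟩
        intro j hj
        by_contra hc
        exact absurd (Finset.le_max' _ j (Finset.mem_filter.2 ⟨Finset.mem_univ _, hc⟩))
          (not_le.2 hj)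
      have hpm : (p : ℕ) < m := by
        have h1 : p ≠ Fin.last m := fun he => hp (by rw [he, code_last])
        have h2 : (p : ℕ) ≠ m := fun he => h1 (Fin.ext he)
        have := p.isLt
        omega
      have h0 : ∀ j : Fin (m + 1), (p : ℕ) + 1 ≤ j → code v j = 0 :=
        fun j hj => hmax j (by rw [Fin.lt_def]; omega)
      by_cases hall : ∀ j : Fin (m + 1), j ≤ p → 1 ≤ code v j
      · have h1 : ∀ j : Fin (m + 1), j < (⟨p + 1, by omega⟩ : Fin (m + 1)) → 1 ≤ code v j :=
          fun j hj => hall j (by rw [Fin.lt_def] at hj; rw [Fin.le_def]; simp at hj; omega)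
        have h2 : ∀ j : Fin (m + 1), (⟨p + 1, by omega⟩ : Fin (m + 1)) ≤ j → code v j = 0 :=
          fun j hj => h0 j (by rw [Fin.le_def] at hj; simpa using hj)
        refine adm_step v _ h1 h2 ?_
        obtain ⟨_, hc1, hc2⟩ := code_del v _ h1 h2
        refine ih _ ?_ _ ?_ rfl
        · rw [← hn, ← sum_code, ← sum_code]
          refine Finset.sum_lt_sum ?_ ⟨p, Finset.mem_univ _, ?_⟩
          · intro j _
            by_cases hj : j < (⟨p + 1, by omega⟩ : Fin (m + 1))
            · have := hc1 j hj
              omega
            · rw [hc2 j (not_lt.1 hj)]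
              exact Nat.zero_le _
          · have := hc1 p (by rw [Fin.lt_def]; simp)
            omega
        · intro j l hjl hl
          by_cases hlk : l < (⟨p + 1, by omega⟩ : Fin (m + 1))
          · have e1 := hc1 l hlk
            have e2 := hc1 j (lt_trans hjl hlk)
            have e3 := h j l hjl hl
            omega
          · rw [hc2 l (not_lt.1 hlk)]
            exact Nat.zero_le _
      · push Not at hall
        obtain ⟨q, hqp, hq⟩ := hall
        have hq0 : code v q = 0 := by omega
        have hqp' : (q : ℕ) < p := by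
          have h1 : q ≠ p := fun he => hp (by rw [← he, hq0])
          have h2 : (q : ℕ) ≠ p := fun he => h1 (Fin.ext he)
          rw [Fin.le_def] at hqp
          omega
        have hp3 : (p : ℕ) < 3 := by
          by_contra hc
          have h1 := h q p (by rw [Fin.lt_def]; omega) (by omega)
          omega
        have hval : ∀ k : Fin (m + 1), (k : ℕ) = q → code v k = 0 := by
          intro k hk
          rw [Fin.ext hk, hq0]
        obtain hcase | hcase | hcase : ((p : ℕ) = 1 ∧ (q : ℕ) = 0) ∨ ((p : ℕ) = 2 ∧ (q : ℕ) = 0) ∨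
            ((p : ℕ) = 2 ∧ (q : ℕ) = 1) := by omega
        · refine adm_two v q p (by rw [Fin.lt_def]; omega) ?_ (Or.inl hcase.2)
          intro k hk1 hk2
          have e1 : (k : ℕ) ≠ q := fun he => hk1 (Fin.ext he)
          have e2 : (k : ℕ) ≠ p := fun he => hk2 (Fin.ext he)
          exact h0 k (by omega)
        · refine adm_two v ⟨1, by omega⟩ p (by rw [Fin.lt_def]; simp; omega) ?_
            (Or.inr ⟨rfl, hcase.1⟩)
          intro k hk1 hk2
          have e1 : (k : ℕ) ≠ 1 := fun he => hk1 (Fin.ext he)
          have e2 : (k : ℕ) ≠ p := fun he => hk2 (Fin.ext he)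
          rcases Nat.lt_or_ge (p : ℕ) k with hk | hk
          · exact h0 k (by omega)
          · exact hval k (by omega)
        · refine adm_two v ⟨0, by omega⟩ p
            (by rw [Fin.lt_def]; show 0 < (p : ℕ); omega) ?_ (Or.inl rfl)
          intro k hk1 hk2
          have e1 : (k : ℕ) ≠ 0 := fun he => hk1 (Fin.ext he)
          have e2 : (k : ℕ) ≠ p := fun he => hk2 (Fin.ext he)
          rcases Nat.lt_or_ge (p : ℕ) k with hk | hk
          · exact h0 k (by omega)
          · exact hval k (by omega)

/-- AD4. Condition (B) implies admissibility.  Similar: let `r` be as in (B).  If `code v j ≥ 1` for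
all `j < k` where `k` is as above and `k ≥ 1`, use `adm_step` (if `k ≤ r` the smaller code satisfies
(B) with the same `r`: here all middle entries must vanish if `k ≤ r`, hence `r = 1` or `k = 0`...).
Otherwise an entry before the last nonzero one vanishes, so all entries behind `r` and all middle
entries vanish, and `adm_two` applies with `i = 0`, `j = r`. -/
theorem adm_condB (v : WG m) (h : condB (code v)) : Adm v := by
  classical
  induction hn : inv v using Nat.strong_induction_on generalizing v with
  | _ n ih =>
    by_cases hz : ∀ j, code v j = 0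
    · rw [eq_one_of_code v hz]
      exact adm_one
    push Not at hz
    obtain ⟨j1, hj1⟩ := hz
    obtain ⟨r, hr0, hC1, hC2⟩ := h
    have hSne : (Finset.univ.filter fun j : Fin (m + 1) => code v j ≠ 0).Nonempty :=
      ⟨j1, by simp [hj1]⟩
    obtain ⟨p, hpS, hpmax⟩ : ∃ p ∈ (Finset.univ.filter fun j : Fin (m + 1) => code v j ≠ 0),
        ∀ j ∈ (Finset.univ.filter fun j : Fin (m + 1) => code v j ≠ 0), j ≤ p :=
      ⟨_, Finset.max'_mem _ hSne, fun j hj => Finset.le_max' _ j hj⟩
    have hp : code v p ≠ 0 := (Finset.mem_filter.mp hpS).2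
    have hp0 : ∀ j, p < j → code v j = 0 := by
      intro j hj
      by_contra hc
      exact absurd (hpmax j (Finset.mem_filter.mpr ⟨Finset.mem_univ _, hc⟩)) (not_le.mpr hj)
    have hpm : (p : ℕ) < m := by
      by_contra hc
      have h1 : p = Fin.last m := by
        apply Fin.ext
        have := p.isLt
        simp only [Fin.val_last]
        omega
      exact hp (h1 ▸ code_last v)
    obtain ⟨k, hk⟩ : ∃ k : Fin (m + 1), (k : ℕ) = p + 1 := ⟨⟨p + 1, by omega⟩, rfl⟩
    have hpk : ∀ j : Fin (m + 1), j < k → j ≤ p := by
      intro j hj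
      rw [Fin.lt_def] at hj
      rw [Fin.le_def]
      omega
    have hkp : ∀ j : Fin (m + 1), k ≤ j → p < j := by
      intro j hj
      rw [Fin.le_def] at hj
      rw [Fin.lt_def]
      omega
    have hpk' : p < k := by
      rw [Fin.lt_def]
      omega
    by_cases hA : ∀ j, j < k → 1 ≤ code v j
    · have h2 : ∀ j, k ≤ j → code v j = 0 := fun j hj => hp0 j (hkp j hj)
      obtain ⟨_, hd1, hd2⟩ := code_del v k hA h2
      refine adm_step v k hA h2 (ih _ ?_ _ ?_ rfl)
      · rw [← hn, ← sum_code, ← sum_code]
        apply Finset.sum_lt_sum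
        · intro j _
          by_cases hj : j < k
          · have := hd1 j hj
            omega
          · rw [hd2 j (not_lt.mp hj)]
            exact Nat.zero_le _
        · refine ⟨p, Finset.mem_univ _, ?_⟩
          have := hd1 p hpk'
          omega
      · refine ⟨r, hr0, ?_, ?_⟩
        · intro j l hjl hrl
          by_cases hl : l < k
          · have e1 := hd1 l hl
            have e2 := hd1 j (hjl.trans hl)
            have e3 := hC1 j l hjl hrl
            omega
          · rw [hd2 l (not_lt.mp hl)]
            exact Nat.zero_le _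
        · intro j l hj0 hjr hlr
          by_cases hj : j < k
          · have e3 := hC2 j l hj0 hjr hlr
            by_cases hl : l < k
            · have e1 := hd1 l hl
              have e2 := hd1 j hj
              omega
            · have e1 := h2 l (not_lt.mp hl)
              have e2 := hA j hj
              omega
          · rw [hd2 j (not_lt.mp hj)]
            exact Nat.zero_le _
    · push Not at hA
      obtain ⟨j0, hj0k, hj0⟩ := hA
      have hj00 : code v j0 = 0 := by omega
      have hj0p : j0 < p := by
        refine lt_of_le_of_ne (hpk j0 hj0k) ?_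
        intro hc
        exact hp (hc ▸ hj00)
      have hpr : p ≤ r := by
        by_contra hc
        have := hC1 j0 p hj0p (not_le.mp hc)
        omega
      refine adm_two v 0 r hr0 ?_ (Or.inl rfl)
      intro l hl0 hlr
      rcases lt_or_gt_of_ne hlr with h1 | h1
      · have h3 : (0 : Fin (m + 1)) < l := Fin.pos_iff_ne_zero.mpr hl0
        have := hC2 l j0 h3 h1 (hj0p.le.trans hpr)
        omega
      · exact hp0 l (lt_of_le_of_lt hpr h1)

end H45C
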