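import Pool.Agent.Helper45.CSM.Mod

/-!
# The cone of polynomials acting nonnegatively; the reduction rule (pieces CO1-CO3)
-/

namespace H45C

open MvPolynomial Equiv

variable {m : ℕ}

/-- nonnegative vectors -/
def NN (z : VV m) : Prop := ∀ x, 0 ≤ z x

/-- `P · x ≥ 0` for all `x ∈ W` -/
def PP (P : Pol m) : Prop := ∀ x, NN (act m P (bas x))

theorem NN.zero : NN (0 : VV m) := fun _ => le_rfl

theorem NN.add {y z : VV m} (hy : NN y) (hz : NN z) : NN (y + z) := fun x => by
  simpa using add_nonneg (hy x) (hz x)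

theorem NN.smul {a : ℤ} (ha : 0 ≤ a) {z : VV m} (hz : NN z) : NN (a • z) := fun x => by
  simpa using mul_nonneg ha (hz x)

theorem NN.sum {ι : Type*} (s : Finset ι) (f : ι → VV m) (h : ∀ i ∈ s, NN (f i)) :
    NN (∑ i ∈ s, f i) := fun x => by
  rw [Finsupp.finsetSum_apply]
  exact Finset.sum_nonneg fun i hi => h i hi x

theorem NN.bas (x : WG m) : NN (bas x) := fun y => by
  unfold H45C.bas
  rw [Finsupp.single_apply]
  split_ifs <;> norm_num

theorem NN.lm {z : VV m} (hz : NN z) (g : WG m) : NN (lm g z) := fun x => by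
  rw [lm_apply]
  exact hz _

theorem vec_eq_sum (z : VV m) : z = z.sum fun x a => a • bas x := by
  conv_lhs => rw [← Finsupp.sum_single z]
  simp [bas]

/-- a linear map that is nonnegative on basis vectors is nonnegative on nonnegative vectors -/
theorem NN.map {f : Module.End ℤ (VV m)} (hf : ∀ x, NN (f (H45C.bas x))) {z : VV m} (hz : NN z) :
    NN (f z) := by
  rw [vec_eq_sum z, Finsupp.sum, map_sum]
  apply NN.sum
  intro x _
  rw [map_smul]
  exact NN.smul (hz x) (hf x)

theorem PP.act {P : Pol m} (hP : PP P) {z : VV m} (hz : NN z) : NN (H45C.act m P z) :=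
  NN.map hP hz

theorem PP.mul {P Q : Pol m} (hP : PP P) (hQ : PP Q) : PP (P * Q) := fun x => by
  rw [act_mul_apply]
  exact hP.act (hQ x)

theorem PP.add {P Q : Pol m} (hP : PP P) (hQ : PP Q) : PP (P + Q) := fun x => by
  rw [map_add]
  exact NN.add (hP x) (hQ x)

theorem PP.one : PP (1 : Pol m) := fun x => by
  rw [map_one]
  exact NN.bas x

/-- **CO1, the reduction rule.** If `P` is invariant under `s_k` for `k ∈ J`, then it is enough to
know `P · x ≥ 0` for those `x` with `x⁻¹ k < x⁻¹ (k+1)` for all `k ∈ J`.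
Proof: induction on `inv x⁻¹`.  If `x⁻¹ (k+1) < x⁻¹ k` for some `k ∈ J`, put `y = s_k x`; then
`y⁻¹ = x⁻¹ s_k` has one inversion less (`inv_mul_sg_of_desc`), and
`P · x = P · (s_k y) = s_k (P · y)` by `act_sg` (`∂_k P = 0`). -/
theorem PP_of_min (J : Fin m → Prop) (P : Pol m) (hP : ∀ k, J k → pact (sg k) P = P)
    (h : ∀ x : WG m, (∀ k, J k → x⁻¹ k.castSucc < x⁻¹ k.succ) → NN (act m P (bas x))) :
    PP P := by
  have key : ∀ (n : ℕ) (x : WG m), inv x⁻¹ = n → NN (act m P (bas x)) := by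
    intro n
    induction n using Nat.strong_induction_on with
    | _ n ih =>
      intro x hx
      by_cases hk : ∀ k, J k → x⁻¹ k.castSucc < x⁻¹ k.succ
      · exact h x hk
      · push Not at hk
        obtain ⟨k, hJ, hk⟩ := hk
        have hlt : x⁻¹ k.succ < x⁻¹ k.castSucc :=
          lt_of_le_of_ne hk fun he =>
            castSucc_ne_succ k ((Equiv.injective x⁻¹ he).symm)
        have h1 := inv_mul_sg_of_desc x⁻¹ k hlt
        have h2 : (sg k * x)⁻¹ = x⁻¹ * sg k := by rw [mul_inv_rev, sg_inv]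
        have h3 := ih (inv (x⁻¹ * sg k)) (by omega) (sg k * x) (by rw [h2])
        have h4 : bas x = lm (sg k) (bas (sg k * x)) := by
          rw [lm_bas, ← mul_assoc, sg_mul_self, one_mul]
        rw [h4, act_sg, hP k hJ, dd1_eq_zero_of_inv k P (hP k hJ), map_zero,
          LinearMap.zero_apply, add_zero]
        exact h3.lm _
  exact fun x => key _ x rfl

/-- CO2. if all letters `j < i` stand to the left of the letter `i`, then `x_i · x ≥ 0` -/
theorem NN_Xop_of_min (i : Fin (m + 1)) (x : WG m) (h : ∀ j, j < i → x⁻¹ j < x⁻¹ i) :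
    NN (Xop i (bas x)) := by
  rw [Xop_bas]
  unfold xb
  apply NN.sum
  intro j _
  by_cases h1 : i < j ∧ x⁻¹ j < x⁻¹ i
  · rw [if_pos h1]
    exact NN.bas _
  · rw [if_neg h1]
    by_cases h2 : j < i ∧ x⁻¹ i < x⁻¹ j
    · exact absurd (h j h2.1) (not_lt.mpr h2.2.le)
    · rw [if_neg h2]
      exact NN.zero

/-- `x_j`, or `0` if `j > m` -/
noncomputable def xv (m : ℕ) (j : ℕ) : Pol m := if h : j < m + 1 then X ⟨j, h⟩ else 0

/-- `f_k = x_0 x_1 ⋯ x_{k-1}` -/
noncomputable def ff (m : ℕ) : ℕ → Pol m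
  | 0 => 1
  | k + 1 => ff m k * xv m k

private theorem pact_xv_ne (j : Fin m) (i : ℕ) (h1 : i ≠ (j : ℕ)) (h2 : i ≠ (j : ℕ) + 1) :
    pact (sg j) (xv m i) = xv m i := by
  unfold xv
  split_ifs with h
  · rw [pact_X, sg, swap_apply_of_ne_of_ne]
    · intro h3
      exact h1 (by simpa using congrArg Fin.val h3)
    · intro h3
      exact h2 (by simpa using congrArg Fin.val h3)
  · rw [map_zero]

private theorem xv_castSucc (j : Fin m) : xv m (j : ℕ) = X j.castSucc := by
  unfold xv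
  rw [dif_pos (by have := j.2; omega)]
  congr 1

private theorem xv_succ (j : Fin m) : xv m ((j : ℕ) + 1) = X j.succ := by
  unfold xv
  rw [dif_pos (by have := j.2; omega)]
  congr 1

private theorem pact_ff_le (j : Fin m) (k : ℕ) (h : k ≤ (j : ℕ)) :
    pact (sg j) (ff m k) = ff m k := by
  induction k with
  | zero => simp [ff]
  | succ k ih =>
    rw [ff, map_mul, ih (by omega), pact_xv_ne j k (by omega) (by omega)]

private theorem pact_ff_ge (j : Fin m) (d : ℕ) :
    pact (sg j) (ff m ((j : ℕ) + 2 + d)) = ff m ((j : ℕ) + 2 + d) := by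
  induction d with
  | zero =>
    have h : ff m ((j : ℕ) + 2 + 0) = ff m (j : ℕ) * xv m (j : ℕ) * xv m ((j : ℕ) + 1) := rfl
    rw [h, xv_castSucc, xv_succ, map_mul, map_mul, pact_ff_le j (j : ℕ) le_rfl, pact_X, pact_X,
      sg, swap_apply_left, swap_apply_right]
    ring
  | succ d ih =>
    have h : ff m ((j : ℕ) + 2 + (d + 1)) =
        ff m ((j : ℕ) + 2 + d) * xv m ((j : ℕ) + 2 + d) := rfl
    rw [h, map_mul, ih, pact_xv_ne j _ (by omega) (by omega)]

/-- CO3. `f_k` is invariant under `s_j` unless `j = k - 1`. -/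
theorem pact_ff (k : ℕ) (j : Fin m) (h : k ≠ (j : ℕ) + 1) : pact (sg j) (ff m k) = ff m k := by
  rcases Nat.lt_or_ge (j : ℕ) k with h1 | h1
  · obtain ⟨d, rfl⟩ : ∃ d, k = (j : ℕ) + 2 + d := ⟨k - (j : ℕ) - 2, by omega⟩
    exact pact_ff_ge j d
  · exact pact_ff_le j k h1

private theorem chain_lt (x : WG m) (k : ℕ) (hk : k < m + 1)
    (h : ∀ j : Fin m, (j : ℕ) + 1 ≤ k → x⁻¹ j.castSucc < x⁻¹ j.succ) (d a : ℕ)
    (hd : a + d + 1 ≤ k) :
    x⁻¹ (⟨a, by omega⟩ : Fin (m + 1)) < x⁻¹ (⟨a + d + 1, by omega⟩ : Fin (m + 1)) := by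
  induction d with
  | zero => exact h ⟨a, by omega⟩ (by simpa using hd)
  | succ d ih =>
    exact (ih (by omega)).trans (h ⟨a + d + 1, by omega⟩
      (show a + d + 1 + 1 ≤ k by omega))

/-- CO4. `f_k ∈ PP`.  Induction on `k`: use `PP_of_min` with `J j := (j : ℕ) + 1 ≤ k` for
`f_{k+1} = f_k x_k` (`pact_ff`), then `f_{k+1} · x = f_k · (x_k · x)` and
`NN_Xop_of_min`: the hypothesis gives `x⁻¹ 0 < x⁻¹ 1 < ⋯ < x⁻¹ k`. -/
theorem PP_ff (k : ℕ) : PP (ff m k) := by
  induction k with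
  | zero => exact PP.one
  | succ k ih =>
    by_cases hk : k < m + 1
    · refine PP_of_min (fun j => (j : ℕ) + 1 ≤ k) _ (fun j hj => pact_ff (k + 1) j (by omega)) ?_
      intro x hx
      have h1 : ff m (k + 1) = ff m k * X ⟨k, hk⟩ := by
        rw [ff, xv, dif_pos hk]
      rw [h1, act_mul_apply, act_X_apply]
      refine PP.act ih (NN_Xop_of_min _ x fun j hj => ?_)
      have hj' : (j : ℕ) < k := hj
      have h2 := chain_lt x k hk hx (k - (j : ℕ) - 1) (j : ℕ) (by omega)
      have h3 : (⟨(j : ℕ) + (k - (j : ℕ) - 1) + 1, by omega⟩ : Fin (m + 1)) = ⟨k, hk⟩ :=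
        Fin.ext (by simp only; omega)
      rw [h3] at h2
      exact h2
    · have h1 : ff m (k + 1) = 0 := by
        rw [ff, xv, dif_neg hk, mul_zero]
      intro x
      rw [h1, map_zero]
      exact NN.zero

end H45C
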