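import Pool.Agent.Helper45.CSM.Rep

/-!
# The symmetry of the Dynkin diagram (pieces DU1-DU4)
-/

namespace H45C

open MvPolynomial Equiv

variable {m : ℕ}

/-- `x_j ↦ -x_{m-j}` -/
noncomputable def th (m : ℕ) : Pol m →ₐ[ℤ] Pol m := aeval fun j => -X (Fin.rev j)

/-- DU1. `∂_k θ = θ ∂_{m-1-k}`.  (By `dd1_unique`: `θ(x_{k'} - x_{k'+1}) = x_k - x_{k+1}` for
`k' = rev k`, and `s_k θ = θ s_{k'}`.) -/
theorem dd1_th (k : Fin m) (P : Pol m) : dd1 k (th m P) = th m (dd1 (Fin.rev k) P) := by
  have hX : ∀ j : Fin (m + 1), th m (X j) = -X (Fin.rev j) := fun j => by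
    simp [th]
  have hrt : th m (rt (Fin.rev k)) = rt k := by
    rw [rt, map_sub, hX, hX, Fin.rev_castSucc, Fin.rev_succ, Fin.rev_rev, rt]
    ring
  have hsg : ∀ j : Fin (m + 1), sg k (Fin.rev j) = Fin.rev (sg (Fin.rev k) j) := by
    intro j
    have h1 : Fin.rev (swap (Fin.rev k).castSucc (Fin.rev k).succ j)
        = swap (Fin.rev (Fin.rev k).castSucc) (Fin.rev (Fin.rev k).succ) (Fin.rev j) :=
      (Function.Injective.map_swap Fin.rev_injective _ _ _)
    rw [sg, sg, h1, Fin.rev_castSucc, Fin.rev_succ, Fin.rev_rev, swap_comm]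
  have hcomm : pact (sg k) (th m P) = th m (pact (sg (Fin.rev k)) P) := by
    have : (pact (sg k)).comp (th m) = (th m).comp (pact (sg (Fin.rev k))) := by
      apply MvPolynomial.algHom_ext
      intro j
      rw [AlgHom.comp_apply, AlgHom.comp_apply, hX, map_neg, pact_X, pact_X, hX, hsg]
    exact DFunLike.congr_fun this P
  apply dd1_unique
  rw [← hrt, ← map_mul, dd1_spec, map_sub, hcomm]

/-- DU2a. -/
theorem w0_sg (k : Fin m) : w0 m * sg k * w0 m = sg (Fin.rev k) := by
  have h0 : w0 m * w0 m = 1 := by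
    ext j
    simp [w0, Perm.mul_apply]
  rw [sg, Equiv.mul_swap_eq_swap_mul, mul_assoc, h0, mul_one, w0, Fin.revPerm_apply,
    Fin.revPerm_apply, Fin.rev_castSucc, Fin.rev_succ, swap_comm, sg]

/-- DU2b. -/
theorem inv_w0_conj (v : WG m) : inv (w0 m * v * w0 m) = inv v := by
  unfold inv
  apply Finset.card_bij (fun p _ => (Fin.rev p.2, Fin.rev p.1))
  · intro p hp
    rw [Finset.mem_filter] at hp ⊢
    obtain ⟨_, h1, h2⟩ := hp
    refine ⟨Finset.mem_univ _, Fin.rev_lt_rev.mpr h1, ?_⟩
    simp only [w0, Perm.mul_apply, Fin.revPerm_apply] at h2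
    exact Fin.rev_lt_rev.mp h2
  · intro p _ q _ h
    simp only [Prod.mk.injEq, Fin.rev_inj] at h
    exact Prod.ext h.2 h.1
  · intro q hq
    rw [Finset.mem_filter] at hq
    obtain ⟨_, h1, h2⟩ := hq
    refine ⟨(Fin.rev q.2, Fin.rev q.1), ?_, ?_⟩
    · rw [Finset.mem_filter]
      refine ⟨Finset.mem_univ _, Fin.rev_lt_rev.mpr h1, ?_⟩
      simp only [w0, Perm.mul_apply, Fin.revPerm_apply, Fin.rev_rev]
      exact Fin.rev_lt_rev.mpr h2
    · simp

theorem w0_mul_w0 : w0 m * w0 m = 1 := by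
  ext j
  simp [w0, Perm.mul_apply]

/-- DU3. If `P` represents `[Y(v)]`, then `θ P` represents `[Y(w_0 v w_0)]`. -/
theorem isSchub_th (v : WG m) (P : Pol m) (hP : IsSchub v P) :
    IsSchub (w0 m * v * w0 m) (th m P) := by
  have hdd : ∀ (l : List (Fin m)) (Q : Pol m), dd l (th m Q) = th m (dd (l.map Fin.rev) Q) := by
    intro l
    induction l with
    | nil => intro Q; rfl
    | cons k l ih => intro Q; simp only [dd, List.map_cons, dd1_th, ih]
  have hcc : ∀ Q : Pol m, constantCoeff (th m Q) = constantCoeff Q := by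
    intro Q
    have : (constantCoeff : Pol m →+* ℤ).comp (th m : Pol m →+* Pol m)
        = (constantCoeff : Pol m →+* ℤ) := by
      apply MvPolynomial.ringHom_ext
      · intro a
        simp [th]
      · intro j
        simp [th]
    exact DFunLike.congr_fun this Q
  have hwp : ∀ l : List (Fin m), wp (l.map Fin.rev) = w0 m * wp l * w0 m := by
    intro l
    induction l with
    | nil => simp [wp, w0_mul_w0]
    | cons k l ih =>
      simp only [wp, List.map_cons]
      rw [ih, ← w0_sg]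
      calc w0 m * wp l * w0 m * (w0 m * sg k * w0 m)
          = w0 m * wp l * (w0 m * w0 m) * (sg k * w0 m) := by simp only [mul_assoc]
        _ = w0 m * (wp l * sg k) * w0 m := by rw [w0_mul_w0, mul_one]; simp only [mul_assoc]
  intro l
  rw [hdd, hcc, hP (l.map Fin.rev), hwp, List.length_map, inv_w0_conj]
  have hiff : w0 m * wp l * w0 m = v ↔ wp l = w0 m * v * w0 m := by
    constructor
    · intro h
      rw [← h]
      calc wp l = (w0 m * w0 m) * wp l * (w0 m * w0 m) := by rw [w0_mul_w0]; simp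
        _ = w0 m * (w0 m * wp l * w0 m) * w0 m := by simp only [mul_assoc]
    · intro h
      rw [h]
      calc w0 m * (w0 m * v * w0 m) * w0 m = (w0 m * w0 m) * v * (w0 m * w0 m) := by
            simp only [mul_assoc]
        _ = v := by rw [w0_mul_w0]; simp
  by_cases h : w0 m * wp l * w0 m = v
  · by_cases h' : l.length = inv v
    · rw [if_pos ⟨h, h'⟩, if_pos ⟨hiff.mp h, h'⟩]
    · rw [if_neg (fun q => h' q.2), if_neg (fun q => h' q.2)]
  · rw [if_neg (fun q => h q.1), if_neg (fun q => h (hiff.mpr q.1))]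

/-- conjugation by the longest element on `V` -/
private noncomputable def du4_kap (m : ℕ) : VV m →ₗ[ℤ] VV m :=
  Finsupp.lmapDomain ℤ ℤ (fun x : WG m => w0 m * x * w0 m)

private theorem du4_w0_apply (j : Fin (m + 1)) : w0 m j = Fin.rev j := rfl

private theorem du4_invol (x : WG m) : w0 m * (w0 m * x * w0 m) * w0 m = x := by
  have h : w0 m * w0 m = 1 := w0_mul_w0
  calc w0 m * (w0 m * x * w0 m) * w0 m = (w0 m * w0 m) * x * (w0 m * w0 m) := by
        simp only [mul_assoc]
    _ = x := by rw [h, one_mul, mul_one]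

private theorem du4_inj : Function.Injective (fun x : WG m => w0 m * x * w0 m) := by
  intro x y h
  have h1 : w0 m * x * w0 m = w0 m * y * w0 m := h
  rw [← du4_invol x, h1, du4_invol y]

private theorem du4_kap_bas (x : WG m) : du4_kap m (bas x) = bas (w0 m * x * w0 m) := by
  simp [du4_kap, bas, Finsupp.lmapDomain_apply, Finsupp.mapDomain_single]

private theorem du4_kap_apply (z : VV m) (x : WG m) :
    du4_kap m z x = z (w0 m * x * w0 m) := by
  have h := Finsupp.mapDomain_apply (du4_inj (m := m)) z (w0 m * x * w0 m)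
  simp only [du4_invol] at h
  exact h

private theorem du4_xb (i : Fin (m + 1)) (x : WG m) :
    xb i (w0 m * x * w0 m) = -du4_kap m (xb (Fin.rev i) x) := by
  have hw : (w0 m)⁻¹ = w0 m := inv_eq_of_mul_eq_one_right w0_mul_w0
  have hin : ∀ j, (w0 m * x * w0 m)⁻¹ j = Fin.rev (x⁻¹ (Fin.rev j)) := by
    intro j
    rw [mul_inv_rev, mul_inv_rev, hw, Perm.mul_apply, Perm.mul_apply, du4_w0_apply,
      du4_w0_apply]
  have hsw : ∀ j, swap i j * (w0 m * x * w0 m) =
      w0 m * (swap (Fin.rev i) (Fin.rev j) * x) * w0 m := by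
    intro j
    have h2 := Equiv.swap_apply_apply (w0 m) i j
    rw [du4_w0_apply, du4_w0_apply, hw] at h2
    rw [h2]
    simp only [← mul_assoc]
    rw [w0_mul_w0, one_mul]
  have hL : du4_kap m (xb (Fin.rev i) x) = ∑ j, du4_kap m (if Fin.rev i < Fin.rev j ∧
      x⁻¹ (Fin.rev j) < x⁻¹ (Fin.rev i) then bas (swap (Fin.rev i) (Fin.rev j) * x) else if
      Fin.rev j < Fin.rev i ∧ x⁻¹ (Fin.rev i) < x⁻¹ (Fin.rev j) then
        -bas (swap (Fin.rev i) (Fin.rev j) * x) else 0) := by
    unfold xb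
    rw [map_sum]
    exact (Equiv.sum_comp Fin.revPerm _).symm
  rw [hL, ← Finset.sum_neg_distrib]
  unfold xb
  apply Finset.sum_congr rfl
  intro j _
  rw [hin, hin, hsw]
  simp only [Fin.rev_lt_rev]
  by_cases h1 : i < j ∧ x⁻¹ (Fin.rev i) < x⁻¹ (Fin.rev j)
  · have h2 : ¬ (j < i ∧ x⁻¹ (Fin.rev j) < x⁻¹ (Fin.rev i)) := fun h => lt_asymm h.1 h1.1
    rw [if_pos h1, if_neg h2, if_pos h1, map_neg, neg_neg, du4_kap_bas]
  · rw [if_neg h1]
    by_cases h2 : j < i ∧ x⁻¹ (Fin.rev j) < x⁻¹ (Fin.rev i)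
    · rw [if_pos h2, if_pos h2, du4_kap_bas]
    · rw [if_neg h2, if_neg h2, if_neg h1, map_zero, neg_zero]

private theorem du4_Xop (i : Fin (m + 1)) (z : VV m) :
    Xop i (du4_kap m z) = -du4_kap m (Xop (Fin.rev i) z) := by
  induction z using induction_bas with
  | h0 => simp
  | hadd y z hy hz => simp only [map_add, hy, hz]; abel
  | hb x a => rw [map_smul, map_smul, map_smul, map_smul, du4_kap_bas, Xop_bas, Xop_bas,
      du4_xb, smul_neg]

private theorem du4_act (P : Pol m) (z : VV m) :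
    act m (th m P) (du4_kap m z) = du4_kap m (act m P z) := by
  induction P using MvPolynomial.induction_on generalizing z with
  | C a =>
    have h : th m (C a) = C a := by
      unfold th
      rw [aeval_C]
      rfl
    rw [h, act_C_apply, act_C_apply, map_smul]
  | add p q hp hq =>
    rw [map_add, map_add, map_add, LinearMap.add_apply, LinearMap.add_apply, map_add, hp, hq]
  | mul_X p j hp =>
    have h : th m (X j) = -X (Fin.rev j) := by
      unfold th
      rw [aeval_X]
    rw [map_mul, h, mul_neg, map_neg, LinearMap.neg_apply, act_mul_apply, act_X_apply,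
      du4_Xop, map_neg, neg_neg, Fin.rev_rev, hp, act_mul_apply, act_X_apply]

/-- DU4. `P` and `θ P` act nonnegatively at the same time: with
`κ(x) = w_0 x w_0`, `x_i · κ(z) = -κ(x_{m-i} · z)`, hence `(θ P) · κ(z) = κ(P · z)`. -/
theorem PP_th (P : Pol m) (hP : PP P) : PP (th m P) := by
  intro x y
  have h1 : bas x = du4_kap m (bas (w0 m * x * w0 m)) := by
    rw [du4_kap_bas, du4_invol]
  rw [h1, du4_act, du4_kap_apply]
  exact hP _ _

end H45C
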