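import Pool.Agent.Helper45.CSM.Adm
import Pool.Agent.Helper45.CSM.Dual

/-!
# CSM classes in cohomology (pieces CS1-CS5)
-/

namespace H45C

open MvPolynomial Equiv

variable {m : ℕ}

/-- CS1a. `T_i` respects the ideal. (`∂_i (f g) = f ∂_i g` for symmetric `f`; use
`Submodule.span_induction` / `Ideal.span` membership.) -/
theorem TT_mem (i : Fin m) (f : Pol m) (hf : f ∈ symIdeal m) : TT i f ∈ symIdeal m := by
  suffices h : ∀ a : Pol m, TT i (a * f) ∈ symIdeal m by
    have h1 := h 1
    rwa [one_mul] at h1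
  unfold symIdeal at hf
  induction hf using Submodule.span_induction with
  | mem p hp =>
    intro a
    have hs : pact (sg i) p = p := hp.1 (sg i)
    have hmem : p ∈ symIdeal m := Ideal.subset_span hp
    have h2 : TT i (a * p) = (dd1 i a - pact (sg i) a) * p := by
      unfold TT
      rw [mul_comm a p, dd1_mul_of_inv i p a hs, map_mul, hs]
      ring
    rw [h2]
    exact Ideal.mul_mem_left _ _ hmem
  | zero =>
    intro a
    rw [mul_zero]
    have h2 : TT i (0 : Pol m) = 0 := by simp [TT, dd1_zero]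
    rw [h2]
    exact Ideal.zero_mem _
  | add x y _ _ hx hy =>
    intro a
    have h2 : TT i (a * (x + y)) = TT i (a * x) + TT i (a * y) := by
      unfold TT
      rw [mul_add, dd1_add, map_add]
      ring
    rw [h2]
    exact Ideal.add_mem _ (hx a) (hy a)
  | smul b x _ hx =>
    intro a
    rw [smul_eq_mul, ← mul_assoc]
    exact hx (a * b)

/-- CS1b. `T_i (x_{s_i j} f) = x_j T_i f - ⟨x_j, α_i⟩ f`. -/
theorem TT_X_mul (i : Fin m) (j : Fin (m + 1)) (f : Pol m) :
    TT i (X (sg i j) * f) = X j * TT i f - C (pr j i) * f := by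
  have h1 : pact (sg i) (X (sg i j) : Pol m) = X j := by
    rw [pact_X]
    have h0 : sg i (sg i j) = j := by
      rw [← Perm.mul_apply, sg_mul_self, Perm.one_apply]
    rw [h0]
  have h2 : dd1 i (X (sg i j) : Pol m) = -C (pr j i) := by
    unfold pr
    by_cases hj : j = i.castSucc
    · rw [if_pos hj, hj]
      have : sg i i.castSucc = i.succ := swap_apply_left _ _
      rw [this, dd1_X_right, map_one]
    · by_cases hj' : j = i.succ
      · rw [if_neg hj, if_pos hj', hj']
        have : sg i i.succ = i.castSucc := swap_apply_right _ _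
        rw [this, dd1_X_left, map_neg, map_one, neg_neg]
      · rw [if_neg hj, if_neg hj']
        have : sg i j = j := swap_apply_of_ne_of_ne hj hj'
        rw [this, dd1_X_of_ne i j hj hj', map_zero, neg_zero]
  unfold TT
  rw [dd1_mul, map_mul, h1, h2]
  ring

private theorem cs2_symm (k : ℕ) (hk : 1 ≤ k) : hz m (m + 1) k ∈ symIdeal m := by
  refine Ideal.subset_span ⟨?_, ?_⟩
  · have key : ∀ w : WG m, pact w (hz m (m + 1) k) = hz m (m + 1) k := by
      intro w
      induction w using induction_left with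
      | h1 => simp [pact]
      | hs i x ih => rw [pact_mul_apply, ih, pact_hz i (m + 1) k (by have := i.2; omega)]
    exact fun e => key e
  · rw [constantCoeff_eq]
    by_contra h
    have h1 := (hz_homog (m := m) (m + 1) k) h
    simp at h1
    omega

private theorem cs2_hz_mem (d : ℕ) : ∀ j k : ℕ, j + d = m + 1 → d + 1 ≤ k →
    hz m j k ∈ symIdeal m := by
  induction d with
  | zero =>
    intro j k hj hk
    obtain rfl : j = m + 1 := by omega
    exact cs2_symm k hk
  | succ d ih =>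
    intro j k hj hk
    have h1 := hz_succ (m := m) j k
    have h2 : hz m j k = hz m (j + 1) k - xv m j * hz m (j + 1) (k - 1) := by
      rw [h1]; ring
    rw [h2]
    refine (symIdeal m).sub_mem (ih (j + 1) k (by omega) (by omega))
      ((symIdeal m).mul_mem_left _ ?_)
    have h3 : ((k : ℤ) - 1) = ((k - 1 : ℕ) : ℤ) := by
      push_cast [Nat.cast_sub (show 1 ≤ k by omega)]
      ring
    rw [h3]
    exact ih (j + 1) (k - 1) (by omega) (by omega)

private theorem cs2_low (J : Ideal (Pol m)) (j : ℕ) (h : ∀ i < j, xv m i ∈ J) :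
    ∀ i ≤ j, ∀ k : ℕ, 1 ≤ k → hz m i k ∈ J := by
  intro i
  induction i with
  | zero =>
    intro _ k hk
    rw [hz_zero_left, if_neg (by exact_mod_cast (show k ≠ 0 by omega))]
    exact J.zero_mem
  | succ i ih =>
    intro hi k hk
    rw [hz_succ]
    exact J.add_mem (ih (by omega) k hk) (J.mul_mem_right _ (h i (by omega)))

private theorem cs2_pow (J : Ideal (Pol m)) (j : ℕ) (h : ∀ i < j, xv m i ∈ J) (k : ℕ) :
    hz m (j + 1) k - xv m j ^ k ∈ J := by
  induction k with
  | zero =>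
    rw [Nat.cast_zero, hz_zero_right, pow_zero, sub_self]
    exact J.zero_mem
  | succ k ih =>
    have h1 : hz m (j + 1) ((k + 1 : ℕ) : ℤ) - xv m j ^ (k + 1) =
        hz m j ((k + 1 : ℕ) : ℤ) + xv m j * (hz m (j + 1) k - xv m j ^ k) := by
      rw [hz_succ]
      have h2 : (((k + 1 : ℕ) : ℤ) - 1) = k := by push_cast; ring
      rw [h2]
      ring
    rw [h1]
    exact J.add_mem (cs2_low J j h j le_rfl (k + 1) (by omega)) (J.mul_mem_left _ ih)

private theorem cs2_main : ∀ j : ℕ, j ≤ m →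
    (∏ i ∈ Finset.range j, xv m i ^ (m - i)) * xv m j ^ (m - j + 1) ∈ symIdeal m := by
  intro j
  induction j using Nat.strong_induction_on with
  | _ j ih =>
    intro hj
    set P := ∏ i ∈ Finset.range j, xv m i ^ (m - i) with hP
    let J : Ideal (Pol m) := Submodule.comap (LinearMap.mulLeft (Pol m) P) (symIdeal m)
    have hJ : ∀ f, f ∈ J ↔ P * f ∈ symIdeal m := fun f => Iff.rfl
    have h : ∀ i < j, xv m i ∈ J := by
      intro i hi
      rw [hJ]
      obtain ⟨c, hc⟩ := Finset.prod_dvd_prod_of_subset (Finset.range (i + 1)) (Finset.range j)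
        (fun i => xv m i ^ (m - i)) (Finset.range_subset_range.2 hi)
      have h1 : P * xv m i =
          c * ((∏ l ∈ Finset.range i, xv m l ^ (m - l)) * xv m i ^ (m - i + 1)) := by
        rw [hP, hc, Finset.prod_range_succ, pow_succ]
        ring
      rw [h1]
      exact (symIdeal m).mul_mem_left _ (ih i hi (by omega))
    have h2 := cs2_pow J j h (m - j + 1)
    rw [hJ] at h2
    have h3 : P * hz m (j + 1) ((m - j + 1 : ℕ) : ℤ) ∈ symIdeal m :=
      (symIdeal m).mul_mem_left _ (cs2_hz_mem (m - j) (j + 1) (m - j + 1) (by omega) le_rfl)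
    have h4 : P * xv m j ^ (m - j + 1) = P * hz m (j + 1) ((m - j + 1 : ℕ) : ℤ) -
        P * (hz m (j + 1) ((m - j + 1 : ℕ) : ℤ) - xv m j ^ (m - j + 1)) := by ring
    rw [h4]
    exact (symIdeal m).sub_mem h3 h2

/-- CS2. `x_j x^δ ∈ I` for the monomial `x^δ = x_0^m x_1^{m-1} ⋯ x_{m-1}`.
Proof: `h_{m+1-j}(x_0, ..., x_j) ∈ I` for all `j` (`hz m (j+1) k ∈ I` for `k > m - j`: downward
induction on `j` from `j = m`, where `hz m (m+1) k` is symmetric without constant term for
`k ≥ 1`, using `hz m j k = hz m (j+1) k - x_j hz m (j+1) (k-1)`).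
Then `x_0^{m} x_1^{m-1} ⋯ x_{j-1}^{m-j+1} x_j^{m-j+1} ∈ I` by induction on `j`, since
`x_j^{k} - h_k(x_0, ..., x_j)` lies in the ideal generated by `x_0, ..., x_{j-1}`. -/
theorem X_mul_ptP (j : Fin (m + 1)) : X j * ptP m ∈ symIdeal m := by
  have hxv : ∀ i : Fin (m + 1), xv m (i : ℕ) = X i := by
    intro i
    unfold xv
    rw [dif_pos i.2]
  have h1 : ptP m = ∏ i ∈ Finset.range (m + 1), xv m i ^ (m - i) := by
    rw [Finset.prod_range]
    exact Finset.prod_congr rfl fun i _ => by rw [hxv]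
  obtain ⟨c, hc⟩ := Finset.prod_dvd_prod_of_subset (Finset.range ((j : ℕ) + 1))
    (Finset.range (m + 1)) (fun i => xv m i ^ (m - i)) (Finset.range_subset_range.2 j.2)
  have h2 : X j * ptP m =
      c * ((∏ l ∈ Finset.range (j : ℕ), xv m l ^ (m - l)) * xv m (j : ℕ) ^ (m - (j : ℕ) + 1)) := by
    rw [h1, hc, Finset.prod_range_succ, pow_succ, hxv]
    ring
  rw [h2]
  exact (symIdeal m).mul_mem_left _ (cs2_main j (by have := j.2; omega))

/-- the linear map `V → Coh`, `x ↦ C(w_0 x⁻¹)` -/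
noncomputable def Phi (C : WG m → Coh m) : VV m →ₗ[ℤ] Coh m :=
  Finsupp.linearCombination ℤ fun x => C (w0 m * x⁻¹)

theorem Phi_bas (C : WG m → Coh m) (x : WG m) : Phi C (bas x) = C (w0 m * x⁻¹) := by
  simp [Phi, bas]

/-- CS3. `Φ(P · z) = [P] Φ(z)`.
Proof: first for `P = X j` and `z = bas x`, all `j`, by `induction_left` on `x`: `x = 1`: `xb_one`
and `X_mul_ptP`; `x = s_i y`: choose representatives (`Ideal.Quotient.mk_surjective`) and use
`Xop_sg`, `IsCSM.step` (`w_0 (s_i y)⁻¹ = w_0 y⁻¹ s_i`, hence `Φ(s_i z) = T_i Φ(z)`, well defined by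
`TT_mem`), `TT_X_mul`.  Then by induction on `P`. -/
theorem Phi_act (C : WG m → Coh m) (hC : IsCSM C) (P : Pol m) (z : VV m) :
    Phi C (act m P z) = cl P * Phi C z := by
  have cl_add : ∀ f g : Pol m, cl (f + g) = cl f + cl g := fun f g => map_add _ f g
  have cl_sub : ∀ f g : Pol m, cl (f - g) = cl f - cl g := fun f g => map_sub _ f g
  have cl_mul : ∀ f g : Pol m, cl (f * g) = cl f * cl g := fun f g => map_mul _ f g
  have cl_zsmul : ∀ (a : ℤ) (f : Pol m), cl (a • f) = a • cl f := fun a f => map_zsmul _ a f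
  have cl_Cmul : ∀ (a : ℤ) (f : Pol m), cl (MvPolynomial.C a * f) = a • cl f := by
    intro a f
    rw [← cl_zsmul, MvPolynomial.smul_eq_C_mul]
  have TT_add : ∀ (i : Fin m) (f g : Pol m), TT i (f + g) = TT i f + TT i g := by
    intro i f g
    unfold TT
    rw [dd1_add, map_add]
    ring
  have TT_sub : ∀ (i : Fin m) (f g : Pol m), TT i (f - g) = TT i f - TT i g := by
    intro i f g
    unfold TT
    rw [dd1_sub, map_sub]
    ring
  have TT_zsmul : ∀ (i : Fin m) (a : ℤ) (f : Pol m), TT i (a • f) = a • TT i f := by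
    intro i a f
    unfold TT
    have h1 : dd1 i (a • f) = a • dd1 i f := by
      apply dd1_unique
      rw [mul_smul_comm, dd1_spec, map_zsmul, smul_sub]
    rw [h1, map_zsmul, smul_sub]
  have TT_wd : ∀ (i : Fin m) (f g : Pol m), cl f = cl g → cl (TT i f) = cl (TT i g) := by
    intro i f g h
    have h1 : f - g ∈ symIdeal m := (Ideal.Quotient.mk_eq_mk_iff_sub_mem f g).mp h
    have h2 := TT_mem i _ h1
    rw [TT_sub] at h2
    exact (Ideal.Quotient.mk_eq_mk_iff_sub_mem _ _).mpr h2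
  have cl_surj : ∀ c : Coh m, ∃ f : Pol m, c = cl f := by
    intro c
    obtain ⟨f, hf⟩ := Ideal.Quotient.mk_surjective c
    exact ⟨f, hf.symm⟩
  -- existence of representatives compatible with `s_i`
  have rep : ∀ (i : Fin m) (z : VV m), ∃ f : Pol m, Phi C z = cl f ∧
      Phi C (lm (sg i) z) = cl (TT i f) := by
    intro i z
    induction z using induction_bas with
    | h0 =>
      refine ⟨0, ?_, ?_⟩
      · rw [map_zero]; exact (map_zero _).symm
      · have : TT i (0 : Pol m) = 0 := by simp [TT, dd1_zero]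
        rw [this, map_zero, map_zero]; exact (map_zero _).symm
    | hadd y z hy hz =>
      obtain ⟨f, hf1, hf2⟩ := hy
      obtain ⟨g, hg1, hg2⟩ := hz
      refine ⟨f + g, ?_, ?_⟩
      · rw [map_add, hf1, hg1, cl_add]
      · rw [map_add, map_add, hf2, hg2, TT_add, cl_add]
    | hb x a =>
      obtain ⟨f, hf⟩ := cl_surj (C (w0 m * x⁻¹))
      refine ⟨a • f, ?_, ?_⟩
      · rw [map_zsmul, Phi_bas, hf, cl_zsmul]
      · rw [map_zsmul, map_zsmul, lm_bas, Phi_bas, TT_zsmul, cl_zsmul]
        have h1 : w0 m * (sg i * x)⁻¹ = w0 m * x⁻¹ * sg i := by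
          rw [mul_inv_rev, sg_inv, mul_assoc]
        rw [h1, hC.step _ i f hf]
  have step : ∀ (i : Fin m) (z : VV m) (f : Pol m), Phi C z = cl f →
      Phi C (lm (sg i) z) = cl (TT i f) := by
    intro i z f hf
    obtain ⟨g, hg1, hg2⟩ := rep i z
    rw [hg2]
    exact TT_wd i _ _ (hg1.symm.trans hf)
  -- multiplication by a variable, basis vectors
  have hX : ∀ x : WG m, ∀ j : Fin (m + 1),
      Phi C (Xop j (bas x)) = cl (X j) * Phi C (bas x) := by
    intro x
    induction x using induction_left with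
    | h1 =>
      intro j
      rw [Xop_bas, xb_one, map_zero, Phi_bas, _root_.inv_one, mul_one, hC.pt, ← cl_mul]
      exact ((Ideal.Quotient.eq_zero_iff_mem).mpr (X_mul_ptP j)).symm
    | hs k y ih =>
      intro j
      obtain ⟨f, hf⟩ := cl_surj (Phi C (bas y))
      have h1 : Phi C (Xop (sg k j) (bas y)) = cl (X (sg k j) * f) := by
        rw [ih, hf, cl_mul]
      rw [← lm_bas, Xop_sg, map_add, step k _ _ h1, TT_X_mul, cl_sub, cl_Cmul, map_zsmul, hf,
        sub_add_cancel, cl_mul, step k _ _ hf]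
  have hXz : ∀ (j : Fin (m + 1)) (z : VV m), Phi C (Xop j z) = cl (X j) * Phi C z := by
    intro j z
    induction z using induction_bas with
    | h0 => simp only [map_zero, mul_zero]
    | hadd y z hy hz => rw [map_add, map_add, hy, hz, map_add, mul_add]
    | hb x a => rw [map_zsmul, map_zsmul, hX, map_zsmul, mul_smul_comm]
  induction P using MvPolynomial.induction_on generalizing z with
  | C a =>
    rw [act_C_apply, map_zsmul]
    have h1 := cl_Cmul a 1
    rw [mul_one] at h1
    rw [h1]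
    have h2 : cl (1 : Pol m) = 1 := map_one _
    rw [h2, smul_mul_assoc, one_mul]
  | add p q hp hq =>
    rw [map_add, LinearMap.add_apply, map_add, hp, hq, cl_add, add_mul]
  | mul_X p j hp =>
    rw [act_mul_apply, hp, act_X_apply, hXz, cl_mul, mul_assoc]

/-- CS4. **From the module to cohomology.** -/
theorem csm_of_PP (v : WG m) (Q : Pol m) (hQ : IsSchub v Q) (hPP : PP Q) (P : Pol m)
    (hP : IsSchub v P) (C : WG m → Coh m) (hC : IsCSM C) (u : WG m) :
    ∃ a : WG m → ℕ, cl P * C u = ∑ w, (a w : Coh m) * C w := by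
  refine ⟨fun w => (act m P (bas (u⁻¹ * w0 m)) (w⁻¹ * w0 m)).toNat, ?_⟩
  have h1 : Phi C (bas (u⁻¹ * w0 m)) = C u := by
    rw [Phi_bas]
    congr 1
    have := w0_mul_w0 (m := m)
    rw [mul_inv_rev, inv_inv, ← mul_assoc]
    have h2 : (w0 m)⁻¹ = w0 m := inv_eq_of_mul_eq_one_right this
    rw [h2, this, one_mul]
  rw [← h1, ← Phi_act C hC]
  have h3 : act m P (bas (u⁻¹ * w0 m)) = act m Q (bas (u⁻¹ * w0 m)) :=
    act_eq_of_isSchub v P Q hP hQ _
  have h4 := hPP (u⁻¹ * w0 m)
  rw [← h3] at h4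
  set z := act m P (bas (u⁻¹ * w0 m)) with hz
  have h5 : Phi C z = ∑ x, z x • C (w0 m * x⁻¹) := by
    rw [Phi, Finsupp.linearCombination_apply, Finsupp.sum_fintype]
    intro i
    simp
  rw [h5]
  let e : WG m ≃ WG m := ⟨fun w => w⁻¹ * w0 m, fun x => w0 m * x⁻¹, fun w => by
    have h2 : (w0 m)⁻¹ = w0 m := inv_eq_of_mul_eq_one_right (w0_mul_w0 (m := m))
    simp [mul_assoc, h2, w0_mul_w0]
    rw [← mul_assoc, w0_mul_w0, one_mul], fun x => by
    have h2 : (w0 m)⁻¹ = w0 m := inv_eq_of_mul_eq_one_right (w0_mul_w0 (m := m))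
    simp [h2, mul_assoc, w0_mul_w0]⟩
  rw [← Equiv.sum_comp e]
  apply Finset.sum_congr rfl
  intro w _
  have h6 : w0 m * (e w)⁻¹ = w := e.left_inv w
  rw [h6]
  have h7 : ((z (w⁻¹ * w0 m)).toNat : ℤ) = z (w⁻¹ * w0 m) := Int.toNat_of_nonneg (h4 _)
  have h8 : (((z (w⁻¹ * w0 m)).toNat : ℕ) : Coh m) = ((z (w⁻¹ * w0 m) : ℤ) : Coh m) := by
    have h9 := congrArg (fun k : ℤ => (k : Coh m)) h7
    simpa only [Int.cast_natCast] using h9
  rw [h8, zsmul_eq_mul]
  rfl

/-- admissibility gives positivity -/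
theorem csm_of_adm (v : WG m) (h : Adm v) (P : Pol m) (hP : IsSchub v P)
    (C : WG m → Coh m) (hC : IsCSM C) (u : WG m) :
    ∃ a : WG m → ℕ, cl P * C u = ∑ w, (a w : Coh m) * C w := by
  obtain ⟨Q, -, hQ, hPP, -⟩ := h
  exact csm_of_PP v Q hQ hPP P hP C hC u

/-- the dual form -/
theorem csm_of_adm_dual (v : WG m) (h : Adm (w0 m * v * w0 m)) (P : Pol m) (hP : IsSchub v P)
    (C : WG m → Coh m) (hC : IsCSM C) (u : WG m) :
    ∃ a : WG m → ℕ, cl P * C u = ∑ w, (a w : Coh m) * C w := by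
  obtain ⟨Q, -, hQ, hPP, -⟩ := h
  refine csm_of_PP v (th m Q) ?_ (PP_th Q hPP) P hP C hC u
  have h1 := isSchub_th _ _ hQ
  have h2 : w0 m * (w0 m * v * w0 m) * w0 m = v := by
    have := w0_mul_w0 (m := m)
    calc w0 m * (w0 m * v * w0 m) * w0 m = (w0 m * w0 m) * v * (w0 m * w0 m) := by
          simp only [mul_assoc]
      _ = v := by rw [this, one_mul, mul_one]
  rwa [h2] at h1

end H45C
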