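import Pool.Agent.Helper45.CSM.Inv

/-!
# The module `V = ℤ[W]` with the operators `x_i` (pieces MO1-MO5)

`x_i · x = Σ_{j > i, x⁻¹ j < x⁻¹ i} (i j) x - Σ_{j < i, x⁻¹ i < x⁻¹ j} (i j) x`.
-/

namespace H45C

open MvPolynomial Equiv

variable {m : ℕ}

/-- `V = ℤ[W]`. -/
abbrev VV (m : ℕ) := WG m →₀ ℤ

/-- basis vector -/
noncomputable def bas (x : WG m) : VV m := Finsupp.single x 1

/-- left multiplication by `g` -/
noncomputable def lm (g : WG m) : VV m →ₗ[ℤ] VV m := Finsupp.lmapDomain ℤ ℤ (g * ·)

/-- `x_i` on a basis vector -/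
noncomputable def xb (i : Fin (m + 1)) (x : WG m) : VV m :=
  ∑ j, if i < j ∧ x⁻¹ j < x⁻¹ i then bas (swap i j * x)
    else if j < i ∧ x⁻¹ i < x⁻¹ j then -bas (swap i j * x) else 0

/-- the operator `x_i` -/
noncomputable def Xop (i : Fin (m + 1)) : Module.End ℤ (VV m) :=
  Finsupp.linearCombination ℤ (xb i)

theorem Xop_bas (i : Fin (m + 1)) (x : WG m) : Xop i (bas x) = xb i x := by
  simp [Xop, bas]

theorem lm_bas (g x : WG m) : lm g (bas x) = bas (g * x) := by
  simp [lm, bas, Finsupp.lmapDomain_apply, Finsupp.mapDomain_single]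

theorem lm_lm (g h : WG m) (z : VV m) : lm g (lm h z) = lm (g * h) z := by
  have h1 : ((fun x : WG m => g * x) ∘ fun x => h * x) = fun x => g * h * x := by
    funext x
    simp [mul_assoc]
  simp only [lm, Finsupp.lmapDomain_apply, ← Finsupp.mapDomain_comp, h1]

theorem lm_one (z : VV m) : lm 1 z = z := by
  simp only [lm, Finsupp.lmapDomain_apply, one_mul]
  exact Finsupp.mapDomain_id

theorem lm_apply (g : WG m) (z : VV m) (x : WG m) : lm g z x = z (g⁻¹ * x) := by
  have h := Finsupp.mapDomain_apply (f := fun y : WG m => g * y) (mul_right_injective g) z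
    (g⁻¹ * x)
  simpa [lm, Finsupp.lmapDomain_apply] using h

/-- two linear maps that agree on basis vectors agree -/
theorem ext_bas {M : Type*} [AddCommGroup M] (f g : VV m →ₗ[ℤ] M)
    (h : ∀ x, f (bas x) = g (bas x)) : f = g :=
  Finsupp.lhom_ext' fun x => LinearMap.ext_ring (h x)

theorem induction_bas (p : VV m → Prop) (z : VV m) (h0 : p 0) (hadd : ∀ y z, p y → p z → p (y + z))
    (hb : ∀ (x : WG m) (a : ℤ), p (a • bas x)) : p z := by
  induction z using Finsupp.induction_linear with
  | zero => exact h0
  | add f g hf hg => exact hadd f g hf hg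
  | single x a =>
    have : (Finsupp.single x a : VV m) = a • bas x := by simp [bas]
    rw [this]
    exact hb x a

/-- MO1a. The Hecke relation, left letter: with `k = k.castSucc`, `k + 1 = k.succ`,
`x_k · (s_k x) = s_k (x_{k+1} · x) + x`.
Proof: put `s = s_k`; `(s x)⁻¹ j = x⁻¹ (s j)` and `swap k j * (s * x) = s * (swap (k+1) (s j) * x)`.
Reindex the sum by `j ↦ s j`: the terms `j ≠ k, k+1` are those of `s (x_{k+1} x)`; for the
remaining term exactly one of the two inequalities between `x⁻¹ k`, `x⁻¹ (k+1)` holds, and the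
difference of the two sides is `x` in both cases. -/
theorem xb_sg_left (k : Fin m) (x : WG m) :
    xb k.castSucc (sg k * x) = lm (sg k) (xb k.succ x) + bas x := by
  have hin : ∀ j, (sg k * x)⁻¹ j = x⁻¹ (sg k j) := by
    intro j
    rw [mul_inv_rev, sg_inv, Perm.mul_apply]
  have hsw : ∀ j, swap k.castSucc j * (sg k * x) = sg k * (swap k.succ (sg k j) * x) := by
    intro j
    have h1 : sg k k.castSucc = k.succ := swap_apply_left _ _
    have h2 := Equiv.swap_apply_apply (sg k) k.castSucc j
    rw [h1] at h2
    rw [h2, sg_inv]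
    simp only [← mul_assoc, sg_mul_self, one_mul]
  have hL : lm (sg k) (xb k.succ x) = ∑ j, lm (sg k) (if k.succ < sg k j ∧
      x⁻¹ (sg k j) < x⁻¹ k.succ then bas (swap k.succ (sg k j) * x) else if
      sg k j < k.succ ∧ x⁻¹ k.succ < x⁻¹ (sg k j) then -bas (swap k.succ (sg k j) * x)
      else 0) := by
    unfold xb
    rw [map_sum]
    exact (Equiv.sum_comp (sg k) _).symm
  have hB : bas x = ∑ j : Fin (m + 1), if j = k.succ then bas x else 0 := by simp
  have hA : ∀ A : VV m, A + bas x = A + ∑ j : Fin (m + 1), if j = k.succ then bas x else 0 := by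
    intro A
    rw [← hB]
  have hs1 : sg k k.castSucc = k.succ := swap_apply_left _ _
  have hs2 : sg k k.succ = k.castSucc := swap_apply_right _ _
  have hlt : k.castSucc < k.succ := Fin.castSucc_lt_succ
  rw [hA, hL, ← Finset.sum_add_distrib]
  unfold xb
  apply Finset.sum_congr rfl
  intro j _
  rw [hin, hin, hsw, hs1]
  by_cases h1 : j = k.castSucc
  · subst h1
    rw [hs1]
    simp [(castSucc_ne_succ k)]
  · by_cases h2 : j = k.succ
    · subst h2
      rw [hs2]
      have hx : x⁻¹ k.castSucc ≠ x⁻¹ k.succ := fun h => castSucc_ne_succ k (x⁻¹.injective h)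
      have hb : sg k * (swap k.succ k.castSucc * x) = x := by
        rw [swap_comm, ← mul_assoc]
        show (sg k * sg k) * x = x
        rw [sg_mul_self, one_mul]
      rw [hb]
      rcases lt_or_gt_of_ne hx with h3 | h3
      · rw [if_pos ⟨hlt, h3⟩, if_neg (fun h => hlt.not_gt h.1), if_neg (fun h => h3.not_gt h.2),
          if_pos rfl, map_zero, zero_add]
      · rw [if_neg (fun h => h3.not_gt h.2), if_neg (fun h => hlt.not_gt h.1),
          if_neg (fun h => hlt.not_gt h.1), if_pos ⟨hlt, h3⟩, if_pos rfl, map_neg, lm_bas, hb,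
          neg_add_cancel]
    · have h3 : sg k j = j := swap_apply_of_ne_of_ne h1 h2
      have e1 : k.castSucc < j ↔ k.succ < j := by
        rw [Fin.lt_def, Fin.lt_def]
        have : (j : ℕ) ≠ (k : ℕ) + 1 := fun h => h2 (Fin.ext h)
        simp only [Fin.val_castSucc, Fin.val_succ]
        omega
      have e2 : j < k.castSucc ↔ j < k.succ := by
        rw [Fin.lt_def, Fin.lt_def]
        have : (j : ℕ) ≠ (k : ℕ) := fun h => h1 (Fin.ext h)
        simp only [Fin.val_castSucc, Fin.val_succ]
        omega
      simp only [h3, e1, e2]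
      rw [if_neg h2, add_zero]
      split_ifs
      · rw [lm_bas]
      · rw [map_neg, lm_bas]
      · rw [map_zero]

/-- MO1b. `x_{k+1} · (s_k x) = s_k (x_k · x) - x`. (Follows from MO1a applied to `s_k x`.) -/
theorem xb_sg_right (k : Fin m) (x : WG m) :
    xb k.succ (sg k * x) = lm (sg k) (xb k.castSucc x) - bas x := by
  have h := xb_sg_left k (sg k * x)
  rw [← mul_assoc, sg_mul_self, one_mul] at h
  rw [h, map_add, lm_lm, sg_mul_self, lm_one, lm_bas, ← mul_assoc, sg_mul_self, one_mul]
  abel

/-- MO1c. `x_j · (s_k x) = s_k (x_j · x)` for `j ≠ k, k+1`.  (Reindex by `j' ↦ s_k j'`; `s_k`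
preserves the relation `j < j'` for `j ≠ k, k+1`.) -/
theorem xb_sg_of_ne (k : Fin m) (j : Fin (m + 1)) (h1 : j ≠ k.castSucc) (h2 : j ≠ k.succ)
    (x : WG m) : xb j (sg k * x) = lm (sg k) (xb j x) := by
  have hin : ∀ j, (sg k * x)⁻¹ j = x⁻¹ (sg k j) := by
    intro j
    rw [mul_inv_rev, sg_inv, Perm.mul_apply]
  have hj : sg k j = j := swap_apply_of_ne_of_ne h1 h2
  have hsw : ∀ i, swap j i * (sg k * x) = sg k * (swap j (sg k i) * x) := by
    intro i
    have h2 := Equiv.swap_apply_apply (sg k) j i
    rw [hj] at h2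
    rw [h2, sg_inv]
    simp only [← mul_assoc, sg_mul_self, one_mul]
  have hL : lm (sg k) (xb j x) = ∑ i, lm (sg k) (if j < sg k i ∧
      x⁻¹ (sg k i) < x⁻¹ j then bas (swap j (sg k i) * x) else if
      sg k i < j ∧ x⁻¹ j < x⁻¹ (sg k i) then -bas (swap j (sg k i) * x)
      else 0) := by
    unfold xb
    rw [map_sum]
    exact (Equiv.sum_comp (sg k) _).symm
  have hs1 : sg k k.castSucc = k.succ := swap_apply_left _ _
  have hs2 : sg k k.succ = k.castSucc := swap_apply_right _ _
  have n1 : (j : ℕ) ≠ (k : ℕ) := fun h => h1 (Fin.ext h)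
  have n2 : (j : ℕ) ≠ (k : ℕ) + 1 := fun h => h2 (Fin.ext h)
  have e1 : ∀ i, j < i ↔ j < sg k i := by
    intro i
    by_cases h3 : i = k.castSucc
    · subst h3
      rw [hs1, Fin.lt_def, Fin.lt_def]
      simp only [Fin.val_castSucc, Fin.val_succ]
      omega
    · by_cases h4 : i = k.succ
      · subst h4
        rw [hs2, Fin.lt_def, Fin.lt_def]
        simp only [Fin.val_castSucc, Fin.val_succ]
        omega
      · have h5 : sg k i = i := swap_apply_of_ne_of_ne h3 h4
        rw [h5]
  have e2 : ∀ i, i < j ↔ sg k i < j := by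
    intro i
    by_cases h3 : i = k.castSucc
    · subst h3
      rw [hs1, Fin.lt_def, Fin.lt_def]
      simp only [Fin.val_castSucc, Fin.val_succ]
      omega
    · by_cases h4 : i = k.succ
      · subst h4
        rw [hs2, Fin.lt_def, Fin.lt_def]
        simp only [Fin.val_castSucc, Fin.val_succ]
        omega
      · have h5 : sg k i = i := swap_apply_of_ne_of_ne h3 h4
        rw [h5]
  rw [hL]
  unfold xb
  apply Finset.sum_congr rfl
  intro i _
  rw [hin, hin, hsw, hj]
  simp only [e1 i, e2 i]
  split_ifs
  · rw [lm_bas]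
  · rw [map_neg, lm_bas]
  · rw [map_zero]

/-- `⟨x_j, α_k⟩` -/
def pr (j : Fin (m + 1)) (k : Fin m) : ℤ :=
  if j = k.castSucc then 1 else if j = k.succ then -1 else 0

/-- the relation in one formula -/
theorem Xop_sg (k : Fin m) (j : Fin (m + 1)) (z : VV m) :
    Xop j (lm (sg k) z) = lm (sg k) (Xop (sg k j) z) + pr j k • z := by
  induction z using induction_bas with
  | h0 => simp
  | hadd y z hy hz => simp only [map_add, smul_add, hy, hz]; abel
  | hb x a =>
    simp only [map_smul, lm_bas, Xop_bas]
    by_cases h1 : j = k.castSucc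
    · subst h1
      rw [xb_sg_left]
      simp [pr, sg, swap_apply_left]
    · by_cases h2 : j = k.succ
      · subst h2
        have h3 : k.succ ≠ k.castSucc := (castSucc_ne_succ k).symm
        rw [xb_sg_right]
        simp [pr, sg, swap_apply_right, h3, sub_eq_add_neg]
      · rw [xb_sg_of_ne k j h1 h2]
        simp [pr, sg, swap_apply_of_ne_of_ne h1 h2, h1, h2]

/-- MO2. `x_i · 1 = 0`. -/
theorem xb_one (i : Fin (m + 1)) : xb i (1 : WG m) = 0 := by
  unfold xb
  apply Finset.sum_eq_zero
  intro j _
  have h1 : ¬ (i < j ∧ (1 : WG m)⁻¹ j < (1 : WG m)⁻¹ i) := by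
    rintro ⟨h, h'⟩
    simp at h'
    exact absurd h (not_lt.mpr h'.le)
  have h2 : ¬ (j < i ∧ (1 : WG m)⁻¹ i < (1 : WG m)⁻¹ j) := by
    rintro ⟨h, h'⟩
    simp at h'
    exact absurd h (not_lt.mpr h'.le)
  rw [if_neg h1, if_neg h2]

/-- induction on left multiplication by simple transpositions -/
theorem induction_left (p : WG m → Prop) (h1 : p 1) (hs : ∀ (k : Fin m) (x : WG m), p x → p (sg k * x))
    (x : WG m) : p x := by
  obtain ⟨l, hl, -⟩ := exists_word x⁻¹
  have key : ∀ l : List (Fin m), p (wp l)⁻¹ := by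
    intro l
    induction l with
    | nil => simpa [wp] using h1
    | cons k l ih =>
      have : (wp (k :: l))⁻¹ = sg k * (wp l)⁻¹ := by simp [wp, sg_inv]
      rw [this]
      exact hs k _ ih
  have := key l
  rwa [hl, inv_inv] at this

/-- MO3. The operators commute.
Proof: by `induction_left` show `(x_i x_j - x_j x_i) · x = 0` for all `i, j`.  For `x = 1` use
`xb_one`.  By `Xop_sg` twice,
`[x_i, x_j] s z = s [x_{s i}, x_{s j}] z + pr i (x_{s j} - x_j) z + pr j (x_i - x_{s i}) z`, and
the last two terms cancel: if `i = j` or neither of `i, j` is in `{k, k+1}` all vanish; if only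
`i ∈ {k, k+1}` then `s j = j` and `pr j = 0`; if `{i, j} = {k, k+1}` then `s i = j`, `s j = i`
and `pr i = - pr j`. -/
theorem Xop_comm (i j : Fin (m + 1)) (z : VV m) : Xop i (Xop j z) = Xop j (Xop i z) := by
  have key : ∀ x : WG m, ∀ i j : Fin (m + 1),
      Xop i (Xop j (bas x)) = Xop j (Xop i (bas x)) := by
    intro x
    refine induction_left (fun x => ∀ i j : Fin (m + 1),
      Xop i (Xop j (bas x)) = Xop j (Xop i (bas x))) ?_ ?_ x
    · intro i j
      rw [Xop_bas, Xop_bas, xb_one, xb_one, map_zero, map_zero]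
    · intro k x ih i j
      have h1 : bas (sg k * x) = lm (sg k) (bas x) := (lm_bas _ _).symm
      rw [h1, Xop_sg, Xop_sg, map_add, map_add, map_smul, map_smul, Xop_sg, Xop_sg, ih]
      have h2 : pr i k • Xop (sg k j) (bas x) + pr j k • Xop i (bas x) =
          pr j k • Xop (sg k i) (bas x) + pr i k • Xop j (bas x) := by
        have hne : k.succ ≠ k.castSucc := (castSucc_ne_succ k).symm
        by_cases hi1 : i = k.castSucc
        · by_cases hj1 : j = k.castSucc
          · rw [hi1, hj1]
          · by_cases hj2 : j = k.succ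
            · simp only [hi1, hj2, pr, sg, swap_apply_left, swap_apply_right, hne, if_true,
                if_false]
              module
            · simp only [hi1, pr, sg, swap_apply_left, swap_apply_of_ne_of_ne hj1 hj2, hj1, hj2,
                if_true, if_false]
              module
        · by_cases hi2 : i = k.succ
          · by_cases hj1 : j = k.castSucc
            · simp only [hi2, hj1, pr, sg, swap_apply_left, swap_apply_right, hne, if_true,
                if_false]
              module
            · by_cases hj2 : j = k.succ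
              · rw [hi2, hj2]
              · simp only [hi2, pr, sg, swap_apply_right, swap_apply_of_ne_of_ne hj1 hj2, hj1, hj2,
                  hne, if_true, if_false]
                module
          · by_cases hj1 : j = k.castSucc
            · simp only [hj1, pr, sg, swap_apply_left, swap_apply_of_ne_of_ne hi1 hi2, hi1, hi2,
                if_true, if_false]
              module
            · by_cases hj2 : j = k.succ
              · simp only [hj2, pr, sg, swap_apply_right, swap_apply_of_ne_of_ne hi1 hi2, hi1, hi2,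
                  hne, if_true, if_false]
                module
              · simp only [pr, sg, swap_apply_of_ne_of_ne hi1 hi2, swap_apply_of_ne_of_ne hj1 hj2,
                  hi1, hi2, hj1, hj2, if_false]
                module
      rw [add_assoc, add_assoc, h2]
  have h := ext_bas ((Xop i).comp (Xop j)) ((Xop j).comp (Xop i)) (fun x => key x i j)
  exact LinearMap.congr_fun h z

theorem range_comm (m : ℕ) : ∀ a ∈ Set.range (Xop (m := m)), ∀ b ∈ Set.range (Xop (m := m)),
    a * b = b * a := by
  rintro _ ⟨i, rfl⟩ _ ⟨j, rfl⟩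
  exact LinearMap.ext fun z => Xop_comm i j z

/-- The action of polynomials on `V`. -/
noncomputable def act (m : ℕ) : Pol m →ₐ[ℤ] Module.End ℤ (VV m) :=
  letI := Algebra.adjoinCommRingOfComm ℤ (range_comm m)
  (Algebra.adjoin ℤ (Set.range (Xop (m := m)))).val.comp
    (aeval fun i => (⟨Xop i, Algebra.subset_adjoin ⟨i, rfl⟩⟩ :
      Algebra.adjoin ℤ (Set.range (Xop (m := m)))))

/-- MO4. `act (X i) = Xop i`. -/
theorem act_X (i : Fin (m + 1)) : act m (X i) = Xop i := by
  simp [act]

theorem act_mul_apply (P Q : Pol m) (z : VV m) : act m (P * Q) z = act m P (act m Q z) := by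
  rw [map_mul]
  rfl

theorem act_X_apply (i : Fin (m + 1)) (z : VV m) : act m (X i) z = Xop i z := by
  rw [act_X]

theorem act_C_apply (a : ℤ) (z : VV m) : act m (C a) z = a • z := by
  have : (C a : Pol m) = a • 1 := by simp [MvPolynomial.smul_eq_C_mul]
  rw [this, map_smul, map_one]
  rfl

/-- MO5. `P · (s_k z) = s_k (s_k(P) · z) + ∂_k(P) · z`.
Proof: by `MvPolynomial.induction_on P` (for all `z`): constants; sums; `P * X j`: use
`act_mul_apply`, `Xop_sg`, the hypothesis for `Xop (sg k j) z`, `dd1_mul` and
`dd1 k (X j) = C (pr j k)`. -/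
theorem act_sg (P : Pol m) (k : Fin m) (z : VV m) :
    act m P (lm (sg k) z) = lm (sg k) (act m (pact (sg k) P) z) + act m (dd1 k P) z := by
  induction P using MvPolynomial.induction_on generalizing z with
  | C a =>
    rw [pact_C, dd1_C, act_C_apply, act_C_apply, map_smul, map_zero, LinearMap.zero_apply,
      add_zero]
  | add p q hp hq =>
    rw [dd1_add, map_add, map_add, map_add, map_add, LinearMap.add_apply, LinearMap.add_apply,
      LinearMap.add_apply, map_add, hp, hq]
    abel
  | mul_X p j hp =>
    have hdd : dd1 k (X j : Pol m) = C (pr j k) := by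
      by_cases h1 : j = k.castSucc
      · subst h1
        rw [dd1_X_left]
        simp [pr]
      · by_cases h2 : j = k.succ
        · subst h2
          rw [dd1_X_right]
          simp [pr, h1]
        · rw [dd1_X_of_ne k j h1 h2]
          simp [pr, h1, h2]
    have h3 : dd1 k (p * X j) = dd1 k p * X (sg k j) + C (pr j k) * p := by
      rw [mul_comm p (X j), dd1_mul, hdd, pact_X]
      ring
    rw [act_mul_apply, act_X_apply, Xop_sg, map_add, map_smul, hp, h3, map_mul, pact_X,
      act_mul_apply, act_X_apply, map_add, LinearMap.add_apply, act_mul_apply, act_X_apply,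
      act_mul_apply, act_C_apply]
    abel

end H45C
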