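import Pool.Agent.Helper45.CSM.WLink

/-!
# Positivity of `p2(2, 3; a, b)` by the reduction rule (pieces PT1-PT2)
-/

namespace H45C

open MvPolynomial Equiv

variable {m : ℕ}

/-- PT1a. (Expand with `hz_succ`; see the note for the computation.  With
`h_a[2] = h_a[1] + x_1 h_{a-1}[2]`, `h_{a+1}[2] = h_{a+1}[1] + x_1 h_a[2]`.  For `b < a` the maximum
in `p2 m 2 3 a b`, `p2 m 1 3 a b`, `p2 m 2 3 (a-1) b` is `a + 1`, `a + 1`, `a`.) -/
theorem p2_D1 (a b : ℕ) (h : b ≤ a) :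
    p2 m 2 3 (a + 1) b = p2 m 1 3 (a + 1) b + xv m 1 * p2 m 2 3 a b := by
  have hm1 : max (((a + 1 : ℕ) : ℤ) + 1) ((b : ℤ) + (((3 : ℕ) : ℤ) - ((2 : ℕ) : ℤ))) = a + 2 := by
    push_cast
    omega
  have hm2 : max (((a + 1 : ℕ) : ℤ) + 1) ((b : ℤ) + (((3 : ℕ) : ℤ) - ((1 : ℕ) : ℤ))) = a + 2 := by
    push_cast
    omega
  have hm3 : max ((a : ℤ) + 1) ((b : ℤ) + (((3 : ℕ) : ℤ) - ((2 : ℕ) : ℤ))) = a + 1 := by
    push_cast
    omega
  have e1 : ((a + 1 : ℕ) : ℤ) + b - (a + 2) = b - 1 := by push_cast; ring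
  have e2 : (a : ℤ) + b - (a + 1) = b - 1 := by ring
  have f1 := hz_succ (m := m) 1 ((a + 1 : ℕ) : ℤ)
  have f2 := hz_succ (m := m) 1 ((a : ℤ) + 2)
  rw [show ((a + 1 : ℕ) : ℤ) - 1 = a by push_cast; ring] at f1
  rw [show (a : ℤ) + 2 - 1 = a + 1 by ring] at f2
  unfold p2
  rw [hm1, hm2, hm3, e1, e2]
  linear_combination hz m 3 b * f1 - hz m 3 ((b : ℤ) - 1) * f2

/-- PT1b. For `a < b`: both sides are the two-row Schur polynomial with rows `b ≥ a` in
`x_0, x_1, x_2`. -/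
theorem p2_D2 (a b : ℕ) (h : a ≤ b) :
    p2 m 2 3 a (b + 1) = p2 m 1 3 (b + 1) a + xv m 1 * p2 m 2 3 b a + xv m 2 * p2 m 2 3 a b := by
  have hm1 : max ((a : ℤ) + 1) (((b + 1 : ℕ) : ℤ) + (((3 : ℕ) : ℤ) - ((2 : ℕ) : ℤ))) = b + 2 := by
    push_cast
    omega
  have hm2 : max (((b + 1 : ℕ) : ℤ) + 1) ((a : ℤ) + (((3 : ℕ) : ℤ) - ((1 : ℕ) : ℤ))) = b + 2 := by
    push_cast
    omega
  have hm3 : max ((b : ℤ) + 1) ((a : ℤ) + (((3 : ℕ) : ℤ) - ((2 : ℕ) : ℤ))) = b + 1 := by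
    push_cast
    omega
  have hm4 : max ((a : ℤ) + 1) ((b : ℤ) + (((3 : ℕ) : ℤ) - ((2 : ℕ) : ℤ))) = b + 1 := by
    push_cast
    omega
  have e1 : (a : ℤ) + ((b + 1 : ℕ) : ℤ) - (b + 2) = a - 1 := by push_cast; ring
  have e2 : ((b + 1 : ℕ) : ℤ) + a - (b + 2) = a - 1 := by push_cast; ring
  have e3 : (b : ℤ) + a - (b + 1) = a - 1 := by ring
  have e4 : (a : ℤ) + b - (b + 1) = a - 1 := by ring
  have f1 := hz_succ (m := m) 1 ((b + 1 : ℕ) : ℤ)
  have f2 := hz_succ (m := m) 1 ((b : ℤ) + 2)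
  have f3 := hz_succ (m := m) 2 (a : ℤ)
  have f4 := hz_succ (m := m) 2 ((b + 1 : ℕ) : ℤ)
  rw [show ((b + 1 : ℕ) : ℤ) - 1 = b by push_cast; ring] at f1 f4
  rw [show (b : ℤ) + 2 - 1 = b + 1 by ring] at f2
  have e5 : ((b + 1 : ℕ) : ℤ) = (b : ℤ) + 1 := by push_cast; ring
  unfold p2
  rw [hm1, hm2, hm3, hm4, e1, e2, e3, e4]
  rw [e5] at f1 f4 ⊢
  linear_combination hz m 3 a * f1 - hz m 3 ((a : ℤ) - 1) * f2 -
    hz m 2 ((b : ℤ) + 1) * f3 + hz m 2 a * f4

/-- PT1c. -/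
theorem p2_D3 (a : ℕ) :
    p2 m 2 3 (a + 1) (a + 1) = xv m 1 * p2 m 1 2 (a + 1) a + xv m 2 * p2 m 2 3 (a + 1) a := by
  have e5 : ((a + 1 : ℕ) : ℤ) = (a : ℤ) + 1 := by push_cast; ring
  have hm1 : max ((a : ℤ) + 1 + 1) ((a : ℤ) + 1 + (((3 : ℕ) : ℤ) - ((2 : ℕ) : ℤ))) = a + 2 := by
    push_cast
    omega
  have hm2 : max ((a : ℤ) + 1 + 1) ((a : ℤ) + (((2 : ℕ) : ℤ) - ((1 : ℕ) : ℤ))) = a + 2 := by
    push_cast
    omega
  have hm3 : max ((a : ℤ) + 1 + 1) ((a : ℤ) + (((3 : ℕ) : ℤ) - ((2 : ℕ) : ℤ))) = a + 2 := by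
    push_cast
    omega
  have e1 : (a : ℤ) + 1 + (a + 1) - (a + 2) = a := by ring
  have e2 : (a : ℤ) + 1 + a - (a + 2) = a - 1 := by ring
  have f1 := hz_succ (m := m) 1 ((a : ℤ) + 1)
  have f2 := hz_succ (m := m) 1 ((a : ℤ) + 2)
  have f3 := hz_succ (m := m) 2 ((a : ℤ) + 1)
  have f4 := hz_succ (m := m) 2 (a : ℤ)
  have f5 := hz_succ (m := m) 1 (a : ℤ)
  have f6 := hz_succ (m := m) 0 ((a : ℤ) + 1)
  have f7 := hz_succ (m := m) 0 ((a : ℤ) + 2)
  rw [hz_zero_left, if_neg (by omega), zero_add] at f6 f7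
  rw [show (a : ℤ) + 1 - 1 = a by ring] at f1 f3 f6
  rw [show (a : ℤ) + 2 - 1 = a + 1 by ring] at f2 f7
  rw [zero_add] at f6 f7
  unfold p2
  rw [e5, hm1, hm2, hm3, e1, e2]
  linear_combination hz m 2 ((a : ℤ) + 1) * f3 - hz m 2 ((a : ℤ) + 2) * f4 +
    hz m 2 ((a : ℤ) + 1) * f1 - hz m 2 a * f2 + hz m 1 ((a : ℤ) + 1) * f1
      - hz m 1 ((a : ℤ) + 2) * f5 + hz m 1 ((a : ℤ) + 1) * f6 - hz m 1 a * f7

theorem act_xv_mul (k : Fin (m + 1)) (P : Pol m) (z : VV m) :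
    act m (xv m k * P) z = act m P (Xop k z) := by
  have h : xv m k = X k := by
    unfold xv
    rw [dif_pos k.2]
  rw [mul_comm, act_mul_apply, h, act_X]

/-- PT2. **Positivity of `p2(2, 3; a, b)`.**  Induction on `a + b`.  `b < a`: `PP_of_min` with
`J = {0}` and `p2_D1`.  `a < b` and `a = b ≥ 1`: `PP_of_min` with `J = {0, 1}` (invariance under
`s_1` from `dd1_p2_adj_zero`, `inv_of_dd1_eq_zero`), `p2_D2`, `p2_D3`.  Use `act_xv_mul`,
`NN_Xop_of_min`, `PP_p2_one`. -/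
theorem PP_p2_two (hm : 2 ≤ m) (a b : ℕ) : PP (p2 m 2 3 a b) := by
  have key : ∀ n : ℕ, ∀ a b : ℕ, a + b = n → PP (p2 m 2 3 a b) := by
    intro n
    induction n using Nat.strong_induction_on with
    | _ n ih =>
      intro a b hab
      have hx1 : ∀ (P : Pol m) (z : VV m),
          act m (xv m 1 * P) z = act m P (Xop ⟨1, by omega⟩ z) := fun P z =>
        act_xv_mul (m := m) ⟨1, by omega⟩ P z
      have hx2 : ∀ (P : Pol m) (z : VV m),
          act m (xv m 2 * P) z = act m P (Xop ⟨2, by omega⟩ z) := fun P z =>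
        act_xv_mul (m := m) ⟨2, by omega⟩ P z
      have hinv0 : ∀ k : Fin m, (k : ℕ) = 0 → pact (sg k) (p2 m 2 3 a b) = p2 m 2 3 a b := by
        intro k hk
        exact inv_of_dd1_eq_zero k _ (dd1_p2_of_ne k 2 3 a b (by omega) (by omega))
      have hinv1 : a ≤ b → ∀ k : Fin m, (k : ℕ) = 1 →
          pact (sg k) (p2 m 2 3 a b) = p2 m 2 3 a b := by
        intro hle k hk
        have h := dd1_p2_adj_zero k a b hle
        rw [hk] at h
        exact inv_of_dd1_eq_zero k _ h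
      have hmin1 : ∀ x : WG m, (∀ k : Fin m, (k : ℕ) = 0 → x⁻¹ k.castSucc < x⁻¹ k.succ) →
          NN (Xop (⟨1, by omega⟩ : Fin (m + 1)) (bas x)) := by
        intro x hx
        refine NN_Xop_of_min _ x fun j hj => ?_
        have hj' : (j : ℕ) < 1 := hj
        have h := hx ⟨0, by omega⟩ rfl
        have e1 : (⟨0, by omega⟩ : Fin m).castSucc = j := Fin.ext (by simp; omega)
        have e2 : (⟨0, by omega⟩ : Fin m).succ = (⟨1, by omega⟩ : Fin (m + 1)) :=
          Fin.ext (by simp)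
        rw [e1, e2] at h
        exact h
      have hmin2 : ∀ x : WG m, (∀ k : Fin m, (k : ℕ) = 0 ∨ (k : ℕ) = 1 →
          x⁻¹ k.castSucc < x⁻¹ k.succ) → NN (Xop (⟨2, by omega⟩ : Fin (m + 1)) (bas x)) := by
        intro x hx
        refine NN_Xop_of_min _ x fun j hj => ?_
        have hj' : (j : ℕ) < 2 := hj
        have h1 := hx ⟨1, by omega⟩ (Or.inr rfl)
        have e2 : (⟨1, by omega⟩ : Fin m).succ = (⟨2, by omega⟩ : Fin (m + 1)) :=
          Fin.ext (by simp)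
        rw [e2] at h1
        by_cases hj0 : (j : ℕ) = 0
        · have h0 := hx ⟨0, by omega⟩ (Or.inl rfl)
          have e3 : (⟨0, by omega⟩ : Fin m).castSucc = j := Fin.ext (by simp; omega)
          have e4 : (⟨0, by omega⟩ : Fin m).succ = (⟨1, by omega⟩ : Fin m).castSucc :=
            Fin.ext (by simp)
          rw [e3, e4] at h0
          exact h0.trans h1
        · have e3 : (⟨1, by omega⟩ : Fin m).castSucc = j := Fin.ext (by simp; omega)
          rw [e3] at h1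
          exact h1
      rcases lt_trichotomy a b with h | h | h
      · obtain ⟨c, rfl⟩ : ∃ c, b = c + 1 := ⟨b - 1, by omega⟩
        refine PP_of_min (fun k => (k : ℕ) = 0 ∨ (k : ℕ) = 1) _ ?_ ?_
        · rintro k (hk | hk)
          · exact hinv0 k hk
          · exact hinv1 h.le k hk
        · intro x hx
          rw [p2_D2 a c (by omega), map_add, map_add, LinearMap.add_apply, LinearMap.add_apply,
            hx1, hx2]
          refine NN.add (NN.add (PP_p2_one 3 (c + 1) a (by omega) (by omega) x) ?_) ?_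
          · exact PP.act (ih (c + a) (by omega) c a rfl)
              (hmin1 x fun k hk => hx k (Or.inl hk))
          · exact PP.act (ih (a + c) (by omega) a c rfl) (hmin2 x hx)
      · subst h
        cases a with
        | zero =>
          rw [p2_a_zero 2 3 0 (by norm_num)]
          have : hz m 3 ((0 : ℕ) : ℤ) = 1 := by
            rw [Nat.cast_zero, hz_zero_right]
          rw [this]
          exact PP.one
        | succ c =>
          refine PP_of_min (fun k => (k : ℕ) = 0 ∨ (k : ℕ) = 1) _ ?_ ?_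
          · rintro k (hk | hk)
            · exact hinv0 k hk
            · exact hinv1 le_rfl k hk
          · intro x hx
            rw [p2_D3 c, map_add, LinearMap.add_apply, hx1, hx2]
            refine NN.add ?_ ?_
            · exact PP.act (PP_p2_one 2 (c + 1) c (by omega) (by omega))
                (hmin1 x fun k hk => hx k (Or.inl hk))
            · exact PP.act (ih (c + 1 + c) (by omega) (c + 1) c rfl) (hmin2 x hx)
      · obtain ⟨c, rfl⟩ : ∃ c, a = c + 1 := ⟨a - 1, by omega⟩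
        refine PP_of_min (fun k => (k : ℕ) = 0) _ hinv0 ?_
        intro x hx
        rw [p2_D1 c b (by omega), map_add, LinearMap.add_apply, hx1]
        refine NN.add (PP_p2_one 3 (c + 1) b (by omega) (by omega) x) ?_
        exact PP.act (ih (c + b) (by omega) c b rfl) (hmin1 x hx)
  exact key _ a b rfl

end H45C
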