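import Pool.Agent.Helper45.CSM.Sym

/-!
# Polynomials representing Schubert classes (pieces RE1-RE6)
-/

namespace H45C

open MvPolynomial Equiv

variable {m : ℕ}

/-- RE1. **The step lemma.** `P` represents `[Y(v)]` as soon as `∂_k P` represents
`[Y(v s_k)]` for all descents `k` of `v`, `∂_k P = 0` for all ascents `k` of `v`, and the
constant term of `P` is right.
Proof: cases on the word.  `l = []`: `wp [] = 1`, `inv v = 0 ↔ v = 1`.  `l = k :: l'`:
`wp l = wp l' * s_k`, so `wp l = v ↔ wp l' = v s_k`.  Descent: use `inv_mul_sg_of_desc`.
Ascent: the left side is `0`; if `wp l = v` and `length l = inv v` then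
`inv (v s_k) = inv v + 1 ≤ length l' = inv v - 1` by `inv_mul_sg_of_asc` and `inv_wp_le`. -/
theorem isSchub_step (v : WG m) (P : Pol m)
    (hd : ∀ k : Fin m, v k.succ < v k.castSucc → IsSchub (v * sg k) (dd1 k P))
    (ha : ∀ k : Fin m, v k.castSucc < v k.succ → dd1 k P = 0)
    (hc : constantCoeff P = if v = 1 then 1 else 0) : IsSchub v P := by
  intro l
  cases l with
  | nil =>
    show constantCoeff P = _
    rw [hc]
    by_cases h : v = 1
    · have h2 : wp ([] : List (Fin m)) = v ∧ ([] : List (Fin m)).length = inv v := by
        subst h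
        exact ⟨rfl, inv_one.symm⟩
      rw [if_pos h, if_pos h2]
    · have h2 : ¬ (wp ([] : List (Fin m)) = v ∧ ([] : List (Fin m)).length = inv v) := by
        rintro ⟨h1, -⟩
        exact h h1.symm
      rw [if_neg h, if_neg h2]
  | cons k l =>
    have hiff : wp (k :: l) = v ↔ wp l = v * sg k := by
      constructor
      · intro h
        rw [← h, wp, mul_assoc, sg_mul_self, mul_one]
      · intro h
        rw [wp, h, mul_assoc, sg_mul_self, mul_one]
    show constantCoeff (dd l (dd1 k P)) = _
    rcases lt_or_gt_of_ne (fun h => castSucc_ne_succ k (v.injective h)) with h | h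
    · have h2 : ¬ (wp (k :: l) = v ∧ (k :: l).length = inv v) := by
        rintro ⟨h1, h2⟩
        have h3 := inv_wp_le l
        rw [hiff.1 h1, inv_mul_sg_of_asc v k h] at h3
        rw [List.length_cons] at h2
        omega
      rw [ha k h, dd_zero, map_zero, if_neg h2]
    · have h1 := inv_mul_sg_of_desc v k h
      rw [hd k h l]
      refine if_congr ?_ rfl rfl
      rw [hiff, List.length_cons]
      refine and_congr_right fun _ => ?_
      omega

private theorem RE2_xb (i : Fin (m + 1)) (x y : WG m) (h : xb i x y ≠ 0) :
    inv y⁻¹ < inv x⁻¹ := by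
  unfold xb at h
  rw [Finsupp.finsetSum_apply] at h
  obtain ⟨j, -, hj⟩ := Finset.exists_ne_zero_of_sum_ne_zero h
  split_ifs at hj with h1 h2
  · have hy : swap i j * x = y := by
      by_contra hne
      exact hj (by simp [bas, hne])
    rw [← hy, mul_inv_rev, swap_inv]
    exact inv_mul_swap_lt x⁻¹ i j h1.1 h1.2
  · have hy : swap i j * x = y := by
      by_contra hne
      exact hj (by simp [bas, hne])
    rw [← hy, mul_inv_rev, swap_inv, swap_comm]
    exact inv_mul_swap_lt x⁻¹ j i h2.1 h2.2
  · exact absurd rfl hj

private theorem RE2_Xop (i : Fin (m + 1)) (z : VV m) (N k : ℕ)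
    (hz : ∀ y, z y ≠ 0 → inv y⁻¹ + k ≤ N) (y : WG m) (h : Xop i z y ≠ 0) :
    inv y⁻¹ + (k + 1) ≤ N := by
  have e : Xop i z = z.sum fun x a => a • xb i x := rfl
  rw [e, Finsupp.sum, Finsupp.finsetSum_apply] at h
  obtain ⟨x, hx, hne⟩ := Finset.exists_ne_zero_of_sum_ne_zero h
  rw [Finsupp.smul_apply] at hne
  have h1 := RE2_xb i x y (right_ne_zero_of_smul hne)
  have h2 := hz x (Finsupp.mem_support_iff.mp hx)
  omega

private theorem RE2_mono (s : Fin (m + 1) →₀ ℕ) (a : ℤ) : ∀ (z : VV m) (N k : ℕ),
    (∀ y, z y ≠ 0 → inv y⁻¹ + k ≤ N) → ∀ y, act m (monomial s a) z y ≠ 0 →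
      inv y⁻¹ + k + (monomial s a : Pol m).totalDegree ≤ N := by
  refine induction_on_monomial (motive := fun p : Pol m => ∀ (z : VV m) (N k : ℕ),
    (∀ y, z y ≠ 0 → inv y⁻¹ + k ≤ N) → ∀ y, act m p z y ≠ 0 →
      inv y⁻¹ + k + p.totalDegree ≤ N) ?_ ?_ s a
  · intro a z N k hz y h
    rw [act_C_apply, Finsupp.smul_apply] at h
    rw [totalDegree_C, add_zero]
    exact hz y (right_ne_zero_of_smul h)
  · intro p n ih z N k hz y h
    rw [act_mul_apply, act_X_apply] at h
    have hp : p ≠ 0 := by
      rintro rfl
      simp at h
    rw [totalDegree_mul_of_isDomain hp (X_ne_zero n), totalDegree_X]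
    have h1 := ih (Xop n z) N (k + 1) (fun y' hy' => RE2_Xop n z N k hz y' hy') y h
    omega

/-- RE2. **Degree.** A homogeneous polynomial of degree `d` lowers the number of inversions of
`x⁻¹` by at least `d`.
Proof: it is enough to treat monomials; by induction on the number of factors it is enough to see
that all `y` with `xb i x y ≠ 0` have `inv y⁻¹ < inv x⁻¹`: such a `y` is `swap i j * x` with
`y⁻¹ = x⁻¹ * swap i j`, and `inv_mul_swap_lt` applies to `x⁻¹` and the letters `i, j`. -/
theorem act_degree (P : Pol m) (d : ℕ) (hP : P.IsHomogeneous d) (x y : WG m)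
    (h : act m P (bas x) y ≠ 0) : inv y⁻¹ + d ≤ inv x⁻¹ := by
  rw [P.as_sum, map_sum, LinearMap.sum_apply, Finsupp.finsetSum_apply] at h
  obtain ⟨s, hs, hne⟩ := Finset.exists_ne_zero_of_sum_ne_zero h
  have hc : coeff s P ≠ 0 := mem_support_iff.mp hs
  have h1 := RE2_mono s (coeff s P) (bas x) (inv x⁻¹) 0 (fun y' hy' => by
    have : x = y' := by
      by_contra hxy
      exact hy' (by simp [bas, hxy])
    rw [this, add_zero]) y hne
  have h2 : (monomial s (coeff s P) : Pol m).IsHomogeneous d := by
    intro s' hs'
    rw [coeff_monomial] at hs'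
    split_ifs at hs' with h3
    · rw [← h3]
      exact hP hc
    · exact absurd rfl hs'
  rw [h2.totalDegree (by rwa [Ne, monomial_eq_zero])] at h1
  omega

/-- RE3. **Divided differences as coefficients.** If `P` is homogeneous of degree `length l`,
then the constant term of `∂_l P` is the coefficient of `1` in `P · (wp l)⁻¹`.
Proof: induction on `l` (generalizing `P`).  `l = []`: `P` is a constant, `P · 1 = P 1`.
`l = k :: l'`, `x = (wp l')⁻¹`, `(wp l)⁻¹ = s_k x`: by `act_sg` the coefficient of `1` in
`P · (s_k x)` is the coefficient of `s_k` in `(s_k P) · x` plus the coefficient of `1` in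
`(∂_k P) · x`; the first is `0` by `act_degree` since `inv x⁻¹ = inv (wp l') ≤ length l'`
(`inv_wp_le`). -/
theorem constantCoeff_dd (l : List (Fin m)) (P : Pol m) (hP : P.IsHomogeneous l.length) :
    constantCoeff (dd l P) = act m P (bas (wp l)⁻¹) 1 := by
  induction l generalizing P with
  | nil =>
    have h0 : P = C (coeff 0 P) :=
      totalDegree_eq_zero_iff_eq_C.mp (Nat.le_zero.mp hP.totalDegree_le)
    simp only [dd, wp]
    rw [h0, act_C_apply]
    simp [bas]
  | cons k l ih =>
    have hP1 : (dd1 k P).IsHomogeneous l.length := dd1_homog k P l.length hP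
    have e1 : (wp (k :: l))⁻¹ = sg k * (wp l)⁻¹ := by simp [wp, sg_inv]
    have hP2 : (pact (sg k) P).IsHomogeneous (l.length + 1) := hP.rename_isHomogeneous
    have e2 : act m (pact (sg k) P) (bas (wp l)⁻¹) (sg k) = 0 := by
      by_contra hne
      have h1 := act_degree _ _ hP2 _ _ hne
      rw [inv_inv] at h1
      have h2 := inv_wp_le l
      omega
    rw [e1, ← lm_bas, act_sg, Finsupp.add_apply, lm_apply, sg_inv, mul_one, e2, zero_add]
    exact ih _ hP1

/-- RE4a. For a homogeneous polynomial of degree `d`, `∂_l P` has no constant term unless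
`length l = d` -/
theorem constantCoeff_dd_of_ne (l : List (Fin m)) (P : Pol m) (d : ℕ) (hP : P.IsHomogeneous d)
    (h : l.length ≠ d) : constantCoeff (dd l P) = 0 := by
  induction l generalizing P d with
  | nil =>
    have h1 : ¬ (coeff 0 P ≠ 0) := fun hne => by
      have h2 := hP hne
      simp at h2
      exact h (by simpa using h2)
    simpa [dd, constantCoeff_eq] using h1
  | cons k l ih =>
    cases d with
    | zero =>
      have h0 : P = C (coeff 0 P) :=
        totalDegree_eq_zero_iff_eq_C.mp (Nat.le_zero.mp hP.totalDegree_le)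
      simp only [dd]
      rw [h0, dd1_C, dd_zero, map_zero]
    | succ d =>
      simp only [dd]
      exact ih _ d (dd1_homog k P d hP) (by simpa using h)

/-- RE4b. **Criterion.** -/
theorem isSchub_iff (v : WG m) (P : Pol m) (hP : P.IsHomogeneous (inv v)) :
    IsSchub v P ↔ ∀ x : WG m, inv x⁻¹ = inv v →
      act m P (bas x) 1 = if x = v⁻¹ then 1 else 0 := by
  constructor
  · intro hS x hx
    obtain ⟨l, hl1, hl2⟩ := exists_word x⁻¹
    have hlen : l.length = inv v := hl2.trans hx
    have h1 := constantCoeff_dd l P (by rw [hlen]; exact hP)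
    rw [hl1, inv_inv] at h1
    rw [← h1, hS l, hl1]
    by_cases hxv : x = v⁻¹
    · rw [if_pos hxv, if_pos ⟨by rw [hxv, inv_inv], hlen⟩]
    · rw [if_neg hxv, if_neg (fun h => hxv (by rw [← h.1, inv_inv]))]
  · intro hx l
    by_cases hlen : l.length = inv v
    · have h1 := constantCoeff_dd l P (by rw [hlen]; exact hP)
      rw [h1]
      by_cases hv : wp l = v
      · rw [if_pos ⟨hv, hlen⟩, hx (wp l)⁻¹ (by rw [inv_inv, hv]), if_pos (by rw [hv])]
      · rw [if_neg (fun h => hv h.1)]
        by_cases hi : inv (wp l) = inv v
        · rw [hx (wp l)⁻¹ (by rw [inv_inv, hi]), if_neg (fun h => hv (inv_injective h))]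
        · by_contra hne
          have h2 := act_degree P (inv v) hP _ _ hne
          rw [inv_inv] at h2
          have h3 := inv_wp_le l
          omega
    · rw [constantCoeff_dd_of_ne l P (inv v) hP hlen, if_neg (fun h => hlen h.2)]

private theorem re5_dd1_X (k : Fin m) (j : Fin (m + 1)) :
    ∃ a : ℤ, dd1 k (X j : Pol m) = C a := by
  by_cases h1 : j = k.castSucc
  · subst h1
    exact ⟨1, by rw [dd1_X_left, C_1]⟩
  · by_cases h2 : j = k.succ
    · subst h2
      exact ⟨-1, by rw [dd1_X_right, C_neg, C_1]⟩
    · exact ⟨0, by rw [dd1_X_of_ne k j h1 h2, C_0]⟩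

private theorem re5_dd_C (l : List (Fin m)) (a : ℤ) (P : Pol m) :
    dd l (C a * P) = C a * dd l P := by
  induction l generalizing P with
  | nil => rfl
  | cons k l ih =>
    simp only [dd]
    rw [dd1_mul_of_inv k (C a) P (pact_C _ _), ih]

private theorem re5_X (l : List (Fin m)) (P : Pol m) (h : ∀ l, constantCoeff (dd l P) = 0)
    (j : Fin (m + 1)) : constantCoeff (dd l (X j * P)) = 0 := by
  induction l generalizing P j with
  | nil =>
    simp only [dd]
    rw [map_mul, constantCoeff_X, zero_mul]
  | cons k l ih =>
    obtain ⟨a, ha⟩ := re5_dd1_X k j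
    simp only [dd]
    rw [dd1_mul, ha, pact_X, dd_add, map_add, re5_dd_C, map_mul, h l, mul_zero, zero_add]
    exact ih (dd1 k P) (fun l' => h (k :: l')) (sg k j)

private theorem re5_pact (P : Pol m) (h : ∀ l, constantCoeff (dd l P) = 0) (k : Fin m)
    (l : List (Fin m)) : constantCoeff (dd l (pact (sg k) P)) = 0 := by
  have h1 : pact (sg k) P = P - (X k.castSucc * dd1 k P - X k.succ * dd1 k P) := by
    have h2 := dd1_spec k P
    rw [rt, sub_mul] at h2
    rw [h2]
    ring
  have h3 : ∀ l, constantCoeff (dd l (dd1 k P)) = 0 := fun l' => h (k :: l')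
  rw [h1, dd_sub, dd_sub, map_sub, map_sub, h l, re5_X l _ h3, re5_X l _ h3]
  ring

private theorem re5_one (P : Pol m) : act m P (bas 1) = constantCoeff P • bas (1 : WG m) := by
  induction P using MvPolynomial.induction_on with
  | C a => rw [act_C_apply, constantCoeff_C]
  | add p q hp hq => rw [map_add, LinearMap.add_apply, hp, hq, map_add, add_smul]
  | mul_X p j hp =>
    rw [act_mul_apply, act_X_apply, Xop_bas, xb_one, map_zero, map_mul, constantCoeff_X, mul_zero,
      zero_smul]

/-- RE5. If the constant terms of all `∂_l P` vanish, then `P` acts as zero.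
Proof: call such `P` null.  (i) `∂_k P` is null.  (ii) `x_j P` is null: show
`ε(∂_l (x_j P)) = 0` for all null `P` and all `j` by induction on `l`, using `dd1_mul`
(`∂_k(x_j P) = ∂_k(x_j) P + x_{s_k j} ∂_k P`, and `∂_k x_j` is a constant).  (iii) `s_k P =
P - (x_k - x_{k+1}) ∂_k P` is null (`dd1_spec`).  Then `P · x = 0` for all null `P` by
`induction_left` on `x`: `P · 1 = ε(P) 1` and `act_sg`. -/
theorem act_eq_zero_of_null (P : Pol m) (h : ∀ l, constantCoeff (dd l P) = 0) (z : VV m) :
    act m P z = 0 := by
  have key : ∀ x : WG m, ∀ P : Pol m, (∀ l, constantCoeff (dd l P) = 0) →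
      act m P (bas x) = 0 := by
    intro x
    induction x using induction_left with
    | h1 =>
      intro P hP
      have h2 : constantCoeff P = 0 := hP []
      rw [re5_one, h2, zero_smul]
    | hs k y ih =>
      intro P hP
      rw [← lm_bas, act_sg, ih _ (re5_pact P hP k), ih _ (fun l => hP (k :: l)), map_zero,
        add_zero]
  induction z using induction_bas with
  | h0 => exact map_zero _
  | hadd y z hy hz => rw [map_add, hy, hz, add_zero]
  | hb x a => rw [map_smul, key x P h, smul_zero]

/-- Two polynomials representing the same Schubert class act in the same way. -/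
theorem act_eq_of_isSchub (v : WG m) (P Q : Pol m) (hP : IsSchub v P) (hQ : IsSchub v Q)
    (z : VV m) : act m P z = act m Q z := by
  have h := act_eq_zero_of_null (P - Q) (fun l => by
    rw [dd_sub, map_sub, hP l, hQ l, sub_self]) z
  rw [map_sub, LinearMap.sub_apply] at h
  exact sub_eq_zero.mp h

/-- RE6. **Two nonzero entries.** If the Lehmer code of `v` is `a` at position `i`, `b` at
position `j > i` (numbered from 0) and `0` elsewhere, then `p2 (i+1) (j+1) a b` represents
`[Y(v)]`.
Proof: induction on `a + b` (all `i, j, v`), by `isSchub_step`; descents are read off from the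
code (`desc_iff_code`), the code of `v s_k` is given by `code_mul_sg_*`; use the lemmas
`dd1_p2_*` and `p2_a_zero`, `p2_b_zero`. -/
theorem isSchub_p2 (v : WG m) (i j : Fin (m + 1)) (hij : i < j)
    (h : ∀ k, k ≠ i → k ≠ j → code v k = 0) :
    IsSchub v (p2 m ((i : ℕ) + 1) ((j : ℕ) + 1) (code v i) (code v j)) := by
  induction hs : code v i + code v j using Nat.strong_induction_on generalizing v i j with
  | _ s ih =>
    subst hs
    have hlt : ∀ k : Fin m, k.castSucc < k.succ := fun k => Fin.castSucc_lt_succ
    apply isSchub_step
    · intro k hk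
      have hk' := (desc_iff_code v k).1 hk
      have c1 := code_mul_sg_left v k hk
      have c2 := code_mul_sg_right v k hk
      have c3 := code_mul_sg_of_ne v k
      by_cases hj : k.castSucc = j
      · subst hj
        have hne1 : k.succ ≠ i := ((hij.trans (hlt k)).ne).symm
        have hne2 : k.succ ≠ k.castSucc := (castSucc_ne_succ k).symm
        have hc0 : code v k.succ = 0 := h _ hne1 hne2
        obtain ⟨b, hb⟩ : ∃ b, code v k.castSucc = b + 1 := ⟨code v k.castSucc - 1, by omega⟩
        have e1 : code (v * sg k) i = code v i := c3 i (ne_of_lt hij) hne1.symm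
        have e2 : code (v * sg k) k.succ = b := by omega
        have hik : (i : ℕ) + 1 < (k : ℕ) + 1 := by
          have h1 := hij
          rw [Fin.lt_def, Fin.val_castSucc] at h1
          omega
        rw [hb, Fin.val_castSucc, dd1_p2_right k _ _ _ hik]
        have key := ih (code (v * sg k) i + code (v * sg k) k.succ) (by omega) (v * sg k) i k.succ
          (hij.trans (hlt k)) (by
            intro l hl1 hl2
            by_cases hl3 : l = k.castSucc
            · rw [hl3, c1, hc0]
            · rw [c3 l hl3 hl2]
              exact h l hl1 hl3) rfl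
        rw [e1, e2] at key
        exact key
      · by_cases hi : k.castSucc = i
        · subst hi
          by_cases hj2 : k.succ = j
          · subst hj2
            obtain ⟨a, ha⟩ : ∃ a, code v k.castSucc = a + 1 := ⟨code v k.castSucc - 1, by omega⟩
            have e2 : code (v * sg k) k.succ = a := by omega
            rw [ha, Fin.val_castSucc, Fin.val_succ]
            have e3 := dd1_p2_adj (m := m) k a (code v k.succ) (by omega)
            have key := ih (code (v * sg k) k.castSucc + code (v * sg k) k.succ) (by omega)
              (v * sg k) k.castSucc k.succ (hlt k) (by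
                intro l hl1 hl2
                rw [c3 l hl1 hl2]
                exact h l hl1 hl2) rfl
            rw [c1, e2] at key
            have e4 : ((k : ℕ) + 1 + 1) = (k : ℕ) + 2 := rfl
            rw [e4, e3]
            exact key
          · have hne2 : k.succ ≠ k.castSucc := (castSucc_ne_succ k).symm
            have hc0 : code v k.succ = 0 := h _ hne2 hj2
            have hkj : k.succ < j := by
              rw [Fin.lt_def, Fin.val_succ]
              have h1 : (k : ℕ) < (j : ℕ) := hij
              have h2 : (k : ℕ) + 1 ≠ (j : ℕ) := fun he => hj2 (Fin.ext he)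
              omega
            obtain ⟨a, ha⟩ : ∃ a, code v k.castSucc = a + 1 := ⟨code v k.castSucc - 1, by omega⟩
            have e1 : code (v * sg k) j = code v j := c3 j (ne_of_gt hij) (Ne.symm hj2)
            have e2 : code (v * sg k) k.succ = a := by omega
            have hkj' : (k : ℕ) + 2 < (j : ℕ) + 1 := by
              have h1 := hkj
              rw [Fin.lt_def, Fin.val_succ] at h1
              omega
            rw [ha, Fin.val_castSucc, dd1_p2_left k _ _ _ hkj']
            have key := ih (code (v * sg k) k.succ + code (v * sg k) j) (by omega) (v * sg k)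
              k.succ j hkj (by
                intro l hl1 hl2
                by_cases hl3 : l = k.castSucc
                · rw [hl3, c1, hc0]
                · rw [c3 l hl3 hl1]
                  exact h l hl3 hl2) rfl
            rw [e1, e2] at key
            exact key
        · exfalso
          have h1 := h _ hi hj
          omega
    · intro k hk
      have hk' : code v k.castSucc ≤ code v k.succ := by
        by_contra hc
        push Not at hc
        exact lt_asymm hk ((desc_iff_code v k).2 hc)
      by_cases hj : k.castSucc = j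
      · subst hj
        have hne1 : k.succ ≠ i := ((hij.trans (hlt k)).ne).symm
        have hne2 : k.succ ≠ k.castSucc := (castSucc_ne_succ k).symm
        have hc0 : code v k.succ = 0 := h _ hne1 hne2
        have hb : code v k.castSucc = 0 := by omega
        have hik : (i : ℕ) + 1 < (k : ℕ) + 1 := by
          have h1 := hij
          rw [Fin.lt_def, Fin.val_castSucc] at h1
          omega
        rw [hb, Fin.val_castSucc]
        exact dd1_p2_right_zero k _ _ hik
      · by_cases hi : k.castSucc = i
        · subst hi
          by_cases hj2 : k.succ = j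
          · subst hj2
            rw [Fin.val_castSucc, Fin.val_succ]
            exact dd1_p2_adj_zero k _ _ hk'
          · have hne2 : k.succ ≠ k.castSucc := (castSucc_ne_succ k).symm
            have hc0 : code v k.succ = 0 := h _ hne2 hj2
            have ha : code v k.castSucc = 0 := by omega
            have hkj' : (k : ℕ) + 2 < (j : ℕ) + 1 := by
              have h1 : (k : ℕ) < (j : ℕ) := hij
              have h2 : (k : ℕ) + 1 ≠ (j : ℕ) := fun he => hj2 (Fin.ext he)
              omega
            rw [ha, Fin.val_castSucc]
            exact dd1_p2_left_zero k _ _ hkj'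
        · apply dd1_p2_of_ne
          · intro he
            exact hi (Fin.ext (by rw [Fin.val_castSucc]; omega))
          · intro he
            exact hj (Fin.ext (by rw [Fin.val_castSucc]; omega))
    · by_cases h0 : code v i + code v j = 0
      · have hv : v = 1 := by
          apply eq_one_of_code
          intro l
          by_cases hl1 : l = i
          · rw [hl1]; omega
          · by_cases hl2 : l = j
            · rw [hl2]; omega
            · exact h l hl1 hl2
        have ha : code v i = 0 := by omega
        have hb : code v j = 0 := by omega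
        rw [if_pos hv, ha, hb, p2_b_zero]
        have h1 := hz_zero_right (m := m) ((i : ℕ) + 1)
        rw [Nat.cast_zero, h1, map_one]
      · have hv : v ≠ 1 := by
          rintro rfl
          have h1 : ∀ l, code (1 : WG m) l = 0 := by
            have h2 := sum_code (1 : WG m)
            rw [inv_one] at h2
            intro l
            exact (Finset.sum_eq_zero_iff.1 h2) l (Finset.mem_univ l)
          rw [h1, h1] at h0
          exact h0 rfl
        rw [if_neg hv]
        exact constantCoeff_dd_of_ne [] _ _ (p2_homog _ _ _ _) (Ne.symm h0)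

end H45C
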