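import Pool.Agent.Helper45.CSM.Cone

/-!
# Complete symmetric polynomials and the two-row polynomials (pieces SY1-SY4)
-/

namespace H45C

open MvPolynomial Equiv

variable {m : ℕ}

/-- `h_k(x_0, ..., x_{j-1})` for `k : ℕ` -/
noncomputable def hn (m : ℕ) : ℕ → ℕ → Pol m
  | 0, 0 => 1
  | 0, _ + 1 => 0
  | _ + 1, 0 => 1
  | j + 1, k + 1 => hn m j (k + 1) + xv m j * hn m (j + 1) k

/-- `h_k(x_0, ..., x_{j-1})` for `k : ℤ` -/
noncomputable def hz (m : ℕ) (j : ℕ) (k : ℤ) : Pol m := if 0 ≤ k then hn m j k.toNat else 0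

theorem hz_neg (j : ℕ) {k : ℤ} (hk : k < 0) : hz m j k = 0 := by
  unfold hz
  rw [if_neg (not_le.mpr hk)]

theorem hn_zero_right (j : ℕ) : hn m j 0 = 1 := by
  cases j <;> simp [hn]

theorem hz_zero_right (j : ℕ) : hz m j 0 = 1 := by
  simp [hz, hn_zero_right]

theorem hz_zero_left (k : ℤ) : hz m 0 k = if k = 0 then 1 else 0 := by
  unfold hz
  by_cases h : 0 ≤ k
  · rw [if_pos h]
    obtain ⟨n, rfl⟩ := Int.eq_ofNat_of_zero_le h
    cases n with
    | zero => simp [hn]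
    | succ n => simp [hn]; omega
  · rw [if_neg h, if_neg (by omega)]

/-- the recursion `h_k[j+1] = h_k[j] + x_j h_{k-1}[j+1]` -/
theorem hz_succ (j : ℕ) (k : ℤ) : hz m (j + 1) k = hz m j k + xv m j * hz m (j + 1) (k - 1) := by
  rcases lt_trichotomy k 0 with h | h | h
  · rw [hz_neg _ h, hz_neg _ h, hz_neg _ (by omega)]
    simp
  · subst h
    rw [hz_zero_right, hz_zero_right, hz_neg _ (by norm_num)]
    simp
  · obtain ⟨n, rfl⟩ : ∃ n : ℕ, k = n + 1 := ⟨(k - 1).toNat, by omega⟩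
    have h1 : ((n : ℤ) + 1).toNat = n + 1 := by omega
    have h2 : ((n : ℤ) + 1 - 1).toNat = n := by omega
    unfold hz
    rw [if_pos (by omega), if_pos (by omega), if_pos (by omega), h1, h2, hn]

private theorem sy1_xv_left (i : Fin m) : xv m (i : ℕ) = X i.castSucc := by
  have h := i.2
  unfold xv
  rw [dif_pos (by omega)]
  rfl

private theorem sy1_xv_right (i : Fin m) : xv m ((i : ℕ) + 1) = X i.succ := by
  have h := i.2
  unfold xv
  rw [dif_pos (by omega)]
  rfl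

private theorem sy1_xv_ne (i : Fin m) (j : ℕ) (h1 : j ≠ i) (h2 : j ≠ (i : ℕ) + 1) :
    pact (sg i) (xv m j) = xv m j := by
  unfold xv
  split_ifs with h
  · rw [pact_X, sg, swap_apply_of_ne_of_ne]
    · intro h3
      exact h1 (congrArg Fin.val h3)
    · intro h3
      exact h2 (congrArg Fin.val h3)
  · rw [map_zero]

private theorem sy1_pact_left (i : Fin m) : pact (sg i) (xv m (i : ℕ)) = xv m ((i : ℕ) + 1) := by
  rw [sy1_xv_left, sy1_xv_right, pact_X, sg, swap_apply_left]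

private theorem sy1_pact_right (i : Fin m) : pact (sg i) (xv m ((i : ℕ) + 1)) = xv m (i : ℕ) := by
  rw [sy1_xv_left, sy1_xv_right, pact_X, sg, swap_apply_right]

private theorem sy1_step (i : Fin m) (j : ℕ) (h1 : j ≠ i) (h2 : j ≠ (i : ℕ) + 1)
    (h : ∀ k, pact (sg i) (hz m j k) = hz m j k) (k : ℤ) :
    pact (sg i) (hz m (j + 1) k) = hz m (j + 1) k := by
  have key : ∀ n : ℕ, ∀ k : ℤ, k < n → pact (sg i) (hz m (j + 1) k) = hz m (j + 1) k := by
    intro n
    induction n with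
    | zero =>
      intro k hk
      rw [hz_neg _ (by exact_mod_cast hk), map_zero]
    | succ n ih =>
      intro k hk
      rw [hz_succ, map_add, map_mul, h, sy1_xv_ne i j h1 h2, ih (k - 1) (by push_cast at hk; omega)]
  exact key (k.toNat + 1) k (by omega)

private theorem sy1_le (i : Fin m) (j : ℕ) (h : j ≤ i) (k : ℤ) :
    pact (sg i) (hz m j k) = hz m j k := by
  induction j generalizing k with
  | zero =>
    rw [hz_zero_left]
    split_ifs
    · rw [map_one]
    · rw [map_zero]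
  | succ j ih => exact sy1_step i j (by omega) (by omega) (fun k => ih (by omega) k) k

private theorem sy1_two (i : Fin m) (k : ℤ) :
    pact (sg i) (hz m ((i : ℕ) + 2) k) = hz m ((i : ℕ) + 2) k := by
  have hid : ∀ k : ℤ, hz m ((i : ℕ) + 2) k = hz m i k +
      (xv m i + xv m ((i : ℕ) + 1)) * hz m ((i : ℕ) + 2) (k - 1) -
      xv m i * xv m ((i : ℕ) + 1) * hz m ((i : ℕ) + 2) (k - 2) := by
    intro k
    have e1 := hz_succ (m := m) ((i : ℕ) + 1) k
    have e2 := hz_succ (m := m) (i : ℕ) k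
    have e3 := hz_succ (m := m) ((i : ℕ) + 1) (k - 1)
    rw [show k - 1 - 1 = k - 2 by ring] at e3
    linear_combination e1 + e2 - xv m i * e3
  have key : ∀ n : ℕ, ∀ k : ℤ, k < n → pact (sg i) (hz m ((i : ℕ) + 2) k) = hz m ((i : ℕ) + 2) k := by
    intro n
    induction n with
    | zero =>
      intro k hk
      rw [hz_neg _ (by exact_mod_cast hk), map_zero]
    | succ n ih =>
      intro k hk
      rw [hid, map_sub, map_add, map_mul, map_mul, map_mul, map_add, sy1_le i i le_rfl k,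
        sy1_pact_left, sy1_pact_right, ih (k - 1) (by push_cast at hk; omega),
        ih (k - 2) (by push_cast at hk; omega)]
      ring
  exact key (k.toNat + 1) k (by omega)

private theorem sy1_ge (i : Fin m) (d : ℕ) (k : ℤ) :
    pact (sg i) (hz m ((i : ℕ) + 2 + d) k) = hz m ((i : ℕ) + 2 + d) k := by
  induction d generalizing k with
  | zero => exact sy1_two i k
  | succ d ih => exact sy1_step i ((i : ℕ) + 2 + d) (by omega) (by omega) ih k

/-- SY1a. `h_k(x_0, ..., x_{j-1})` is invariant under `s_i` unless `j = i + 1`.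
(For `j ≤ i` the variables `x_i, x_{i+1}` do not occur.  For `j ≥ i + 2` use induction on `k` and
`hz_succ`: `h_k[i+2] = h_k[i] + (x_i + x_{i+1}) h_{k-1}[i+2] - x_i x_{i+1} h_{k-2}[i+2]`.) -/
theorem pact_hz (i : Fin m) (j : ℕ) (k : ℤ) (h : j ≠ (i : ℕ) + 1) :
    pact (sg i) (hz m j k) = hz m j k := by
  rcases Nat.lt_or_ge (i : ℕ) j with h1 | h1
  · obtain ⟨d, rfl⟩ := Nat.exists_eq_add_of_le (show (i : ℕ) + 2 ≤ j by omega)
    exact sy1_ge i d k
  · exact sy1_le i j h1 k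

/-- SY1b. `∂_i h_k[i+1] = h_{k-1}[i+2]`. Induction on `k`, using `hz_succ`, `dd1_mul`. -/
theorem dd1_hz (i : Fin m) (k : ℤ) : dd1 i (hz m ((i : ℕ) + 1) k) = hz m ((i : ℕ) + 2) (k - 1) := by
  have key : ∀ n : ℕ, ∀ k : ℤ, k < n →
      dd1 i (hz m ((i : ℕ) + 1) k) = hz m ((i : ℕ) + 2) (k - 1) := by
    intro n
    induction n with
    | zero =>
      intro k hk
      have hk' : k < 0 := by exact_mod_cast hk
      rw [hz_neg _ hk', hz_neg _ (by omega), dd1_zero]
    | succ n ih =>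
      intro k hk
      rw [hz_succ, dd1_add, dd1_eq_zero_of_inv i _ (pact_hz i i k (by omega)), dd1_mul,
        sy1_pact_left, ih (k - 1) (by push_cast at hk; omega), sy1_xv_left, dd1_X_left,
        hz_succ ((i : ℕ) + 1) (k - 1)]
      ring
  exact key (k.toNat + 1) k (by omega)

/-- the two-row polynomial: it is the Schubert polynomial of the permutation with code `a` at
position `i`, `b` at position `j` (positions numbered from 1, `i < j`) and `0` elsewhere -/
noncomputable def p2 (m : ℕ) (i j a b : ℕ) : Pol m :=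
  hz m i a * hz m j b -
    hz m i (max ((a : ℤ) + 1) (b + (j - i))) * hz m j (a + b - max ((a : ℤ) + 1) (b + (j - i)))

/-- SY2a. -/
theorem p2_a_zero (i j b : ℕ) (hij : i < j) : p2 m i j 0 b = hz m j b := by
  unfold p2
  rw [hz_neg j (k := ((0 : ℕ) : ℤ) + b - max (((0 : ℕ) : ℤ) + 1) (b + (j - i)))]
  · simp [hz_zero_right]
  · have h1 : (b : ℤ) + (j - i) ≤ max (((0 : ℕ) : ℤ) + 1) (b + (j - i)) := le_max_right _ _
    push_cast at *
    omega

/-- SY2b. -/
theorem p2_b_zero (i j a : ℕ) : p2 m i j a 0 = hz m i a := by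
  unfold p2
  rw [hz_neg j (k := (a : ℤ) + ((0 : ℕ) : ℤ) - max ((a : ℤ) + 1) (((0 : ℕ) : ℤ) + (j - i)))]
  · simp [hz_zero_right]
  · have h1 : (a : ℤ) + 1 ≤ max ((a : ℤ) + 1) (((0 : ℕ) : ℤ) + (j - i)) := le_max_left _ _
    push_cast at *
    omega

/-- SY3a. `∂_k p2 = 0` if `k + 1` is not `i` or `j` (positions numbered from 1) -/
theorem dd1_p2_of_ne (k : Fin m) (i j a b : ℕ) (h1 : i ≠ (k : ℕ) + 1) (h2 : j ≠ (k : ℕ) + 1) :
    dd1 k (p2 m i j a b) = 0 := by
  apply dd1_eq_zero_of_inv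
  unfold p2
  rw [map_sub, map_mul, map_mul, pact_hz k i _ h1, pact_hz k j _ h2, pact_hz k i _ h1,
    pact_hz k j _ h2]

/-- SY3b. `∂_j` lowers the second entry: `∂_j p2(i,j;a,b+1) = p2(i,j+1;a,b)`. -/
theorem dd1_p2_right (k : Fin m) (i a b : ℕ) (h : i < (k : ℕ) + 1) :
    dd1 k (p2 m i ((k : ℕ) + 1) a (b + 1)) = p2 m i ((k : ℕ) + 2) a b := by
  have hi : i ≠ (k : ℕ) + 1 := h.ne
  unfold p2
  rw [dd1_sub, dd1_mul_of_inv k _ _ (pact_hz k i _ hi), dd1_mul_of_inv k _ _ (pact_hz k i _ hi),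
    dd1_hz, dd1_hz]
  have e1 : (((b + 1 : ℕ) : ℤ) - 1) = (b : ℤ) := by push_cast; ring
  have e2 : max ((a : ℤ) + 1) (((b + 1 : ℕ) : ℤ) + ((((k : ℕ) + 1 : ℕ) : ℤ) - (i : ℤ))) =
      max ((a : ℤ) + 1) ((b : ℤ) + ((((k : ℕ) + 2 : ℕ) : ℤ) - (i : ℤ))) := by
    congr 1
    push_cast
    ring
  rw [e1, e2]
  congr 3
  push_cast
  ring

/-- SY3c. -/
theorem dd1_p2_right_zero (k : Fin m) (i a : ℕ) (h : i < (k : ℕ) + 1) :
    dd1 k (p2 m i ((k : ℕ) + 1) a 0) = 0 := by
  rw [p2_b_zero]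
  exact dd1_eq_zero_of_inv k _ (pact_hz k i _ h.ne)

/-- SY3d. `∂_i` for `i + 1 < j`: `∂_i p2(i,j;a+1,b) = p2(i+1,j;a,b)`. -/
theorem dd1_p2_left (k : Fin m) (j a b : ℕ) (h : (k : ℕ) + 2 < j) :
    dd1 k (p2 m ((k : ℕ) + 1) j (a + 1) b) = p2 m ((k : ℕ) + 2) j a b := by
  have hinv : ∀ x y : ℤ, dd1 k (hz m ((k : ℕ) + 1) x * hz m j y) =
      hz m ((k : ℕ) + 2) (x - 1) * hz m j y := by
    intro x y
    have h1 : pact (sg k) (hz m j y) = hz m j y := pact_hz k j y (by omega)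
    rw [dd1_mul, dd1_hz, dd1_eq_zero_of_inv k _ h1]
    ring
  have hM : max (((a + 1 : ℕ) : ℤ) + 1) ((b : ℤ) + ((j : ℤ) - (((k : ℕ) + 1 : ℕ) : ℤ))) =
      max ((a : ℤ) + 1) ((b : ℤ) + ((j : ℤ) - (((k : ℕ) + 2 : ℕ) : ℤ))) + 1 := by
    push_cast
    omega
  unfold p2
  rw [dd1_sub, hinv, hinv, hM]
  have e1 : ((a + 1 : ℕ) : ℤ) - 1 = a := by
    push_cast
    ring
  have e2 : max ((a : ℤ) + 1) ((b : ℤ) + ((j : ℤ) - (((k : ℕ) + 2 : ℕ) : ℤ))) + 1 - 1 =
      max ((a : ℤ) + 1) ((b : ℤ) + ((j : ℤ) - (((k : ℕ) + 2 : ℕ) : ℤ))) := by ring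
  have e3 : ((a + 1 : ℕ) : ℤ) + b -
      (max ((a : ℤ) + 1) ((b : ℤ) + ((j : ℤ) - (((k : ℕ) + 2 : ℕ) : ℤ))) + 1) =
      (a : ℤ) + b - max ((a : ℤ) + 1) ((b : ℤ) + ((j : ℤ) - (((k : ℕ) + 2 : ℕ) : ℤ))) := by
    push_cast
    ring
  rw [e1, e2, e3]

/-- SY3e. -/
theorem dd1_p2_left_zero (k : Fin m) (j b : ℕ) (h : (k : ℕ) + 2 < j) :
    dd1 k (p2 m ((k : ℕ) + 1) j 0 b) = 0 := by
  rw [p2_a_zero _ _ _ (by omega)]
  exact dd1_eq_zero_of_inv k _ (pact_hz k j b (by omega))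

/-- SY3f. `j = i + 1`, `a > b`: `∂_i p2(i,i+1;a,b) = p2(i,i+1;b,a-1)`. -/
theorem dd1_p2_adj (k : Fin m) (a b : ℕ) (h : b ≤ a) :
    dd1 k (p2 m ((k : ℕ) + 1) ((k : ℕ) + 2) (a + 1) b) =
      p2 m ((k : ℕ) + 1) ((k : ℕ) + 2) b a := by
  have hm1 : max (((a + 1 : ℕ) : ℤ) + 1)
      ((b : ℤ) + (((((k : ℕ) + 2 : ℕ)) : ℤ) - (((k : ℕ) + 1 : ℕ) : ℤ))) = a + 2 := by
    rw [max_eq_left (by push_cast; omega)]
    push_cast
    ring
  have hm2 : max ((b : ℤ) + 1)
      ((a : ℤ) + (((((k : ℕ) + 2 : ℕ)) : ℤ) - (((k : ℕ) + 1 : ℕ) : ℤ))) = a + 1 := by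
    rw [max_eq_right (by push_cast; omega)]
    push_cast
    ring
  have e1 : ((a + 1 : ℕ) : ℤ) + b - (a + 2) = b - 1 := by push_cast; ring
  have e2 : (b : ℤ) + a - (a + 1) = b - 1 := by ring
  have e3 : ((a + 1 : ℕ) : ℤ) - 1 = a := by push_cast; ring
  have e4 : (a : ℤ) + 2 - 1 = a + 1 := by ring
  have hinv : ∀ y : ℤ, dd1 k (hz m ((k : ℕ) + 2) y) = 0 := fun y =>
    dd1_eq_zero_of_inv k _ (pact_hz k _ y (by omega))
  unfold p2
  rw [hm1, hm2, e1, e2, dd1_sub, dd1_mul, dd1_mul, hinv, hinv, dd1_hz, dd1_hz, e3, e4]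
  have f1 := hz_succ (m := m) ((k : ℕ) + 1) (b : ℤ)
  have f2 := hz_succ (m := m) ((k : ℕ) + 1) ((a : ℤ) + 1)
  rw [show (a : ℤ) + 1 - 1 = a by ring] at f2
  linear_combination hz m ((k : ℕ) + 2) a * f1 - hz m ((k : ℕ) + 2) ((b : ℤ) - 1) * f2

/-- SY3g. `j = i + 1`, `a ≤ b`: `∂_i p2(i,i+1;a,b) = 0`. -/
theorem dd1_p2_adj_zero (k : Fin m) (a b : ℕ) (h : a ≤ b) :
    dd1 k (p2 m ((k : ℕ) + 1) ((k : ℕ) + 2) a b) = 0 := by
  have hm1 : max ((a : ℤ) + 1)
      ((b : ℤ) + (((((k : ℕ) + 2 : ℕ)) : ℤ) - (((k : ℕ) + 1 : ℕ) : ℤ))) = b + 1 := by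
    rw [max_eq_right (by push_cast; omega)]
    push_cast
    ring
  have e1 : (a : ℤ) + b - (b + 1) = a - 1 := by ring
  have e2 : (b : ℤ) + 1 - 1 = b := by ring
  have hinv : ∀ y : ℤ, dd1 k (hz m ((k : ℕ) + 2) y) = 0 := fun y =>
    dd1_eq_zero_of_inv k _ (pact_hz k _ y (by omega))
  unfold p2
  rw [hm1, e1, dd1_sub, dd1_mul, dd1_mul, hinv, hinv, dd1_hz, dd1_hz, e2]
  ring

private theorem xv_homog (j : ℕ) : (xv m j).IsHomogeneous 1 := by
  unfold xv
  split_ifs with h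
  · exact isHomogeneous_X _ _
  · exact isHomogeneous_zero _ _ _

private theorem hn_homog (j k : ℕ) : (hn m j k).IsHomogeneous k := by
  induction j generalizing k with
  | zero =>
    cases k with
    | zero => rw [hn]; exact isHomogeneous_one _ _
    | succ k => rw [hn]; exact isHomogeneous_zero _ _ _
  | succ j ihj =>
    induction k with
    | zero => rw [hn]; exact isHomogeneous_one _ _
    | succ k ihk =>
      rw [hn]
      refine (ihj (k + 1)).add ?_
      rw [add_comm k 1]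
      exact (xv_homog j).mul ihk

/-- SY4a. homogeneity -/
theorem hz_homog (j : ℕ) (k : ℕ) : (hz m j k).IsHomogeneous k := by
  unfold hz
  rw [if_pos (Int.natCast_nonneg k), Int.toNat_natCast]
  exact hn_homog j k

/-- SY4b. homogeneity -/
theorem p2_homog (i j a b : ℕ) : (p2 m i j a b).IsHomogeneous (a + b) := by
  unfold p2
  refine ((hz_homog i a).mul (hz_homog j b)).sub ?_
  obtain ⟨M, hM⟩ : ∃ M : ℕ, max ((a : ℤ) + 1) (b + (j - i)) = M := by
    refine ⟨(max ((a : ℤ) + 1) (b + (j - i))).toNat, (Int.toNat_of_nonneg ?_).symm⟩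
    have h1 : (a : ℤ) + 1 ≤ max ((a : ℤ) + 1) (b + (j - i)) := le_max_left _ _
    omega
  rw [hM]
  by_cases h : M ≤ a + b
  · obtain ⟨c, hc⟩ := Nat.exists_eq_add_of_le h
    have h2 : (a : ℤ) + b - M = (c : ℕ) := by omega
    rw [h2, hc]
    exact (hz_homog i M).mul (hz_homog j c)
  · rw [hz_neg j (k := (a : ℤ) + b - M) (by omega), mul_zero]
    exact isHomogeneous_zero _ _ _

/-- SY4c. homogeneity (`k ≤ m + 1`; also true otherwise since then `f_k = 0`) -/
theorem ff_homog (k : ℕ) : (ff m k).IsHomogeneous k := by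
  induction k with
  | zero => rw [ff]; exact isHomogeneous_one _ _
  | succ k ih =>
    rw [ff]
    exact ih.mul (xv_homog k)

/-- SY4d. `dd1` lowers the degree -/
theorem dd1_homog (i : Fin m) (P : Pol m) (d : ℕ) (h : P.IsHomogeneous (d + 1)) :
    (dd1 i P).IsHomogeneous d := by
  have hF : (P - pact (sg i) P).IsHomogeneous (d + 1) := h.sub h.rename_isHomogeneous
  have hrt : (rt i : Pol m).IsHomogeneous 1 := (isHomogeneous_X ℤ _).sub (isHomogeneous_X ℤ _)
  have key : rt i * homogeneousComponent d (dd1 i P) = P - pact (sg i) P := by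
    have h1 := congrArg (homogeneousComponent (d + 1)) (dd1_spec i P)
    rw [homogeneousComponent_of_mem hF, if_pos rfl] at h1
    rw [← h1]
    conv_rhs => rw [← sum_homogeneousComponent (dd1 i P)]
    rw [Finset.mul_sum, map_sum]
    have h2 : ∀ n, homogeneousComponent (d + 1) (rt i * homogeneousComponent n (dd1 i P)) =
        if n = d then rt i * homogeneousComponent n (dd1 i P) else 0 := by
      intro n
      have h3 : rt i * homogeneousComponent n (dd1 i P) ∈
          homogeneousSubmodule (Fin (m + 1)) ℤ (1 + n) :=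
        hrt.mul (homogeneousComponent_isHomogeneous n _)
      rw [homogeneousComponent_of_mem h3]
      by_cases hn : n = d
      · rw [if_pos (by omega), if_pos hn]
      · rw [if_neg (by omega), if_neg hn]
    rw [Finset.sum_congr rfl fun n _ => h2 n, Finset.sum_ite_eq']
    split_ifs with h4
    · rfl
    · rw [homogeneousComponent_eq_zero _ _ (by rw [Finset.mem_range] at h4; omega), mul_zero]
  rw [dd1_unique i P _ key]
  exact homogeneousComponent_isHomogeneous d _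

/-- SY4e. variables: `h_k(x_0, ..., x_{j-1})` is supported on `{x_i : i < j}` -/
theorem hz_supp (j : ℕ) (k : ℤ) :
    hz m j k ∈ MvPolynomial.supported ℤ {i : Fin (m + 1) | (i : ℕ) < j} := by
  have hx : ∀ j : ℕ, xv m j ∈ MvPolynomial.supported ℤ {i : Fin (m + 1) | (i : ℕ) < j + 1} := by
    intro j
    unfold xv
    split_ifs with h
    · exact MvPolynomial.X_mem_supported.mpr (by simp)
    · exact Subalgebra.zero_mem _
  have hn_supp : ∀ j k : ℕ,
      hn m j k ∈ MvPolynomial.supported ℤ {i : Fin (m + 1) | (i : ℕ) < j} := by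
    intro j
    induction j with
    | zero =>
      intro k
      cases k with
      | zero => rw [hn]; exact Subalgebra.one_mem _
      | succ k => rw [hn]; exact Subalgebra.zero_mem _
    | succ j ihj =>
      intro k
      induction k with
      | zero => rw [hn]; exact Subalgebra.one_mem _
      | succ k ihk =>
        rw [hn]
        refine Subalgebra.add_mem _ (MvPolynomial.supported_mono ?_ (ihj (k + 1)))
          (Subalgebra.mul_mem _ (hx j) ihk)
        intro i hi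
        have hi' : (i : ℕ) < j := hi
        exact Nat.lt_succ_of_lt hi'
  unfold hz
  split_ifs with h
  · exact hn_supp j k.toNat
  · exact Subalgebra.zero_mem _

/-- SY4f. -/
theorem ff_supp (k : ℕ) : ff m k ∈ MvPolynomial.supported ℤ {i : Fin (m + 1) | (i : ℕ) < k} := by
  induction k with
  | zero => rw [ff]; exact Subalgebra.one_mem _
  | succ k ih =>
    rw [ff]
    refine Subalgebra.mul_mem _ (MvPolynomial.supported_mono ?_ ih) ?_
    · intro i hi
      have hi' : (i : ℕ) < k := hi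
      exact Nat.lt_succ_of_lt hi'
    · unfold xv
      split_ifs with h
      · exact MvPolynomial.X_mem_supported.mpr (by simp)
      · exact Subalgebra.zero_mem _

end H45C
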