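import Pool.Agent.Helper45.CSM.Words

/-!
# The last letter in a product of two sweeps (pieces WF1-WF6)

`p` is a letter, `B` a finite set of letters, `p ∉ B`, `A' = insert p B`.
All words are duplicate-free and contain the letters of `B`.
-/

set_option linter.unusedSectionVars false

namespace H45C

open Equiv

variable {α : Type*} [DecidableEq α]

/-- WF0. The general formula for the last letter in a product of two sweeps. -/
theorem H2_cons (S₁ S₂ : Finset α) (a b : ℤ) (q : α) (u : List α) (hu : (q :: u).Nodup) :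
    H2 S₁ a S₂ b (q :: u) = cns q (H2 S₁ a S₂ b u) +
      (if q ∈ S₁ then
        ∑ D ∈ u.toFinset \ S₁, cns D (Hop S₁ (a - 1) (rl (swap D q) (hop S₂ u b))) else 0) +
      (if q ∈ S₂ then
        (∑ r ∈ u.toFinset \ S₂, cns r (H2 S₁ a S₂ (b - 1) (u.map (swap r q)))) +
        ∑ r ∈ (u.toFinset \ S₂) ∩ S₁, ∑ D ∈ (u.map (swap r q)).toFinset \ S₁,
          cns D (Hop S₁ (a - 1) (rl (swap D r) (hop S₂ (u.map (swap r q)) (b - 1)))) else 0) := by
  have hu' : u.Nodup := (List.nodup_cons.1 hu).2
  have hfirst : Hop S₁ a (cns q (hop S₂ u b)) = cns q (H2 S₁ a S₂ b u) +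
      (if q ∈ S₁ then
        ∑ D ∈ u.toFinset \ S₁, cns D (Hop S₁ (a - 1) (rl (swap D q) (hop S₂ u b))) else 0) :=
    Hop_cns S₁ a q u.toFinset (hop S₂ u b) (hop_mem S₂ u hu' b)
  unfold H2 at hfirst ⊢
  rw [hop_cons, map_add, hfirst]
  congr 1
  by_cases hq : q ∈ S₂
  · rw [if_pos hq, if_pos hq, map_sum]
    have hterm : ∀ r ∈ u.toFinset \ S₂,
        Hop S₁ a (cns r (hop S₂ (u.map (swap r q)) (b - 1))) =
          cns r (Hop S₁ a (hop S₂ (u.map (swap r q)) (b - 1))) +
          (if r ∈ S₁ then ∑ D ∈ (u.map (swap r q)).toFinset \ S₁,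
            cns D (Hop S₁ (a - 1) (rl (swap D r) (hop S₂ (u.map (swap r q)) (b - 1)))) else 0) :=
      fun r _ => Hop_cns S₁ a r (u.map (swap r q)).toFinset (hop S₂ (u.map (swap r q)) (b - 1))
        (hop_mem S₂ _ (hu'.map (swap r q).injective) (b - 1))
    rw [Finset.sum_congr rfl hterm, Finset.sum_add_distrib]
    congr 1
    rw [← Finset.filter_mem_eq_inter, Finset.sum_filter]
  · rw [if_neg hq, if_neg hq, map_zero]

/-- WF1. The last letter `q` is not in `A'`. -/
theorem H2_c1 (p : α) (S : Finset α) (a b : ℤ) (q : α) (u : List α)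
    (hu : (q :: u).Nodup) (hp : q ≠ p) (hS : q ∉ S) :
    H2 {p} a S b (q :: u) = cns q (H2 {p} a S b u) := by
  rw [H2_cons {p} S a b q u hu, if_neg (by simpa using hp), if_neg hS, add_zero, add_zero]

/-- a sweep without active letters, for combinations of words (for WF2) -/
private theorem c2_Hop_disjoint (S : Finset α) (k : ℤ) (X : Finset α) (hX : ∀ x ∈ X, x ∉ S)
    (z : Wd α) (hz : z ∈ WS X) : Hop S k z = if k = 0 then z else 0 := by
  unfold WS at hz
  induction hz using Submodule.span_induction with
  | mem x hx =>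
    obtain ⟨u, ⟨_, h2⟩, rfl⟩ := hx
    rw [Hop_wd, hop_of_disjoint]
    intro x hx
    exact hX x (by rw [← h2]; simpa using hx)
  | zero => simp
  | add x y _ _ hx hy =>
    rw [map_add, hx, hy]
    split_ifs <;> simp
  | smul a x _ hx =>
    rw [map_smul, hx]
    split_ifs <;> simp

/-- The same as WF3, used for WF2. -/
private theorem c2_aux (p : α) (B : Finset α) (hpB : p ∉ B) (a b : ℤ) (u : List α)
    (hu : (p :: u).Nodup) (hB : B ⊆ u.toFinset) :
    H2 {p} a B b (p :: u) = cns p (if a = 0 then hop B u b else 0) +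
      (∑ D ∈ u.toFinset \ B, cns D (H2 {p} (a - 1) B b (u.map (swap D p)))) +
      ∑ D ∈ B, cns D (H2 {p} (a - 1) (insert p B) b (u.map (swap D p))) := by
  have hpu : p ∉ u := (List.nodup_cons.1 hu).1
  have hun : u.Nodup := (List.nodup_cons.1 hu).2
  rw [H2_cons {p} B a b p u hu, if_pos (Finset.mem_singleton_self p), if_neg hpB, add_zero]
  have h1 : H2 {p} a B b u = if a = 0 then hop B u b else 0 := by
    unfold H2
    refine c2_Hop_disjoint {p} a u.toFinset ?_ _ (hop_mem B u hun b)
    intro x hx hxp
    rw [Finset.mem_singleton] at hxp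
    subst hxp
    exact hpu (by simpa using hx)
  have h2 : u.toFinset \ {p} = (u.toFinset \ B) ∪ B := by
    rw [Finset.sdiff_union_of_subset hB]
    ext x
    simp only [Finset.mem_sdiff, List.mem_toFinset, Finset.mem_singleton]
    constructor
    · exact fun h => h.1
    · rintro h
      exact ⟨h, fun h' => hpu (h' ▸ h)⟩
  rw [h1, h2, Finset.sum_union Finset.sdiff_disjoint, add_assoc]
  congr 2
  · refine Finset.sum_congr rfl fun D hD => ?_
    have hDB : D ∉ B := (Finset.mem_sdiff.1 hD).2
    rw [rl_hop]
    have h3 : B.map (swap D p).toEmbedding = B := by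
      ext x
      rw [Finset.mem_map_equiv, symm_swap]
      by_cases hx1 : x = D
      · subst hx1
        rw [swap_apply_left]
        exact ⟨fun h => absurd h hpB, fun h => absurd h hDB⟩
      · by_cases hx2 : x = p
        · subst hx2
          rw [swap_apply_right]
          exact ⟨fun h => absurd h hDB, fun h => absurd h hpB⟩
        · rw [swap_apply_of_ne_of_ne hx1 hx2]
    rw [h3]
    rfl
  · refine Finset.sum_congr rfl fun D hD => ?_
    rw [rl_hop]
    have h3 : hop (B.map (swap D p).toEmbedding) (u.map (swap D p)) b =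
        hop (insert p B) (u.map (swap D p)) b := by
      apply hop_congr
      intro x hx
      have hxD : x ≠ D := by
        rintro rfl
        rw [List.mem_map] at hx
        obtain ⟨y, hy, hyx⟩ := hx
        have : y = p := by
          have h4 := congrArg (swap x p) hyx
          rwa [swap_apply_self, swap_apply_left] at h4
        exact hpu (this ▸ hy)
      rw [Finset.mem_map_equiv, symm_swap, Finset.mem_insert]
      by_cases hx2 : x = p
      · subst hx2
        rw [swap_apply_right]
        exact ⟨fun _ => Or.inl rfl, fun _ => hD⟩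
      · rw [swap_apply_of_ne_of_ne hxD hx2]
        exact ⟨fun h => Or.inr h, fun h => h.resolve_left hx2⟩
    rw [h3]
    rfl

/-- WF2. The last letter is `p`, second sweep `A' = insert p B`. -/
theorem H2_c2 (p : α) (B : Finset α) (hpB : p ∉ B) (a b : ℤ) (u : List α)
    (hu : (p :: u).Nodup) (hB : B ⊆ u.toFinset) :
    H2 {p} a (insert p B) b (p :: u) = cns p (if a = 0 then hop B u b else 0) +
      (∑ D ∈ u.toFinset \ B, cns D (H2 {p} (a - 1) B b (u.map (swap D p)) +
        H2 {p} a (insert p B) (b - 1) (u.map (swap D p)))) +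
      ∑ D ∈ B, cns D (H2 {p} (a - 1) (insert p B) b (u.map (swap D p))) := by
  have hpu : p ∉ u := (List.nodup_cons.1 hu).1
  have hcon : hop (insert p B) u b = hop B u b := by
    apply hop_congr
    intro x hx
    have hxp : x ≠ p := fun h => hpu (h ▸ hx)
    simp only [Finset.mem_insert]
    tauto
  have e1 : H2 {p} a (insert p B) b u = H2 {p} a B b u := by
    unfold H2
    rw [hcon]
  have e2 : u.toFinset \ insert p B = u.toFinset \ B := by
    ext x
    simp only [Finset.mem_sdiff, List.mem_toFinset, Finset.mem_insert]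
    constructor
    · rintro ⟨h1, h2⟩
      exact ⟨h1, fun h => h2 (Or.inr h)⟩
    · rintro ⟨h1, h2⟩
      refine ⟨h1, ?_⟩
      rintro (h | h)
      · exact hpu (h ▸ h1)
      · exact h2 h
  have e3 : (u.toFinset \ B) ∩ {p} = ∅ := by
    ext x
    simp only [Finset.mem_inter, Finset.mem_sdiff, List.mem_toFinset, Finset.mem_singleton,
      Finset.notMem_empty, iff_false, not_and]
    rintro ⟨h1, _⟩ h
    exact hpu (h ▸ h1)
  have h1 := H2_cons {p} (insert p B) a b p u hu
  rw [if_pos (Finset.mem_singleton_self p), if_pos (Finset.mem_insert_self p B), e1, hcon, e2, e3,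
    Finset.sum_empty, add_zero] at h1
  have h2 := H2_cons {p} B a b p u hu
  rw [if_pos (Finset.mem_singleton_self p), if_neg hpB, add_zero] at h2
  rw [h1, ← h2, c2_aux p B hpB a b u hu hB]
  simp only [map_add, Finset.sum_add_distrib]
  abel

/-- a sweep without active letters, for combinations of words -/
private theorem c3_Hop_disjoint (S : Finset α) (k : ℤ) (X : Finset α) (hX : ∀ x ∈ X, x ∉ S)
    (z : Wd α) (hz : z ∈ WS X) : Hop S k z = if k = 0 then z else 0 := by
  unfold WS at hz
  induction hz using Submodule.span_induction with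
  | mem x hx =>
    obtain ⟨u, ⟨_, h2⟩, rfl⟩ := hx
    rw [Hop_wd, hop_of_disjoint]
    intro x hx
    exact hX x (by rw [← h2]; simpa using hx)
  | zero => simp
  | add x y _ _ hx hy =>
    rw [map_add, hx, hy]
    split_ifs <;> simp
  | smul a x _ hx =>
    rw [map_smul, hx]
    split_ifs <;> simp

/-- WF3. The last letter is `p`, second sweep `B`. -/
theorem H2_c3 (p : α) (B : Finset α) (hpB : p ∉ B) (a b : ℤ) (u : List α)
    (hu : (p :: u).Nodup) (hB : B ⊆ u.toFinset) :
    H2 {p} a B b (p :: u) = cns p (if a = 0 then hop B u b else 0) +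
      (∑ D ∈ u.toFinset \ B, cns D (H2 {p} (a - 1) B b (u.map (swap D p)))) +
      ∑ D ∈ B, cns D (H2 {p} (a - 1) (insert p B) b (u.map (swap D p))) := by
  have hpu : p ∉ u := (List.nodup_cons.1 hu).1
  have hun : u.Nodup := (List.nodup_cons.1 hu).2
  rw [H2_cons {p} B a b p u hu, if_pos (Finset.mem_singleton_self p), if_neg hpB, add_zero]
  have h1 : H2 {p} a B b u = if a = 0 then hop B u b else 0 := by
    unfold H2
    refine c3_Hop_disjoint {p} a u.toFinset ?_ _ (hop_mem B u hun b)
    intro x hx hxp
    rw [Finset.mem_singleton] at hxp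
    subst hxp
    exact hpu (by simpa using hx)
  have h2 : u.toFinset \ {p} = (u.toFinset \ B) ∪ B := by
    rw [Finset.sdiff_union_of_subset hB]
    ext x
    simp only [Finset.mem_sdiff, List.mem_toFinset, Finset.mem_singleton]
    constructor
    · exact fun h => h.1
    · rintro h
      exact ⟨h, fun h' => hpu (h' ▸ h)⟩
  rw [h1, h2, Finset.sum_union Finset.sdiff_disjoint, add_assoc]
  congr 2
  · refine Finset.sum_congr rfl fun D hD => ?_
    have hDB : D ∉ B := (Finset.mem_sdiff.1 hD).2
    rw [rl_hop]
    have h3 : B.map (swap D p).toEmbedding = B := by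
      ext x
      rw [Finset.mem_map_equiv, symm_swap]
      by_cases hx1 : x = D
      · subst hx1
        rw [swap_apply_left]
        exact ⟨fun h => absurd h hpB, fun h => absurd h hDB⟩
      · by_cases hx2 : x = p
        · subst hx2
          rw [swap_apply_right]
          exact ⟨fun h => absurd h hDB, fun h => absurd h hpB⟩
        · rw [swap_apply_of_ne_of_ne hx1 hx2]
    rw [h3]
    rfl
  · refine Finset.sum_congr rfl fun D hD => ?_
    rw [rl_hop]
    have h3 : hop (B.map (swap D p).toEmbedding) (u.map (swap D p)) b =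
        hop (insert p B) (u.map (swap D p)) b := by
      apply hop_congr
      intro x hx
      have hxD : x ≠ D := by
        rintro rfl
        rw [List.mem_map] at hx
        obtain ⟨y, hy, hyx⟩ := hx
        have : y = p := by
          have h4 := congrArg (swap x p) hyx
          rwa [swap_apply_self, swap_apply_left] at h4
        exact hpu (this ▸ hy)
      rw [Finset.mem_map_equiv, symm_swap, Finset.mem_insert]
      by_cases hx2 : x = p
      · subst hx2
        rw [swap_apply_right]
        exact ⟨fun _ => Or.inl rfl, fun _ => hD⟩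
      · rw [swap_apply_of_ne_of_ne hxD hx2]
        exact ⟨fun h => Or.inr h, fun h => h.resolve_left hx2⟩
    rw [h3]
    rfl

/-- WF4. The last letter is `q ∈ B`, second sweep `A' = insert p B`.  (`B \ q` and `B` give the
same sweeps on words without the letter `q`.) -/
theorem H2_c4 (p : α) (B : Finset α) (hpB : p ∉ B) (a b : ℤ) (q : α) (hq : q ∈ B) (u : List α)
    (hu : (q :: u).Nodup) (hp : p ∈ u) (hB : B.erase q ⊆ u.toFinset) :
    H2 {p} a (insert p B) b (q :: u) = cns q (H2 {p} a (insert p (B.erase q)) b u) +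
      ∑ D ∈ u.toFinset \ insert p B, cns D (H2 {p} a (insert p B) (b - 1) (u.map (swap D q))) := by
  have hqp : q ≠ p := fun h => hpB (h ▸ hq)
  have hqu : q ∉ u := (List.nodup_cons.1 hu).1
  have hun : u.Nodup := (List.nodup_cons.1 hu).2
  have hq' : q ∈ insert p B := Finset.mem_insert_of_mem hq
  unfold H2
  rw [hop_cons, if_pos hq', map_add, map_sum]
  congr 1
  · rw [Hop_cns {p} a q u.toFinset _ (hop_mem _ _ hun _),
      if_neg (by rw [Finset.mem_singleton]; exact hqp), add_zero,
      hop_congr (insert p B) (insert p (B.erase q)) u b]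
    intro x hx
    have hxq : x ≠ q := fun h => hqu (h ▸ hx)
    simp only [Finset.mem_insert, Finset.mem_erase]
    tauto
  · refine Finset.sum_congr rfl fun D hD => ?_
    have hDp : D ≠ p := by
      intro h
      exact (Finset.mem_sdiff.1 hD).2 (h ▸ Finset.mem_insert_self p B)
    have hm : (u.map (swap D q)).Nodup := hun.map (swap D q).injective
    rw [Hop_cns {p} a D (u.map (swap D q)).toFinset _ (hop_mem _ _ hm _),
      if_neg (by rw [Finset.mem_singleton]; exact hDp), add_zero]

/-- relabelling a set by a transposition which moves one of its elements out -/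
private theorem c5_map_in (B : Finset α) {x y : α} (hx : x ∈ B) (hy : y ∉ B) :
    B.map (swap x y).toEmbedding = insert y (B.erase x) := by
  ext z
  simp only [Finset.mem_map, Equiv.coe_toEmbedding, Finset.mem_insert, Finset.mem_erase]
  constructor
  · rintro ⟨w, hw, rfl⟩
    by_cases h : w = x
    · left
      rw [h, swap_apply_left]
    · have h' : w ≠ y := fun h' => hy (h' ▸ hw)
      right
      rw [swap_apply_of_ne_of_ne h h']
      exact ⟨h, hw⟩
  · rintro (h | ⟨h1, h2⟩)
    · exact ⟨x, hx, by rw [h, swap_apply_left]⟩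
    · exact ⟨z, h2, swap_apply_of_ne_of_ne h1 fun h' => hy (h' ▸ h2)⟩

/-- relabelling a set by a transposition of two letters outside of it -/
private theorem c5_map_out (B : Finset α) {x y : α} (hx : x ∉ B) (hy : y ∉ B) :
    B.map (swap x y).toEmbedding = B := by
  ext z
  simp only [Finset.mem_map, Equiv.coe_toEmbedding]
  constructor
  · rintro ⟨w, hw, rfl⟩
    have h1 : w ≠ x := fun h => hx (h ▸ hw)
    have h2 : w ≠ y := fun h => hy (h ▸ hw)
    rw [swap_apply_of_ne_of_ne h1 h2]
    exact hw
  · intro h
    exact ⟨z, h, swap_apply_of_ne_of_ne (fun h' => hx (h' ▸ h)) fun h' => hy (h' ▸ h)⟩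

/-- sweeps without active letters, on combinations of words -/
private theorem c5_disj (S X : Finset α) (k : ℤ) (h : ∀ x ∈ X, x ∉ S) (z : Wd α) (hz : z ∈ WS X) :
    Hop S k z = if k = 0 then z else 0 := by
  unfold WS at hz
  induction hz using Submodule.span_induction with
  | mem z hz =>
    obtain ⟨u, ⟨-, hu⟩, rfl⟩ := hz
    rw [Hop_wd, hop_of_disjoint S u k fun x hx => h x (hu ▸ List.mem_toFinset.2 hx)]
  | zero => rw [map_zero]; split_ifs <;> rfl
  | add y z _ _ hy hz =>
    rw [map_add, hy, hz]
    split_ifs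
    · rfl
    · rw [add_zero]
  | smul c z _ hz =>
    rw [map_smul, hz]
    split_ifs
    · rfl
    · rw [smul_zero]

/-- WF5. The last letter is `q ∈ B`, second sweep `B`. -/
theorem H2_c5 (p : α) (B : Finset α) (hpB : p ∉ B) (a b : ℤ) (q : α) (hq : q ∈ B) (u : List α)
    (hu : (q :: u).Nodup) (hp : p ∈ u) (hB : B.erase q ⊆ u.toFinset) :
    H2 {p} a B b (q :: u) =
      cns q (H2 {p} a (B.erase q) b u + H2 {p} (a - 1) (insert p (B.erase q)) (b - 1) u) +
      (∑ D ∈ u.toFinset \ insert p B, cns D (H2 {p} a B (b - 1) (u.map (swap D q)) +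
        H2 {p} (a - 1) B (b - 1) ((u.map (swap D q)).map (swap p q)))) +
      (∑ D ∈ B.erase q, cns D (H2 {p} (a - 1) (insert p (B.erase D)) (b - 1)
        ((u.map (swap D q)).map (swap p q)))) +
      cns p (if a = 0 then hop B (u.map (swap p q)) (b - 1) else 0) := by
  have hqp : q ≠ p := fun h => hpB (h ▸ hq)
  have hqu : q ∉ u := (List.nodup_cons.1 hu).1
  have hun : u.Nodup := (List.nodup_cons.1 hu).2
  have hpu : p ∈ u.toFinset := List.mem_toFinset.2 hp
  -- the letters of the word in which `p` is replaced by `q`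
  have hvmem : ∀ x, x ∈ u.map (swap p q) ↔ x = q ∨ (x ∈ u ∧ x ≠ p) := by
    intro x
    rw [List.mem_map]
    constructor
    · rintro ⟨w, hw, rfl⟩
      by_cases h : w = p
      · left
        rw [h, swap_apply_left]
      · right
        have h' : w ≠ q := fun h' => hqu (h' ▸ hw)
        rw [swap_apply_of_ne_of_ne h h']
        exact ⟨hw, h⟩
    · rintro (h | ⟨h1, h2⟩)
      · exact ⟨p, hp, by rw [h, swap_apply_left]⟩
      · exact ⟨x, h1, swap_apply_of_ne_of_ne h2 fun h' => hqu (h' ▸ h1)⟩
  have hvn : (u.map (swap p q)).Nodup := hun.map (swap p q).injective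
  -- the word after two relabellings
  have hw : ∀ D, D ≠ p → D ≠ q →
      (u.map (swap p q)).map (swap D p) = (u.map (swap D q)).map (swap p q) := by
    intro D hDp hDq
    rw [List.map_map, List.map_map]
    refine List.map_congr_left fun x _ => ?_
    simp only [Function.comp_apply]
    by_cases h1 : x = p
    · rw [h1, swap_apply_left, swap_apply_of_ne_of_ne hDq.symm hqp,
        swap_apply_of_ne_of_ne hDp.symm hqp.symm, swap_apply_left]
    · by_cases h2 : x = q
      · rw [h2, swap_apply_right, swap_apply_right, swap_apply_right,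
          swap_apply_of_ne_of_ne hDp hDq]
      · rw [swap_apply_of_ne_of_ne h1 h2]
        by_cases h3 : x = D
        · rw [h3, swap_apply_left, swap_apply_left, swap_apply_right]
        · rw [swap_apply_of_ne_of_ne h3 h1, swap_apply_of_ne_of_ne h3 h2,
            swap_apply_of_ne_of_ne h1 h2]
  have hw2 : (u.map (swap p q)).map (swap q p) = u := by
    rw [List.map_map]
    conv_rhs => rw [← List.map_id u]
    refine List.map_congr_left fun x _ => ?_
    rw [Function.comp_apply, swap_comm q p, swap_apply_self, id]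
  -- the sets over which one sums
  have hX : (u.map (swap p q)).toFinset \ {p} =
      insert q ((u.toFinset \ insert p B) ∪ B.erase q) := by
    ext x
    have hBx : x ∈ B.erase q → x ∈ u := fun h => List.mem_toFinset.1 (hB h)
    rw [Finset.mem_erase] at hBx
    simp only [Finset.mem_sdiff, List.mem_toFinset, hvmem, Finset.mem_singleton, Finset.mem_insert,
      Finset.mem_union, Finset.mem_erase]
    by_cases h1 : x = q
    · simp [h1, hqp]
    · by_cases h2 : x = p
      · simp [h2, hqp.symm, hpB]
      · simp only [h1, h2, false_or, not_false_iff, ne_eq, true_and, and_true]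
        by_cases h3 : x ∈ B
        · simp [h3, hBx ⟨h1, h3⟩]
        · simp [h3]
  have hXq : q ∉ (u.toFinset \ insert p B) ∪ B.erase q := by
    simp [hqu]
  have hXd : Disjoint (u.toFinset \ insert p B) (B.erase q) := by
    rw [Finset.disjoint_left]
    intro x hx hx'
    exact (Finset.mem_sdiff.1 hx).2 (Finset.mem_insert_of_mem (Finset.mem_of_mem_erase hx'))
  have hY : (u.toFinset \ B) = insert p (u.toFinset \ insert p B) := by
    ext x
    simp only [Finset.mem_sdiff, List.mem_toFinset, Finset.mem_insert]
    by_cases h2 : x = p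
    · simp [h2, hp, hpB]
    · simp [h2]
  have hYp : p ∉ u.toFinset \ insert p B := by simp
  have hZ : (u.toFinset \ B) ∩ {p} = {p} := by
    ext x
    simp only [Finset.mem_inter, Finset.mem_sdiff, Finset.mem_singleton]
    constructor
    · exact fun h => h.2
    · rintro rfl
      exact ⟨⟨hpu, hpB⟩, rfl⟩
  -- the terms
  have t1 : H2 {p} a B b u = H2 {p} a (B.erase q) b u := by
    unfold H2
    rw [hop_congr B (B.erase q) u b]
    intro x hx
    have hxq : x ≠ q := fun h => hqu (h ▸ hx)
    simp only [Finset.mem_erase]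
    tauto
  have t2 : H2 {p} a B (b - 1) (u.map (swap p q)) =
      if a = 0 then hop B (u.map (swap p q)) (b - 1) else 0 := by
    unfold H2
    refine c5_disj {p} (u.map (swap p q)).toFinset a ?_ _ (hop_mem _ _ hvn _)
    intro x hx hxp
    rw [Finset.mem_singleton] at hxp
    rw [List.mem_toFinset, hvmem] at hx
    rcases hx with h | h
    · exact hqp (h ▸ hxp)
    · exact h.2 hxp
  rw [H2_cons {p} B a b q u hu, if_neg (by rw [Finset.mem_singleton]; exact hqp), if_pos hq,
    add_zero, hZ, Finset.sum_singleton, hX, Finset.sum_insert hXq, Finset.sum_union hXd, hY,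
    Finset.sum_insert hYp, t1, t2]
  have t3 : Hop {p} (a - 1) (rl (swap q p) (hop B (u.map (swap p q)) (b - 1))) =
      H2 {p} (a - 1) (insert p (B.erase q)) (b - 1) u := by
    rw [rl_hop, c5_map_in B hq hpB, hw2]
    rfl
  have t4 : ∑ D ∈ u.toFinset \ insert p B,
      cns D (Hop {p} (a - 1) (rl (swap D p) (hop B (u.map (swap p q)) (b - 1)))) =
      ∑ D ∈ u.toFinset \ insert p B, cns D (H2 {p} (a - 1) B (b - 1)
        ((u.map (swap D q)).map (swap p q))) := by
    refine Finset.sum_congr rfl fun D hD => ?_
    rw [Finset.mem_sdiff, Finset.mem_insert, not_or, List.mem_toFinset] at hD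
    rw [rl_hop, c5_map_out B hD.2.2 hpB, hw D hD.2.1 fun h => hqu (h ▸ hD.1)]
    rfl
  have t5 : ∑ D ∈ B.erase q,
      cns D (Hop {p} (a - 1) (rl (swap D p) (hop B (u.map (swap p q)) (b - 1)))) =
      ∑ D ∈ B.erase q, cns D (H2 {p} (a - 1) (insert p (B.erase D)) (b - 1)
        ((u.map (swap D q)).map (swap p q))) := by
    refine Finset.sum_congr rfl fun D hD => ?_
    rw [Finset.mem_erase] at hD
    rw [rl_hop, c5_map_in B hD.2 hpB, hw D (fun h => hpB (h ▸ hD.2)) hD.1]
    rfl
  rw [t3, t4, t5, map_add]
  simp only [map_add, Finset.sum_add_distrib]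
  abel

/-- WF6. `Hop` in the single sweep case: the last letter for `hop`, `q ∉ S` -/
theorem hop_cons_of_notMem (S : Finset α) (q : α) (u : List α) (k : ℤ) (h : q ∉ S) :
    hop S (q :: u) k = cns q (hop S u k) := by
  rw [hop_cons, if_neg h, add_zero]

end H45C
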