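import Pool.Agent.Helper45.CSM.WPos
import Pool.Agent.Helper45.CSM.Sym

/-!
# Complete symmetric polynomials act by sweeps (pieces WL1-WL6)
-/

set_option linter.unusedSectionVars false

namespace H45C

open MvPolynomial Equiv

section words

variable {α : Type*} [DecidableEq α]

/-- the operator `Y_ℓ` relative to `S`: the letter `ℓ` jumps to the left onto a letter outside
`S`; with a minus sign, a letter of `S` to the right of `ℓ` jumps onto `ℓ` -/
noncomputable def Yl (S : Finset α) (l : α) : List α → Wd α
  | [] => 0
  | q :: u => cns q (Yl S l u) +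
      (if q = l then ∑ D ∈ u.toFinset \ S, cns D (wd (u.map (swap D l))) else 0) -
      (if q ∈ S ∧ l ∈ u then cns l (wd (u.map (swap l q))) else 0)

private theorem wl1_notMem (S : Finset α) (l : α) (u : List α) (hlu : l ∉ u) : Yl S l u = 0 := by
  induction u with
  | nil => rfl
  | cons q u ih =>
    have h1 : l ∉ u := fun h => hlu (List.mem_cons_of_mem _ h)
    have h2 : q ≠ l := fun h => hlu (h ▸ List.mem_cons_self)
    simp [Yl, ih h1, h1, h2]

private theorem wl1_map (l q D : α) (v : List α) (h1 : D ≠ q) (h2 : l ≠ q) :
    cns q (wd (v.map (swap D l))) = wd ((q :: v).map (swap D l)) := by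
  rw [cns_wd, List.map_cons, swap_apply_of_ne_of_ne h1.symm h2.symm]

/-- WL1. closed form of `Yl` -/
theorem Yl_eq (S : Finset α) (l : α) (hl : l ∉ S) (u : List α) (hu : u.Nodup) (hlu : l ∈ u) :
    Yl S l u =
      (∑ D ∈ u.toFinset \ insert l S,
        if u.idxOf l < u.idxOf D then wd (u.map (swap D l)) else 0) -
      ∑ D ∈ u.toFinset ∩ S, if u.idxOf D < u.idxOf l then wd (u.map (swap D l)) else 0 := by
  induction u with
  | nil => simp at hlu
  | cons q v ih =>
    obtain ⟨hqv, hv⟩ := List.nodup_cons.1 hu
    by_cases hql : q = l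
    · subst hql
      have hqv' : q ∉ v.toFinset := fun h => hqv (List.mem_toFinset.1 h)
      rw [Yl, wl1_notMem S q v hqv, map_zero, zero_add, if_pos rfl, if_neg (fun h => hl h.1),
        List.toFinset_cons, Finset.insert_inter_of_notMem hl,
        Finset.insert_sdiff_of_mem _ (Finset.mem_insert_self q S)]
      have e1 : v.toFinset \ insert q S = v.toFinset \ S := by
        ext x
        simp only [Finset.mem_sdiff, Finset.mem_insert, not_or]
        constructor
        · rintro ⟨h1, _, h2⟩
          exact ⟨h1, h2⟩
        · rintro ⟨h1, h2⟩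
          exact ⟨h1, fun h => hqv' (h ▸ h1), h2⟩
      rw [e1]
      congr 1
      · refine Finset.sum_congr rfl fun D hD => ?_
        have hD1 := (Finset.mem_sdiff.1 hD).1
        have hDq : D ≠ q := fun h => hqv' (h ▸ hD1)
        rw [List.idxOf_cons_self, List.idxOf_cons_ne _ hDq.symm, if_pos (Nat.succ_pos _), cns_wd,
          List.map_cons, swap_apply_right]
      · symm
        refine Finset.sum_eq_zero fun D hD => ?_
        rw [List.idxOf_cons_self, if_neg (Nat.not_lt_zero _)]
    · have hlv : l ∈ v := by
        rcases List.mem_cons.1 hlu with h | h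
        · exact absurd h.symm hql
        · exact h
      have hlq : l ≠ q := fun h => hql h.symm
      have hqv' : q ∉ v.toFinset := fun h => hqv (List.mem_toFinset.1 h)
      have hidl : (q :: v).idxOf l = v.idxOf l + 1 := List.idxOf_cons_ne _ hql
      have hidq : (q :: v).idxOf q = 0 := List.idxOf_cons_self
      have hid : ∀ D ∈ v.toFinset, (q :: v).idxOf D = v.idxOf D + 1 ∧ D ≠ q := by
        intro D hD
        have hDq : D ≠ q := fun h => hqv' (h ▸ hD)
        exact ⟨List.idxOf_cons_ne _ hDq.symm, hDq⟩
      have s1 : cns q (∑ D ∈ v.toFinset \ insert l S,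
          if v.idxOf l < v.idxOf D then wd (v.map (swap D l)) else 0) =
          ∑ D ∈ v.toFinset \ insert l S,
            if (q :: v).idxOf l < (q :: v).idxOf D then wd ((q :: v).map (swap D l)) else 0 := by
        rw [map_sum]
        refine Finset.sum_congr rfl fun D hD => ?_
        obtain ⟨h1, h2⟩ := hid D (Finset.mem_sdiff.1 hD).1
        rw [hidl, h1]
        by_cases h3 : v.idxOf l < v.idxOf D
        · rw [if_pos h3, if_pos (by omega), wl1_map l q D v h2 hlq]
        · rw [if_neg h3, if_neg (by omega), map_zero]
      have s2 : cns q (∑ D ∈ v.toFinset ∩ S,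
          if v.idxOf D < v.idxOf l then wd (v.map (swap D l)) else 0) =
          ∑ D ∈ v.toFinset ∩ S,
            if (q :: v).idxOf D < (q :: v).idxOf l then wd ((q :: v).map (swap D l)) else 0 := by
        rw [map_sum]
        refine Finset.sum_congr rfl fun D hD => ?_
        obtain ⟨h1, h2⟩ := hid D (Finset.mem_inter.1 hD).1
        rw [hidl, h1]
        by_cases h3 : v.idxOf D < v.idxOf l
        · rw [if_pos h3, if_pos (by omega), wl1_map l q D v h2 hlq]
        · rw [if_neg h3, if_neg (by omega), map_zero]
      have s3 : ∑ D ∈ insert q v.toFinset \ insert l S,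
          (if (q :: v).idxOf l < (q :: v).idxOf D then wd ((q :: v).map (swap D l)) else 0) =
          ∑ D ∈ v.toFinset \ insert l S,
            if (q :: v).idxOf l < (q :: v).idxOf D then wd ((q :: v).map (swap D l)) else 0 := by
        by_cases hq : q ∈ insert l S
        · rw [Finset.insert_sdiff_of_mem _ hq]
        · rw [Finset.insert_sdiff_of_notMem _ hq, Finset.sum_insert
            (fun h => hqv' (Finset.mem_sdiff.1 h).1), hidq, if_neg (Nat.not_lt_zero _), zero_add]
      rw [Yl, ih hv hlv, if_neg hql, add_zero, map_sub, s1, s2, List.toFinset_cons, s3]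
      by_cases hq : q ∈ S
      · rw [if_pos ⟨hq, hlv⟩, Finset.insert_inter_of_mem hq, Finset.sum_insert
          (fun h => hqv' (Finset.mem_inter.1 h).1), hidq, hidl, if_pos (Nat.succ_pos _),
          List.map_cons, swap_apply_left, cns_wd, swap_comm l q]
        abel
      · rw [if_neg (fun h => hq h.1), Finset.insert_inter_of_notMem hq, sub_zero]

/-- WL2. removing a letter `q ∈ S` from `S` adds the transposition `(q ℓ)` -/
theorem Yl_erase (S : Finset α) (l : α) (hl : l ∉ S) (u : List α) (hu : u.Nodup) (hlu : l ∈ u)
    (q : α) (hq : q ∈ S) (hqu : q ∈ u) :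
    Yl (S.erase q) l u = Yl S l u + wd (u.map (swap q l)) := by
  have hql : q ≠ l := fun h => hl (h ▸ hq)
  have hl' : l ∉ S.erase q := fun h => hl (Finset.mem_of_mem_erase h)
  rw [Yl_eq _ l hl' u hu hlu, Yl_eq S l hl u hu hlu]
  have e1 : u.toFinset \ insert l (S.erase q) = insert q (u.toFinset \ insert l S) := by
    ext x
    simp only [Finset.mem_sdiff, List.mem_toFinset, Finset.mem_insert, Finset.mem_erase]
    by_cases hx : x = q
    · subst hx
      simp [hqu, hql]
    · simp [hx]
  have e2 : u.toFinset ∩ S = insert q (u.toFinset ∩ S.erase q) := by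
    ext x
    simp only [Finset.mem_inter, List.mem_toFinset, Finset.mem_insert, Finset.mem_erase]
    by_cases hx : x = q
    · subst hx
      simp [hqu, hq]
    · simp [hx]
  have n1 : q ∉ u.toFinset \ insert l S := fun h =>
    (Finset.mem_sdiff.1 h).2 (Finset.mem_insert_of_mem hq)
  have n2 : q ∉ u.toFinset ∩ S.erase q := fun h =>
    Finset.notMem_erase q S (Finset.mem_inter.1 h).2
  rw [e1, e2, Finset.sum_insert n1, Finset.sum_insert n2]
  have hne : u.idxOf l ≠ u.idxOf q := fun h => hql ((List.idxOf_inj hlu).1 h).symm
  rcases lt_or_gt_of_ne hne with h | h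
  · rw [if_pos h, if_neg (not_lt.2 h.le)]
    abel
  · rw [if_neg (not_lt.2 h.le), if_pos h]
    abel

/-- WL3a. `Y_ℓ` vanishes on words without the letter `ℓ`. -/
theorem Yl_of_notMem (S : Finset α) (l : α) (u : List α) (hlu : l ∉ u) : Yl S l u = 0 := by
  induction u with
  | nil => rfl
  | cons q u ih =>
    have h1 : l ∉ u := fun h => hlu (List.mem_cons_of_mem _ h)
    have h2 : q ≠ l := fun h => hlu (h ▸ List.mem_cons_self)
    simp [Yl, ih h1, h1, h2]

private theorem map_swap_map (g : Perm α) (a b : α) (u : List α) :
    (u.map (swap a b)).map g = (u.map g).map (swap (g a) (g b)) := by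
  rw [List.map_map, List.map_map]
  refine List.map_congr_left fun x _ => ?_
  simp only [Function.comp_apply]
  have h5 := congrArg (fun e : Perm α => e (g x)) (Equiv.swap_apply_apply g a b)
  simpa [Perm.mul_apply] using h5.symm

/-- WL3b. equivariance and dependence on the letters of the word only -/
theorem rl_Yl (g : Perm α) (S : Finset α) (l : α) (u : List α) :
    rl g (Yl S l u) = Yl (S.map g.toEmbedding) (g l) (u.map g) := by
  induction u with
  | nil =>
    rw [List.map_nil]
    simp only [Yl]
    rw [map_zero]
  | cons q u ih =>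
    have hq : (g q ∈ S.map g.toEmbedding) ↔ q ∈ S := by simp
    have hlu : g l ∈ u.map g ↔ l ∈ u := by simp
    have e1 : (u.map g).toFinset \ S.map g.toEmbedding =
        (u.toFinset \ S).map g.toEmbedding := by
      ext x
      simp only [Finset.mem_sdiff, List.mem_toFinset, List.mem_map, Finset.mem_map,
        Equiv.coe_toEmbedding]
      constructor
      · rintro ⟨⟨y, hy, rfl⟩, h2⟩
        exact ⟨y, ⟨hy, fun h => h2 ⟨y, h, rfl⟩⟩, rfl⟩
      · rintro ⟨y, ⟨hy, h2⟩, rfl⟩
        refine ⟨⟨y, hy, rfl⟩, ?_⟩
        rintro ⟨z, hz, h3⟩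
        exact h2 (g.injective h3 ▸ hz)
    rw [List.map_cons]
    simp only [Yl]
    rw [map_sub, map_add, rl_cns, ih]
    congr 1
    · congr 1
      by_cases h : q = l
      · rw [if_pos h, if_pos (congrArg g h), e1, Finset.sum_map, map_sum]
        refine Finset.sum_congr rfl fun D _ => ?_
        rw [rl_cns, rl_wd, map_swap_map]
        rfl
      · rw [if_neg h, if_neg (fun h' => h (g.injective h')), map_zero]
    · by_cases h : q ∈ S ∧ l ∈ u
      · rw [if_pos h, if_pos ⟨hq.mpr h.1, hlu.mpr h.2⟩, rl_cns, rl_wd, map_swap_map]
      · rw [if_neg h, if_neg (fun h' => h ⟨hq.mp h'.1, hlu.mp h'.2⟩), map_zero]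

theorem Yl_congr (S S' : Finset α) (l : α) (u : List α) (h : ∀ x ∈ u, x ∈ S ↔ x ∈ S') :
    Yl S l u = Yl S' l u := by
  induction u with
  | nil => rfl
  | cons q u ih =>
    have h1 : ∀ x ∈ u, x ∈ S ↔ x ∈ S' := fun x hx => h x (List.mem_cons_of_mem q hx)
    have h2 : q ∈ S ↔ q ∈ S' := h q List.mem_cons_self
    have e1 : u.toFinset \ S = u.toFinset \ S' := by
      ext x
      simp only [Finset.mem_sdiff, List.mem_toFinset]
      constructor
      · rintro ⟨h3, h4⟩
        exact ⟨h3, fun h5 => h4 ((h1 x h3).2 h5)⟩
      · rintro ⟨h3, h4⟩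
        exact ⟨h3, fun h5 => h4 ((h1 x h3).1 h5)⟩
    simp only [Yl, ih h1, e1, h2]

private theorem cns_mem_WS {X : Finset α} {q : α} (hq : q ∉ X) {z : Wd α} (hz : z ∈ WS X) :
    cns q z ∈ WS (insert q X) := by
  unfold WS at hz
  induction hz using Submodule.span_induction with
  | mem z hz =>
    obtain ⟨u, ⟨hu1, hu2⟩, rfl⟩ := hz
    rw [cns_wd]
    refine Submodule.subset_span ⟨q :: u, ⟨List.nodup_cons.2 ⟨fun h => hq ?_, hu1⟩, ?_⟩, rfl⟩
    · rw [← hu2]
      exact List.mem_toFinset.2 h
    · rw [List.toFinset_cons, hu2]
  | zero =>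
    rw [map_zero]
    exact Submodule.zero_mem _
  | add y z _ _ hy hz =>
    rw [map_add]
    exact Submodule.add_mem _ hy hz
  | smul a z _ hz =>
    rw [map_smul]
    exact Submodule.smul_mem _ a hz

private theorem wd_swap_mem {u : List α} (hu : u.Nodup) {q D : α} (hq : q ∉ u) (hD : D ∈ u) :
    cns D (wd (u.map (swap D q))) ∈ WS (insert q u.toFinset) := by
  rw [cns_wd]
  refine Submodule.subset_span ⟨D :: u.map (swap D q), ⟨List.nodup_cons.2 ⟨?_,
    hu.map (swap D q).injective⟩, ?_⟩, rfl⟩
  · intro h
    rw [List.mem_map] at h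
    obtain ⟨x, hx, hxD⟩ := h
    have h2 : x = q := by
      have h3 := congrArg (swap D q) hxD
      rwa [swap_apply_self, swap_apply_left] at h3
    exact hq (h2 ▸ hx)
  · rw [List.toFinset_cons]
    ext y
    simp only [Finset.mem_insert, List.mem_toFinset, List.mem_map]
    constructor
    · rintro (rfl | ⟨x, hx, rfl⟩)
      · exact Or.inr hD
      · rcases eq_or_ne x D with rfl | hxD
        · rw [swap_apply_left]
          exact Or.inl rfl
        · have hxq : x ≠ q := fun h => hq (h ▸ hx)
          rw [swap_apply_of_ne_of_ne hxD hxq]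
          exact Or.inr hx
    · rintro (rfl | hy)
      · exact Or.inr ⟨D, hD, swap_apply_left _ _⟩
      · rcases eq_or_ne y D with rfl | hyD
        · exact Or.inl rfl
        · have hyq : y ≠ q := fun h => hq (h ▸ hy)
          exact Or.inr ⟨y, hy, swap_apply_of_ne_of_ne hyD hyq⟩

theorem Yl_mem (S : Finset α) (l : α) (u : List α) (hu : u.Nodup) : Yl S l u ∈ WS u.toFinset := by
  induction u with
  | nil =>
    simp only [Yl]
    exact Submodule.zero_mem _
  | cons q u ih =>
    obtain ⟨hq, hu'⟩ := List.nodup_cons.1 hu
    have hqX : q ∉ u.toFinset := fun h => hq (List.mem_toFinset.1 h)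
    rw [List.toFinset_cons]
    simp only [Yl]
    refine Submodule.sub_mem _ (Submodule.add_mem _ (cns_mem_WS hqX (ih hu')) ?_) ?_
    · split_ifs with h
      · refine Submodule.sum_mem _ fun D hD => ?_
        rw [Finset.mem_sdiff, List.mem_toFinset] at hD
        rw [← h]
        exact wd_swap_mem hu' hq hD.1
      · exact Submodule.zero_mem _
    · split_ifs with h
      · exact wd_swap_mem hu' hq h.2
      · exact Submodule.zero_mem _

/-- WL4. **The generating function identity** `H(t; S ∪ ℓ) (1 - t Y_ℓ) = H(t; S)`.
Induction on the length of `u`; cases `q = ℓ`, `q ∈ S`, `q ∉ S ∪ ℓ` for the last letter (see the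
proof in the note: for `q ∈ S` compare the components at `q` (induction hypothesis), at `ℓ`
(`hop_congr`), and at `D ∉ S ∪ ℓ`: with `z = u.map (swap D q)`, by `rl_Yl`, `Yl_congr`,
`Yl_erase` one has `rl (swap D q) (Yl S ℓ u) = Yl S ℓ z + wd (z.map (swap q ℓ))` if `ℓ ∈ u`, and
`(u.map (swap ℓ q)).map (swap D ℓ) = z.map (swap q ℓ)`). -/
theorem hop_insert (S : Finset α) (l : α) (hl : l ∉ S) (u : List α) (hu : u.Nodup) (k : ℤ) :
    hop (insert l S) u k = hop S u k + Hop (insert l S) (k - 1) (Yl S l u) := by
  have hT : ∀ x, x ≠ l → (x ∈ insert l S ↔ x ∈ S) := fun x hx => by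
    rw [Finset.mem_insert]
    exact ⟨fun h => h.resolve_left hx, Or.inr⟩
  have hlT : l ∈ insert l S := Finset.mem_insert_self l S
  have key : ∀ n : ℕ, ∀ u : List α, u.length = n → u.Nodup → ∀ k : ℤ,
      hop (insert l S) u k = hop S u k + Hop (insert l S) (k - 1) (Yl S l u) := by
    intro n
    induction n with
    | zero =>
      intro u hn _ k
      rw [List.length_eq_zero_iff] at hn
      subst hn
      rw [hop_nil, hop_nil, Yl, map_zero, add_zero]
    | succ n ih =>
      intro u hn hu k
      rcases u with _ | ⟨q, v⟩
      · simp at hn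
      rw [List.length_cons, Nat.add_right_cancel_iff] at hn
      obtain ⟨hq, hv⟩ := List.nodup_cons.1 hu
      have hmem : ∀ x ∈ v, x ≠ q := fun x hx h => hq (h ▸ hx)
      have hsame : ∀ w : List α, l ∉ w → ∀ j : ℤ, hop (insert l S) w j = hop S w j := by
        intro w hw j
        exact hop_congr _ _ w j fun x hx => hT x fun h => hw (h ▸ hx)
      have hsd : l ∉ v → v.toFinset \ insert l S = v.toFinset \ S := by
        intro hlv
        ext x
        simp only [Finset.mem_sdiff, List.mem_toFinset]
        refine and_congr_right fun hx => ?_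
        rw [hT x fun h => hlv (h ▸ hx)]
      by_cases hql : q = l
      · -- the last letter is `l`
        subst hql
        rw [hop_cons, if_pos hlT, hop_cons, if_neg hl, add_zero, hsame v hq k, hsd hq, Yl,
          Yl_of_notMem S q v hq, map_zero, zero_add, if_pos rfl, if_neg (fun h => hl h.1),
          sub_zero, map_sum]
        congr 1
        refine Finset.sum_congr rfl fun D hD => ?_
        obtain ⟨hDv, hDS⟩ := Finset.mem_sdiff.1 hD
        have hDq : D ≠ q := hmem D (List.mem_toFinset.1 hDv)
        rw [cns_wd, Hop_wd, hop_cons, if_neg (fun h => hDS ((hT D hDq).1 h)), add_zero]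
      by_cases hqS : q ∈ S
      · -- the last letter is in `S`
        have hqT : q ∈ insert l S := Finset.mem_insert_of_mem hqS
        have hlq : l ≠ q := fun h => hql h.symm
        have h1 := Hop_cns (insert l S) (k - 1) q v.toFinset (Yl S l v) (Yl_mem S l v hv)
        rw [if_pos hqT] at h1
        rw [hop_cons, if_pos hqT, hop_cons, if_pos hqS, Yl, if_neg hql, add_zero, map_sub, h1,
          ih v hn hv k, map_add]
        by_cases hlv : l ∈ v
        · have e1 : v.toFinset \ S = insert l (v.toFinset \ insert l S) := by
            ext x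
            simp only [Finset.mem_sdiff, Finset.mem_insert, List.mem_toFinset, not_or]
            constructor
            · rintro ⟨h2, h3⟩
              by_cases hx : x = l
              · exact Or.inl hx
              · exact Or.inr ⟨h2, hx, h3⟩
            · rintro (rfl | ⟨h2, _, h3⟩)
              · exact ⟨hlv, hl⟩
              · exact ⟨h2, h3⟩
          have hlm : l ∉ v.map (swap l q) := by
            intro h
            obtain ⟨x, hx, hxl⟩ := List.mem_map.1 h
            have h2 : x = q := by
              have h3 := congrArg (swap l q) hxl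
              rwa [swap_apply_self, swap_apply_left] at h3
            exact hq (h2 ▸ hx)
          have e2 : (v.map (swap l q)).toFinset \ insert l S = v.toFinset \ insert l S := by
            ext x
            simp only [Finset.mem_sdiff, List.mem_toFinset, List.mem_map]
            constructor
            · rintro ⟨⟨y, hy, rfl⟩, h3⟩
              by_cases hyl : y = l
              · subst hyl
                rw [swap_apply_left] at h3
                exact absurd hqT h3
              · rw [swap_apply_of_ne_of_ne hyl (hmem y hy)] at h3 ⊢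
                exact ⟨hy, h3⟩
            · rintro ⟨h2, h3⟩
              have hxl : x ≠ l := fun h => h3 (h ▸ hlT)
              exact ⟨⟨x, h2, swap_apply_of_ne_of_ne hxl (hmem x h2)⟩, h3⟩
          rw [if_pos ⟨hqS, hlv⟩, cns_wd, Hop_wd, hop_cons, if_pos hlT, hsame _ hlm, e2, e1,
            Finset.sum_insert (fun h => (Finset.mem_sdiff.1 h).2 hlT)]
          have e3 : ∑ D ∈ v.toFinset \ insert l S,
              cns D (hop (insert l S) (v.map (swap D q)) (k - 1)) =
              ∑ D ∈ v.toFinset \ insert l S, cns D (hop S (v.map (swap D q)) (k - 1)) +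
              (∑ D ∈ v.toFinset \ insert l S,
                cns D (Hop (insert l S) (k - 1 - 1) (rl (swap D q) (Yl S l v))) -
              ∑ D ∈ v.toFinset \ insert l S,
                cns D (hop (insert l S) ((v.map (swap l q)).map (swap D l)) (k - 1 - 1))) := by
            rw [← Finset.sum_sub_distrib, ← Finset.sum_add_distrib]
            refine Finset.sum_congr rfl fun D hD => ?_
            obtain ⟨hDv, hDT⟩ := Finset.mem_sdiff.1 hD
            rw [List.mem_toFinset] at hDv
            have hDq : D ≠ q := hmem D hDv
            have hDl : D ≠ l := fun h => hDT (h ▸ hlT)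
            have hDS : D ∉ S := fun h => hDT (Finset.mem_insert_of_mem h)
            have hz : (v.map (swap D q)).Nodup := hv.map (swap D q).injective
            have hlz : l ∈ v.map (swap D q) :=
              List.mem_map.2 ⟨l, hlv, swap_apply_of_ne_of_ne hDl.symm hlq⟩
            have hqz : q ∈ v.map (swap D q) := List.mem_map.2 ⟨D, hDv, swap_apply_left D q⟩
            have h2 : rl (swap D q) (Yl S l v) = Yl S l (v.map (swap D q)) +
                wd ((v.map (swap D q)).map (swap q l)) := by
              rw [rl_Yl, swap_apply_of_ne_of_ne hDl.symm hlq,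
                ← Yl_erase S l hl (v.map (swap D q)) hz hlz q hqS hqz]
              refine Yl_congr _ _ l _ fun x hx => ?_
              have hxD : x ≠ D := by
                rintro rfl
                obtain ⟨y, hy, hyx⟩ := List.mem_map.1 hx
                have h3 : y = q := by
                  have h4 := congrArg (swap x q) hyx
                  rwa [swap_apply_self, swap_apply_left] at h4
                exact hq (h3 ▸ hy)
              rw [Finset.mem_map_equiv, symm_swap, Finset.mem_erase]
              by_cases hxq : x = q
              · subst hxq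
                rw [swap_apply_right]
                exact ⟨fun h => absurd h hDS, fun h => absurd rfl h.1⟩
              · rw [swap_apply_of_ne_of_ne hxD hxq]
                exact ⟨fun h => ⟨hxq, h⟩, fun h => h.2⟩
            have h3 : (v.map (swap l q)).map (swap D l) = (v.map (swap D q)).map (swap q l) := by
              rw [List.map_map, List.map_map]
              refine List.map_congr_left fun x hx => ?_
              have hxq := hmem x hx
              simp only [Function.comp_apply]
              by_cases hxl : x = l
              · subst hxl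
                rw [swap_apply_left, swap_apply_of_ne_of_ne hDq.symm hlq.symm,
                  swap_apply_of_ne_of_ne hDl.symm hxq, swap_apply_right]
              · by_cases hxD : x = D
                · subst hxD
                  rw [swap_apply_of_ne_of_ne hxl hxq, swap_apply_left, swap_apply_left,
                    swap_apply_left]
                · rw [swap_apply_of_ne_of_ne hxl hxq, swap_apply_of_ne_of_ne hxD hxl,
                    swap_apply_of_ne_of_ne hxD hxq, swap_apply_of_ne_of_ne hxq hxl]
            rw [ih _ (by rw [List.length_map, hn]) hz (k - 1), h2, h3, map_add (Hop _ _), Hop_wd,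
              map_add, map_add]
            abel
          rw [e3]
          abel
        · rw [Yl_of_notMem S l v hlv, if_neg (fun h => hlv h.2), map_zero, map_zero, sub_zero,
            hsd hlv]
          have e3 : ∀ D ∈ v.toFinset \ S,
              cns D (hop (insert l S) (v.map (swap D q)) (k - 1)) =
              cns D (hop S (v.map (swap D q)) (k - 1)) := by
            intro D hD
            have hDv := List.mem_toFinset.1 (Finset.mem_sdiff.1 hD).1
            rw [hsame]
            intro h
            obtain ⟨x, hx, hxl⟩ := List.mem_map.1 h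
            by_cases hxD : x = D
            · subst hxD
              rw [swap_apply_left] at hxl
              exact hql hxl
            · rw [swap_apply_of_ne_of_ne hxD (hmem x hx)] at hxl
              exact hlv (hxl ▸ hx)
          rw [Finset.sum_congr rfl e3]
          simp
      · -- the last letter is neither `l` nor in `S`
        have hqT : q ∉ insert l S := fun h => hqS ((hT q hql).1 h)
        have h1 := Hop_cns (insert l S) (k - 1) q v.toFinset (Yl S l v) (Yl_mem S l v hv)
        rw [if_neg hqT, add_zero] at h1
        rw [hop_cons, if_neg hqT, add_zero, hop_cons, if_neg hqS, add_zero, Yl, if_neg hql,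
          if_neg (fun h => hqS h.1), add_zero, sub_zero, h1, ih v hn hv k, map_add]
  exact key u.length u rfl hu k

end words

variable {m : ℕ}

/-- the word of a permutation, read from right to left -/
def om (x : WG m) : List (Fin (m + 1)) := (List.finRange (m + 1)).reverse.map x

/-- linear extension of `om` -/
noncomputable def Om (m : ℕ) : VV m →ₗ[ℤ] Wd (Fin (m + 1)) := Finsupp.lmapDomain ℤ ℤ om

theorem om_injective : Function.Injective (om (m := m)) := by
  intro x y h
  ext i
  have h1 : ∀ j : Fin (m + 1), x j = y j := by
    intro j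
    have h2 := List.map_inj_left.mp h j (by simp)
    exact h2
  rw [h1]

theorem Om_bas (x : WG m) : Om m (bas x) = wd (om x) := by
  simp [Om, bas, wd, Finsupp.lmapDomain_apply, Finsupp.mapDomain_single]

theorem om_mul (g x : WG m) : om (g * x) = (om x).map g := by
  simp [om, Perm.coe_mul]

theorem om_nodup (x : WG m) : (om x).Nodup := by
  unfold om
  exact (List.nodup_reverse.mpr (List.nodup_finRange _)).map x.injective

theorem mem_om (x : WG m) (j : Fin (m + 1)) : j ∈ om x := by
  unfold om
  rw [List.mem_map]
  exact ⟨x⁻¹ j, by simp, by simp⟩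

theorem om_toFinset (x : WG m) : (om x).toFinset = Finset.univ := by
  ext j
  simp [mem_om]

theorem Om_apply (z : VV m) (x : WG m) : Om m z (om x) = z x := by
  simp only [Om, Finsupp.lmapDomain_apply]
  exact Finsupp.mapDomain_apply om_injective z x

/-- a vector is nonnegative if its image is -/
theorem NN_of_Om (z : VV m) (h : WN (Om m z)) : NN z := fun x => by
  rw [← Om_apply]
  exact h _

private theorem idxOf_om (x : WG m) (j : Fin (m + 1)) :
    (om x).idxOf j = m - (x⁻¹ j : Fin (m + 1)).val := by
  have hlen : (om x).length = m + 1 := by simp [om]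
  have hk : m - (x⁻¹ j : Fin (m + 1)).val < (om x).length := by
    rw [hlen]
    omega
  have h1 : (om x)[m - (x⁻¹ j : Fin (m + 1)).val]'hk = j := by
    have h2 : (om x)[m - (x⁻¹ j : Fin (m + 1)).val]'hk = x (x⁻¹ j) := by
      unfold om
      rw [List.getElem_map, List.getElem_reverse, List.getElem_finRange]
      congr 1
      apply Fin.ext
      simp only [List.length_finRange, Fin.val_cast]
      have := (x⁻¹ j).isLt
      omega
    rw [h2, ← Perm.mul_apply, mul_inv_cancel, Perm.one_apply]
  have h3 := (om_nodup x).idxOf_getElem _ hk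
  rwa [h1] at h3

private theorem idxOf_om_lt (x : WG m) (i j : Fin (m + 1)) :
    (om x).idxOf i < (om x).idxOf j ↔ x⁻¹ j < x⁻¹ i := by
  rw [idxOf_om, idxOf_om, Fin.lt_def]
  have h1 := (x⁻¹ j).isLt
  have h2 := (x⁻¹ i).isLt
  omega

/-- WL5. the operator `x_i` on words -/
theorem Om_xb (i : Fin (m + 1)) (x : WG m) :
    Om m (xb i x) = Yl (Finset.Iio i) i (om x) := by
  rw [Yl_eq (Finset.Iio i) i (by simp) (om x) (om_nodup x) (mem_om x i), om_toFinset]
  have hb : ∀ j, Om m (bas (swap i j * x)) = wd ((om x).map (swap j i)) := by
    intro j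
    rw [Om_bas, om_mul, swap_comm]
  have e1 : (Finset.univ \ insert i (Finset.Iio i) : Finset (Fin (m + 1))) =
      Finset.univ.filter fun j => i < j := by
    ext j
    simp only [Finset.mem_sdiff, Finset.mem_univ, true_and, Finset.mem_insert, Finset.mem_Iio,
      Finset.mem_filter, not_or, not_lt]
    constructor
    · rintro ⟨h1, h2⟩
      exact lt_of_le_of_ne h2 (Ne.symm h1)
    · intro h
      exact ⟨h.ne', h.le⟩
  have e2 : (Finset.univ ∩ Finset.Iio i : Finset (Fin (m + 1))) =
      Finset.univ.filter fun j => j < i := by
    ext j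
    simp
  rw [e1, e2, Finset.sum_filter, Finset.sum_filter, ← Finset.sum_sub_distrib]
  unfold xb
  rw [map_sum]
  refine Finset.sum_congr rfl fun j _ => ?_
  simp only [idxOf_om_lt]
  rcases lt_trichotomy i j with h | h | h
  · by_cases h2 : x⁻¹ j < x⁻¹ i
    · rw [if_pos ⟨h, h2⟩, if_pos h, if_pos h2, if_neg h.not_gt, sub_zero, hb]
    · rw [if_neg (fun h' => h2 h'.2), if_neg (fun h' => h.not_gt h'.1), if_pos h, if_neg h2,
        if_neg h.not_gt, sub_zero, map_zero]
  · subst h
    simp
  · by_cases h2 : x⁻¹ i < x⁻¹ j
    · rw [if_neg (fun h' => h.not_gt h'.1), if_pos ⟨h, h2⟩, if_neg h.not_gt, if_pos h, if_pos h2,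
        zero_sub, map_neg, hb]
    · rw [if_neg (fun h' => h.not_gt h'.1), if_neg (fun h' => h2 h'.2), if_neg h.not_gt,
        if_pos h, if_neg h2, sub_zero, map_zero]

/-- the first `j` letters -/
def Sj (m j : ℕ) : Finset (Fin (m + 1)) := Finset.univ.filter fun i => (i : ℕ) < j

/-- WL6. `h_k(x_0, ..., x_{j-1})` acts by the sweep with `k` jumps of the letters `< j`.
Induction on `j` and `k` from `hz_succ`, `hop_insert`, `Om_xb` (for `k < 0` both sides vanish). -/
theorem Om_act_hz (j : ℕ) (k : ℤ) (z : VV m) :
    Om m (act m (hz m j k) z) = Hop (Sj m j) k (Om m z) := by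
  have hneg : ∀ (j : ℕ) (k : ℤ), k < 0 → ∀ z : VV m,
      Om m (act m (hz m j k) z) = Hop (Sj m j) k (Om m z) := by
    intro j k hk z
    have h1 : Hop (Sj m j) k = 0 := by
      apply ext_wd
      intro u
      rw [Hop_wd, hop_neg _ _ _ hk, LinearMap.zero_apply]
    rw [hz_neg j hk, map_zero, LinearMap.zero_apply, map_zero, h1, LinearMap.zero_apply]
  have hext : ∀ (j : ℕ) (k : ℤ), (∀ x : WG m,
      Om m (act m (hz m j k) (bas x)) = Hop (Sj m j) k (Om m (bas x))) → ∀ z : VV m,
      Om m (act m (hz m j k) z) = Hop (Sj m j) k (Om m z) := by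
    intro j k h z
    have h1 := ext_bas ((Om m).comp (act m (hz m j k))) ((Hop (Sj m j) k).comp (Om m)) h
    exact LinearMap.congr_fun h1 z
  induction j generalizing k z with
  | zero =>
    have hS : Sj m 0 = ∅ := by
      ext i
      simp [Sj]
    refine hext 0 k (fun x => ?_) z
    rw [hz_zero_left, hS, Om_bas, Hop_wd, hop_of_disjoint _ _ _ (fun x _ => Finset.notMem_empty x)]
    split_ifs
    · rw [map_one, Module.End.one_apply, Om_bas]
    · rw [map_zero, LinearMap.zero_apply, map_zero]
  | succ j ih =>
    have key : ∀ n : ℕ, ∀ k : ℤ, k < n → ∀ z : VV m,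
        Om m (act m (hz m (j + 1) k) z) = Hop (Sj m (j + 1)) k (Om m z) := by
      intro n
      induction n with
      | zero => exact fun k hk z => hneg (j + 1) k (by simpa using hk) z
      | succ n ihn =>
        intro k hk z
        by_cases hkn : k < n
        · exact ihn k hkn z
        refine hext (j + 1) k (fun x => ?_) z
        have hstep := ihn (k - 1) (by push_cast at hk; omega)
        by_cases hj : j < m + 1
        · have hl : (⟨j, hj⟩ : Fin (m + 1)) ∉ Sj m j := by
            simp [Sj]
          have hSj : Sj m (j + 1) = insert (⟨j, hj⟩ : Fin (m + 1)) (Sj m j) := by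
            ext i
            simp only [Sj, Finset.mem_filter, Finset.mem_univ, true_and, Finset.mem_insert,
              Fin.ext_iff]
            omega
          have hSI : Sj m j = Finset.Iio (⟨j, hj⟩ : Fin (m + 1)) := by
            ext i
            simp [Sj, Fin.lt_def]
          rw [hz_succ, map_add, LinearMap.add_apply, map_add, ih, mul_comm, act_mul_apply, hstep]
          have hx : xv m j = X ⟨j, hj⟩ := by
            unfold xv
            rw [dif_pos hj]
          rw [hx, act_X_apply, Xop_bas, Om_xb, Om_bas, Hop_wd, Hop_wd, hSj, ← hSI,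
            hop_insert _ _ hl _ (om_nodup x)]
        · have hSj : Sj m (j + 1) = Sj m j := by
            ext i
            have := i.2
            simp only [Sj, Finset.mem_filter, Finset.mem_univ, true_and]
            omega
          have hx : xv m j = 0 := by
            unfold xv
            rw [dif_neg hj]
          rw [hz_succ, hx, zero_mul, add_zero, hSj]
          exact ih k (bas x)
    exact key (k.toNat + 1) k (by push_cast; omega) z

/-- **`p2(1, j; a, b)` acts nonnegatively.** -/
theorem PP_p2_one (j a b : ℕ) (hj : 1 < j) (hjm : j ≤ m + 1) : PP (p2 m 1 j a b) := by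
  intro x
  apply NN_of_Om
  set B : Finset (Fin (m + 1)) := Finset.univ.filter fun i => 0 < (i : ℕ) ∧ (i : ℕ) < j with hBdef
  have h0B : (0 : Fin (m + 1)) ∉ B := by
    intro h
    rw [hBdef, Finset.mem_filter] at h
    exact absurd h.2.1 (by simp)
  have hS1 : Sj m 1 = {0} := by
    ext i
    simp only [Sj, Finset.mem_filter, Finset.mem_univ, true_and, Finset.mem_singleton,
      Fin.ext_iff, Fin.val_zero]
    omega
  have hSj : Sj m j = insert 0 B := by
    ext i
    simp only [Sj, hBdef, Finset.mem_filter, Finset.mem_univ, true_and, Finset.mem_insert,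
      Fin.ext_iff, Fin.val_zero]
    omega
  have hcard : (B.card : ℤ) = (j : ℤ) - 1 := by
    have h1 : (Sj m j).card = j := by
      have : Sj m j = (Finset.range j).attach.image
          (fun i => (⟨i.1, lt_of_lt_of_le (Finset.mem_range.mp i.2) hjm⟩ : Fin (m + 1))) := by
        ext i
        simp only [Sj, Finset.mem_filter, Finset.mem_univ, true_and, Finset.mem_image,
          Finset.mem_attach, Subtype.exists, Finset.mem_range]
        constructor
        · intro h
          exact ⟨i, h, rfl⟩
        · rintro ⟨a, ha, rfl⟩
          exact ha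
      rw [this, Finset.card_image_of_injective, Finset.card_attach, Finset.card_range]
      intro a b hab
      have := Fin.mk.inj hab
      exact Subtype.ext this
    rw [hSj, Finset.card_insert_of_notMem h0B] at h1
    omega
  set c : ℤ := max ((a : ℤ) + 1) (b + (j - 1)) with hc
  have key : Om m (act m (p2 m 1 j a b) (bas x)) = Uw 0 B (c - a) c b (om x) := by
    unfold p2 Uw H2
    rw [map_sub, LinearMap.sub_apply, map_sub, act_mul_apply, act_mul_apply, Om_act_hz, Om_act_hz,
      Om_act_hz, Om_act_hz, hS1, hSj, Om_bas, Hop_wd, Hop_wd]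
    have e1 : c - (c - a) = a := by ring
    have e2 : (b : ℤ) - (c - a) = a + b - c := by ring
    rw [e1, e2]
    simp only [Nat.cast_one, ← hc]
  rw [key]
  refine (WN_Uw_Rw (om x).length (om x) rfl (om_nodup x) 0 B ?_ h0B ?_ (c - a) c b ?_ ?_).1
  · exact mem_om x 0
  · rw [om_toFinset]
    exact Finset.subset_univ _
  · have : (a : ℤ) + 1 ≤ c := le_max_left _ _
    omega
  · have : (b : ℤ) + (j - 1) ≤ c := le_max_right _ _
    omega

end H45C
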