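import Pool.Agent.Helper45.CSM.WForm

/-!
# Positivity of the two-row operators with one letter in the first row (pieces WP1-WP7)
-/

set_option linter.unusedSectionVars false

namespace H45C

open Equiv

variable {α : Type*} [DecidableEq α]

/-- `U_M(B; c, e) = h_{c-M}[p] h_e[pB] - h_c[p] h_{e-M}[pB]` -/
noncomputable def Uw (p : α) (B : Finset α) (M c e : ℤ) (u : List α) : Wd α :=
  H2 {p} (c - M) (insert p B) e u - H2 {p} c (insert p B) (e - M) u

/-- `R_M(B; c, e) = h_{c-M}[p] h_e[B] - h_{c-1}[p] h_{e-M+1}[B] + h_{c-1}[p] h_{e-M+1}[pB]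
- h_c[p] h_{e-M}[pB]` -/
noncomputable def Rw (p : α) (B : Finset α) (M c e : ℤ) (u : List α) : Wd α :=
  H2 {p} (c - M) B e u - H2 {p} (c - 1) B (e - M + 1) u +
    H2 {p} (c - 1) (insert p B) (e - M + 1) u - H2 {p} c (insert p B) (e - M) u

theorem Rw_one (p : α) (B : Finset α) (c e : ℤ) (u : List α) : Rw p B 1 c e u = Uw p B 1 c e u := by
  unfold Rw Uw
  rw [sub_add_cancel, sub_self, zero_add]

theorem Uw_zero (p : α) (B : Finset α) (c e : ℤ) (u : List α) : Uw p B 0 c e u = 0 := by
  unfold Uw
  rw [sub_zero, sub_zero, sub_self]

private theorem H2_congr_one (S₁ S S' : Finset α) (a b : ℤ) (u : List α)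
    (h : ∀ x ∈ u, x ∈ S ↔ x ∈ S') : H2 S₁ a S b u = H2 S₁ a S' b u := by
  unfold H2
  rw [hop_congr S S' u b h]

private theorem mem_map_swap (a b x : α) (v : List α) :
    x ∈ v.map (swap a b) ↔ swap a b x ∈ v := by
  constructor
  · intro h
    obtain ⟨y, hy, rfl⟩ := List.mem_map.1 h
    rw [swap_apply_self]
    exact hy
  · intro h
    exact List.mem_map.2 ⟨_, h, swap_apply_self _ _ _⟩

private theorem swap_id_one {p b D x : α} (hbp : b ≠ p) (hDp : D ≠ p) (hDb : D ≠ b)
    (hx : x ≠ p) : swap D b (swap p b x) = swap p b (swap D p x) := by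
  by_cases h1 : x = b
  · rw [h1, swap_apply_right, swap_apply_of_ne_of_ne hDp.symm hbp.symm,
      swap_apply_of_ne_of_ne hDb.symm hbp, swap_apply_right]
  · by_cases h2 : x = D
    · rw [h2, swap_apply_of_ne_of_ne hDp hDb, swap_apply_left, swap_apply_left, swap_apply_left]
    · rw [swap_apply_of_ne_of_ne hx h1, swap_apply_of_ne_of_ne h2 h1,
        swap_apply_of_ne_of_ne h2 hx, swap_apply_of_ne_of_ne hx h1]

private theorem swap_id_two {p q b D x : α} (hqp : q ≠ p) (hqb : q ≠ b) (hDp : D ≠ p)
    (hDb : D ≠ b) (hx : x ≠ q) : swap D q (swap p b x) = swap p b (swap D q x) := by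
  by_cases h2 : x = D
  · rw [h2, swap_apply_of_ne_of_ne hDp hDb, swap_apply_left,
      swap_apply_of_ne_of_ne hqp hqb]
  · rw [swap_apply_of_ne_of_ne h2 hx]
    apply swap_apply_of_ne_of_ne
    · intro h
      by_cases h3 : x = p
      · rw [h3, swap_apply_left] at h
        exact hDb h.symm
      · by_cases h4 : x = b
        · rw [h4, swap_apply_right] at h
          exact hDp h.symm
        · rw [swap_apply_of_ne_of_ne h3 h4] at h
          exact h2 h
    · intro h
      by_cases h3 : x = p
      · rw [h3, swap_apply_left] at h
        exact hqb h.symm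
      · by_cases h4 : x = b
        · rw [h4, swap_apply_right] at h
          exact hqp h.symm
        · rw [swap_apply_of_ne_of_ne h3 h4] at h
          exact hx h

private theorem swap_id_three {p q D x : α} (hqp : q ≠ p) (hDp : D ≠ p) (hDq : D ≠ q)
    (hx : x ≠ q) : swap D p (swap p q x) = swap p q (swap D q x) := by
  by_cases h1 : x = p
  · rw [h1, swap_apply_left, swap_apply_of_ne_of_ne hDq.symm hqp,
      swap_apply_of_ne_of_ne hDp.symm hqp.symm, swap_apply_left]
  · by_cases h2 : x = D
    · rw [h2, swap_apply_of_ne_of_ne hDp hDq, swap_apply_left, swap_apply_left,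
        swap_apply_right]
    · rw [swap_apply_of_ne_of_ne h1 hx, swap_apply_of_ne_of_ne h2 h1,
        swap_apply_of_ne_of_ne h2 hx, swap_apply_of_ne_of_ne h1 hx]

private theorem id_one_aux (p : α) (n : ℕ) : ∀ u : List α, u.length = n → ∀ B : Finset α,
    p ∉ B → u.Nodup → p ∈ u → B ⊆ u.toFinset → ∀ c k : ℤ,
    H2 {p} (c - 1) (insert p B) k u + (if c = 0 then hop (insert p B) u (k - 1) else 0) +
        ∑ b ∈ B, H2 {p} (c - 1) (insert p B) (k - 1) (u.map (swap p b)) =
      H2 {p} (c - 1) B k u + H2 {p} c (insert p B) (k - 1) u := by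
  induction n with
  | zero =>
    intro u hn B _ _ hp
    rw [List.length_eq_zero_iff] at hn
    subst hn
    exact absurd hp (by simp)
  | succ n ih =>
    intro u hn B hpB hu hp hB c k
    obtain _ | ⟨q, v⟩ := u
    · exact absurd hp (by simp)
    have hvn : v.length = n := by simpa using hn
    have hv : v.Nodup := (List.nodup_cons.1 hu).2
    have hqv : q ∉ v := (List.nodup_cons.1 hu).1
    have hmn : ∀ f : Perm α, (v.map f).length = n := fun f => by rw [List.length_map, hvn]
    have hmd : ∀ f : Perm α, (v.map f).Nodup := fun f => hv.map f.injective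
    by_cases hqp : q = p
    · -- the last letter is `p`
      subst hqp
      have hBv : B ⊆ v.toFinset := by
        intro x hx
        have h1 := hB hx
        rw [List.toFinset_cons, Finset.mem_insert] at h1
        rcases h1 with h1 | h1
        · exact absurd (h1 ▸ hx) hpB
        · exact h1
      have hne : ∀ x ∈ v, x ≠ q := fun x hx h => hqv (h ▸ hx)
      have hset : v.toFinset \ insert q B = v.toFinset \ B := by
        ext x
        simp only [Finset.mem_sdiff, List.mem_toFinset, Finset.mem_insert, not_or]
        constructor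
        · rintro ⟨h1, _, h2⟩
          exact ⟨h1, h2⟩
        · rintro ⟨h1, h2⟩
          exact ⟨h1, hne x h1, h2⟩
      have e2 : (if c = 0 then hop (insert q B) (q :: v) (k - 1) else 0) =
          cns q (if c = 0 then hop B v (k - 1) else 0) +
            ∑ D ∈ v.toFinset \ B, cns D (if c = 0 then
              hop (insert q B) (v.map (swap D q)) (k - 1 - 1) else 0) := by
        split_ifs with hc
        · rw [hop_cons, if_pos (Finset.mem_insert_self q B), hset,
            hop_congr (insert q B) B v (k - 1)]
          intro x hx
          rw [Finset.mem_insert]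
          constructor
          · rintro (h | h)
            · exact absurd h (hne x hx)
            · exact h
          · exact Or.inr
        · simp
      have e3 : ∑ b ∈ B, H2 {q} (c - 1) (insert q B) (k - 1) ((q :: v).map (swap q b)) =
          (∑ b ∈ B, cns b (H2 {q} (c - 1) (insert q B) (k - 1) (v.map (swap b q)))) +
          ∑ D ∈ v.toFinset \ B, cns D (∑ b ∈ B, H2 {q} (c - 1) (insert q B) (k - 1 - 1)
            ((v.map (swap D q)).map (swap q b))) := by
        simp only [map_sum]
        rw [Finset.sum_comm, ← Finset.sum_add_distrib]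
        refine Finset.sum_congr rfl fun b hb => ?_
        have hbq : b ≠ q := fun h => hpB (h ▸ hb)
        have hbv : b ∈ v := List.mem_toFinset.1 (hBv hb)
        rw [List.map_cons, swap_apply_left]
        rw [H2_c4 q B hpB (c - 1) (k - 1) b hb (v.map (swap q b))]
        · congr 1
          · rw [swap_comm q b]
            congr 1
            apply H2_congr_one
            intro x hx
            rw [mem_map_swap] at hx
            have hxb : x ≠ b := by
              rintro rfl
              rw [swap_apply_left] at hx
              exact hqv hx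
            simp only [Finset.mem_insert, Finset.mem_erase]
            tauto
          · have hs : (v.map (swap q b)).toFinset \ insert q B = v.toFinset \ B := by
              ext x
              simp only [Finset.mem_sdiff, List.mem_toFinset, Finset.mem_insert, not_or,
                mem_map_swap]
              constructor
              · rintro ⟨h1, h2, h3⟩
                rw [swap_apply_of_ne_of_ne h2 (fun h => h3 (h ▸ hb))] at h1
                exact ⟨h1, h3⟩
              · rintro ⟨h1, h2⟩
                refine ⟨?_, hne x h1, h2⟩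
                rw [swap_apply_of_ne_of_ne (hne x h1) (fun h => h2 (h ▸ hb))]
                exact h1
            rw [hs]
            refine Finset.sum_congr rfl fun D hD => ?_
            rw [Finset.mem_sdiff, List.mem_toFinset] at hD
            congr 2
            rw [List.map_map, List.map_map]
            refine List.map_congr_left fun x hx => ?_
            exact swap_id_one hbq (hne D hD.1) (fun h => hD.2 (h ▸ hb)) (hne x hx)
        · rw [List.nodup_cons]
          refine ⟨?_, hmd _⟩
          rw [mem_map_swap, swap_apply_right]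
          exact hqv
        · rw [mem_map_swap, swap_apply_left]
          exact hbv
        · intro x hx
          rw [Finset.mem_erase] at hx
          have hxq : x ≠ q := fun h => hpB (h ▸ hx.2)
          rw [List.mem_toFinset, mem_map_swap, swap_apply_of_ne_of_ne hxq hx.1]
          exact List.mem_toFinset.1 (hBv hx.2)
      have hI : ∑ D ∈ v.toFinset \ B, cns D (H2 {q} (c - 1) (insert q B) (k - 1)
            (v.map (swap D q)) + (if c = 0 then
              hop (insert q B) (v.map (swap D q)) (k - 1 - 1) else 0) +
            ∑ b ∈ B, H2 {q} (c - 1) (insert q B) (k - 1 - 1)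
              ((v.map (swap D q)).map (swap q b))) =
          ∑ D ∈ v.toFinset \ B, cns D (H2 {q} (c - 1) B (k - 1) (v.map (swap D q)) +
            H2 {q} c (insert q B) (k - 1 - 1) (v.map (swap D q))) := by
        refine Finset.sum_congr rfl fun D hD => ?_
        rw [Finset.mem_sdiff, List.mem_toFinset] at hD
        rw [ih (v.map (swap D q)) (hmn _) B hpB (hmd _) ?_ ?_ c (k - 1)]
        · rw [mem_map_swap, swap_apply_right]
          exact hD.1
        · intro x hx
          have hxD : x ≠ D := fun h => hD.2 (h ▸ hx)
          have hxq : x ≠ q := fun h => hpB (h ▸ hx)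
          rw [List.mem_toFinset, mem_map_swap, swap_apply_of_ne_of_ne hxD hxq]
          exact List.mem_toFinset.1 (hBv hx)
      rw [H2_c2 q B hpB (c - 1) k v hu hBv, H2_c3 q B hpB (c - 1) k v hu hBv,
        H2_c2 q B hpB c (k - 1) v hu hBv, e2, e3]
      simp only [map_add, Finset.sum_add_distrib] at hI ⊢
      rw [← sub_eq_zero] at hI ⊢
      refine Eq.trans ?_ hI
      abel
    have hpv : p ∈ v := by
      rcases List.mem_cons.1 hp with h | h
      · exact absurd h.symm hqp
      · exact h
    have hneq : ∀ x ∈ v, x ≠ q := fun x hx h => hqv (h ▸ hx)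
    by_cases hqB : q ∈ B
    · -- the last letter is in `B`
      have hB' : B.erase q ⊆ v.toFinset := by
        intro x hx
        rw [Finset.mem_erase] at hx
        have h1 := hB hx.2
        rw [List.toFinset_cons, Finset.mem_insert] at h1
        exact h1.resolve_left hx.1
      have hpB' : p ∉ B.erase q := fun h => hpB (Finset.mem_of_mem_erase h)
      have hA' : ∀ x ∈ v, x ∈ insert p B ↔ x ∈ insert p (B.erase q) := by
        intro x hx
        have := hneq x hx
        simp only [Finset.mem_insert, Finset.mem_erase]
        tauto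
      have e2 : (if c = 0 then hop (insert p B) (q :: v) (k - 1) else 0) =
          cns q (if c = 0 then hop (insert p (B.erase q)) v (k - 1) else 0) +
            ∑ D ∈ v.toFinset \ insert p B, cns D (if c = 0 then
              hop (insert p B) (v.map (swap D q)) (k - 1 - 1) else 0) := by
        split_ifs with hc
        · rw [hop_cons, if_pos (Finset.mem_insert_of_mem hqB),
            hop_congr (insert p B) (insert p (B.erase q)) v (k - 1) hA']
        · simp
      -- the summand `b = q`
      have hv'q : ∀ D ∈ v.toFinset, D ≠ p → (v.map (swap p q)).map (swap D p) =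
          (v.map (swap D q)).map (swap p q) := by
        intro D hD hDp
        rw [List.map_map, List.map_map]
        refine List.map_congr_left fun x hx => ?_
        exact swap_id_three hqp hDp (hneq D (List.mem_toFinset.1 hD)) (hneq x hx)
      have hsetq : (v.map (swap p q)).toFinset \ B = v.toFinset \ insert p B := by
        ext x
        simp only [Finset.mem_sdiff, List.mem_toFinset, Finset.mem_insert, not_or,
          mem_map_swap]
        constructor
        · rintro ⟨h1, h2⟩
          have hxq : x ≠ q := fun h => h2 (h ▸ hqB)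
          have hxp : x ≠ p := by
            rintro rfl
            rw [swap_apply_left] at h1
            exact hqv h1
          rw [swap_apply_of_ne_of_ne hxp hxq] at h1
          exact ⟨h1, hxp, h2⟩
        · rintro ⟨h1, h2, h3⟩
          rw [swap_apply_of_ne_of_ne h2 (fun h => h3 (h ▸ hqB))]
          exact ⟨h1, h3⟩
      have hBq : B ⊆ (v.map (swap p q)).toFinset := by
        intro x hx
        rw [List.mem_toFinset, mem_map_swap]
        by_cases hxq : x = q
        · rw [hxq, swap_apply_right]
          exact hpv
        · have hxp : x ≠ p := fun h => hpB (h ▸ hx)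
          rw [swap_apply_of_ne_of_ne hxp hxq]
          exact List.mem_toFinset.1 (hB' (Finset.mem_erase.2 ⟨hxq, hx⟩))
      have hpq' : (p :: v.map (swap p q)).Nodup := by
        rw [List.nodup_cons]
        refine ⟨?_, hmd _⟩
        rw [mem_map_swap, swap_apply_left]
        exact hqv
      have eq' : H2 {p} (c - 1) (insert p B) (k - 1) ((q :: v).map (swap p q)) =
          cns p (if c - 1 = 0 then hop B (v.map (swap p q)) (k - 1) else 0) +
          (∑ D ∈ v.toFinset \ insert p B,
            cns D (H2 {p} (c - 1 - 1) B (k - 1) ((v.map (swap D q)).map (swap p q)) +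
              H2 {p} (c - 1) (insert p B) (k - 1 - 1)
                ((v.map (swap D q)).map (swap p q)))) +
          (cns q (H2 {p} (c - 1 - 1) (insert p (B.erase q)) (k - 1) v) +
          ∑ D ∈ B.erase q, cns D (H2 {p} (c - 1 - 1) (insert p (B.erase D)) (k - 1)
            ((v.map (swap D q)).map (swap p q)))) := by
        rw [List.map_cons, swap_apply_right, H2_c2 p B hpB (c - 1) (k - 1) _ hpq' hBq, hsetq]
        congr 1
        · congr 1
          refine Finset.sum_congr rfl fun D hD => ?_
          rw [Finset.mem_sdiff, Finset.mem_insert, not_or] at hD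
          rw [hv'q D hD.1 hD.2.1]
        · rw [← Finset.add_sum_erase B _ hqB]
          congr 1
          · congr 1
            have h1 : (v.map (swap p q)).map (swap q p) = v := by
              rw [List.map_map]
              conv_rhs => rw [← List.map_id v]
              refine List.map_congr_left fun x _ => ?_
              rw [Function.comp, swap_comm q p, swap_apply_self]
              rfl
            rw [h1]
            exact H2_congr_one _ _ _ _ _ _ hA'
          · refine Finset.sum_congr rfl fun D hD => ?_
            have hD1 := Finset.mem_erase.1 hD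
            have hDp : D ≠ p := fun h => hpB (h ▸ hD1.2)
            have hDv : D ∈ v := List.mem_toFinset.1 (hB' hD)
            rw [hv'q D (hB' hD) hDp]
            congr 1
            apply H2_congr_one
            intro x hx
            rw [mem_map_swap, mem_map_swap] at hx
            have hxD : x ≠ D := by
              rintro rfl
              rw [swap_apply_of_ne_of_ne hDp hD1.1, swap_apply_left] at hx
              exact hqv hx
            simp only [Finset.mem_insert, Finset.mem_erase]
            tauto
      -- the summands `b ≠ q`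
      have eb' : ∑ b ∈ B.erase q, H2 {p} (c - 1) (insert p B) (k - 1)
            ((q :: v).map (swap p b)) =
          cns q (∑ b ∈ B.erase q, H2 {p} (c - 1) (insert p (B.erase q)) (k - 1)
            (v.map (swap p b))) +
          ∑ D ∈ v.toFinset \ insert p B, cns D (∑ b ∈ B.erase q,
            H2 {p} (c - 1) (insert p B) (k - 1 - 1) ((v.map (swap D q)).map (swap p b))) := by
        simp only [map_sum]
        rw [Finset.sum_comm, ← Finset.sum_add_distrib]
        refine Finset.sum_congr rfl fun b hb => ?_
        have hb1 := Finset.mem_erase.1 hb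
        have hbp : b ≠ p := fun h => hpB (h ▸ hb1.2)
        have hbv : b ∈ v := List.mem_toFinset.1 (hB' hb)
        rw [List.map_cons, swap_apply_of_ne_of_ne hqp (Ne.symm hb1.1),
          H2_c4 p B hpB (c - 1) (k - 1) q hqB (v.map (swap p b))]
        · congr 1
          have hs : (v.map (swap p b)).toFinset \ insert p B = v.toFinset \ insert p B := by
            ext x
            simp only [Finset.mem_sdiff, List.mem_toFinset, Finset.mem_insert, not_or,
              mem_map_swap]
            constructor
            · rintro ⟨h1, h2, h3⟩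
              rw [swap_apply_of_ne_of_ne h2 (fun h => h3 (h ▸ hb1.2))] at h1
              exact ⟨h1, h2, h3⟩
            · rintro ⟨h1, h2, h3⟩
              rw [swap_apply_of_ne_of_ne h2 (fun h => h3 (h ▸ hb1.2))]
              exact ⟨h1, h2, h3⟩
          rw [hs]
          refine Finset.sum_congr rfl fun D hD => ?_
          rw [Finset.mem_sdiff, Finset.mem_insert, not_or] at hD
          congr 2
          rw [List.map_map, List.map_map]
          refine List.map_congr_left fun x hx => ?_
          exact swap_id_two hqp (Ne.symm hb1.1) hD.2.1 (fun h => hD.2.2 (h ▸ hb1.2))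
            (hneq x hx)
        · rw [List.nodup_cons]
          refine ⟨?_, hmd _⟩
          rw [mem_map_swap, swap_apply_of_ne_of_ne hqp (Ne.symm hb1.1)]
          exact hqv
        · rw [mem_map_swap, swap_apply_left]
          exact hbv
        · intro x hx
          rw [List.mem_toFinset, mem_map_swap]
          have hx1 := Finset.mem_erase.1 hx
          by_cases hxb : x = b
          · rw [hxb, swap_apply_right]
            exact hpv
          · have hxp : x ≠ p := fun h => hpB (h ▸ hx1.2)
            rw [swap_apply_of_ne_of_ne hxp hxb]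
            exact List.mem_toFinset.1 (hB' hx)
      have hI1 : cns q (H2 {p} (c - 1) (insert p (B.erase q)) k v +
            (if c = 0 then hop (insert p (B.erase q)) v (k - 1) else 0) +
            ∑ b ∈ B.erase q, H2 {p} (c - 1) (insert p (B.erase q)) (k - 1)
              (v.map (swap p b))) =
          cns q (H2 {p} (c - 1) (B.erase q) k v +
            H2 {p} c (insert p (B.erase q)) (k - 1) v) := by
        rw [ih v hvn (B.erase q) hpB' hv hpv hB' c k]
      have hI2 : ∑ D ∈ v.toFinset \ insert p B, cns D (H2 {p} (c - 1) (insert p B) (k - 1)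
            (v.map (swap D q)) + (if c = 0 then
              hop (insert p B) (v.map (swap D q)) (k - 1 - 1) else 0) +
            (H2 {p} (c - 1) (insert p B) (k - 1 - 1) ((v.map (swap D q)).map (swap p q)) +
            ∑ b ∈ B.erase q, H2 {p} (c - 1) (insert p B) (k - 1 - 1)
              ((v.map (swap D q)).map (swap p b)))) =
          ∑ D ∈ v.toFinset \ insert p B, cns D (H2 {p} (c - 1) B (k - 1) (v.map (swap D q)) +
            H2 {p} c (insert p B) (k - 1 - 1) (v.map (swap D q))) := by
        refine Finset.sum_congr rfl fun D hD => ?_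
        rw [Finset.mem_sdiff, Finset.mem_insert, not_or, List.mem_toFinset] at hD
        rw [Finset.add_sum_erase B (fun b => H2 {p} (c - 1) (insert p B) (k - 1 - 1)
              ((v.map (swap D q)).map (swap p b))) hqB,
          ih (v.map (swap D q)) (hmn _) B hpB (hmd _) ?_ ?_ c (k - 1)]
        · rw [mem_map_swap, swap_apply_of_ne_of_ne (Ne.symm hD.2.1) (Ne.symm hqp)]
          exact hpv
        · intro x hx
          rw [List.mem_toFinset, mem_map_swap]
          by_cases hxq : x = q
          · rw [hxq, swap_apply_right]
            exact hD.1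
          · have hxD : x ≠ D := fun h => hD.2.2 (h ▸ hx)
            rw [swap_apply_of_ne_of_ne hxD hxq]
            exact List.mem_toFinset.1 (hB' (Finset.mem_erase.2 ⟨hxq, hx⟩))
      rw [← Finset.add_sum_erase B (fun b => H2 {p} (c - 1) (insert p B) (k - 1)
          ((q :: v).map (swap p b))) hqB, eq', eb', e2,
        H2_c4 p B hpB (c - 1) k q hqB v hu hpv hB',
        H2_c5 p B hpB (c - 1) k q hqB v hu hpv hB',
        H2_c4 p B hpB c (k - 1) q hqB v hu hpv hB']
      simp only [map_add, Finset.sum_add_distrib] at hI1 hI2 ⊢
      rw [← sub_eq_zero] at hI1 hI2 ⊢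
      refine Eq.trans ?_ ((congrArg₂ (· + ·) hI1 hI2).trans (add_zero 0))
      abel
    · -- the last letter is outside `insert p B`
      have hqA : q ∉ insert p B := by
        rw [Finset.mem_insert, not_or]
        exact ⟨hqp, hqB⟩
      have hBv : B ⊆ v.toFinset := by
        intro x hx
        have h1 := hB hx
        rw [List.toFinset_cons, Finset.mem_insert] at h1
        rcases h1 with h1 | h1
        · exact absurd (h1 ▸ hx) hqB
        · exact h1
      have e2 : (if c = 0 then hop (insert p B) (q :: v) (k - 1) else 0) =
          cns q (if c = 0 then hop (insert p B) v (k - 1) else 0) := by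
        split_ifs with hc
        · rw [hop_cons, if_neg hqA, add_zero]
        · rw [map_zero]
      have e3 : ∑ b ∈ B, H2 {p} (c - 1) (insert p B) (k - 1) ((q :: v).map (swap p b)) =
          cns q (∑ b ∈ B, H2 {p} (c - 1) (insert p B) (k - 1) (v.map (swap p b))) := by
        rw [map_sum]
        refine Finset.sum_congr rfl fun b hb => ?_
        have hqb : q ≠ b := fun h => hqB (h ▸ hb)
        rw [List.map_cons, swap_apply_of_ne_of_ne hqp hqb, H2_c1 p _ _ _ _ _ ?_ hqp hqA]
        rw [List.nodup_cons]
        refine ⟨?_, hmd _⟩
        rw [mem_map_swap, swap_apply_of_ne_of_ne hqp hqb]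
        exact hqv
      rw [H2_c1 p _ _ _ _ _ hu hqp hqA, H2_c1 p _ _ _ _ _ hu hqp hqB,
        H2_c1 p _ _ _ _ _ hu hqp hqA, e2, e3, ← map_add, ← map_add, ← map_add,
        ih v hvn B hpB hv hpv hBv c k]

/-- WP1. The identity (I1).  Induction on the word (length), with the formulas WF1-WF5:
* last letter outside `A' = insert p B`: immediate;
* last letter `p`: the component at `p` is immediate; the component at `D ∉ A'`: with
  `z = u.map (swap D p)` one has `(D b)(p b) u = (p b) z` on words without `p`, and the
  component is (I1) for `z` with `m - 1`; the component at `D ∈ B`: only `b = D` contributes to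
  the sum, and both sides agree;
* last letter `q ∈ B`: the summands `b ≠ q` have last letter `q`, the summand `b = q` has last
  letter `p`; component at `q`: (I1) for `B.erase q` and `u`; component at `D ∉ A'`: (I1) for
  `z = u.map (swap D q)` and `m - 1`; component at `D ∈ B \ q` and at `p`: only `b = q`
  contributes, both sides agree. -/
theorem id_one (p : α) (B : Finset α) (hpB : p ∉ B) (u : List α) (hu : u.Nodup) (hp : p ∈ u)
    (hB : B ⊆ u.toFinset) (c k : ℤ) :
    H2 {p} (c - 1) (insert p B) k u + (if c = 0 then hop (insert p B) u (k - 1) else 0) +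
        ∑ b ∈ B, H2 {p} (c - 1) (insert p B) (k - 1) (u.map (swap p b)) =
      H2 {p} (c - 1) B k u + H2 {p} c (insert p B) (k - 1) u :=
  id_one_aux p u.length u rfl B hpB hu hp hB c k

/-- WP2a. -/
theorem Uw_of_notMem (p : α) (B : Finset α) (M c e : ℤ) (q : α) (u : List α)
    (hu : (q :: u).Nodup) (hq : q ∉ insert p B) :
    Uw p B M c e (q :: u) = cns q (Uw p B M c e u) := by
  have hqp : q ≠ p := fun h => hq (h ▸ Finset.mem_insert_self _ _)
  unfold Uw
  rw [H2_c1 p _ _ _ q u hu hqp hq, H2_c1 p _ _ _ q u hu hqp hq, map_sub]

/-- WP2b. -/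
theorem Rw_of_notMem (p : α) (B : Finset α) (M c e : ℤ) (q : α) (u : List α)
    (hu : (q :: u).Nodup) (hq : q ∉ insert p B) :
    Rw p B M c e (q :: u) = cns q (Rw p B M c e u) := by
  have hqp : q ≠ p := fun h => hq (h ▸ Finset.mem_insert_self _ _)
  have hqB : q ∉ B := fun h => hq (Finset.mem_insert_of_mem h)
  unfold Rw
  rw [H2_c1 p B _ _ q u hu hqp hqB, H2_c1 p B _ _ q u hu hqp hqB,
    H2_c1 p (insert p B) _ _ q u hu hqp hq, H2_c1 p (insert p B) _ _ q u hu hqp hq,
    map_sub, map_add, map_sub]

/-- WP3. -/
theorem Uw_p (p : α) (B : Finset α) (hpB : p ∉ B) (M c e : ℤ) (u : List α)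
    (hu : (p :: u).Nodup) (hB : B ⊆ u.toFinset) :
    Uw p B M c e (p :: u) =
      cns p ((if c = M then hop B u e else 0) - (if c = 0 then hop B u (e - M) else 0)) +
      (∑ D ∈ u.toFinset \ B, cns D (Uw p B (M - 1) (c - 1) (e - 1) (u.map (swap D p)) +
        Rw p B (M + 1) c e (u.map (swap D p)))) +
      ∑ D ∈ B, cns D (Uw p (B.erase D) M (c - 1) e (u.map (swap D p))) := by
  have hpu : p ∉ u := (List.nodup_cons.1 hu).1
  have hF : ∑ D ∈ u.toFinset \ B, cns D (Uw p B (M - 1) (c - 1) (e - 1) (u.map (swap D p)) +
        Rw p B (M + 1) c e (u.map (swap D p))) =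
      (∑ D ∈ u.toFinset \ B, cns D (H2 {p} (c - M - 1) B e (u.map (swap D p)) +
        H2 {p} (c - M) (insert p B) (e - 1) (u.map (swap D p)))) -
      ∑ D ∈ u.toFinset \ B, cns D (H2 {p} (c - 1) B (e - M) (u.map (swap D p)) +
        H2 {p} c (insert p B) (e - M - 1) (u.map (swap D p))) := by
    rw [← Finset.sum_sub_distrib]
    refine Finset.sum_congr rfl fun D _ => ?_
    rw [← map_sub]
    congr 1
    unfold Uw Rw
    rw [show c - 1 - (M - 1) = c - M by ring, show e - 1 - (M - 1) = e - M by ring,
      show c - (M + 1) = c - M - 1 by ring, show e - (M + 1) + 1 = e - M by ring,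
      show e - (M + 1) = e - M - 1 by ring]
    abel
  have hG : ∑ D ∈ B, cns D (Uw p (B.erase D) M (c - 1) e (u.map (swap D p))) =
      (∑ D ∈ B, cns D (H2 {p} (c - M - 1) (insert p B) e (u.map (swap D p)))) -
      ∑ D ∈ B, cns D (H2 {p} (c - 1) (insert p B) (e - M) (u.map (swap D p))) := by
    rw [← Finset.sum_sub_distrib]
    refine Finset.sum_congr rfl fun D hD => ?_
    rw [← map_sub]
    congr 1
    have hDz : D ∉ u.map (swap D p) := by
      intro h
      obtain ⟨y, hy, hyD⟩ := List.mem_map.1 h
      have : y = p := by
        have h2 := congrArg (swap D p) hyD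
        rwa [swap_apply_self, swap_apply_left] at h2
      exact hpu (this ▸ hy)
    have hc : ∀ k : ℤ, hop (insert p (B.erase D)) (u.map (swap D p)) k =
        hop (insert p B) (u.map (swap D p)) k := by
      intro k
      apply hop_congr
      intro x hx
      have hxD : x ≠ D := fun h => hDz (h ▸ hx)
      simp only [Finset.mem_insert, Finset.mem_erase]
      tauto
    unfold Uw H2
    rw [hc, hc, show c - 1 - M = c - M - 1 by ring]
  rw [hF, hG]
  unfold Uw
  rw [H2_c2 p B hpB _ _ u hu hB, H2_c2 p B hpB _ _ u hu hB]
  have hif : (if c - M = 0 then hop B u e else 0) = (if c = M then hop B u e else 0) := by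
    by_cases h : c = M
    · rw [if_pos (sub_eq_zero.2 h), if_pos h]
    · rw [if_neg (fun h' => h (sub_eq_zero.1 h')), if_neg h]
  rw [hif, map_sub]
  abel

/-- WP4. -/
theorem Uw_b (p : α) (B : Finset α) (hpB : p ∉ B) (M c e : ℤ) (q : α) (hq : q ∈ B) (u : List α)
    (hu : (q :: u).Nodup) (hp : p ∈ u) (hB : B.erase q ⊆ u.toFinset) :
    Uw p B M c e (q :: u) = cns q (Uw p (B.erase q) M c e u) +
      ∑ D ∈ u.toFinset \ insert p B,
        cns D (Uw p B (M - 1) (c - 1) (e - 1) (u.map (swap D q)) +
          Uw p B 1 c (e - M) (u.map (swap D q))) := by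
  unfold Uw
  rw [H2_c4 p B hpB (c - M) e q hq u hu hp hB, H2_c4 p B hpB c (e - M) q hq u hu hp hB,
    add_sub_add_comm, ← map_sub, ← Finset.sum_sub_distrib]
  congr 1
  refine Finset.sum_congr rfl fun D _ => ?_
  rw [← map_sub]
  congr 1
  have e1 : c - 1 - (M - 1) = c - M := by ring
  have e2 : e - 1 - (M - 1) = e - M := by ring
  rw [e1, e2, sub_add_sub_cancel]

/-- WP5. -/
theorem Rw_p (p : α) (B : Finset α) (hpB : p ∉ B) (M c e : ℤ) (u : List α)
    (hu : (p :: u).Nodup) (hB : B ⊆ u.toFinset) :
    Rw p B M c e (p :: u) =
      cns p ((if c = M then hop B u e else 0) - (if c = 0 then hop B u (e - M) else 0)) +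
      (∑ D ∈ u.toFinset \ B, cns D (Rw p B (M + 1) c e (u.map (swap D p)))) +
      ∑ D ∈ B, cns D (Uw p (B.erase D) M (c - 1) e (u.map (swap D p))) := by
  have hpu : p ∉ u := (List.nodup_cons.1 hu).1
  have hcg : ∀ D ∈ B, ∀ a b : ℤ, H2 {p} a (insert p (B.erase D)) b (u.map (swap D p)) =
      H2 {p} a (insert p B) b (u.map (swap D p)) := by
    intro D _ a b
    unfold H2
    rw [hop_congr (insert p (B.erase D)) (insert p B)]
    intro x hx
    have hxD : x ≠ D := by
      rintro rfl
      obtain ⟨y, hy, hyx⟩ := List.mem_map.1 hx
      have : y = p := by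
        have h := congrArg (swap x p) hyx
        simpa using h
      exact hpu (this ▸ hy)
    simp only [Finset.mem_insert, Finset.mem_erase]
    tauto
  have hR : ∀ z : List α, Rw p B (M + 1) c e z =
      H2 {p} (c - M - 1) B e z - H2 {p} (c - 1) B (e - M) z +
        H2 {p} (c - 1) (insert p B) (e - M) z - H2 {p} c (insert p B) (e - M - 1) z := by
    intro z
    unfold Rw
    rw [show e - (M + 1) + 1 = e - M by ring, show e - (M + 1) = e - M - 1 by ring,
      show c - (M + 1) = c - M - 1 by ring]
  have hU : ∀ D ∈ B, cns D (Uw p (B.erase D) M (c - 1) e (u.map (swap D p))) =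
      cns D (H2 {p} (c - M - 1) (insert p B) e (u.map (swap D p)) -
        H2 {p} (c - 1) (insert p B) (e - M) (u.map (swap D p))) := by
    intro D hD
    unfold Uw
    rw [hcg D hD, hcg D hD, show c - 1 - M = c - M - 1 by ring]
  rw [Finset.sum_congr rfl hU]
  simp only [hR]
  unfold Rw
  rw [H2_c3 p B hpB (c - M) e u hu hB, H2_c3 p B hpB (c - 1) (e - M + 1) u hu hB,
    H2_c2 p B hpB (c - 1) (e - M + 1) u hu hB, H2_c2 p B hpB c (e - M) u hu hB,
    show e - M + 1 - 1 = e - M by ring]
  have h0 : (if c - M = 0 then hop B u e else 0) = if c = M then hop B u e else 0 := by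
    simp only [sub_eq_zero]
  rw [h0]
  simp only [map_sub, map_add, Finset.sum_add_distrib, Finset.sum_sub_distrib]
  abel

/-- WP6. (Uses `id_one` twice, for `z = u.map (swap D q)`: with `(c, k) = (c, e - M)` and
`(c - 1, e - M + 1)`; the word `z.map (swap p q)` is the summand `b = q`.) -/
theorem Rw_b (p : α) (B : Finset α) (hpB : p ∉ B) (M c e : ℤ) (q : α) (hq : q ∈ B) (u : List α)
    (hu : (q :: u).Nodup) (hp : p ∈ u) (hB : B.erase q ⊆ u.toFinset) :
    Rw p B M c e (q :: u) =
      cns q (Rw p (B.erase q) M c e u + Uw p (B.erase q) (M - 1) (c - 2) (e - 1) u) +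
      (∑ D ∈ u.toFinset \ insert p B,
        cns D (Rw p B (M - 1) (c - 1) (e - 1) (u.map (swap D q)) +
          Rw p B M (c - 1) (e - 1) ((u.map (swap D q)).map (swap p q)) +
          (if c = 1 then hop (insert p B) (u.map (swap D q)) (e - M) else 0) -
          (if c = 0 then hop (insert p B) (u.map (swap D q)) (e - M - 1) else 0) +
          ∑ b ∈ B.erase q, Uw p B 1 (c - 1) (e - M) ((u.map (swap D q)).map (swap p b)))) +
      (∑ D ∈ B.erase q, cns D (Uw p (B.erase D) (M - 1) (c - 2) (e - 1)
        ((u.map (swap D q)).map (swap p q)))) +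
      cns p ((if c = M then hop B (u.map (swap p q)) (e - 1) else 0) -
        (if c = 1 then hop B (u.map (swap p q)) (e - M) else 0)) := by
  have hqp : q ≠ p := fun h => hpB (h ▸ hq)
  have hqu : q ∉ u := (List.nodup_cons.1 hu).1
  have hun : u.Nodup := (List.nodup_cons.1 hu).2
  have key : ∀ D ∈ u.toFinset \ insert p B,
      Rw p B (M - 1) (c - 1) (e - 1) (u.map (swap D q)) +
          Rw p B M (c - 1) (e - 1) ((u.map (swap D q)).map (swap p q)) +
          (if c = 1 then hop (insert p B) (u.map (swap D q)) (e - M) else 0) -
          (if c = 0 then hop (insert p B) (u.map (swap D q)) (e - M - 1) else 0) +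
          ∑ b ∈ B.erase q, Uw p B 1 (c - 1) (e - M) ((u.map (swap D q)).map (swap p b)) =
      (H2 {p} (c - M) B (e - 1) (u.map (swap D q)) +
          H2 {p} (c - M - 1) B (e - 1) ((u.map (swap D q)).map (swap p q))) -
        (H2 {p} (c - 1) B (e - M + 1 - 1) (u.map (swap D q)) +
          H2 {p} (c - 1 - 1) B (e - M + 1 - 1) ((u.map (swap D q)).map (swap p q))) +
        H2 {p} (c - 1) (insert p B) (e - M + 1 - 1) (u.map (swap D q)) -
        H2 {p} c (insert p B) (e - M - 1) (u.map (swap D q)) := by
    intro D hD
    obtain ⟨hDu, hDA⟩ := Finset.mem_sdiff.1 hD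
    rw [List.mem_toFinset] at hDu
    have hDp : D ≠ p := fun h => hDA (h ▸ Finset.mem_insert_self p B)
    have hDB : D ∉ B := fun h => hDA (Finset.mem_insert_of_mem h)
    have hzn : (u.map (swap D q)).Nodup := hun.map (swap D q).injective
    have hpz : p ∈ u.map (swap D q) :=
      List.mem_map.2 ⟨p, hp, swap_apply_of_ne_of_ne hDp.symm hqp.symm⟩
    have hBz : B ⊆ (u.map (swap D q)).toFinset := by
      intro x hx
      rw [List.mem_toFinset, List.mem_map]
      by_cases hxq : x = q
      · subst hxq
        exact ⟨D, hDu, swap_apply_left _ _⟩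
      · have hxu : x ∈ u := List.mem_toFinset.1 (hB (Finset.mem_erase.2 ⟨hxq, hx⟩))
        have hxD : x ≠ D := fun h => hDB (h ▸ hx)
        exact ⟨x, hxu, swap_apply_of_ne_of_ne hxD hxq⟩
    generalize u.map (swap D q) = z at hzn hpz hBz ⊢
    have e1 := id_one p B hpB z hzn hpz hBz c (e - M)
    have e2 := id_one p B hpB z hzn hpz hBz (c - 1) (e - M + 1)
    rw [← Finset.add_sum_erase B _ hq] at e1 e2
    unfold Uw Rw
    rw [Finset.sum_sub_distrib]
    have i1 : c - 1 - (M - 1) = c - M := by ring
    have i2 : c - 1 - 1 = c - 2 := by ring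
    have i4 : e - 1 - (M - 1) = e - M := by ring
    have i5 : c - 1 - M = c - M - 1 := by ring
    have i7 : e - 1 - M = e - M - 1 := by ring
    have i8 : e - M + 1 - 1 = e - M := by ring
    have i9 : (c - 1 = 0) = (c = 1) := by
      apply propext
      constructor <;> intro h <;> linarith
    simp only [i1, i2, i4, i5, i7, i8, i9] at e1 e2 ⊢
    linear_combination (norm := abel_nf) e2 - e1
  rw [Finset.sum_congr rfl fun D hD => congrArg (cns D) (key D hD)]
  unfold Rw Uw
  rw [H2_c5 p B hpB _ _ q hq u hu hp hB, H2_c5 p B hpB _ _ q hq u hu hp hB,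
    H2_c4 p B hpB _ _ q hq u hu hp hB, H2_c4 p B hpB _ _ q hq u hu hp hB]
  simp only [map_add, map_sub, Finset.sum_add_distrib, Finset.sum_sub_distrib]
  have i1 : c - 1 - 1 = c - 2 := by ring
  have i2 : c - 2 - (M - 1) = c - M - 1 := by ring
  have i3 : e - 1 - (M - 1) = e - M := by ring
  have i4 : e - M + 1 - 1 = e - M := by ring
  have i5 : (c - 1 = 0) = (c = 1) := by
    apply propext
    constructor <;> intro h <;> linarith
  have i6 : (c - M = 0) = (c = M) := by
    apply propext
    constructor <;> intro h <;> linarith
  simp only [i1, i2, i3, i4, i5, i6]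
  abel

private lemma mem_ms (a b x : α) (u : List α) : x ∈ u.map (swap a b) ↔ swap a b x ∈ u := by
  constructor
  · intro h
    obtain ⟨y, hy, rfl⟩ := List.mem_map.1 h
    simpa using hy
  · intro h
    exact List.mem_map.2 ⟨_, h, by simp⟩

private lemma mem_ms_ne (a b x : α) (u : List α) (h1 : x ≠ a) (h2 : x ≠ b) :
    x ∈ u.map (swap a b) ↔ x ∈ u := by
  rw [mem_ms, swap_apply_of_ne_of_ne h1 h2]

private lemma WN_ite (P : Prop) [Decidable P] (z : Wd α) (hz : WN z) :
    WN (if P then z else 0) := by
  split_ifs
  · exact hz
  · exact WN.zero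

private lemma hop_ite_zero (P : Prop) [Decidable P] (S : Finset α) (u : List α) (k : ℤ)
    (h : P → k < 0) : (if P then hop S u k else 0) = 0 := by
  split_ifs with hP
  · exact hop_neg _ _ _ (h hP)
  · rfl

/-- WP7. **Positivity.** Induction on the length of the word, for all `B, M, c, e` at once.
`M ≥ 1`, `c - e ≥ |B|`.  For `Rw` with `M = 1` use `Rw_one`; for `Uw _ _ 0` use `Uw_zero`. The
terms with a minus sign vanish by `hop_neg`. -/
theorem WN_Uw_Rw (n : ℕ) : ∀ (u : List α), u.length = n → u.Nodup → ∀ (p : α) (B : Finset α),
    p ∈ u → p ∉ B → B ⊆ u.toFinset → ∀ (M c e : ℤ), 1 ≤ M → (B.card : ℤ) ≤ c - e →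
      WN (Uw p B M c e u) ∧ WN (Rw p B M c e u) := by
  induction n with
  | zero =>
    intro u hu _ p B hp
    rw [List.length_eq_zero_iff] at hu
    subst hu
    simp at hp
  | succ n ih =>
    intro v hv hnd p B hp hpB hB M c e hM hc
    obtain ⟨q, u, rfl⟩ : ∃ q u, v = q :: u := by
      cases v with
      | nil => simp at hv
      | cons q u => exact ⟨q, u, rfl⟩
    have hlen : u.length = n := by simpa using hv
    have hqu : q ∉ u := (List.nodup_cons.1 hnd).1
    have hun : u.Nodup := (List.nodup_cons.1 hnd).2
    have hU : ∀ (w : List α) (B' : Finset α) (M' c' e' : ℤ), w.length = n → w.Nodup → p ∈ w →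
        p ∉ B' → (∀ x ∈ B', x ∈ w) → 0 ≤ M' → (B'.card : ℤ) ≤ c' - e' →
          WN (Uw p B' M' c' e' w) := by
      intro w B' M' c' e' h1 h2 h3 h4 h5 h6 h7
      rcases eq_or_lt_of_le h6 with h | h
      · rw [← h, Uw_zero]
        exact WN.zero
      · exact (ih w h1 h2 p B' h3 h4 (fun x hx => List.mem_toFinset.2 (h5 x hx)) M' c' e'
          (by omega) h7).1
    have hR : ∀ (w : List α) (B' : Finset α) (M' c' e' : ℤ), w.length = n → w.Nodup → p ∈ w →
        p ∉ B' → (∀ x ∈ B', x ∈ w) → 1 ≤ M' → (B'.card : ℤ) ≤ c' - e' →
          WN (Rw p B' M' c' e' w) := by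
      intro w B' M' c' e' h1 h2 h3 h4 h5 h6 h7
      exact (ih w h1 h2 p B' h3 h4 (fun x hx => List.mem_toFinset.2 (h5 x hx)) M' c' e' h6 h7).2
    have hB' : ∀ x ∈ B, x = q ∨ x ∈ u := by
      intro x hx
      have := hB hx
      simpa using this
    have hp' : p = q ∨ p ∈ u := by simpa using hp
    have hcard : (0 : ℤ) ≤ (B.card : ℤ) := Nat.cast_nonneg _
    have hnm : ∀ (a b : α) (w : List α), w.Nodup → (w.map (swap a b)).Nodup :=
      fun a b w hw => hw.map (swap a b).injective
    by_cases hqp : q = p
    · -- the last letter is `p`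
      subst hqp
      have hBu : ∀ x ∈ B, x ∈ u := by
        intro x hx
        rcases hB' x hx with h | h
        · exact absurd (h ▸ hx) hpB
        · exact h
      have hBs : B ⊆ u.toFinset := fun x hx => List.mem_toFinset.2 (hBu x hx)
      have hz1 : (if c = 0 then hop B u (e - M) else 0) = 0 :=
        hop_ite_zero _ _ _ _ (by intro h; omega)
      have hfirst : WN (cns q ((if c = M then hop B u e else 0) -
          (if c = 0 then hop B u (e - M) else 0))) := by
        rw [hz1, sub_zero]
        exact WN.cns (WN_ite _ _ (WN_hop _ _ _)) q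
      have hlast : WN (∑ D ∈ B, cns D (Uw q (B.erase D) M (c - 1) e (u.map (swap D q)))) := by
        apply WN.sum
        intro D hD
        apply WN.cns
        apply hU
        · simpa using hlen
        · exact hnm _ _ _ hun
        · rw [mem_ms, swap_apply_right]
          exact hBu D hD
        · intro h
          exact hpB (Finset.mem_of_mem_erase h)
        · intro x hx
          have h1 := Finset.mem_erase.1 hx
          rw [mem_ms_ne _ _ _ _ h1.1 (fun h : x = q => hpB (h ▸ h1.2))]
          exact hBu x h1.2
        · omega
        · rw [Finset.card_erase_of_mem hD]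
          have : 0 < B.card := Finset.card_pos.2 ⟨D, hD⟩
          push_cast [Nat.cast_sub (Nat.succ_le_of_lt this)]
          omega
      have hw : ∀ D ∈ u.toFinset \ B, (u.map (swap D q)).length = n ∧
          (u.map (swap D q)).Nodup ∧ q ∈ u.map (swap D q) ∧
          ∀ x ∈ B, x ∈ u.map (swap D q) := by
        intro D hD
        obtain ⟨h1, h2⟩ := Finset.mem_sdiff.1 hD
        refine ⟨by simpa using hlen, hnm _ _ _ hun, ?_, ?_⟩
        · rw [mem_ms, swap_apply_right]
          exact List.mem_toFinset.1 h1
        · intro x hx
          rw [mem_ms_ne _ _ _ _ (fun h : x = D => h2 (h ▸ hx)) (fun h : x = q => hpB (h ▸ hx))]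
          exact hBu x hx
      constructor
      · rw [Uw_p q B hpB M c e u hnd hBs]
        refine WN.add (WN.add hfirst ?_) hlast
        apply WN.sum
        intro D hD
        obtain ⟨h1, h2, h3, h4⟩ := hw D hD
        apply WN.cns
        apply WN.add
        · exact hU _ _ _ _ _ h1 h2 h3 hpB h4 (by omega) (by omega)
        · exact hR _ _ _ _ _ h1 h2 h3 hpB h4 (by omega) hc
      · rw [Rw_p q B hpB M c e u hnd hBs]
        refine WN.add (WN.add hfirst ?_) hlast
        apply WN.sum
        intro D hD
        obtain ⟨h1, h2, h3, h4⟩ := hw D hD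
        apply WN.cns
        exact hR _ _ _ _ _ h1 h2 h3 hpB h4 (by omega) hc
    · have hpu : p ∈ u := by
        rcases hp' with h | h
        · exact absurd h.symm hqp
        · exact h
      by_cases hqB : q ∈ B
      · -- the last letter is in `B`
        have hBe : ∀ x ∈ B.erase q, x ∈ u := by
          intro x hx
          have h1 := Finset.mem_erase.1 hx
          rcases hB' x h1.2 with h | h
          · exact absurd h h1.1
          · exact h
        have hBs : B.erase q ⊆ u.toFinset := fun x hx => List.mem_toFinset.2 (hBe x hx)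
        have hpos : 0 < B.card := Finset.card_pos.2 ⟨q, hqB⟩
        have hce : ((B.erase q).card : ℤ) = (B.card : ℤ) - 1 := by
          rw [Finset.card_erase_of_mem hqB, Nat.cast_sub (Nat.succ_le_of_lt hpos)]
          simp
        have hpe : p ∉ B.erase q := fun h => hpB (Finset.mem_of_mem_erase h)
        have hw : ∀ D ∈ u.toFinset \ insert p B, (u.map (swap D q)).length = n ∧
            (u.map (swap D q)).Nodup ∧ p ∈ u.map (swap D q) ∧
            ∀ x ∈ B, x ∈ u.map (swap D q) := by
          intro D hD
          obtain ⟨h1, h2⟩ := Finset.mem_sdiff.1 hD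
          have h3 : D ≠ p := fun h => h2 (h ▸ Finset.mem_insert_self p B)
          have h4 : D ∉ B := fun h => h2 (Finset.mem_insert_of_mem h)
          refine ⟨by simpa using hlen, hnm _ _ _ hun, ?_, ?_⟩
          · rw [mem_ms_ne _ _ _ _ (Ne.symm h3) (Ne.symm hqp)]
            exact hpu
          · intro x hx
            by_cases hxq : x = q
            · subst hxq
              rw [mem_ms, swap_apply_right]
              exact List.mem_toFinset.1 h1
            · rw [mem_ms_ne _ _ _ _ (fun h : x = D => h4 (h ▸ hx)) hxq]
              exact hBe x (Finset.mem_erase.2 ⟨hxq, hx⟩)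
        have hUU : WN (Uw p B M c e (q :: u)) := by
          rw [Uw_b p B hpB M c e q hqB u hnd hpu hBs]
          apply WN.add
          · apply WN.cns
            exact hU _ _ _ _ _ hlen hun hpu hpe hBe (by omega) (by omega)
          · apply WN.sum
            intro D hD
            obtain ⟨h1, h2, h3, h4⟩ := hw D hD
            apply WN.cns
            apply WN.add
            · exact hU _ _ _ _ _ h1 h2 h3 hpB h4 (by omega) (by omega)
            · exact hU _ _ _ _ _ h1 h2 h3 hpB h4 (by omega) (by omega)
        refine ⟨hUU, ?_⟩
        rcases eq_or_lt_of_le hM with hM1 | hM1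
        · rw [← hM1, Rw_one, hM1]
          exact hUU
        · -- exchanging `p` with a letter of the word
          have hsw : ∀ (w : List α) (b : α), b ∈ B → w.length = n → w.Nodup → p ∈ w →
              (∀ x ∈ B, x ∈ w) → (w.map (swap p b)).length = n ∧ (w.map (swap p b)).Nodup ∧
              p ∈ w.map (swap p b) ∧ ∀ x ∈ B, x ∈ w.map (swap p b) := by
            intro w b hb h1 h2 h3 h4
            refine ⟨by simpa using h1, hnm _ _ _ h2, ?_, ?_⟩
            · rw [mem_ms, swap_apply_left]
              exact h4 b hb
            · intro x hx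
              by_cases hxb : x = b
              · subst hxb
                rw [mem_ms, swap_apply_right]
                exact h3
              · rw [mem_ms_ne _ _ _ _ (fun h : x = p => hpB (h ▸ hx)) hxb]
                exact h4 x hx
          rw [Rw_b p B hpB M c e q hqB u hnd hpu hBs]
          refine WN.add (WN.add (WN.add ?_ ?_) ?_) ?_
          · apply WN.cns
            apply WN.add
            · exact hR _ _ _ _ _ hlen hun hpu hpe hBe (by omega) (by omega)
            · exact hU _ _ _ _ _ hlen hun hpu hpe hBe (by omega) (by omega)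
          · apply WN.sum
            intro D hD
            obtain ⟨h1, h2, h3, h4⟩ := hw D hD
            obtain ⟨g1, g2, g3, g4⟩ := hsw _ q hqB h1 h2 h3 h4
            apply WN.cns
            have hz : (if c = 0 then hop (insert p B) (u.map (swap D q)) (e - M - 1) else 0) = 0 :=
              hop_ite_zero _ _ _ _ (by intro h; omega)
            rw [hz, sub_zero]
            refine WN.add (WN.add (WN.add ?_ ?_) ?_) ?_
            · exact hR _ _ _ _ _ h1 h2 h3 hpB h4 (by omega) (by omega)
            · exact hR _ _ _ _ _ g1 g2 g3 hpB g4 (by omega) (by omega)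
            · exact WN_ite _ _ (WN_hop _ _ _)
            · apply WN.sum
              intro b hb
              obtain ⟨k1, k2, k3, k4⟩ := hsw _ b (Finset.mem_of_mem_erase hb) h1 h2 h3 h4
              exact hU _ _ _ _ _ k1 k2 k3 hpB k4 (by omega) (by omega)
          · apply WN.sum
            intro D hD
            have hD' := Finset.mem_erase.1 hD
            have hDu : D ∈ u := hBe D hD
            have hDp : D ≠ p := fun h => hpB (h ▸ hD'.2)
            apply WN.cns
            apply hU
            · simpa using hlen
            · exact hnm _ _ _ (hnm _ _ _ hun)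
            · rw [mem_ms, swap_apply_left, mem_ms, swap_apply_right]
              exact hDu
            · exact fun h => hpB (Finset.mem_of_mem_erase h)
            · intro x hx
              have hx' := Finset.mem_erase.1 hx
              have hxp : x ≠ p := fun h => hpB (h ▸ hx'.2)
              by_cases hxq : x = q
              · subst hxq
                rw [mem_ms, swap_apply_right, mem_ms_ne _ _ _ _ (Ne.symm hDp) (Ne.symm hqp)]
                exact hpu
              · rw [mem_ms_ne _ _ _ _ hxp hxq, mem_ms_ne _ _ _ _ hx'.1 hxq]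
                exact hBe x (Finset.mem_erase.2 ⟨hxq, hx'.2⟩)
            · omega
            · have : ((B.erase D).card : ℤ) = (B.card : ℤ) - 1 := by
                rw [Finset.card_erase_of_mem hD'.2, Nat.cast_sub (Nat.succ_le_of_lt hpos)]
                simp
              omega
          · have hz : (if c = 1 then hop B (u.map (swap p q)) (e - M) else 0) = 0 :=
              hop_ite_zero _ _ _ _ (by intro h; omega)
            rw [hz, sub_zero]
            exact WN.cns (WN_ite _ _ (WN_hop _ _ _)) p
      · -- the last letter is not in `insert p B`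
        have hq : q ∉ insert p B := by
          rw [Finset.mem_insert]
          push Not
          exact ⟨hqp, hqB⟩
        have hBu : ∀ x ∈ B, x ∈ u := by
          intro x hx
          rcases hB' x hx with h | h
          · exact absurd (h ▸ hx) hqB
          · exact h
        constructor
        · rw [Uw_of_notMem p B M c e q u hnd hq]
          exact WN.cns (hU _ _ _ _ _ hlen hun hpu hpB hBu (by omega) hc) q
        · rw [Rw_of_notMem p B M c e q u hnd hq]
          exact WN.cns (hR _ _ _ _ _ hlen hun hpu hpB hBu hM hc) q

end H45C
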