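import Mathlib

/-!
# Sweeps on words (pieces WO1-WO6)

A word is a list of letters whose head is the LAST letter of the word (the rightmost position).
A sweep: some letters of the set `S` jump to the left onto letters outside `S` (the two letters
are exchanged), the starting positions going from right to left.
-/

set_option linter.unusedSectionVars false

namespace H45C

open Equiv

variable {α : Type*} [DecidableEq α]

/-- linear combinations of words -/
abbrev Wd (α : Type*) := List α →₀ ℤ

/-- a word as an element of `Wd α` -/
noncomputable def wd (u : List α) : Wd α := Finsupp.single u 1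

/-- put the letter `q` at the end (head) of every word -/
noncomputable def cns (q : α) : Wd α →ₗ[ℤ] Wd α := Finsupp.lmapDomain ℤ ℤ (List.cons q)

/-- relabel the letters -/
noncomputable def rl (g : Perm α) : Wd α →ₗ[ℤ] Wd α := Finsupp.lmapDomain ℤ ℤ (List.map g)

theorem cns_wd (q : α) (u : List α) : cns q (wd u) = wd (q :: u) := by
  simp [cns, wd, Finsupp.lmapDomain_apply, Finsupp.mapDomain_single]

theorem rl_wd (g : Perm α) (u : List α) : rl g (wd u) = wd (u.map g) := by
  simp [rl, wd, Finsupp.lmapDomain_apply, Finsupp.mapDomain_single]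

theorem rl_cns (g : Perm α) (q : α) (z : Wd α) : rl g (cns q z) = cns (g q) (rl g z) := by
  have h1 : (List.map g ∘ List.cons q) = (List.cons (g q) ∘ List.map g) := by
    funext u
    simp
  simp only [rl, cns, Finsupp.lmapDomain_apply, ← Finsupp.mapDomain_comp, h1]

theorem rl_rl (g h : Perm α) (z : Wd α) : rl g (rl h z) = rl (g * h) z := by
  have h1 : (List.map g ∘ List.map h) = List.map (g * h : Perm α) := by
    funext u
    simp [Perm.coe_mul]
  simp only [rl, Finsupp.lmapDomain_apply, ← Finsupp.mapDomain_comp, h1]

/-- the sweep with `k` jumps of letters of `S` -/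
noncomputable def hop (S : Finset α) : List α → ℤ → Wd α
  | [], k => if k = 0 then wd [] else 0
  | q :: u, k => cns q (hop S u k) +
      if q ∈ S then ∑ D ∈ u.toFinset \ S, cns D (hop S (u.map (swap D q)) (k - 1)) else 0
termination_by u => u.length
decreasing_by all_goals simp

theorem hop_nil (S : Finset α) (k : ℤ) : hop S [] k = if k = 0 then wd [] else 0 := by
  rw [hop]

theorem hop_cons (S : Finset α) (q : α) (u : List α) (k : ℤ) :
    hop S (q :: u) k = cns q (hop S u k) +
      if q ∈ S then ∑ D ∈ u.toFinset \ S, cns D (hop S (u.map (swap D q)) (k - 1)) else 0 := by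
  rw [hop]

/-- the sweep operator -/
noncomputable def Hop (S : Finset α) (k : ℤ) : Wd α →ₗ[ℤ] Wd α :=
  Finsupp.linearCombination ℤ fun u => hop S u k

theorem Hop_wd (S : Finset α) (k : ℤ) (u : List α) : Hop S k (wd u) = hop S u k := by
  simp [Hop, wd]

theorem ext_wd {M : Type*} [AddCommGroup M] (f g : Wd α →ₗ[ℤ] M)
    (h : ∀ u, f (wd u) = g (wd u)) : f = g :=
  Finsupp.lhom_ext' fun x => LinearMap.ext_ring (h x)

/-- nonnegative combinations of words -/
def WN (z : Wd α) : Prop := ∀ u, 0 ≤ z u

theorem WN.zero : WN (0 : Wd α) := fun _ => le_rfl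

theorem WN.add {y z : Wd α} (hy : WN y) (hz : WN z) : WN (y + z) := fun x => by
  simpa using add_nonneg (hy x) (hz x)

theorem WN.sum {ι : Type*} (s : Finset ι) (f : ι → Wd α) (h : ∀ i ∈ s, WN (f i)) :
    WN (∑ i ∈ s, f i) := fun x => by
  rw [Finsupp.finsetSum_apply]
  exact Finset.sum_nonneg fun i hi => h i hi x

theorem WN.wd (u : List α) : WN (wd u) := fun y => by
  unfold H45C.wd
  rw [Finsupp.single_apply]
  split_ifs <;> norm_num

theorem WN.cns {z : Wd α} (hz : WN z) (q : α) : WN (cns q z) := fun u => by
  unfold H45C.cns
  rw [Finsupp.lmapDomain_apply, Finsupp.mapDomain, Finsupp.sum_apply, Finsupp.sum]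
  apply Finset.sum_nonneg
  intro a _
  rw [Finsupp.single_apply]
  split_ifs
  · exact hz a
  · exact le_rfl

/-- WO1. sweeps with a negative number of jumps vanish -/
theorem hop_neg (S : Finset α) (u : List α) (k : ℤ) (hk : k < 0) : hop S u k = 0 := by
  induction hn : u.length using Nat.strong_induction_on generalizing u k with
  | _ n ih =>
    cases u with
    | nil => rw [hop_nil, if_neg hk.ne]
    | cons q u =>
      have h1 : hop S u k = 0 := ih u.length (by subst hn; simp) u k hk rfl
      rw [hop_cons, h1, map_zero, zero_add]
      split_ifs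
      · refine Finset.sum_eq_zero fun D _ => ?_
        rw [ih (u.map (swap D q)).length (by subst hn; simp) _ _ (by omega) rfl, map_zero]
      · rfl

/-- WO2. sweeps are nonnegative -/
theorem WN_hop (S : Finset α) (u : List α) (k : ℤ) : WN (hop S u k) := by
  induction hn : u.length using Nat.strong_induction_on generalizing u k with
  | _ n ih =>
    cases u with
    | nil =>
      rw [hop_nil]
      split_ifs
      · exact WN.wd _
      · exact WN.zero
    | cons q u =>
      rw [hop_cons]
      refine WN.add ((ih u.length (by subst hn; simp) u k rfl).cns q) ?_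
      split_ifs
      · exact WN.sum _ _ fun D _ =>
          (ih (u.map (swap D q)).length (by subst hn; simp) _ _ rfl).cns D
      · exact WN.zero

/-- WO3. a sweep depends only on the letters of `S` that occur in the word -/
theorem hop_congr (S S' : Finset α) (u : List α) (k : ℤ) (h : ∀ x ∈ u, x ∈ S ↔ x ∈ S') :
    hop S u k = hop S' u k := by
  induction hn : u.length using Nat.strong_induction_on generalizing u k with
  | _ n ih =>
    cases u with
    | nil => rw [hop_nil, hop_nil]
    | cons q u =>
      have hq : q ∈ S ↔ q ∈ S' := h q (by simp)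
      have hu : ∀ x ∈ u, x ∈ S ↔ x ∈ S' := fun x hx => h x (List.mem_cons_of_mem _ hx)
      rw [hop_cons, hop_cons, ih u.length (by subst hn; simp) u k hu rfl]
      congr 1
      by_cases hqS : q ∈ S
      · rw [if_pos hqS, if_pos (hq.1 hqS)]
        have e : u.toFinset \ S = u.toFinset \ S' := by
          ext x
          simp only [Finset.mem_sdiff, List.mem_toFinset]
          constructor
          · rintro ⟨h1, h2⟩
            exact ⟨h1, fun h3 => h2 ((hu x h1).2 h3)⟩
          · rintro ⟨h1, h2⟩
            exact ⟨h1, fun h3 => h2 ((hu x h1).1 h3)⟩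
        rw [← e]
        refine Finset.sum_congr rfl fun D hD => ?_
        have hDu : D ∈ u := List.mem_toFinset.1 (Finset.mem_sdiff.1 hD).1
        rw [ih (u.map (swap D q)).length (by subst hn; simp) (u.map (swap D q)) (k - 1) ?_ rfl]
        intro x hx
        rw [List.mem_map] at hx
        obtain ⟨y, hy, rfl⟩ := hx
        by_cases h1 : y = D
        · rw [h1, swap_apply_left]
          exact hq
        · by_cases h2 : y = q
          · rw [h2, swap_apply_right]
            exact hu D hDu
          · rw [swap_apply_of_ne_of_ne h1 h2]
            exact hu y hy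
      · rw [if_neg hqS, if_neg (fun h3 => hqS (hq.2 h3))]

/-- WO4. equivariance -/
theorem rl_hop (g : Perm α) (S : Finset α) (u : List α) (k : ℤ) :
    rl g (hop S u k) = hop (S.map g.toEmbedding) (u.map g) k := by
  induction hn : u.length using Nat.strong_induction_on generalizing u k with
  | _ n ih =>
    cases u with
    | nil =>
      rw [List.map_nil, hop_nil, hop_nil]
      split_ifs
      · rw [rl_wd, List.map_nil]
      · rw [map_zero]
    | cons q u =>
      have hlen : u.length < n := by
        rw [← hn, List.length_cons]
        exact Nat.lt_succ_self _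
      have hq : (g q ∈ S.map g.toEmbedding) ↔ q ∈ S := by simp
      have e1 : (u.map g).toFinset \ S.map g.toEmbedding =
          (u.toFinset \ S).map g.toEmbedding := by
        ext x
        simp only [Finset.mem_sdiff, List.mem_toFinset, List.mem_map, Finset.mem_map,
          Equiv.coe_toEmbedding]
        constructor
        · rintro ⟨⟨y, hy, rfl⟩, h2⟩
          exact ⟨y, ⟨hy, fun h => h2 ⟨y, h, rfl⟩⟩, rfl⟩
        · rintro ⟨y, ⟨hy, h2⟩, rfl⟩
          refine ⟨⟨y, hy, rfl⟩, ?_⟩
          rintro ⟨z, hz, h3⟩
          exact h2 (g.injective h3 ▸ hz)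
      rw [List.map_cons, hop_cons, hop_cons, map_add, rl_cns, ih _ hlen u k rfl]
      congr 1
      by_cases h : q ∈ S
      · rw [if_pos h, if_pos (hq.mpr h), e1, Finset.sum_map, map_sum]
        refine Finset.sum_congr rfl fun D _ => ?_
        rw [rl_cns, ih _ hlen (u.map (swap D q)) (k - 1) (by simp)]
        congr 2
        rw [List.map_map, List.map_map]
        refine List.map_congr_left fun x _ => ?_
        simp only [Function.comp_apply, Equiv.coe_toEmbedding]
        have h5 := congrArg (fun e : Perm α => e (g x)) (Equiv.swap_apply_apply g D q)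
        simpa [Perm.mul_apply] using h5.symm
      · rw [if_neg h, if_neg (fun h' => h (hq.mp h')), map_zero]

/-- WO5. a sweep without active letters -/
theorem hop_of_disjoint (S : Finset α) (u : List α) (k : ℤ) (h : ∀ x ∈ u, x ∉ S) :
    hop S u k = if k = 0 then wd u else 0 := by
  induction u with
  | nil => exact hop_nil S k
  | cons q u ih =>
    rw [hop_cons, if_neg (h q List.mem_cons_self), add_zero,
      ih fun x hx => h x (List.mem_cons_of_mem q hx)]
    split_ifs
    · rw [cns_wd]
    · rw [map_zero]

/-- the span of the duplicate-free words with letter set `X` -/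
noncomputable def WS (X : Finset α) : Submodule ℤ (Wd α) :=
  Submodule.span ℤ (wd '' {u : List α | u.Nodup ∧ u.toFinset = X})

private theorem Words_cns_mem {X : Finset α} {q : α} (hq : q ∉ X) {z : Wd α} (hz : z ∈ WS X) :
    cns q z ∈ WS (insert q X) := by
  unfold WS at hz
  induction hz using Submodule.span_induction with
  | mem z hz =>
    obtain ⟨u, ⟨hu1, hu2⟩, rfl⟩ := hz
    rw [cns_wd]
    refine Submodule.subset_span ⟨q :: u, ⟨List.nodup_cons.2 ⟨fun h => hq ?_, hu1⟩, ?_⟩, rfl⟩
    · rw [← hu2]
      exact List.mem_toFinset.2 h
    · rw [List.toFinset_cons, hu2]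
  | zero =>
    rw [map_zero]
    exact Submodule.zero_mem _
  | add y z _ _ hy hz =>
    rw [map_add]
    exact Submodule.add_mem _ hy hz
  | smul a z _ hz =>
    rw [map_smul]
    exact Submodule.smul_mem _ a hz

/-- WO6a. sweeps preserve the letters -/
theorem hop_mem (S : Finset α) (u : List α) (hu : u.Nodup) (k : ℤ) :
    hop S u k ∈ WS u.toFinset := by
  have key : ∀ n : ℕ, ∀ u : List α, u.length = n → u.Nodup → ∀ k : ℤ,
      hop S u k ∈ WS u.toFinset := by
    intro n
    induction n with
    | zero =>
      intro u hn _ k
      rw [List.length_eq_zero_iff] at hn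
      subst hn
      rw [hop_nil]
      split_ifs
      · exact Submodule.subset_span ⟨[], ⟨List.nodup_nil, rfl⟩, rfl⟩
      · exact Submodule.zero_mem _
    | succ n ih =>
      intro u hn hu k
      rcases u with _ | ⟨q, u⟩
      · simp at hn
      · rw [List.length_cons, Nat.add_right_cancel_iff] at hn
        obtain ⟨hq, hu'⟩ := List.nodup_cons.1 hu
        have hqX : q ∉ u.toFinset := fun h => hq (List.mem_toFinset.1 h)
        rw [hop_cons, List.toFinset_cons]
        refine Submodule.add_mem _ (Words_cns_mem hqX (ih u hn hu' k)) ?_
        split_ifs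
        · refine Submodule.sum_mem _ fun D hD => ?_
          rw [Finset.mem_sdiff, List.mem_toFinset] at hD
          have hDq : D ≠ q := fun h => hq (h ▸ hD.1)
          have h1 := ih (u.map (swap D q)) (by rw [List.length_map, hn])
            (hu'.map (swap D q).injective) (k - 1)
          have hDX : D ∉ (u.map (swap D q)).toFinset := by
            intro h
            rw [List.mem_toFinset, List.mem_map] at h
            obtain ⟨x, hx, hxD⟩ := h
            have h2 : x = q := by
              have h3 := congrArg (swap D q) hxD
              rwa [swap_apply_self, swap_apply_left] at h3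
            exact hq (h2 ▸ hx)
          have h2 := Words_cns_mem hDX h1
          have e : insert D (u.map (swap D q)).toFinset = insert q u.toFinset := by
            ext y
            simp only [Finset.mem_insert, List.mem_toFinset, List.mem_map]
            constructor
            · rintro (rfl | ⟨x, hx, rfl⟩)
              · exact Or.inr hD.1
              · rcases eq_or_ne x D with rfl | hxD
                · rw [swap_apply_left]
                  exact Or.inl rfl
                · have hxq : x ≠ q := fun h => hq (h ▸ hx)
                  rw [swap_apply_of_ne_of_ne hxD hxq]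
                  exact Or.inr hx
            · rintro (rfl | hy)
              · exact Or.inr ⟨D, hD.1, swap_apply_left _ _⟩
              · rcases eq_or_ne y D with rfl | hyD
                · exact Or.inl rfl
                · have hyq : y ≠ q := fun h => hq (h ▸ hy)
                  exact Or.inr ⟨y, hy, swap_apply_of_ne_of_ne hyD hyq⟩
          rw [e] at h2
          exact h2
        · exact Submodule.zero_mem _
  exact key u.length u rfl hu k

/-- two applications of sweeps -/
noncomputable def H2 (S₁ : Finset α) (a : ℤ) (S₂ : Finset α) (b : ℤ) (u : List α) : Wd α :=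
  Hop S₁ a (hop S₂ u b)

/-- WO6b. equivariance of `Hop` -/
theorem rl_Hop (g : Perm α) (S : Finset α) (k : ℤ) (z : Wd α) :
    rl g (Hop S k z) = Hop (S.map g.toEmbedding) k (rl g z) := by
  have h : (rl g).comp (Hop S k) = (Hop (S.map g.toEmbedding) k).comp (rl g) := by
    refine ext_wd _ _ fun u => ?_
    simp only [LinearMap.comp_apply, Hop_wd, rl_wd, rl_hop]
  exact congrArg (fun f : Wd α →ₗ[ℤ] Wd α => f z) h

/-- WO6c. `Hop` on `cns q z`, `z` a combination of words with letter set `X ∌ q` -/
theorem Hop_cns (S : Finset α) (k : ℤ) (q : α) (X : Finset α) (z : Wd α)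
    (hz : z ∈ WS X) :
    Hop S k (cns q z) = cns q (Hop S k z) +
      if q ∈ S then ∑ D ∈ X \ S, cns D (Hop S (k - 1) (rl (swap D q) z)) else 0 := by
  unfold WS at hz
  induction hz using Submodule.span_induction with
  | mem x hx =>
    obtain ⟨u, ⟨_, hu⟩, rfl⟩ := hx
    simp only [cns_wd, rl_wd, Hop_wd]
    rw [hop_cons, hu]
  | zero =>
    split_ifs
    · simp only [map_zero, Finset.sum_const_zero, add_zero]
    · simp only [map_zero, add_zero]
  | add x y _ _ ihx ihy =>
    simp only [map_add]
    rw [ihx, ihy]
    split_ifs
    · rw [Finset.sum_add_distrib]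
      abel
    · abel
  | smul a x _ ihx =>
    simp only [map_smul]
    rw [ihx, smul_add]
    split_ifs
    · rw [Finset.smul_sum]
    · rw [smul_zero]

end H45C
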